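import Pool.Agent.Lib.MP_7abaca_co.Defs

/-!
# The analytic inequality for the fractional condition

Module AI of MP_7abaca_co. All estimates use `log x ≤ x - 1`, the quadratic entropy bound
`(1+x) log(1+x) + (1-x) log(1-x) ≥ x^2` and polynomial arithmetic on four intervals for `c`.
-/

set_option autoImplicit false

namespace Pool.Agent.ST3

open Finset Filter
open scoped Classical

noncomputable section

namespace AIaux

theorem two_mul_le_log {x : ℝ} (h0 : 0 ≤ x) (h1 : x < 1) :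
    2 * x ≤ Real.log (1 + x) - Real.log (1 - x) := by
  have h := Real.sum_range_le_log_div h0 h1 1
  rw [Real.log_div (by linarith) (by linarith)] at h
  simp at h
  linarith

theorem ent_nonneg {x : ℝ} (h0 : 0 ≤ x) (h1 : x < 1) :
    x ^ 2 ≤ (1 + x) * Real.log (1 + x) + (1 - x) * Real.log (1 - x) := by
  have hd : ∀ y ∈ Set.Ioo (0 : ℝ) 1, HasDerivAt
      (fun y : ℝ => (1 + y) * Real.log (1 + y) + (1 - y) * Real.log (1 - y) - y ^ 2)
      (Real.log (1 + y) - Real.log (1 - y) - 2 * y) y := by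
    intro y hy
    have e1 : (1 : ℝ) + y ≠ 0 := by linarith [hy.1]
    have e2 : (1 : ℝ) - y ≠ 0 := by linarith [hy.2]
    have a1 : HasDerivAt (fun y : ℝ => 1 + y) 1 y := by
      simpa using (hasDerivAt_id y).const_add 1
    have a2 : HasDerivAt (fun y : ℝ => 1 - y) (-1) y := by
      simpa using (hasDerivAt_id y).const_sub 1
    have b1 := a1.mul (a1.log e1)
    have b2 := a2.mul (a2.log e2)
    have b3 := (b1.add b2).sub (hasDerivAt_pow 2 y)
    refine b3.congr_deriv ?_
    field_simp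
    ring
  have hmono : MonotoneOn
      (fun y : ℝ => (1 + y) * Real.log (1 + y) + (1 - y) * Real.log (1 - y) - y ^ 2)
      (Set.Ico 0 1) := by
    apply monotoneOn_of_deriv_nonneg (convex_Ico 0 1)
    · intro y hy
      have e1 : (1 : ℝ) + y ≠ 0 := by linarith [hy.1]
      have e2 : (1 : ℝ) - y ≠ 0 := by linarith [hy.2]
      apply ContinuousAt.continuousWithinAt
      have c1 : ContinuousAt (fun y : ℝ => 1 + y) y := by fun_prop
      have c2 : ContinuousAt (fun y : ℝ => 1 - y) y := by fun_prop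
      exact ((c1.mul (c1.log e1)).add (c2.mul (c2.log e2))).sub (by fun_prop)
    · intro y hy
      rw [interior_Ico] at hy
      exact (hd y hy).differentiableAt.differentiableWithinAt
    · intro y hy
      rw [interior_Ico] at hy
      rw [(hd y hy).deriv]
      have := two_mul_le_log hy.1.le hy.2
      linarith
  have := hmono (Set.left_mem_Ico.2 one_pos) ⟨h0, h1⟩ h0
  simp at this
  linarith

theorem ent {x : ℝ} (h0 : -1 < x) (h1 : x < 1) :
    x ^ 2 ≤ (1 + x) * Real.log (1 + x) + (1 - x) * Real.log (1 - x) := by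
  rcases le_total 0 x with h | h
  · exact ent_nonneg h h1
  · have := ent_nonneg (x := -x) (by linarith) (by linarith)
    rw [neg_sq, ← sub_eq_add_neg, sub_neg_eq_add] at this
    linarith

theorem pinsker {a r m : ℝ} (ha : 0 < a) (hr : 0 ≤ r) (hm : a + r = m) :
    -(a * Real.log a) - r * Real.log r ≤
      -(m * Real.log m) + m * Real.log 2 - 2 * (a - m / 2) ^ 2 / m := by
  have hm0 : 0 < m := by linarith
  rcases hr.eq_or_lt with h | h
  · subst h
    rw [add_zero] at hm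
    subst hm
    have h2 := Real.log_two_gt_d9
    have e : 2 * (a - a / 2) ^ 2 / a = a / 2 := by
      field_simp
      ring
    rw [e]
    nlinarith
  · set x := (2 * a - m) / m with hx
    have hxa : a = m * ((1 + x) / 2) := by
      rw [hx]; field_simp; ring
    have hxr : r = m * ((1 - x) / 2) := by
      rw [hx]; field_simp; linarith
    have p1 : 0 < (1 + x) / 2 := by
      by_contra hcon
      push Not at hcon
      have := mul_nonpos_of_nonneg_of_nonpos hm0.le hcon
      linarith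
    have p2 : 0 < (1 - x) / 2 := by
      by_contra hcon
      push Not at hcon
      have := mul_nonpos_of_nonneg_of_nonpos hm0.le hcon
      linarith
    have q1 : 0 < 1 + x := by linarith
    have q2 : 0 < 1 - x := by linarith
    have la : Real.log a = Real.log m + (Real.log (1 + x) - Real.log 2) := by
      rw [hxa, Real.log_mul hm0.ne' p1.ne', Real.log_div q1.ne' two_ne_zero]
    have lr : Real.log r = Real.log m + (Real.log (1 - x) - Real.log 2) := by
      rw [hxr, Real.log_mul hm0.ne' p2.ne', Real.log_div q2.ne' two_ne_zero]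
    have he := ent (x := x) (by linarith) (by linarith)
    have e2 : 2 * (a - m / 2) ^ 2 / m = m / 2 * x ^ 2 := by
      rw [hx]; field_simp
    rw [la, lr, e2]
    have h3 := mul_le_mul_of_nonneg_left he (by positivity : 0 ≤ m / 2)
    have e3 : a * (Real.log m + (Real.log (1 + x) - Real.log 2)) +
        r * (Real.log m + (Real.log (1 - x) - Real.log 2)) =
        m * Real.log m - m * Real.log 2 +
          m / 2 * ((1 + x) * Real.log (1 + x) + (1 - x) * Real.log (1 - x)) := by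
      rw [hxa, hxr]; ring
    linarith

/-- tangent line of the logarithm -/
theorem log_tangent {x y : ℝ} (hx : 0 < x) (hy : 0 < y) : Real.log x ≤ Real.log y + x / y - 1 := by
  have := Real.log_le_sub_one_of_pos (div_pos hx hy)
  rw [Real.log_div hx.ne' hy.ne'] at this
  linarith

theorem log_three_lt : Real.log 3 < 1.0989 := by
  have h : Real.log ((3 : ℝ) ^ 41) < Real.log ((2 : ℝ) ^ 65) := by
    apply Real.log_lt_log (by positivity)
    norm_num
  rw [Real.log_pow, Real.log_pow] at h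
  have := Real.log_two_lt_d9
  norm_num at h ⊢
  linarith

theorem log_three_gt : 1.0985 < Real.log 3 := by
  have h : Real.log ((2 : ℝ) ^ 84) < Real.log ((3 : ℝ) ^ 53) := by
    apply Real.log_lt_log (by positivity)
    norm_num
  rw [Real.log_pow, Real.log_pow] at h
  have := Real.log_two_gt_d9
  norm_num at h ⊢
  linarith

/-- the upper bound of the exponent by `log (1 + y) ≤ y` -/
def Ph (a c : ℝ) : ℝ :=
  (a + c) * Real.log c - a * Real.log a - (1 - a - c) * Real.log (1 - a - c) +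
    2 * (a - c) * Real.log 2 - 3 / 2 * (1 - a - c) * a * (1 - c) + 3 / 4 * a ^ 2 * c

theorem le_Ph {a c : ℝ} (hc : 0 < c) (hca : c ≤ a) (hac : a + c ≤ 1) :
    -(a * Real.log a) - c * Real.log c - (1 - a - c) * Real.log (1 - a - c)
      - 2 * (a - c) * Real.log (c / 2)
      + 3 * a * Real.log (c + c / 2 * (1 - a - c) + (c / 2) ^ 2 * a)
      + 3 * (1 - a - c) * Real.log (1 - a + c / 2 * a) ≤ Ph a c := by
  have ha : 0 < a := by linarith
  have e1 : c + c / 2 * (1 - a - c) + (c / 2) ^ 2 * a = c * (1 + (1 - a - c) / 2 + c * a / 4) := by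
    ring
  have hp : 0 < 1 + (1 - a - c) / 2 + c * a / 4 := by
    have : 0 < c * a := mul_pos hc ha
    linarith
  have hq : 0 < 1 - a + c / 2 * a := by
    have : 0 < c / 2 * a := by positivity
    linarith
  rw [e1, Real.log_mul hc.ne' hp.ne', Real.log_div hc.ne' two_ne_zero]
  have l1 := Real.log_le_sub_one_of_pos hp
  have l2 := Real.log_le_sub_one_of_pos hq
  have m1 := mul_le_mul_of_nonneg_left l1 (by linarith : 0 ≤ 3 * a)
  have m2 := mul_le_mul_of_nonneg_left l2 (by linarith : 0 ≤ 3 * (1 - a - c))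
  rw [Ph]
  nlinarith

/-- the region of small `a` and `c` -/
theorem small {a c : ℝ} (hc : 0 < c) (hca : c ≤ a) (h1 : c ≤ 1 / 16)
    (h2 : a ≤ 3 / 10) : Ph a c ≤ -(a / 20) := by
  have ha : 0 < a := by linarith
  have hr : 0 < 1 - a - c := by linarith
  have l2 := Real.log_two_gt_d9
  have l2' := Real.log_two_lt_d9
  -- `-rho log rho ≤ 1 - rho`
  have k1 : -((1 - a - c) * Real.log (1 - a - c)) ≤ a + c := by
    have := log_tangent (x := 1) one_pos hr
    rw [Real.log_one] at this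
    have h3 := mul_le_mul_of_nonneg_left this hr.le
    have e : (1 - a - c) * (Real.log (1 - a - c) + 1 / (1 - a - c) - 1) =
      (1 - a - c) * Real.log (1 - a - c) + 1 - (1 - a - c) := by
      field_simp
    rw [e] at h3
    linarith
  -- `a log (c / a) ≤ 2 c - a - a log 2`
  have k2 : a * Real.log c - a * Real.log a ≤ 2 * c - a - a * Real.log 2 := by
    have := log_tangent (x := 2 * c) (by linarith) ha
    rw [Real.log_mul two_ne_zero hc.ne'] at this
    have h3 := mul_le_mul_of_nonneg_left this ha.le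
    have e : a * (Real.log a + 2 * c / a - 1) = a * Real.log a + 2 * c - a := by
      field_simp
    rw [e] at h3
    linarith
  have k3 : c * Real.log c ≤ c * (-4 * 0.6931) := by
    apply mul_le_mul_of_nonneg_left _ hc.le
    have : Real.log c ≤ Real.log ((2 : ℝ)⁻¹ ^ 4) := Real.log_le_log hc (by norm_num; linarith)
    rw [Real.log_pow, Real.log_inv] at this
    norm_num at this ⊢
    linarith
  have k4 : 2 * (a - c) * Real.log 2 ≤ 2 * (a - c) * 0.69315 := by
    apply mul_le_mul_of_nonneg_left _ (by linarith)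
    norm_num at l2' ⊢
    linarith
  have k5 : (3 / 2 * (51 / 80) * (15 / 16)) * a ≤ 3 / 2 * (1 - a - c) * a * (1 - c) := by
    have h3 : (51 / 80 : ℝ) ≤ 1 - a - c := by linarith
    have h4 : (15 / 16 : ℝ) ≤ 1 - c := by linarith
    have h5 : (51 / 80 : ℝ) * (15 / 16) ≤ (1 - a - c) * (1 - c) :=
      mul_le_mul h3 h4 (by norm_num) hr.le
    nlinarith
  have k6 : 3 / 4 * a ^ 2 * c ≤ 3 / 4 * (3 / 10) * (1 / 16) * a := by
    have : a * c ≤ 3 / 10 * (1 / 16) := mul_le_mul h2 h1 hc.le (by norm_num)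
    nlinarith
  have k7 : a * 0.6931 ≤ a * Real.log 2 := by
    apply mul_le_mul_of_nonneg_left _ ha.le
    norm_num at l2 ⊢
    linarith
  rw [Ph]
  norm_num at k3 k4 k7 ⊢
  nlinarith

/-- the bound by a polynomial and logarithms of constants -/
theorem Ph_le {a c ci mi lc lm : ℝ} (hc : 0 < c) (hca : c ≤ a) (hac : a + c ≤ 1) (hc1 : c < 1)
    (hci : 0 < ci) (hmi : 0 < mi) (h1 : Real.log ci ≤ lc) (h2 : lm ≤ Real.log mi) :
    Ph a c ≤ (a + c) * (lc + c / ci - 1) - (1 - c) * lm + mi - (1 - c) + (1 - c) * 0.69315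
      - 2 * (a - (1 - c) / 2) ^ 2 * (2 / mi - (1 - c) / mi ^ 2) + 2 * (a - c) * 0.69315
      - 3 / 2 * (1 - a - c) * a * (1 - c) + 3 / 4 * a ^ 2 * c := by
  have ha : 0 < a := by linarith
  have hm : 0 < 1 - c := by linarith
  have l2' := Real.log_two_lt_d9
  have l3 : Real.log 2 ≤ 0.69315 := by
    norm_num at l2' ⊢
    linarith
  have k1 := pinsker (a := a) (r := 1 - a - c) (m := 1 - c) ha (by linarith) (by ring)
  have k2 : (a + c) * Real.log c ≤ (a + c) * (lc + c / ci - 1) := by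
    apply mul_le_mul_of_nonneg_left _ (by linarith)
    have := log_tangent hc hci
    linarith
  have k3 : -((1 - c) * Real.log (1 - c)) ≤ -((1 - c) * lm) + mi - (1 - c) := by
    have := log_tangent hmi hm
    have h3 := mul_le_mul_of_nonneg_left this hm.le
    have e : (1 - c) * (Real.log (1 - c) + mi / (1 - c) - 1) =
      (1 - c) * Real.log (1 - c) + mi - (1 - c) := by
      field_simp
    rw [e] at h3
    have h4 := mul_le_mul_of_nonneg_left h2 hm.le
    linarith
  have k4 : 2 * (a - (1 - c) / 2) ^ 2 * (2 / mi - (1 - c) / mi ^ 2) ≤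
      2 * (a - (1 - c) / 2) ^ 2 / (1 - c) := by
    rw [div_eq_mul_inv (2 * (a - (1 - c) / 2) ^ 2)]
    apply mul_le_mul_of_nonneg_left _ (by positivity)
    rw [← sub_nonneg]
    have e : (1 - c)⁻¹ - (2 / mi - (1 - c) / mi ^ 2) = (1 - c)⁻¹ * (1 - (1 - c) / mi) ^ 2 := by
      field_simp
      ring
    rw [e]
    positivity
  have k5 : (1 - c) * Real.log 2 ≤ (1 - c) * 0.69315 := mul_le_mul_of_nonneg_left l3 hm.le
  have k6 : 2 * (a - c) * Real.log 2 ≤ 2 * (a - c) * 0.69315 :=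
    mul_le_mul_of_nonneg_left l3 (by linarith)
  rw [Ph]
  linarith

theorem poly1 {a c : ℝ} (hc : 0 < c) (hc1 : c ≤ 1 / 16) (ha : 3 / 10 ≤ a) (hac : a + c ≤ 1) :
    (a + c) * (-2.7725 + c / (1 / 16) - 1) - (1 - c) * 0 + 1 - (1 - c) + (1 - c) * 0.69315
      - 2 * (a - (1 - c) / 2) ^ 2 * (2 / 1 - (1 - c) / 1 ^ 2) + 2 * (a - c) * 0.69315
      - 3 / 2 * (1 - a - c) * a * (1 - c) + 3 / 4 * a ^ 2 * c ≤ -(a / 20) := by
  nlinarith [mul_nonneg hc.le (sub_nonneg.2 hc1), mul_nonneg (sub_nonneg.2 ha) hc.le,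
    mul_nonneg (mul_nonneg (sub_nonneg.2 ha) hc.le) hc.le, sq_nonneg (a - 1/2), mul_nonneg (sub_nonneg.2 ha) (sub_nonneg.2 hac)]

theorem poly2 {a c : ℝ} (hc : 1 / 16 ≤ c) (hc1 : c ≤ 1 / 10) (ha : c ≤ a) :
    (a + c) * (-2.7725 + c / (1 / 16) - 1) - (1 - c) * 0 + 1 - (1 - c) + (1 - c) * 0.69315
      - 2 * (a - (1 - c) / 2) ^ 2 * (2 / 1 - (1 - c) / 1 ^ 2) + 2 * (a - c) * 0.69315
      - 3 / 2 * (1 - a - c) * a * (1 - c) + 3 / 4 * a ^ 2 * c ≤ -(a / 20) := by
  have u := sub_nonneg.2 hc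
  have v := sub_nonneg.2 hc1
  have b := sub_nonneg.2 ha
  nlinarith [mul_nonneg u (pow_nonneg b 2), mul_nonneg v (pow_nonneg b 2), pow_nonneg b 2,
    mul_nonneg b (pow_nonneg u 2), mul_nonneg b (mul_nonneg u v), mul_nonneg b (pow_nonneg v 2),
    pow_nonneg u 3, mul_nonneg (pow_nonneg u 2) v, mul_nonneg u (pow_nonneg v 2),
    pow_nonneg v 3]

theorem poly3 {a c : ℝ} (hc : (1 / 10) ≤ c) (hc1 : c ≤ (1 / 5)) :
    (a + c) * ((-(44791 / 25000)) + c / (1 / 6) - 1) - (1 - c) * (-(1 / 8)) + (8 / 9) - (1 - c) + (1 - c) * 0.69315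
      - 2 * (a - (1 - c) / 2) ^ 2 * (2 / (8 / 9) - (1 - c) / (8 / 9) ^ 2) + 2 * (a - c) * 0.69315
      - 3 / 2 * (1 - a - c) * a * (1 - c) + 3 / 4 * a ^ 2 * c ≤ -(a / 20) := by
  have u := sub_nonneg.2 hc
  have v := sub_nonneg.2 hc1
  have h1 : 0 ≤ (105 / 32) * (c - (1 / 10)) * (a - (19 / 50)) ^ 2 + (51 / 64) * (a - ((-(42481 / 106250)) + (377 / 85) * c + (-(43 / 17)) * c ^ 2)) ^ 2 := by
    have := mul_nonneg u (sq_nonneg (a - (19 / 50)))
    have := sq_nonneg (a - ((-(42481 / 106250)) + (377 / 85) * c + (-(43 / 17)) * c ^ 2))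
    linarith
  have h2 : 0 ≤ (15726409939 / 19125000) * ((c - (1 / 10)) ^ 0 * ((1 / 5) - c) ^ 4) + (766358217923 / 153000000) * ((c - (1 / 10)) ^ 1 * ((1 / 5) - c) ^ 3) + (104696915881 / 12750000) * ((c - (1 / 10)) ^ 2 * ((1 / 5) - c) ^ 2) + (185525130887 / 38250000) * ((c - (1 / 10)) ^ 3 * ((1 / 5) - c) ^ 1) + (1961006633 / 2390625) * ((c - (1 / 10)) ^ 4 * ((1 / 5) - c) ^ 0) := by
    positivity
  rw [← sub_nonneg]
  refine (add_nonneg h1 h2).trans_eq ?_
  ring

theorem poly4 {a c : ℝ} (hc : (1 / 5) ≤ c) (hc1 : c ≤ (7 / 20)) :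
    (a + c) * ((-(2197 / 2000)) + c / (1 / 3) - 1) - (1 - c) * (-(1268 / 3125)) + (2 / 3) - (1 - c) + (1 - c) * 0.69315
      - 2 * (a - (1 - c) / 2) ^ 2 * (2 / (2 / 3) - (1 - c) / (2 / 3) ^ 2) + 2 * (a - c) * 0.69315
      - 3 / 2 * (1 - a - c) * a * (1 - c) + 3 / 4 * a ^ 2 * c ≤ -(a / 20) := by
  have u := sub_nonneg.2 hc
  have v := sub_nonneg.2 hc1
  have h1 : 0 ≤ (21 / 4) * (c - (1 / 5)) * (a - (21 / 50)) ^ 2 + (21 / 20) * (a - ((157 / 1500) + (153 / 70) * c + (-(20 / 7)) * c ^ 2)) ^ 2 := by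
    have := mul_nonneg u (sq_nonneg (a - (21 / 50)))
    have := sq_nonneg (a - ((157 / 1500) + (153 / 70) * c + (-(20 / 7)) * c ^ 2))
    linarith
  have h2 : 0 ≤ (9764956 / 212625) * ((c - (1 / 5)) ^ 0 * ((7 / 20) - c) ^ 4) + (56783794 / 212625) * ((c - (1 / 5)) ^ 1 * ((7 / 20) - c) ^ 3) + (28507007 / 70875) * ((c - (1 / 5)) ^ 2 * ((7 / 20) - c) ^ 2) + (14347049 / 60750) * ((c - (1 / 5)) ^ 3 * ((7 / 20) - c) ^ 1) + (2825711 / 60750) * ((c - (1 / 5)) ^ 4 * ((7 / 20) - c) ^ 0) := by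
    positivity
  rw [← sub_nonneg]
  refine (add_nonneg h1 h2).trans_eq ?_
  ring

theorem poly5 {a c : ℝ} (hc : (7 / 20) ≤ c) (hc1 : c ≤ (1 / 2)) :
    (a + c) * ((-(98053 / 100000)) + c / (3 / 8) - 1) - (1 - c) * (-(1268 / 3125)) + (2 / 3) - (1 - c) + (1 - c) * 0.69315
      - 2 * (a - (1 - c) / 2) ^ 2 * (2 / (2 / 3) - (1 - c) / (2 / 3) ^ 2) + 2 * (a - c) * 0.69315
      - 3 / 2 * (1 - a - c) * a * (1 - c) + 3 / 4 * a ^ 2 * c ≤ -(a / 20) := by
  have u := sub_nonneg.2 hc
  have v := sub_nonneg.2 hc1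
  have h1 : 0 ≤ (21 / 4) * (c - (7 / 20)) * (a - (7 / 20)) ^ 2 + (147 / 80) * (a - ((12367 / 61250) + (599 / 441) * c + (-(80 / 49)) * c ^ 2)) ^ 2 := by
    have := mul_nonneg u (sq_nonneg (a - (7 / 20)))
    have := sq_nonneg (a - ((12367 / 61250) + (599 / 441) * c + (-(80 / 49)) * c ^ 2))
    linarith
  have h2 : 0 ≤ (35641111903 / 669768750) * ((c - (7 / 20)) ^ 0 * ((1 / 2) - c) ^ 4) + (21897753391 / 95681250) * ((c - (7 / 20)) ^ 1 * ((1 / 2) - c) ^ 3) + (38114347903 / 111628125) * ((c - (7 / 20)) ^ 2 * ((1 / 2) - c) ^ 2) + (10777022633 / 47840625) * ((c - (7 / 20)) ^ 3 * ((1 / 2) - c) ^ 1) + (18277445639 / 334884375) * ((c - (7 / 20)) ^ 4 * ((1 / 2) - c) ^ 0) := by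
    positivity
  rw [← sub_nonneg]
  refine (add_nonneg h1 h2).trans_eq ?_
  ring

theorem Ph_neg {a c : ℝ} (hc : 0 < c) (hca : c ≤ a) (hac : a + c ≤ 1) : Ph a c ≤ -(a / 20) := by
  have hc2 : c ≤ 1 / 2 := by linarith
  have hc1 : c < 1 := by linarith
  have l2 := Real.log_two_gt_d9
  have l2' := Real.log_two_lt_d9
  have l3 := log_three_gt
  have l3' := log_three_lt
  have e16 : Real.log (1 / 16) ≤ -2.7725 := by
    have : (1 / 16 : ℝ) = (2 : ℝ)⁻¹ ^ 4 := by norm_num
    rw [this, Real.log_pow, Real.log_inv]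
    norm_num at l2 ⊢
    linarith
  have e6 : Real.log (1 / 6) ≤ -(44791 / 25000) := by
    have : (1 / 6 : ℝ) = (2 * 3)⁻¹ := by norm_num
    rw [this, Real.log_inv, Real.log_mul two_ne_zero three_ne_zero]
    norm_num at l2 l3 ⊢
    linarith
  have e3 : Real.log (1 / 3) ≤ -(2197 / 2000) := by
    have : (1 / 3 : ℝ) = (3)⁻¹ := by norm_num
    rw [this, Real.log_inv]
    norm_num at l3 ⊢
    linarith
  have e38 : Real.log (3 / 8) ≤ -(98053 / 100000) := by
    have : (8 : ℝ) = 2 ^ 3 := by norm_num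
    rw [Real.log_div three_ne_zero (by norm_num), this, Real.log_pow]
    norm_num at l2 l3' ⊢
    linarith
  have f89 : -(1 / 8) ≤ Real.log (8 / 9) := by
    have h8 : (8 : ℝ) = 2 ^ 3 := by norm_num
    have h9 : (9 : ℝ) = 3 ^ 2 := by norm_num
    rw [Real.log_div (by norm_num) (by norm_num), h8, h9, Real.log_pow, Real.log_pow]
    norm_num at l2 l3' ⊢
    linarith
  have f23 : -(1268 / 3125) ≤ Real.log (2 / 3) := by
    rw [Real.log_div (by norm_num) (by norm_num)]
    norm_num at l2 l3' ⊢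
    linarith
  have f1 : (0 : ℝ) ≤ Real.log 1 := by rw [Real.log_one]
  rcases le_total c (1 / 16) with h16 | h16
  · rcases le_total a (3 / 10) with h | h
    · exact small hc hca h16 h
    · exact (Ph_le hc hca hac hc1 (by norm_num : (0 : ℝ) < 1 / 16) one_pos e16 f1).trans
        (poly1 hc h16 h hac)
  rcases le_total c (1 / 10) with h10 | h10
  · exact (Ph_le hc hca hac hc1 (by norm_num : (0 : ℝ) < 1 / 16) one_pos e16 f1).trans
      (poly2 h16 h10 hca)
  rcases le_total c (1 / 5) with h5 | h5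
  · exact (Ph_le hc hca hac hc1 (by norm_num) (by norm_num) e6 f89).trans (poly3 h10 h5)
  rcases le_total c (7 / 20) with h7 | h7
  · exact (Ph_le hc hca hac hc1 (by norm_num) (by norm_num) e3 f23).trans (poly4 h5 h7)
  · exact (Ph_le hc hca hac hc1 (by norm_num) (by norm_num) e38 f23).trans (poly5 h7 hc2)

end AIaux

/-- the exponent of the union bound is at most `-a / 20` -/
theorem ai (a c : ℝ) (hc : 0 < c) (hca : c ≤ a) (hac : a + c ≤ 1) :
    -(a * Real.log a) - c * Real.log c - (1 - a - c) * Real.log (1 - a - c)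
      - 2 * (a - c) * Real.log (c / 2)
      + 3 * a * Real.log (c + c / 2 * (1 - a - c) + (c / 2) ^ 2 * a)
      + 3 * (1 - a - c) * Real.log (1 - a + c / 2 * a) ≤ -(a / 20) :=
  (AIaux.le_Ph hc hca hac).trans (AIaux.Ph_neg hc hca hac)

end

end Pool.Agent.ST3
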