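import Pool.Agent.Lib.MP_7abaca_co.Defs

/-!
# Weighted count of rooted trees with prescribed parents

`lemR`: a weighted version of Cayley's formula for parent functions that are prescribed on a
set `D` on which the prescription is acyclic.
-/

set_option autoImplicit false

namespace Pool.Agent.ST3

open Finset Filter
open scoped Classical

noncomputable section

/-- `t` is the first exit from `D` under iteration of `g` -/
def Exit {n : ℕ} (D : Finset (Fin n)) (g t : Fin n → Fin n) : Prop :=
  ∀ w, ∃ k : ℕ, (∀ j < k, g^[j] w ∈ D) ∧ g^[k] w = t w ∧ t w ∉ D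

theorem Exit.iff {n : ℕ} {D : Finset (Fin n)} {g t : Fin n → Fin n} (h : Exit D g t)
    {r : Fin n} (hr : r ∉ D) (w : Fin n) :
    (∃ k : ℕ, (∀ j < k, g^[j] w ∈ D) ∧ g^[k] w = r) ↔ t w = r := by
  obtain ⟨k, hk1, hk2, hk3⟩ := h w
  constructor
  · rintro ⟨m, hm1, hm2⟩
    rcases lt_trichotomy m k with hlt | heq | hgt
    · exact absurd (hm2 ▸ hk1 m hlt) hr
    · subst heq
      rw [← hk2, hm2]
    · exact absurd (hk2 ▸ hm1 k hgt) hk3
  · intro e
    exact ⟨k, hk1, hk2.trans e⟩

theorem Exit.self {n : ℕ} {D : Finset (Fin n)} {g t : Fin n → Fin n} (h : Exit D g t)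
    {w : Fin n} (hw : w ∉ D) : t w = w := by
  rw [← h.iff hw w]
  exact ⟨0, by simp, rfl⟩

/-- two functions agreeing on `D` have the same iterates up to the first exit -/
theorem iter_congr {n : ℕ} {D : Finset (Fin n)} {g g' : Fin n → Fin n}
    (hg : ∀ w ∈ D, g' w = g w) (w : Fin n) (k : ℕ) (hk : ∀ j < k, g^[j] w ∈ D) :
    ∀ j ≤ k, g'^[j] w = g^[j] w := by
  intro j
  induction j with
  | zero => intro _; rfl
  | succ j ih =>
    intro hj
    rw [Function.iterate_succ_apply', Function.iterate_succ_apply', ih (by omega)]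
    exact hg _ (hk j (by omega))

theorem Exit.step {n : ℕ} {D : Finset (Fin n)} {g t : Fin n → Fin n} (h : Exit D g t)
    {v u : Fin n} (hv : v ∉ D) (hu : t u ≠ v) :
    Exit (insert v D) (Function.update g v u) (fun w => if t w = v then t u else t w) := by
  have hg : ∀ w ∈ D, Function.update g v u w = g w := by
    intro w hw
    rw [Function.update_of_ne]
    rintro rfl
    exact hv hw
  intro w
  obtain ⟨k, hk1, hk2, hk3⟩ := h w
  have hit := iter_congr hg w k hk1
  by_cases hw : t w = v
  · obtain ⟨m, hm1, hm2, hm3⟩ := h u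
    have hit2 := iter_congr hg u m hm1
    have hadd : ∀ i, (Function.update g v u)^[i + (k + 1)] w = (Function.update g v u)^[i] u := by
      intro i
      rw [Function.iterate_add_apply, Function.iterate_succ_apply', hit k le_rfl, hk2, hw,
        Function.update_self]
    refine ⟨m + (k + 1), ?_, ?_, ?_⟩
    · intro j hj
      rcases lt_trichotomy j k with hlt | heq | hgt
      · rw [hit j hlt.le]
        exact mem_insert_of_mem (hk1 j hlt)
      · subst heq
        rw [hit j le_rfl, hk2, hw]
        exact mem_insert_self _ _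
      · obtain ⟨i, rfl⟩ : ∃ i, j = i + (k + 1) := ⟨j - (k + 1), by omega⟩
        rw [hadd, hit2 i (by omega)]
        exact mem_insert_of_mem (hm1 i (by omega))
    · rw [hadd, hit2 m le_rfl, hm2]
      simp [hw]
    · simp only [hw, if_true]
      simp [hu, hm3]
  · refine ⟨k, ?_, ?_, ?_⟩
    · intro j hj
      rw [hit j hj.le]
      exact mem_insert_of_mem (hk1 j hj)
    · rw [hit k le_rfl, hk2]
      simp [hw]
    · simp only [hw, if_false]
      simp [hw, hk3]

/-- the weighted sum -/
def WR {n : ℕ} (x : Fin n → ℝ) (D : Finset (Fin n)) (g : Fin n → Fin n) (r : Fin n) : ℝ :=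
  ∑ π ∈ univ.filter (fun π : Fin n → Fin n => IsRT r π ∧ ∀ v ∈ D, π v = g v),
    ∏ v ∈ univ.filter (fun v => v ∉ D ∧ v ≠ r), x (π v)

theorem WR_split {n : ℕ} (x : Fin n → ℝ) (D : Finset (Fin n)) (g : Fin n → Fin n) (r : Fin n)
    {v : Fin n} (hv : v ∉ D) (hvr : v ≠ r) :
    WR x D g r = ∑ u, x u * WR x (insert v D) (Function.update g v u) r := by
  unfold WR
  rw [← Finset.sum_fiberwise (univ.filter
    (fun π : Fin n → Fin n => IsRT r π ∧ ∀ v ∈ D, π v = g v)) (fun π => π v)]
  refine sum_congr rfl fun u _ => ?_
  rw [mul_sum, filter_filter]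
  have hset : univ.filter (fun π : Fin n → Fin n =>
      (IsRT r π ∧ ∀ v ∈ D, π v = g v) ∧ π v = u) =
      univ.filter (fun π : Fin n → Fin n =>
        IsRT r π ∧ ∀ w ∈ insert v D, π w = Function.update g v u w) := by
    ext π
    simp only [mem_filter, mem_univ, true_and]
    constructor
    · rintro ⟨⟨h1, h2⟩, h3⟩
      refine ⟨h1, fun w hw => ?_⟩
      rcases mem_insert.1 hw with rfl | hw'
      · rw [Function.update_self, h3]
      · rw [Function.update_of_ne (by rintro rfl; exact hv hw'), h2 w hw']
    · rintro ⟨h1, h2⟩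
      refine ⟨⟨h1, fun w hw => ?_⟩, ?_⟩
      · rw [h2 w (mem_insert_of_mem hw),
          Function.update_of_ne (by rintro rfl; exact hv hw)]
      · rw [h2 v (mem_insert_self _ _), Function.update_self]
  rw [hset]
  refine sum_congr rfl fun π hπ => ?_
  have hπv : π v = u := by
    have := (mem_filter.1 hπ).2.2 v (mem_insert_self _ _)
    rw [this, Function.update_self]
  have hf : univ.filter (fun w => w ∉ D ∧ w ≠ r) =
      insert v (univ.filter (fun w => w ∉ insert v D ∧ w ≠ r)) := by
    ext w
    simp only [mem_filter, mem_univ, true_and, mem_insert, not_or]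
    constructor
    · rintro ⟨h1, h2⟩
      by_cases hw : w = v
      · exact Or.inl hw
      · exact Or.inr ⟨⟨hw, h1⟩, h2⟩
    · rintro (rfl | ⟨⟨_, h1⟩, h2⟩)
      · exact ⟨hv, hvr⟩
      · exact ⟨h1, h2⟩
  rw [hf, prod_insert (by simp), hπv]

theorem WR_zero {n : ℕ} (x : Fin n → ℝ) (D : Finset (Fin n)) (g t : Fin n → Fin n) (r : Fin n)
    (h : Exit D g t) {v u : Fin n} (hv : v ∉ D) (hvr : v ≠ r) (hu : t u = v) :
    WR x (insert v D) (Function.update g v u) r = 0 := by
  unfold WR
  refine sum_eq_zero fun π hπ => ?_
  exfalso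
  obtain ⟨⟨hr, hreach⟩, hπg⟩ := (mem_filter.1 hπ).2
  have hg : ∀ w ∈ D, π w = g w := by
    intro w hw
    rw [hπg w (mem_insert_of_mem hw), Function.update_of_ne]
    rintro rfl
    exact hv hw
  have hπv : π v = u := by
    rw [hπg v (mem_insert_self _ _), Function.update_self]
  obtain ⟨k, hk1, hk2, hk3⟩ := h u
  have hcyc : π^[k + 1] v = v := by
    rw [Function.iterate_succ_apply, hπv, iter_congr hg u k hk1 k le_rfl, hk2, hu]
  obtain ⟨m, hm⟩ := hreach v
  have hfix : ∀ i, π^[i] r = r := fun i => Function.iterate_fixed hr i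
  have h1 : π^[(k + 1) * m] v = v := by
    rw [Function.iterate_mul]
    exact Function.iterate_fixed hcyc m
  have h2 : π^[(k + 1) * m] v = r := by
    obtain ⟨i, hi⟩ : ∃ i, (k + 1) * m = i + m := ⟨k * m, by ring⟩
    rw [hi, Function.iterate_add_apply, hm, hfix]
  exact hvr (h1.symm.trans h2)

theorem WR_base {n : ℕ} (x : Fin n → ℝ) (D : Finset (Fin n)) (g t : Fin n → Fin n) (r : Fin n)
    (hr : r ∉ D) (h : Exit D g t) (hD : ∀ v, v ≠ r → v ∈ D) : WR x D g r = 1 := by
  unfold WR
  have hset : univ.filter (fun π : Fin n → Fin n => IsRT r π ∧ ∀ v ∈ D, π v = g v) =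
      {Function.update g r r} := by
    ext π
    simp only [mem_filter, mem_univ, true_and, mem_singleton]
    constructor
    · rintro ⟨⟨h1, _⟩, h2⟩
      funext w
      by_cases hw : w = r
      · subst hw
        rw [h1, Function.update_self]
      · rw [h2 w (hD w hw), Function.update_of_ne hw]
    · rintro rfl
      have hg : ∀ w ∈ D, Function.update g r r w = g w := by
        intro w hw
        rw [Function.update_of_ne]
        rintro rfl
        exact hr hw
      refine ⟨⟨Function.update_self _ _ _, fun v => ?_⟩, hg⟩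
      obtain ⟨k, hk1, hk2, hk3⟩ := h v
      refine ⟨k, ?_⟩
      rw [iter_congr hg v k hk1 k le_rfl, hk2]
      by_contra hne
      exact hk3 (hD _ hne)
  rw [hset, sum_singleton]
  refine prod_eq_one fun v hv => ?_
  obtain ⟨h1, h2⟩ := (mem_filter.1 hv).2
  exact absurd (hD v h2) h1

theorem WR_formula {n : ℕ} (x : Fin n → ℝ) (r : Fin n) (c : ℕ) :
    ∀ (D : Finset (Fin n)) (g t : Fin n → Fin n), r ∉ D → Exit D g t → D.card + c + 1 = n →
    (∑ v, x v) * WR x D g r =
      (∑ v, if t v = r then x v else 0) * (∑ v, x v) ^ c := by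
  induction c with
  | zero =>
    intro D g t hr h hc
    have hD : ∀ v, v ≠ r → v ∈ D := by
      have h1 : (insert r D).card = n := by
        rw [card_insert_of_notMem hr]; omega
      have h2 : insert r D = univ := by
        rw [← card_eq_iff_eq_univ, h1, Fintype.card_fin]
      intro v hv
      have := mem_univ v
      rw [← h2, mem_insert] at this
      exact this.resolve_left hv
    rw [WR_base x D g t r hr h hD, pow_zero]
    congr 1
    refine sum_congr rfl fun v _ => ?_
    have : t v = r := by
      by_contra hne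
      obtain ⟨k, _, _, hk3⟩ := h v
      exact hk3 (hD _ hne)
    rw [if_pos this]
  | succ c ih =>
    intro D g t hr h hc
    obtain ⟨v, hv⟩ : ∃ v, v ∉ insert r D := by
      by_contra hcon
      push Not at hcon
      have h2 : insert r D = univ := eq_univ_of_forall hcon
      have h1 : (insert r D).card = n := by rw [h2, card_univ, Fintype.card_fin]
      rw [card_insert_of_notMem hr] at h1
      omega
    rw [mem_insert, not_or] at hv
    obtain ⟨hvr, hvD⟩ := hv
    rw [WR_split x D g r hvD hvr, mul_sum]
    have hterm : ∀ u, (∑ v, x v) * (x u * WR x (insert v D) (Function.update g v u) r) =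
        ((if t u = v then 0 else x u * (∑ w, if t w = r then x w else 0)) +
          (if t u = r then x u * (∑ w, if t w = v then x w else 0) else 0)) *
          (∑ v, x v) ^ c := by
      intro u
      by_cases hu : t u = v
      · rw [WR_zero x D g t r h hvD hvr hu, if_pos hu, if_neg (by rw [hu]; exact hvr)]
        simp
      · have hih := ih (insert v D) (Function.update g v u)
          (fun w => if t w = v then t u else t w) (by
            rw [mem_insert, not_or]; exact ⟨fun e => hvr e.symm, hr⟩) (h.step hvD hu)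
          (by rw [card_insert_of_notMem hvD]; omega)
        rw [mul_left_comm, hih, if_neg hu, ← mul_assoc]
        congr 1
        have hsum : (∑ w, if (if t w = v then t u else t w) = r then x w else 0) =
            (∑ w, if t w = r then x w else 0) +
              (if t u = r then (∑ w, if t w = v then x w else 0) else 0) := by
          by_cases hur : t u = r
          · rw [if_pos hur, ← sum_add_distrib]
            refine sum_congr rfl fun w _ => ?_
            by_cases hw : t w = v
            · simp [hw, hur, hvr]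
            · simp [hw]
          · rw [if_neg hur, add_zero]
            refine sum_congr rfl fun w _ => ?_
            by_cases hw : t w = v
            · simp [hw, hur, hvr]
            · simp [hw]
        rw [hsum, mul_add]
        congr 1
        by_cases hur : t u = r
        · simp [hur]
        · simp [hur]
    rw [sum_congr rfl fun u _ => hterm u, ← sum_mul, sum_add_distrib, pow_succ' (∑ v, x v) c,
      ← mul_assoc]
    congr 1
    set Xr := ∑ w, if t w = r then x w else 0 with hXr
    set Xv := ∑ w, if t w = v then x w else 0 with hXv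
    have e1 : (∑ u, if t u = v then (0 : ℝ) else x u * Xr) = (∑ u, x u) * Xr - Xv * Xr := by
      rw [hXv, sum_mul, sum_mul, ← sum_sub_distrib]
      refine sum_congr rfl fun u _ => ?_
      by_cases hu : t u = v
      · simp [hu]
      · simp [hu]
    have e2 : (∑ u, if t u = r then x u * Xv else (0 : ℝ)) = Xr * Xv := by
      rw [hXr, sum_mul]
      refine sum_congr rfl fun u _ => ?_
      by_cases hu : t u = r
      · simp [hu]
      · simp [hu]
    rw [e1, e2]
    ring

theorem lemR {n : ℕ} (x : Fin n → ℝ) (D : Finset (Fin n)) (g : Fin n → Fin n) (r : Fin n)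
    (hr : r ∉ D) (hac : ∀ v, ∃ k : ℕ, g^[k] v ∉ D) :
    (∑ v, x v) * (∑ π ∈ univ.filter (fun π : Fin n → Fin n => IsRT r π ∧ ∀ v ∈ D, π v = g v),
        ∏ v ∈ univ.filter (fun v => v ∉ D ∧ v ≠ r), x (π v)) =
      (∑ v ∈ univ.filter (fun v => ∃ k : ℕ, (∀ j < k, g^[j] v ∈ D) ∧ g^[k] v = r), x v) *
        (∑ v, x v) ^ (n - D.card - 1) := by
  have hex : Exit D g (fun v => g^[Nat.find (hac v)] v) := by
    intro v
    refine ⟨Nat.find (hac v), ?_, rfl, Nat.find_spec (hac v)⟩
    intro j hj
    have := Nat.find_min (hac v) hj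
    push Not at this
    exact this
  have hcard : D.card + 1 ≤ n := by
    have h1 : (insert r D).card ≤ n := by
      calc (insert r D).card ≤ (univ : Finset (Fin n)).card := card_le_card (subset_univ _)
        _ = n := by rw [card_univ, Fintype.card_fin]
    rwa [card_insert_of_notMem hr] at h1
  have key := WR_formula x r (n - D.card - 1) D g _ hr hex (by omega)
  unfold WR at key
  rw [key]
  congr 1
  rw [sum_filter]
  refine sum_congr rfl fun v _ => ?_
  have := hex.iff hr v
  by_cases hv : g^[Nat.find (hac v)] v = r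
  · rw [if_pos hv, if_pos (this.2 hv)]
  · rw [if_neg hv, if_neg (fun h => hv (this.1 h))]

end

end Pool.Agent.ST3
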