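import Pool.Agent.Lib.MP_7abaca_co.Defs
import Pool.Agent.Lib.MP_7abaca_co.LemR

/-!
# Number of rooted trees and of rooted trees with prescribed parents
-/

set_option autoImplicit false

namespace Pool.Agent.ST3

open Finset Filter
open scoped Classical

noncomputable section

/-- the root is unique -/
theorem IsRT.root_unique {n : ℕ} {r s : Fin n} {π : Fin n → Fin n} (h : IsRT r π)
    (hs : π s = s) : s = r := by
  obtain ⟨k, hk⟩ := h.2 s
  rw [Function.iterate_fixed hs] at hk
  exact hk

theorem card_RT_filter {n : ℕ} (P : (Fin n → Fin n) → Prop) :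
    ((RT n).filter P).card =
      ∑ r, (univ.filter (fun π : Fin n → Fin n => IsRT r π ∧ P π)).card := by
  rw [← card_biUnion]
  · congr 1
    ext π
    simp only [RT, mem_filter, mem_univ, true_and, mem_biUnion]
    constructor
    · rintro ⟨⟨r, hr⟩, hP⟩
      exact ⟨r, hr, hP⟩
    · rintro ⟨r, hr, hP⟩
      exact ⟨⟨r, hr⟩, hP⟩
  · intro r _ s _ hrs
    rw [Function.onFun, disjoint_left]
    intro π h1 h2
    simp only [mem_filter, mem_univ, true_and] at h1 h2
    exact hrs (h2.1.root_unique h1.1.1)

/-- number of rooted trees with prescribed root and prescribed parents on `D` -/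
theorem card_root {n : ℕ} (D : Finset (Fin n)) (g t : Fin n → Fin n) (r : Fin n)
    (hr : r ∉ D) (h : Exit D g t) :
    (n : ℝ) * ((univ.filter
        (fun π : Fin n → Fin n => IsRT r π ∧ ∀ v ∈ D, π v = g v)).card : ℝ) =
      ((univ.filter (fun v => t v = r)).card : ℝ) * (n : ℝ) ^ (n - D.card - 1) := by
  have hcard : D.card + 1 ≤ n := by
    have h1 : (insert r D).card ≤ n := by
      calc (insert r D).card ≤ (univ : Finset (Fin n)).card := card_le_card (subset_univ _)
        _ = n := by rw [card_univ, Fintype.card_fin]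
    rwa [card_insert_of_notMem hr] at h1
  have key := WR_formula (fun _ => (1 : ℝ)) r (n - D.card - 1) D g t hr h (by omega)
  unfold WR at key
  simp only [sum_const, card_univ, Fintype.card_fin, nsmul_eq_mul, mul_one, prod_const_one,
    sum_boole] at key
  exact key

theorem card_RT {n : ℕ} (hn : 1 ≤ n) : (RT n).card = n ^ (n - 1) := by
  have hex : Exit (∅ : Finset (Fin n)) id id := fun w => ⟨0, by simp, rfl, by simp⟩
  have h1 := card_RT_filter (n := n) (fun _ => True)
  have h2 : (RT n).card = ∑ r, (univ.filter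
      (fun π : Fin n → Fin n => IsRT r π ∧ True)).card := by
    refine Eq.trans ?_ (Eq.trans h1 ?_)
    · congr 1
      ext π
      simp only [mem_filter, and_true]
    · refine sum_congr rfl fun r _ => ?_
      congr 1
      ext π
      simp only [mem_filter]
  have h3 : ∀ r : Fin n, (n : ℝ) * ((univ.filter
      (fun π : Fin n → Fin n => IsRT r π ∧ True)).card : ℝ) = (n : ℝ) ^ (n - 1) := by
    intro r
    have := card_root ∅ id id r (by simp) hex
    have he : (univ.filter (fun v : Fin n => id v = r)) = {r} := by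
      ext v; simp
    rw [he] at this
    simp only [card_singleton, Nat.cast_one, one_mul, card_empty, Nat.sub_zero] at this
    rw [← this]
    congr 2
    congr 1
    ext π
    simp
  have h4 : (n : ℝ) * ((RT n).card : ℝ) = (n : ℝ) * (n : ℝ) ^ (n - 1) := by
    rw [h2]
    push_cast
    rw [mul_sum, sum_congr rfl fun r _ => h3 r]
    simp
  have hn' : (n : ℝ) ≠ 0 := by
    have : 0 < n := hn
    positivity
  have h5 := mul_left_cancel₀ hn' h4
  exact_mod_cast h5

theorem exists_exit {n : ℕ} (D : Finset (Fin n)) (g : Fin n → Fin n)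
    (hac : ∀ v, ∃ k : ℕ, g^[k] v ∉ D) : ∃ t, Exit D g t := by
  refine ⟨fun v => g^[Nat.find (hac v)] v, ?_⟩
  intro v
  refine ⟨Nat.find (hac v), ?_, rfl, Nat.find_spec (hac v)⟩
  intro j hj
  have := Nat.find_min (hac v) hj
  push Not at this
  exact this

/-- if some rooted tree extends `g` on `D`, and `g` has no fixed point in `D`,
then `g` is acyclic on `D` and the root is outside `D` -/
theorem acyclic_of_RT {n : ℕ} {D : Finset (Fin n)} {g π : Fin n → Fin n} {r : Fin n}
    (hr : r ∉ D) (h : IsRT r π) (hg : ∀ v ∈ D, π v = g v) :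
    ∀ v, ∃ k : ℕ, g^[k] v ∉ D := by
  intro v
  by_contra hcon
  push Not at hcon
  obtain ⟨k, hk⟩ := h.2 v
  have := iter_congr hg v k (fun j _ => hcon j) k le_rfl
  rw [hk] at this
  exact hr (this ▸ hcon k)

theorem card_RT_fix {n : ℕ} (hn : 1 ≤ n) (D : Finset (Fin n)) (g : Fin n → Fin n)
    (hg : ∀ v ∈ D, g v ≠ v) :
    (((RT n).filter (fun π => ∀ v ∈ D, π v = g v)).card : ℝ) ≤
      (n : ℝ) ^ (n - 1) * (1 / (n : ℝ)) ^ D.card := by
  have hn0 : (0 : ℝ) < n := by
    have : 0 < n := hn
    positivity
  have hroot : ∀ r ∈ D, (univ.filter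
      (fun π : Fin n → Fin n => IsRT r π ∧ ∀ v ∈ D, π v = g v)).card = 0 := by
    intro r hr
    rw [card_eq_zero, filter_eq_empty_iff]
    rintro π - ⟨h1, h2⟩
    exact hg r hr ((h2 r hr).symm.trans h1.1)
  have hsplit : ((RT n).filter (fun π => ∀ v ∈ D, π v = g v)).card =
      ∑ r, (univ.filter
        (fun π : Fin n → Fin n => IsRT r π ∧ ∀ v ∈ D, π v = g v)).card := by
    convert card_RT_filter (n := n) (fun π => ∀ v ∈ D, π v = g v)
  by_cases hac : ∀ v, ∃ k : ℕ, g^[k] v ∉ D
  · obtain ⟨t, ht⟩ := exists_exit D g hac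
    have hcard : D.card + 1 ≤ n := by
      obtain ⟨k, _, _, hk3⟩ := ht ⟨0, hn⟩
      have h1 : (insert (t ⟨0, hn⟩) D).card ≤ n := by
        calc (insert (t ⟨0, hn⟩) D).card ≤ (univ : Finset (Fin n)).card :=
              card_le_card (subset_univ _)
          _ = n := by rw [card_univ, Fintype.card_fin]
      rwa [card_insert_of_notMem hk3] at h1
    have h1 : (n : ℝ) * (((RT n).filter (fun π => ∀ v ∈ D, π v = g v)).card : ℝ) =
        n * (n : ℝ) ^ (n - D.card - 1) := by
      rw [hsplit]
      push_cast
      rw [mul_sum]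
      have h2 : ∀ r : Fin n, (n : ℝ) * ((univ.filter
          (fun π : Fin n → Fin n => IsRT r π ∧ ∀ v ∈ D, π v = g v)).card : ℝ) =
          ((univ.filter (fun v => t v = r)).card : ℝ) * (n : ℝ) ^ (n - D.card - 1) := by
        intro r
        by_cases hr : r ∈ D
        · rw [hroot r hr]
          have : (univ.filter (fun v => t v = r)) = ∅ := by
            rw [filter_eq_empty_iff]
            rintro v - hv
            obtain ⟨k, _, _, hk3⟩ := ht v
            exact hk3 (hv ▸ hr)
          rw [this]
          simp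
        · exact card_root D g t r hr ht
      rw [sum_congr rfl fun r _ => h2 r, ← sum_mul]
      congr 1
      have h3 := card_eq_sum_card_fiberwise (f := t) (s := (univ : Finset (Fin n)))
        (t := (univ : Finset (Fin n))) (fun _ _ => mem_coe.2 (mem_univ _))
      rw [card_univ, Fintype.card_fin] at h3
      rw [← Nat.cast_sum, ← h3]
    have h4 := mul_left_cancel₀ hn0.ne' h1
    rw [h4]
    apply le_of_eq
    have h5 : n - 1 = (n - D.card - 1) + D.card := by omega
    rw [h5, pow_add, one_div, inv_pow, mul_assoc, mul_inv_cancel₀ (pow_ne_zero _ hn0.ne'),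
      mul_one]
  · have hzero : ((RT n).filter (fun π => ∀ v ∈ D, π v = g v)).card = 0 := by
      rw [hsplit]
      refine sum_eq_zero fun r _ => ?_
      by_cases hr : r ∈ D
      · exact hroot r hr
      · rw [card_eq_zero, filter_eq_empty_iff]
        rintro π - ⟨h1, h2⟩
        exact hac (acyclic_of_RT hr h1 h2)
    rw [hzero, Nat.cast_zero]
    positivity

end

end Pool.Agent.ST3
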