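import Pool.Agent.Lib.MP_7abaca_co.Defs
import Pool.Agent.Lib.MP_7abaca_co.RCount

/-!
# Probability that a given path is contained in a random tree
-/

set_option autoImplicit false

namespace Pool.Agent.ST3

open Finset Filter
open scoped Classical

noncomputable section

/-- a path in the graph of a function is oriented towards one of its vertices -/
theorem path_orient {n : ℕ} (π : Fin n → Fin n) (d : ℕ) (v : ℕ → Fin n)
    (hv : Set.InjOn v {i | i ≤ d}) (h : ∀ i < d, (gr π).Adj (v i) (v (i + 1))) :
    ∃ k ≤ d, (∀ i < k, π (v i) = v (i + 1)) ∧ ∀ i, k ≤ i → i < d → π (v (i + 1)) = v i := by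
  have hadj : ∀ i < d, π (v i) = v (i + 1) ∨ π (v (i + 1)) = v i := by
    intro i hi
    have := h i hi
    unfold gr at this
    rw [SimpleGraph.fromRel_adj] at this
    exact this.2
  by_cases hall : ∀ i < d, π (v i) = v (i + 1)
  · exact ⟨d, le_rfl, hall, fun i h1 h2 => absurd h1 (by omega)⟩
  · push Not at hall
    have hex : ∃ i, i < d ∧ π (v i) ≠ v (i + 1) := hall
    refine ⟨Nat.find hex, (Nat.find_spec hex).1.le, ?_, ?_⟩
    · intro i hi
      have := Nat.find_min hex hi
      push Not at this
      exact this (hi.trans (Nat.find_spec hex).1)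
    · intro i hi
      induction i, hi using Nat.le_induction with
      | base =>
        intro hlt
        exact (hadj _ hlt).resolve_left (Nat.find_spec hex).2
      | succ i hi ih =>
        intro hlt
        refine (hadj _ hlt).resolve_left ?_
        rw [ih (by omega)]
        intro he
        have h1 : i ∈ {i | i ≤ d} := by
          show i ≤ d
          omega
        have h2 : i + 1 + 1 ∈ {i | i ≤ d} := by
          show i + 1 + 1 ≤ d
          omega
        have := hv h1 h2 he
        omega

theorem path_prob {n : ℕ} (hn : 1 ≤ n) (d : ℕ) (v : ℕ → Fin n)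
    (hv : Set.InjOn v {i | i ≤ d}) :
    (((RT n).filter (fun π => ∀ i < d, (gr π).Adj (v i) (v (i + 1)))).card : ℝ) ≤
      (n : ℝ) ^ (n - 1) * ((d + 1) * (1 / (n : ℝ)) ^ d) := by
  obtain ⟨idx, hidx⟩ : ∃ idx : Fin n → ℕ, ∀ i ≤ d, idx (v i) = i := by
    refine ⟨fun w => if h : ∃ i, i ≤ d ∧ v i = w then h.choose else 0, ?_⟩
    intro i hi
    have hex : ∃ j, j ≤ d ∧ v j = v i := ⟨i, hi, rfl⟩
    simp only [hex, dif_pos]
    exact hv (show hex.choose ∈ {i | i ≤ d} from hex.choose_spec.1)
      (show i ∈ {i | i ≤ d} from hi) hex.choose_spec.2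
  set D : ℕ → Finset (Fin n) := fun k => ((range (d + 1)).erase k).image v with hD
  set g : ℕ → Fin n → Fin n :=
    fun k w => if idx w < k then v (idx w + 1) else v (idx w - 1) with hg
  have hcardD : ∀ k ∈ range (d + 1), (D k).card = d := by
    intro k hk
    rw [hD]
    simp only
    rw [card_image_of_injOn, card_erase_of_mem hk, card_range]
    · omega
    · intro i hi j hj hij
      rw [mem_coe, mem_erase, mem_range] at hi hj
      exact hv (show i ∈ {i | i ≤ d} by show i ≤ d; omega)
        (show j ∈ {i | i ≤ d} by show j ≤ d; omega) hij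
  have hsub : (RT n).filter (fun π => ∀ i < d, (gr π).Adj (v i) (v (i + 1))) ⊆
      (range (d + 1)).biUnion (fun k => (RT n).filter (fun π => ∀ w ∈ D k, π w = g k w)) := by
    intro π hπ
    rw [mem_filter] at hπ
    obtain ⟨k, hk, h1, h2⟩ := path_orient π d v hv hπ.2
    rw [mem_biUnion]
    refine ⟨k, mem_range.2 (by omega), ?_⟩
    rw [mem_filter]
    refine ⟨hπ.1, ?_⟩
    intro w hw
    rw [hD] at hw
    obtain ⟨i, hi, rfl⟩ := mem_image.1 hw
    rw [mem_erase, mem_range] at hi
    rw [hg]
    simp only
    rw [hidx i (by omega)]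
    rcases lt_or_gt_of_ne hi.1 with hlt | hgt
    · rw [if_pos hlt, h1 i hlt]
    · rw [if_neg (by omega)]
      obtain ⟨j, rfl⟩ : ∃ j, i = j + 1 := ⟨i - 1, by omega⟩
      rw [h2 j (by omega) (by omega)]
      simp
  calc (((RT n).filter (fun π => ∀ i < d, (gr π).Adj (v i) (v (i + 1)))).card : ℝ)
      ≤ (((range (d + 1)).biUnion
          (fun k => (RT n).filter (fun π => ∀ w ∈ D k, π w = g k w))).card : ℝ) := by
        exact_mod_cast card_le_card hsub
    _ ≤ ∑ k ∈ range (d + 1),
        (((RT n).filter (fun π => ∀ w ∈ D k, π w = g k w)).card : ℝ) := by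
        exact_mod_cast card_biUnion_le
    _ ≤ ∑ k ∈ range (d + 1), (n : ℝ) ^ (n - 1) * (1 / (n : ℝ)) ^ d := by
        refine sum_le_sum fun k hk => ?_
        have := card_RT_fix hn (D k) (g k) ?_
        · rwa [hcardD k hk] at this
        · intro w hw
          rw [hD] at hw
          obtain ⟨i, hi, rfl⟩ := mem_image.1 hw
          rw [mem_erase, mem_range] at hi
          rw [mem_range] at hk
          rw [hg]
          simp only
          rw [hidx i (by omega)]
          intro he
          rcases lt_or_gt_of_ne hi.1 with hlt | hgt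
          · rw [if_pos hlt] at he
            have := hv (show i + 1 ∈ {i | i ≤ d} by show i + 1 ≤ d; omega)
              (show i ∈ {i | i ≤ d} by show i ≤ d; omega) he
            omega
          · rw [if_neg (by omega)] at he
            have := hv (show i - 1 ∈ {i | i ≤ d} by show i - 1 ≤ d; omega)
              (show i ∈ {i | i ≤ d} by show i ≤ d; omega) he
            omega
    _ = (n : ℝ) ^ (n - 1) * ((d + 1) * (1 / (n : ℝ)) ^ d) := by
        rw [sum_const, card_range, nsmul_eq_mul]
        push_cast
        ring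

end

end Pool.Agent.ST3
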