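import Pool.Agent.Lib.MP_7abaca_co.Defs

/-!
# Windows on a path

`sum_wt_cyl`: weight of a cylinder; `wt_indep`: independence; `win`: a path survives in the
core with probability at most `q ^ (d / 5)`.
-/

set_option autoImplicit false

namespace Pool.Agent.ST3

open Finset Filter
open scoped Classical

noncomputable section

/-- weight of a value -/
def pw (ε : ℝ) (b : Bool) : ℝ := if b = true then ε else 1 - ε

theorem wt_eq {n : ℕ} (ε : ℝ) (ω : Sym2 (Fin n) → Bool) :
    wt ε ω = ∏ e : Sym2 (Fin n), pw ε (ω e) := rfl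

theorem wt_nonneg {n : ℕ} {ε : ℝ} (h0 : 0 ≤ ε) (h1 : ε ≤ 1) (ω : Sym2 (Fin n) → Bool) :
    0 ≤ wt ε ω := by
  rw [wt_eq]
  refine prod_nonneg fun e _ => ?_
  unfold pw
  split_ifs
  · exact h0
  · linarith

/-- weight of a cylinder -/
theorem sum_wt_cyl {n : ℕ} (ε : ℝ) (J : Finset (Sym2 (Fin n))) (τ : Sym2 (Fin n) → Bool) :
    ∑ ω : Sym2 (Fin n) → Bool, wt ε ω * (if ∀ e ∈ J, ω e = τ e then 1 else 0) =
      ∏ e ∈ J, pw ε (τ e) := by
  have h1 : ∀ ω : Sym2 (Fin n) → Bool, wt ε ω * (if ∀ e ∈ J, ω e = τ e then 1 else 0) =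
      ∏ e, (pw ε (ω e) * (if e ∈ J then (if ω e = τ e then 1 else 0) else 1)) := by
    intro ω
    rw [prod_mul_distrib, ← wt_eq]
    congr 1
    by_cases h : ∀ e ∈ J, ω e = τ e
    · rw [if_pos h, eq_comm]
      refine prod_eq_one fun e _ => ?_
      by_cases he : e ∈ J
      · rw [if_pos he, if_pos (h e he)]
      · rw [if_neg he]
    · rw [if_neg h, eq_comm]
      push Not at h
      obtain ⟨e, he, hne⟩ := h
      refine prod_eq_zero (mem_univ e) ?_
      rw [if_pos he, if_neg hne]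
  rw [sum_congr rfl fun ω _ => h1 ω]
  have h2 := (prod_univ_sum (fun _ : Sym2 (Fin n) => (univ : Finset Bool))
    (fun e b => pw ε b * (if e ∈ J then (if b = τ e then 1 else 0) else 1))).symm
  rw [Fintype.piFinset_univ] at h2
  rw [h2, ← prod_subset (subset_univ J)]
  · refine prod_congr rfl fun e he => ?_
    simp only [he, if_true, mul_ite, mul_one, mul_zero]
    rw [sum_ite_eq' univ (τ e)]
    simp
  · intro e _ he
    simp only [he, if_false, mul_one, Fintype.sum_bool]
    unfold pw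
    simp

theorem sum_wt {n : ℕ} (ε : ℝ) : ∑ ω : Sym2 (Fin n) → Bool, wt ε ω = 1 := by
  have := sum_wt_cyl (n := n) ε ∅ (fun _ => true)
  simpa using this

/-- independence -/
theorem wt_indep {n : ℕ} (ε : ℝ) (A : Finset (Sym2 (Fin n)))
    (f g : (Sym2 (Fin n) → Bool) → ℝ)
    (hf : ∀ ω ω', (∀ e ∈ A, ω e = ω' e) → f ω = f ω')
    (hg : ∀ ω ω', (∀ e, e ∉ A → ω e = ω' e) → g ω = g ω') :
    ∑ ω, wt ε ω * (f ω * g ω) = (∑ ω, wt ε ω * f ω) * ∑ ω, wt ε ω * g ω := by
  have h1 : ∑ ω, wt ε ω * (f ω * g ω) =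
      ∑ p : (Sym2 (Fin n) → Bool) × (Sym2 (Fin n) → Bool),
        (wt ε p.1 * (f p.1 * g p.1)) * wt ε p.2 := by
    rw [Fintype.sum_prod_type]
    simp only
    refine sum_congr rfl fun ω _ => ?_
    rw [← mul_sum, sum_wt, mul_one]
  have h2 : (∑ ω, wt ε ω * f ω) * ∑ ω, wt ε ω * g ω =
      ∑ p : (Sym2 (Fin n) → Bool) × (Sym2 (Fin n) → Bool),
        (wt ε p.1 * f p.1) * (wt ε p.2 * g p.2) := by
    rw [Fintype.sum_prod_type, sum_mul_sum]
  rw [h1, h2]
  let σ : (Sym2 (Fin n) → Bool) × (Sym2 (Fin n) → Bool) →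
      (Sym2 (Fin n) → Bool) × (Sym2 (Fin n) → Bool) :=
    fun p => (A.piecewise p.1 p.2, A.piecewise p.2 p.1)
  have hσ : ∀ p, σ (σ p) = p := by
    intro p
    refine Prod.ext ?_ ?_
    · funext e
      show A.piecewise (A.piecewise p.1 p.2) (A.piecewise p.2 p.1) e = p.1 e
      by_cases he : e ∈ A
      · simp [he]
      · simp [he]
    · funext e
      show A.piecewise (A.piecewise p.2 p.1) (A.piecewise p.1 p.2) e = p.2 e
      by_cases he : e ∈ A
      · simp [he]
      · simp [he]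
  refine sum_nbij' σ σ (fun _ _ => mem_univ _) (fun _ _ => mem_univ _)
    (fun p _ => hσ p) (fun p _ => hσ p) ?_
  intro p _
  show wt ε p.1 * (f p.1 * g p.1) * wt ε p.2 =
    (wt ε (A.piecewise p.1 p.2) * f (A.piecewise p.1 p.2)) *
      (wt ε (A.piecewise p.2 p.1) * g (A.piecewise p.2 p.1))
  have e1 : f (A.piecewise p.1 p.2) = f p.1 := hf _ _ fun e he => by simp [he]
  have e2 : g (A.piecewise p.2 p.1) = g p.1 := hg _ _ fun e he => by simp [he]
  have e3 : wt ε (A.piecewise p.1 p.2) * wt ε (A.piecewise p.2 p.1) = wt ε p.1 * wt ε p.2 := by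
    simp only [wt_eq]
    rw [← prod_mul_distrib, ← prod_mul_distrib]
    refine prod_congr rfl fun e _ => ?_
    by_cases he : e ∈ A
    · simp [he]
    · simp [he, mul_comm]
  rw [e1, e2]
  linear_combination (-(f p.1 * g p.1)) * e3

theorem edge_inj {n d : ℕ} {v : ℕ → Fin n} (hv : Set.InjOn v {i | i ≤ d}) {i j : ℕ}
    (hi : i < d) (hj : j < d) (h : s(v i, v (i + 1)) = s(v j, v (j + 1))) : i = j := by
  rw [Sym2.eq_iff] at h
  rcases h with ⟨h1, _⟩ | ⟨h1, h2⟩
  · exact hv (show i ≤ d by omega) (show j ≤ d by omega) h1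
  · have e1 := hv (show i ∈ {i | i ≤ d} from (by show i ≤ d; omega))
      (show j + 1 ∈ {i | i ≤ d} from (by show j + 1 ≤ d; omega)) h1
    have e2 := hv (show i + 1 ∈ {i | i ≤ d} from (by show i + 1 ≤ d; omega))
      (show j ∈ {i | i ≤ d} from (by show j ≤ d; omega)) h2
    omega

theorem not_lam_of_three {n : ℕ} (F : SimpleGraph (Fin n)) (a x y z : Fin n)
    (hxy : x ≠ y) (hxz : x ≠ z) (hyz : y ≠ z) (hx : F.Reachable x a) (hy : F.Reachable y a)
    (hz : F.Reachable z a) : a ∉ lam F := by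
  intro h
  unfold lam at h
  rw [mem_filter] at h
  have hsub : ((({x, y, z} : Finset (Fin n)) : Set (Fin n))) ⊆
      (F.connectedComponentMk a).supp := by
    intro w hw
    rw [SimpleGraph.ConnectedComponent.mem_supp_iff, SimpleGraph.ConnectedComponent.eq]
    rw [mem_coe, mem_insert, mem_insert, mem_singleton] at hw
    rcases hw with rfl | rfl | rfl
    · exact hx
    · exact hy
    · exact hz
  have h1 := Set.ncard_le_ncard hsub (Set.toFinite _)
  rw [Set.ncard_coe_finset, card_insert_of_notMem (by simp [hxy, hxz]),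
    card_insert_of_notMem (by simp [hyz]), card_singleton] at h1
  omega

/-- the event that a window blocks the path -/
def blkW {n : ℕ} (v : ℕ → Fin n) (k : ℕ) (ω : Sym2 (Fin n) → Bool) : Prop :=
  ∀ j < 5, ω s(v (5 * k + j), v (5 * k + j + 1)) = decide (j = 2)

theorem not_core_of_blkW {n : ℕ} (T : SimpleGraph (Fin n)) (d : ℕ)
    (v : ℕ → Fin n) (hv : Set.InjOn v {i | i ≤ d}) (hT : ∀ i < d, T.Adj (v i) (v (i + 1)))
    (ω : Sym2 (Fin n) → Bool) {k : ℕ} (hk : k < d / 5) (hb : blkW v k ω) :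
    ¬ (core T (keep T ω)).Adj (v (5 * k + 2)) (v (5 * k + 2 + 1)) := by
  have hd : 5 * k + 5 ≤ d := by omega
  have hadj : ∀ j < 5, j ≠ 2 → (keep T ω).Adj (v (5 * k + j)) (v (5 * k + j + 1)) := by
    intro j hj hj2
    refine ⟨hT _ (by omega), ?_⟩
    rw [hb j hj]
    simp [hj2]
  have hne : ∀ i j, i ≤ 5 → j ≤ 5 → i ≠ j → v (5 * k + i) ≠ v (5 * k + j) := by
    intro i j hi hj hij he
    have := hv (show 5 * k + i ∈ {i | i ≤ d} from (by show 5 * k + i ≤ d; omega))
      (show 5 * k + j ∈ {i | i ≤ d} from (by show 5 * k + j ≤ d; omega)) he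
    omega
  rintro ⟨_, h | h | h⟩
  · have h1 := h.2
    rw [hb 2 (by norm_num)] at h1
    simp at h1
  · refine not_lam_of_three (keep T ω) _ (v (5 * k + 0)) (v (5 * k + 1)) (v (5 * k + 2))
      (hne 0 1 (by norm_num) (by norm_num) (by norm_num))
      (hne 0 2 (by norm_num) (by norm_num) (by norm_num))
      (hne 1 2 (by norm_num) (by norm_num) (by norm_num)) ?_ ?_ ?_ h
    · exact (hadj 0 (by norm_num) (by norm_num)).reachable.trans
        (hadj 1 (by norm_num) (by norm_num)).reachable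
    · exact (hadj 1 (by norm_num) (by norm_num)).reachable
    · exact SimpleGraph.Reachable.refl _
  · refine not_lam_of_three (keep T ω) _ (v (5 * k + 3)) (v (5 * k + 4)) (v (5 * k + 5))
      (hne 3 4 (by norm_num) (by norm_num) (by norm_num))
      (hne 3 5 (by norm_num) (by norm_num) (by norm_num))
      (hne 4 5 (by norm_num) (by norm_num) (by norm_num)) ?_ ?_ ?_ h
    · exact SimpleGraph.Reachable.refl _
    · exact (hadj 3 (by norm_num) (by norm_num)).reachable.symm
    · exact ((hadj 3 (by norm_num) (by norm_num)).reachable.trans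
        (hadj 4 (by norm_num) (by norm_num)).reachable).symm

theorem sum_blkW {n : ℕ} (ε : ℝ) (d : ℕ) (v : ℕ → Fin n) (hv : Set.InjOn v {i | i ≤ d})
    {k : ℕ} (hk : k < d / 5) :
    ∑ ω : Sym2 (Fin n) → Bool, wt ε ω * (1 - if blkW v k ω then 1 else 0) =
      1 - ε * (1 - ε) ^ 4 := by
  simp only [mul_sub, mul_one]
  rw [sum_sub_distrib, sum_wt]
  congr 1
  have hinj : Set.InjOn (fun j => s(v (5 * k + j), v (5 * k + j + 1)))
      ((range 5 : Finset ℕ) : Set ℕ) := by
    intro i hi j hj hij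
    rw [mem_coe, mem_range] at hi hj
    have := edge_inj hv (i := 5 * k + i) (j := 5 * k + j) (by omega) (by omega) hij
    omega
  have hcyl := sum_wt_cyl ε ((range 5).image (fun j => s(v (5 * k + j), v (5 * k + j + 1))))
    (fun e => decide (e = s(v (5 * k + 2), v (5 * k + 2 + 1))))
  rw [prod_image hinj] at hcyl
  have hdec : ∀ j < 5, decide (s(v (5 * k + j), v (5 * k + j + 1)) =
      s(v (5 * k + 2), v (5 * k + 2 + 1))) = decide (j = 2) := by
    intro j hj
    congr 1
    rw [eq_iff_iff]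
    constructor
    · intro h
      have := edge_inj hv (i := 5 * k + j) (j := 5 * k + 2) (by omega) (by omega) h
      omega
    · rintro rfl
      rfl
  have h1 : ∀ ω : Sym2 (Fin n) → Bool, (blkW v k ω ↔
      ∀ e ∈ (range 5).image (fun j => s(v (5 * k + j), v (5 * k + j + 1))),
        ω e = decide (e = s(v (5 * k + 2), v (5 * k + 2 + 1)))) := by
    intro ω
    unfold blkW
    constructor
    · intro h e he
      obtain ⟨j, hj, rfl⟩ := mem_image.1 he
      rw [mem_range] at hj
      rw [h j hj, hdec j hj]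
    · intro h j hj
      rw [h _ (mem_image_of_mem _ (mem_range.2 hj)), hdec j hj]
  have h2 : ∑ ω : Sym2 (Fin n) → Bool, wt ε ω * (if blkW v k ω then (1 : ℝ) else 0) =
      ∏ j ∈ range 5, pw ε (decide (j = 2)) := by
    rw [sum_congr rfl fun ω _ => by rw [if_congr (h1 ω) rfl rfl]]
    rw [hcyl]
    exact prod_congr rfl fun j hj => by rw [hdec j (mem_range.1 hj)]
  rw [h2]
  simp [prod_range_succ, pw]
  ring

theorem sum_blkW_prod {n : ℕ} (ε : ℝ) (d : ℕ) (v : ℕ → Fin n) (hv : Set.InjOn v {i | i ≤ d})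
    (m : ℕ) : m ≤ d / 5 →
    ∑ ω : Sym2 (Fin n) → Bool, wt ε ω * ∏ k ∈ range m, (1 - if blkW v k ω then (1 : ℝ) else 0) =
      (1 - ε * (1 - ε) ^ 4) ^ m := by
  induction m with
  | zero =>
    intro _
    simp [sum_wt]
  | succ m ih =>
    intro hm
    have hind := wt_indep ε ((range (5 * m)).image (fun i => s(v i, v (i + 1))))
      (fun ω => ∏ k ∈ range m, (1 - if blkW v k ω then (1 : ℝ) else 0))
      (fun ω => 1 - if blkW v m ω then (1 : ℝ) else 0) ?_ ?_
    · simp only [prod_range_succ]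
      rw [hind, ih (by omega), sum_blkW ε d v hv (by omega)]
      ring
    · intro ω ω' h
      refine prod_congr rfl fun k hk => ?_
      rw [mem_range] at hk
      have : blkW v k ω ↔ blkW v k ω' := by
        unfold blkW
        refine forall_congr' fun j => forall_congr' fun hj => ?_
        rw [h _ (mem_image.2 ⟨5 * k + j, mem_range.2 (by omega), rfl⟩)]
      rw [if_congr this rfl rfl]
    · intro ω ω' h
      have : blkW v m ω ↔ blkW v m ω' := by
        unfold blkW
        refine forall_congr' fun j => forall_congr' fun hj => ?_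
        rw [h]
        intro hmem
        obtain ⟨i, hi, he⟩ := mem_image.1 hmem
        rw [mem_range] at hi
        have := edge_inj hv (i := i) (j := 5 * m + j) (by omega) (by omega) he
        omega
      show (1 - if blkW v m ω then (1 : ℝ) else 0) = 1 - if blkW v m ω' then (1 : ℝ) else 0
      rw [if_congr this rfl rfl]

theorem win {n : ℕ} (ε : ℝ) (hε0 : 0 ≤ ε) (hε1 : ε ≤ 1) (T : SimpleGraph (Fin n)) (d : ℕ)
    (v : ℕ → Fin n) (hv : Set.InjOn v {i | i ≤ d}) (hT : ∀ i < d, T.Adj (v i) (v (i + 1))) :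
    ∑ ω : Sym2 (Fin n) → Bool,
      (if ∀ i < d, (core T (keep T ω)).Adj (v i) (v (i + 1)) then wt ε ω else 0) ≤
      (1 - ε * (1 - ε) ^ 4) ^ (d / 5) := by
  rw [← sum_blkW_prod ε d v hv (d / 5) le_rfl]
  refine sum_le_sum fun ω _ => ?_
  by_cases h : ∀ i < d, (core T (keep T ω)).Adj (v i) (v (i + 1))
  · rw [if_pos h]
    have : ∏ k ∈ range (d / 5), (1 - if blkW v k ω then (1 : ℝ) else 0) = 1 := by
      refine prod_eq_one fun k hk => ?_
      rw [mem_range] at hk
      rw [if_neg, sub_zero]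
      intro hb
      exact not_core_of_blkW T d v hv hT ω hk hb (h _ (by omega))
    rw [this, mul_one]
  · rw [if_neg h]
    refine mul_nonneg (wt_nonneg hε0 hε1 ω) (prod_nonneg fun k _ => ?_)
    split_ifs <;> norm_num

end

end Pool.Agent.ST3
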