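import Pool.Agent.Lib.MP_7abaca_co.Defs
import Pool.Agent.Lib.MP_7abaca_co.Path
import Pool.Agent.Lib.MP_7abaca_co.Win
import Pool.Agent.Lib.MP_7abaca_co.RCount

set_option autoImplicit false

namespace Pool.Agent.ST3

open Finset Filter
open scoped Classical

noncomputable section

namespace BlkX

/-- finite sequences of vertices -/
abbrev Sq (n : ℕ) : Type := Σ d : Fin n, (Fin (d.1 + 1) → Fin n)

/-- a sequence as a function on the natural numbers -/
def ext {n : ℕ} (x : Sq n) : ℕ → Fin n := fun i => x.2 (Fin.ofNat (x.1.1 + 1) i)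

/-- the sequence is an injective path of the graph -/
def PathIn {n : ℕ} (C : SimpleGraph (Fin n)) (x : Sq n) : Prop :=
  Set.InjOn (ext x) {i | i ≤ x.1.1} ∧ ∀ i < x.1.1, C.Adj (ext x i) (ext x (i + 1))

theorem sum_comp_le {n : ℕ} (C : SimpleGraph (Fin n)) :
    ∑ v, (C.connectedComponentMk v).supp.ncard ≤ ∑ x : Sq n, (if PathIn C x then 1 else 0) := by
  have h1 : ∀ v, (C.connectedComponentMk v).supp.ncard =
      (univ.filter fun w => C.Reachable v w).card := by
    intro v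
    rw [← Set.ncard_coe_finset]
    congr 1
    ext w
    simp only [SimpleGraph.ConnectedComponent.mem_supp_iff, SimpleGraph.ConnectedComponent.eq,
      Finset.coe_filter, Finset.mem_univ, true_and, Set.mem_ofPred_eq]
    exact ⟨fun h => h.symm, fun h => h.symm⟩
  have h2 : ∑ v, (C.connectedComponentMk v).supp.ncard =
      (univ.filter fun p : Fin n × Fin n => C.Reachable p.1 p.2).card := by
    rw [Finset.sum_congr rfl fun v _ => h1 v]
    rw [Finset.card_filter, ← Finset.univ_product_univ, Finset.sum_product]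
    exact Finset.sum_congr rfl fun v _ => by rw [Finset.card_filter]
  rw [h2, ← Finset.card_filter]
  have h3 : (univ.filter fun p : Fin n × Fin n => C.Reachable p.1 p.2) ⊆
      (univ.filter fun x : Sq n => PathIn C x).image fun x => (ext x 0, ext x x.1.1) := by
    intro p hp
    rw [Finset.mem_filter] at hp
    obtain ⟨q, hq⟩ := hp.2.exists_isPath
    have hl : q.length < n := by simpa using hq.length_lt
    rw [Finset.mem_image]
    refine ⟨⟨⟨q.length, hl⟩, fun j => q.getVert j.1⟩, ?_, ?_⟩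
    · rw [Finset.mem_filter]
      refine ⟨Finset.mem_univ _, ?_, ?_⟩
      · intro i hi j hj hij
        simp only [Set.mem_ofPred_eq] at hi hj
        simp only [ext, Fin.ofNat] at hij
        rw [Nat.mod_eq_of_lt (by omega), Nat.mod_eq_of_lt (by omega)] at hij
        exact hq.getVert_injOn hi hj hij
      · intro i hi
        simp only at hi
        simp only [ext, Fin.ofNat]
        rw [Nat.mod_eq_of_lt (by omega), Nat.mod_eq_of_lt (by omega)]
        exact q.adj_getVert_succ hi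
    · simp only [ext, Fin.ofNat]
      rw [Nat.mod_eq_of_lt (by omega), Nat.mod_eq_of_lt (by omega)]
      rw [q.getVert_zero, q.getVert_length]
  exact (Finset.card_le_card h3).trans Finset.card_image_le

theorem big_le {n : ℕ} (C : SimpleGraph (Fin n)) (K : ℕ) :
    (K + 1) * big C K ≤ ∑ v, (C.connectedComponentMk v).supp.ncard := by
  unfold big
  rw [mul_comm, ← smul_eq_mul]
  calc (univ.filter fun v => K < (C.connectedComponentMk v).supp.ncard).card • (K + 1) ≤
      ∑ v ∈ univ.filter fun v => K < (C.connectedComponentMk v).supp.ncard,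
        (C.connectedComponentMk v).supp.ncard :=
        Finset.card_nsmul_le_sum _ _ _ fun v hv => (Finset.mem_filter.1 hv).2
    _ ≤ _ := Finset.sum_le_sum_of_subset (Finset.filter_subset _ _)

theorem wt_nonneg {n : ℕ} {ε : ℝ} (h0 : 0 ≤ ε) (h1 : ε ≤ 1) (ω : Sym2 (Fin n) → Bool) :
    0 ≤ wt ε ω := by
  unfold wt
  refine Finset.prod_nonneg fun e _ => ?_
  split_ifs
  · exact h0
  · linarith

theorem core_le {n : ℕ} (T F : SimpleGraph (Fin n)) : core T F ≤ T := fun _ _ h => h.1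

theorem omega_sum {n : ℕ} {ε : ℝ} (h0 : 0 ≤ ε) (h1 : ε ≤ 1) (T : SimpleGraph (Fin n)) :
    ∑ ω : Sym2 (Fin n) → Bool, wt ε ω *
      ((∑ v, ((core T (keep T ω)).connectedComponentMk v).supp.ncard : ℕ) : ℝ) ≤
      ∑ x : Sq n, (if PathIn T x then (1 - ε * (1 - ε) ^ 4) ^ (x.1.1 / 5) else 0) := by
  calc ∑ ω : Sym2 (Fin n) → Bool, wt ε ω *
      ((∑ v, ((core T (keep T ω)).connectedComponentMk v).supp.ncard : ℕ) : ℝ)
      ≤ ∑ ω : Sym2 (Fin n) → Bool, wt ε ω *
        ∑ x : Sq n, (if PathIn (core T (keep T ω)) x then (1 : ℝ) else 0) := by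
        refine Finset.sum_le_sum fun ω _ => ?_
        apply mul_le_mul_of_nonneg_left _ (wt_nonneg h0 h1 ω)
        have := sum_comp_le (core T (keep T ω))
        calc ((∑ v, ((core T (keep T ω)).connectedComponentMk v).supp.ncard : ℕ) : ℝ) ≤
            ((∑ x : Sq n, (if PathIn (core T (keep T ω)) x then 1 else 0) : ℕ) : ℝ) := by
              exact_mod_cast this
          _ = _ := by push_cast; rfl
    _ = ∑ x : Sq n, ∑ ω : Sym2 (Fin n) → Bool,
          (if PathIn (core T (keep T ω)) x then wt ε ω else 0) := by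
        simp only [Finset.mul_sum, mul_ite, mul_one, mul_zero]
        exact Finset.sum_comm
    _ ≤ _ := by
        refine Finset.sum_le_sum fun x _ => ?_
        by_cases hx : PathIn T x
        · rw [if_pos hx]
          refine le_trans (Finset.sum_le_sum fun ω _ => ?_) (win ε h0 h1 T x.1.1 (ext x) hx.1 hx.2)
          by_cases h2 : PathIn (core T (keep T ω)) x
          · rw [if_pos h2, if_pos h2.2]
          · rw [if_neg h2]
            split_ifs
            · exact wt_nonneg h0 h1 ω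
            · exact le_refl 0
        · rw [if_neg hx]
          apply le_of_eq
          apply Finset.sum_eq_zero
          intro ω _
          rw [if_neg]
          intro h2
          exact hx ⟨h2.1, fun i hi => core_le _ _ (h2.2 i hi)⟩

theorem tree_sum {n : ℕ} (hn : 1 ≤ n) {q : ℝ} (hq : 0 ≤ q) :
    ∑ π ∈ RT n, ∑ x : Sq n, (if PathIn (gr π) x then q ^ (x.1.1 / 5) else 0) ≤
      (n : ℝ) ^ n * ∑ d ∈ range n, ((d : ℝ) + 1) * q ^ (d / 5) := by
  have hn' : (0 : ℝ) < n := by exact_mod_cast hn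
  rw [Finset.sum_comm]
  have h1 : ∀ x : Sq n, ∑ π ∈ RT n, (if PathIn (gr π) x then q ^ (x.1.1 / 5) else 0) ≤
      (n : ℝ) ^ (n - 1) * (((x.1.1 : ℝ) + 1) * (1 / (n : ℝ)) ^ x.1.1) * q ^ (x.1.1 / 5) := by
    intro x
    by_cases hx : Set.InjOn (ext x) {i | i ≤ x.1.1}
    · rw [← Finset.sum_filter, Finset.sum_const, nsmul_eq_mul]
      apply mul_le_mul_of_nonneg_right _ (pow_nonneg hq _)
      refine le_trans ?_ (path_prob hn x.1.1 (ext x) hx)
      exact_mod_cast Finset.card_le_card fun π hπ => by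
        rw [Finset.mem_filter] at hπ ⊢
        exact ⟨hπ.1, hπ.2.2⟩
    · have h2 : ∑ π ∈ RT n, (if PathIn (gr π) x then q ^ (x.1.1 / 5) else 0) = 0 :=
        Finset.sum_eq_zero fun π _ => if_neg fun h => hx h.1
      rw [h2]
      positivity
  refine (Finset.sum_le_sum fun x _ => h1 x).trans ?_
  rw [Fintype.sum_sigma]
  have h3 : ∀ d : Fin n, ∑ f : Fin (d.1 + 1) → Fin n,
      (n : ℝ) ^ (n - 1) * (((d.1 : ℝ) + 1) * (1 / (n : ℝ)) ^ d.1) * q ^ (d.1 / 5) =
      (n : ℝ) ^ n * (((d.1 : ℝ) + 1) * q ^ (d.1 / 5)) := by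
    intro d
    rw [Finset.sum_const, Finset.card_univ, nsmul_eq_mul]
    simp only [Fintype.card_fun, Fintype.card_fin]
    have h4 : (n : ℝ) ^ n = (n : ℝ) ^ (n - 1) * n := by
      rw [← pow_succ]; congr 1; omega
    rw [h4]
    push_cast
    rw [one_div, inv_pow, pow_succ]
    field_simp
  rw [Finset.mul_sum, ← Fin.sum_univ_eq_sum_range
    (fun d => (n : ℝ) ^ n * (((d : ℝ) + 1) * q ^ (d / 5)))]
  exact le_of_eq (Finset.sum_congr rfl fun d _ => h3 d)

theorem exists_bound {q : ℝ} (hq0 : 0 < q) (hq1 : q < 1) :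
    ∃ C : ℝ, 0 < C ∧ ∀ n : ℕ, ∑ d ∈ range n, ((d : ℝ) + 1) * q ^ (d / 5) ≤ C := by
  set r : ℝ := q ^ ((1 : ℝ) / 5) with hr
  have hr0 : 0 < r := Real.rpow_pos_of_pos hq0 _
  have hr1 : r < 1 := Real.rpow_lt_one hq0.le hq1 (by norm_num)
  have hr5 : r ^ 5 = q := by
    rw [hr, ← Real.rpow_natCast, ← Real.rpow_mul hq0.le]
    norm_num
  have hs : Summable fun d : ℕ => ((d : ℝ) + 1) * r ^ d := by
    have h1 := summable_pow_mul_geometric_of_norm_lt_one (R := ℝ) 1
      (r := r) (by rw [Real.norm_eq_abs, abs_of_pos hr0]; exact hr1)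
    have h2 := summable_pow_mul_geometric_of_norm_lt_one (R := ℝ) 0
      (r := r) (by rw [Real.norm_eq_abs, abs_of_pos hr0]; exact hr1)
    have h3 := h1.add h2
    refine h3.congr fun d => ?_
    simp only [pow_one, pow_zero]
    ring
  have hle : ∀ d : ℕ, ((d : ℝ) + 1) * q ^ (d / 5) ≤ (((d : ℝ) + 1) * r ^ d) / r ^ 4 := by
    intro d
    rw [le_div_iff₀ (by positivity), mul_assoc]
    apply mul_le_mul_of_nonneg_left _ (by positivity)
    rw [← hr5, ← pow_mul, ← pow_add]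
    exact pow_le_pow_of_le_one hr0.le hr1.le (by omega)
  refine ⟨(∑' d : ℕ, ((d : ℝ) + 1) * r ^ d) / r ^ 4 + 1, ?_, ?_⟩
  · have : 0 ≤ ∑' d : ℕ, ((d : ℝ) + 1) * r ^ d := tsum_nonneg fun d => by positivity
    positivity
  · intro n
    calc ∑ d ∈ range n, ((d : ℝ) + 1) * q ^ (d / 5) ≤
        ∑ d ∈ range n, (((d : ℝ) + 1) * r ^ d) / r ^ 4 := Finset.sum_le_sum fun d _ => hle d
      _ = (∑ d ∈ range n, ((d : ℝ) + 1) * r ^ d) / r ^ 4 := by rw [Finset.sum_div]
      _ ≤ (∑' d : ℕ, ((d : ℝ) + 1) * r ^ d) / r ^ 4 := by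
          apply div_le_div_of_nonneg_right _ (by positivity)
          exact hs.sum_le_tsum _ fun d _ => by positivity
      _ ≤ _ := by linarith

theorem sum_RT3 {n : ℕ} (hn : 1 ≤ n) (g : (Fin n → Fin n) → ℝ) :
    ∑ π ∈ RT3 n, g (π 2) = ((n : ℝ) ^ (n - 1)) ^ 2 * ∑ π ∈ RT n, g π := by
  have h1 : RT3 n = Fintype.piFinset fun _ : Fin 3 => RT n := by
    ext π
    simp [RT3, Fintype.mem_piFinset]
  have h2 := Finset.prod_univ_sum (fun _ : Fin 3 => RT n)
    (fun (i : Fin 3) (π : Fin n → Fin n) => if i = 2 then g π else (1 : ℝ))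
  rw [h1]
  have h3 : ∀ π : Fin 3 → Fin n → Fin n,
      ∏ i : Fin 3, (if i = 2 then g (π i) else (1 : ℝ)) = g (π 2) := by
    intro π
    rw [Fin.prod_univ_three]
    simp
  simp only [h3] at h2
  rw [← h2, Fin.prod_univ_three]
  have h4 : ((RT n).card : ℝ) = (n : ℝ) ^ (n - 1) := by
    rw [card_RT hn]; push_cast; rfl
  have e0 : (∑ j ∈ RT n, if (0 : Fin 3) = 2 then g j else (1 : ℝ)) = (n : ℝ) ^ (n - 1) := by
    simp [h4]
  have e1 : (∑ j ∈ RT n, if (1 : Fin 3) = 2 then g j else (1 : ℝ)) = (n : ℝ) ^ (n - 1) := by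
    simp [h4]
  have e2 : (∑ j ∈ RT n, if (2 : Fin 3) = 2 then g j else (1 : ℝ)) = ∑ j ∈ RT n, g j := by
    simp
  rw [e0, e1, e2]
  ring

end BlkX

open BlkX in
theorem blk (ε δ η : ℝ) (hε0 : 0 < ε) (hε1 : ε < 1) (hδ : 0 < δ) (hη : 0 < η) :
    ∃ K : ℕ, ∀ n : ℕ, 3 ≤ n →
      Pr n ε (fun π ω => δ * n < (big (core (gr (π 2)) (keep (gr (π 2)) ω)) K : ℝ)) ≤ η := by
  set q : ℝ := 1 - ε * (1 - ε) ^ 4 with hq
  have he : 0 < 1 - ε := by linarith
  have hp : (1 - ε) ^ 4 ≤ 1 := pow_le_one₀ he.le (by linarith)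
  have hq1 : q < 1 := by
    have : 0 < ε * (1 - ε) ^ 4 := by positivity
    linarith
  have hq0 : 0 < q := by
    have : ε * (1 - ε) ^ 4 ≤ ε * 1 := mul_le_mul_of_nonneg_left hp hε0.le
    linarith
  obtain ⟨C, hC0, hC⟩ := exists_bound hq0 hq1
  obtain ⟨K, hK⟩ := exists_nat_ge (C / (δ * η))
  refine ⟨K, fun n hn => ?_⟩
  have hn1 : 1 ≤ n := by omega
  have hn' : (0 : ℝ) < n := by exact_mod_cast (by omega : 0 < n)
  have hK1 : (0 : ℝ) < (K : ℝ) + 1 := by positivity
  unfold Pr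
  rw [div_le_iff₀ (by positivity)]
  set Q : (Fin n → Fin n) → (Sym2 (Fin n) → Bool) → ℝ := fun π ω =>
    ((∑ v, ((core (gr π) (keep (gr π) ω)).connectedComponentMk v).supp.ncard : ℕ) : ℝ) with hQ
  have h1 : ∀ (π : Fin 3 → Fin n → Fin n) (ω : Sym2 (Fin n) → Bool),
      (if δ * n < (big (core (gr (π 2)) (keep (gr (π 2)) ω)) K : ℝ) then wt ε ω else 0) ≤
      (1 / (((K : ℝ) + 1) * (δ * n))) * (wt ε ω * Q (π 2) ω) := by
    intro π ω
    have hw := wt_nonneg hε0.le hε1.le ω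
    split_ifs with h2
    · have h3 : ((K : ℝ) + 1) * (big (core (gr (π 2)) (keep (gr (π 2)) ω)) K : ℝ) ≤ Q (π 2) ω := by
        simp only [hQ]
        exact_mod_cast big_le (core (gr (π 2)) (keep (gr (π 2)) ω)) K
      have h4 : ((K : ℝ) + 1) * (δ * n) ≤ Q (π 2) ω :=
        (mul_le_mul_of_nonneg_left h2.le hK1.le).trans h3
      rw [one_div, inv_mul_eq_div, le_div_iff₀ (by positivity)]
      exact mul_le_mul_of_nonneg_left h4 hw
    · have : 0 ≤ Q (π 2) ω := Nat.cast_nonneg _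
      positivity
  calc ∑ π ∈ RT3 n, ∑ ω : Sym2 (Fin n) → Bool,
      (if δ * n < (big (core (gr (π 2)) (keep (gr (π 2)) ω)) K : ℝ) then wt ε ω else 0)
      ≤ ∑ π ∈ RT3 n, ∑ ω : Sym2 (Fin n) → Bool,
        (1 / (((K : ℝ) + 1) * (δ * n))) * (wt ε ω * Q (π 2) ω) :=
        Finset.sum_le_sum fun π _ => Finset.sum_le_sum fun ω _ => h1 π ω
    _ = (1 / (((K : ℝ) + 1) * (δ * n))) * ∑ π ∈ RT3 n, ∑ ω : Sym2 (Fin n) → Bool,
        wt ε ω * Q (π 2) ω := by
        simp only [Finset.mul_sum]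
    _ = (1 / (((K : ℝ) + 1) * (δ * n))) * (((n : ℝ) ^ (n - 1)) ^ 2 *
        ∑ π ∈ RT n, ∑ ω : Sym2 (Fin n) → Bool, wt ε ω * Q π ω) := by
        rw [sum_RT3 hn1 fun π => ∑ ω : Sym2 (Fin n) → Bool, wt ε ω * Q π ω]
    _ ≤ (1 / (((K : ℝ) + 1) * (δ * n))) * (((n : ℝ) ^ (n - 1)) ^ 2 * ((n : ℝ) ^ n * C)) := by
        apply mul_le_mul_of_nonneg_left _ (by positivity)
        apply mul_le_mul_of_nonneg_left _ (by positivity)
        calc ∑ π ∈ RT n, ∑ ω : Sym2 (Fin n) → Bool, wt ε ω * Q π ω ≤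
            ∑ π ∈ RT n, ∑ x : Sq n, (if PathIn (gr π) x then q ^ (x.1.1 / 5) else 0) :=
              Finset.sum_le_sum fun π _ => omega_sum hε0.le hε1.le (gr π)
          _ ≤ (n : ℝ) ^ n * ∑ d ∈ range n, ((d : ℝ) + 1) * q ^ (d / 5) := tree_sum hn1 hq0.le
          _ ≤ _ := mul_le_mul_of_nonneg_left (hC n) (by positivity)
    _ = (C / (((K : ℝ) + 1) * δ)) * ((n : ℝ) ^ (n - 1)) ^ 3 := by
        have h4 : (n : ℝ) ^ n = (n : ℝ) ^ (n - 1) * n := by
          rw [← pow_succ]; congr 1; omega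
        rw [h4]
        field_simp
    _ ≤ η * ((n : ℝ) ^ (n - 1)) ^ 3 := by
        apply mul_le_mul_of_nonneg_right _ (by positivity)
        rw [div_le_iff₀ (by positivity)]
        rw [div_le_iff₀ (by positivity)] at hK
        nlinarith [mul_pos hδ hη]

end

end Pool.Agent.ST3
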