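import Pool.Agent.Lib.MP_7abaca_co.Defs

set_option autoImplicit false

namespace Pool.Agent.ST3

open Finset Filter
open scoped Classical

noncomputable section

/-! ### Parent functions and trees -/

theorem gr_adj {n : ℕ} (π : Fin n → Fin n) (a b : Fin n) :
    (gr π).Adj a b ↔ a ≠ b ∧ (π a = b ∨ π b = a) := by
  simp [gr, SimpleGraph.fromRel_adj]

theorem isRT_ne {n : ℕ} {r : Fin n} {π : Fin n → Fin n} (h : IsRT r π) {v : Fin n} (hv : v ≠ r) :
    π v ≠ v := by
  intro h1
  obtain ⟨k, hk⟩ := h.2 v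
  rw [Function.iterate_fixed h1] at hk
  exact hv hk

theorem isRT_no2 {n : ℕ} {r : Fin n} {π : Fin n → Fin n} (h : IsRT r π) {v : Fin n} (hv : v ≠ r) :
    π (π v) ≠ v := by
  intro h1
  have h2 : ∀ k : ℕ, π^[k] v = v ∨ π^[k] v = π v := by
    intro k
    induction k with
    | zero => exact Or.inl rfl
    | succ k ih =>
      rw [Function.iterate_succ_apply']
      rcases ih with ih | ih
      · exact Or.inr (by rw [ih])
      · exact Or.inl (by rw [ih, h1])
  obtain ⟨k, hk⟩ := h.2 v
  rcases h2 k with h3 | h3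
  · exact hv (h3.symm.trans hk)
  · have h4 : π v = r := h3.symm.trans hk
    rw [h4, h.1] at h1
    exact hv h1.symm

theorem isRT_reach {n : ℕ} {π : Fin n → Fin n} (v : Fin n) (k : ℕ) :
    (gr π).Reachable v (π^[k] v) := by
  induction k with
  | zero => exact SimpleGraph.Reachable.refl _
  | succ k ih =>
    rw [Function.iterate_succ_apply']
    by_cases h : π^[k] v = π (π^[k] v)
    · rw [← h]
      exact ih
    · exact ih.trans (SimpleGraph.Adj.reachable ((gr_adj _ _ _).2 ⟨h, Or.inl rfl⟩))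

theorem isRT_connected {n : ℕ} {r : Fin n} {π : Fin n → Fin n} (h : IsRT r π) :
    (gr π).Connected := by
  have : Nonempty (Fin n) := ⟨r⟩
  refine ⟨fun a b => ?_⟩
  obtain ⟨k, hk⟩ := h.2 a
  obtain ⟨l, hl⟩ := h.2 b
  have h1 := isRT_reach (π := π) a k
  have h2 := isRT_reach (π := π) b l
  rw [hk] at h1
  rw [hl] at h2
  exact h1.trans h2.symm

theorem isRT_isTree {n : ℕ} {r : Fin n} {π : Fin n → Fin n} (h : IsRT r π) : (gr π).IsTree := by
  rw [SimpleGraph.isTree_iff_connected_and_card]
  have hc := isRT_connected h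
  refine ⟨hc, le_antisymm ?_ hc.card_vert_le_card_edgeSet_add_one⟩
  have hsurj : Set.SurjOn (fun v => s(v, π v)) {v : Fin n | v ≠ r} (gr π).edgeSet := by
    intro e
    induction e using Sym2.ind with
    | _ a b =>
      intro he
      rw [SimpleGraph.mem_edgeSet, gr_adj] at he
      obtain ⟨hab, h1 | h1⟩ := he
      · refine ⟨a, ?_, by simp [h1]⟩
        rintro rfl
        exact hab (h.1.symm.trans h1)
      · refine ⟨b, ?_, by simp [h1, Sym2.eq_swap]⟩
        rintro rfl
        exact hab (h1.symm.trans h.1)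
  have h2 : (gr π).edgeSet.ncard ≤ {v : Fin n | v ≠ r}.ncard := by
    refine (Set.ncard_le_ncard hsurj (Set.toFinite _)).trans ?_
    exact Set.ncard_image_le (Set.toFinite _)
  have h3 : {v : Fin n | v ≠ r}.ncard + 1 = n := by
    have h4 : {v : Fin n | v ≠ r} = {r}ᶜ := by ext; simp
    rw [h4, ← Set.ncard_singleton r, Nat.add_comm, Set.ncard_add_ncard_compl, Nat.card_eq_fintype_card, Fintype.card_fin]
  rw [Nat.card_eq_fintype_card (α := Fin n), Fintype.card_fin]
  have h5 : Nat.card (gr π).edgeSet = (gr π).edgeSet.ncard := rfl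
  omega

theorem gr_isTree {n : ℕ} (π : Fin n → Fin n) (h : π ∈ RT n) : (gr π).IsTree := by
  obtain ⟨r, hr⟩ := (mem_filter.1 h).2
  exact isRT_isTree hr

theorem isRT_unique {n : ℕ} {r : Fin n} {π π' : Fin n → Fin n} (h : IsRT r π) (h' : IsRT r π')
    (hg : gr π = gr π') : π = π' := by
  have key : ∀ (k : ℕ) (v : Fin n), π^[k] v = r → π' v = π v := by
    intro k
    induction k with
    | zero =>
      intro v hv
      rw [Function.iterate_zero, id] at hv
      rw [hv, h.1, h'.1]
    | succ k ih =>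
      intro v hv
      by_cases hvr : v = r
      · rw [hvr, h.1, h'.1]
      · have h1 : (gr π).Adj v (π v) := (gr_adj _ _ _).2 ⟨(isRT_ne h hvr).symm, Or.inl rfl⟩
        rw [hg, gr_adj] at h1
        rcases h1.2 with h2 | h2
        · exact h2
        · have h3 := ih (π v) hv
          rw [h2] at h3
          exact absurd h3.symm (isRT_no2 h hvr)
  funext v
  obtain ⟨k, hk⟩ := h.2 v
  exact (key k v hk).symm

theorem isRT_root_unique {n : ℕ} {r r' : Fin n} {π : Fin n → Fin n} (h : IsRT r π)
    (h' : IsRT r' π) : r = r' := by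
  by_contra hne
  exact isRT_ne h (fun h1 => hne h1.symm) h'.1

theorem isRT_exists {n : ℕ} (r : Fin n) (T : SimpleGraph (Fin n)) (hT : T.IsTree) :
    ∃ π : Fin n → Fin n, IsRT r π ∧ gr π = T := by
  have hc := hT.1
  have h1 : ∀ v, v ≠ r → ∃ w, T.Adj v w ∧ T.dist w r + 1 = T.dist v r := by
    intro v hv
    obtain ⟨p, hp⟩ := hc.exists_walk_length_eq_dist v r
    cases p with
    | nil => exact absurd rfl hv
    | cons hadj q =>
      rename_i w
      refine ⟨w, hadj, ?_⟩
      rw [SimpleGraph.Walk.length_cons] at hp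
      have h2 : T.dist w r ≤ q.length := SimpleGraph.dist_le q
      have h3 : T.dist v r ≤ T.dist w r + 1 := by
        obtain ⟨q', hq'⟩ := hc.exists_walk_length_eq_dist w r
        have := SimpleGraph.dist_le (SimpleGraph.Walk.cons hadj q')
        rw [SimpleGraph.Walk.length_cons, hq'] at this
        exact this
      omega
  choose! f hf using h1
  let π : Fin n → Fin n := fun v => if v = r then r else f v
  have hr : π r = r := by simp [π]
  have hreach : ∀ (d : ℕ) (v : Fin n), T.dist v r = d → ∃ k : ℕ, π^[k] v = r := by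
    intro d
    induction d with
    | zero =>
      intro v hv
      exact ⟨0, (hc.dist_eq_zero_iff).1 hv⟩
    | succ d ih =>
      intro v hv
      have hvr : v ≠ r := by
        rintro rfl
        simp at hv
      obtain ⟨k, hk⟩ := ih (f v) (by have := (hf v hvr).2; omega)
      refine ⟨k + 1, ?_⟩
      rw [Function.iterate_succ_apply]
      have : π v = f v := by simp [π, hvr]
      rw [this]
      exact hk
  have hRT : IsRT r π := ⟨hr, fun v => hreach _ v rfl⟩
  refine ⟨π, hRT, ?_⟩
  have hle : gr π ≤ T := by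
    intro a b hab
    rw [gr_adj] at hab
    have h2 : ∀ v, v ≠ π v → T.Adj v (π v) := by
      intro v hv
      have hvr : v ≠ r := by
        rintro rfl
        exact hv hr.symm
      have : π v = f v := by simp [π, hvr]
      rw [this]
      exact (hf v hvr).1
    obtain ⟨hne, h3 | h3⟩ := hab
    · have := h2 a (by rw [h3]; exact hne)
      rwa [h3] at this
    · have := h2 b (by rw [h3]; exact hne.symm)
      rw [h3] at this
      exact this.symm
  have h4 := (SimpleGraph.isTree_iff_connected_and_card.1 (isRT_isTree hRT)).2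
  have h5 := (SimpleGraph.isTree_iff_connected_and_card.1 hT).2
  have h6 : (gr π).edgeSet = T.edgeSet := by
    refine Set.eq_of_subset_of_ncard_le (SimpleGraph.edgeSet_subset_edgeSet.2 hle) ?_
      (Set.toFinite _)
    have h7 : Nat.card (gr π).edgeSet = (gr π).edgeSet.ncard := rfl
    have h8 : Nat.card T.edgeSet = T.edgeSet.ncard := rfl
    omega
  exact SimpleGraph.edgeSet_inj.1 h6

theorem bridge {n : ℕ} (P : SimpleGraph (Fin n) → Prop) :
    ((RT n).filter (fun π => P (gr π))).card =
      n * (univ.filter (fun T : SimpleGraph (Fin n) => T.IsTree ∧ P T)).card := by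
  have hcard : n * (univ.filter (fun T : SimpleGraph (Fin n) => T.IsTree ∧ P T)).card =
      ((univ : Finset (Fin n)) ×ˢ
        (univ.filter (fun T : SimpleGraph (Fin n) => T.IsTree ∧ P T))).card := by
    rw [card_product, card_univ, Fintype.card_fin]
  rw [hcard]
  symm
  choose g hg using fun p : Fin n × {T : SimpleGraph (Fin n) // T.IsTree} =>
    isRT_exists p.1 p.2.1 p.2.2
  refine card_bij (fun p hp => g (p.1, ⟨p.2, (mem_filter.1 (mem_product.1 hp).2).2.1⟩)) ?_ ?_ ?_
  · intro p hp
    have h2 := hg (p.1, ⟨p.2, (mem_filter.1 (mem_product.1 hp).2).2.1⟩)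
    refine mem_filter.2 ⟨mem_filter.2 ⟨mem_univ _, p.1, h2.1⟩, ?_⟩
    rw [h2.2]
    exact (mem_filter.1 (mem_product.1 hp).2).2.2
  · intro p hp q hq hpq
    have h2 := hg (p.1, ⟨p.2, (mem_filter.1 (mem_product.1 hp).2).2.1⟩)
    have h3 := hg (q.1, ⟨q.2, (mem_filter.1 (mem_product.1 hq).2).2.1⟩)
    have hpq' : g (p.1, ⟨p.2, (mem_filter.1 (mem_product.1 hp).2).2.1⟩) =
      g (q.1, ⟨q.2, (mem_filter.1 (mem_product.1 hq).2).2.1⟩) := hpq
    rw [hpq'] at h2
    exact Prod.ext (isRT_root_unique h2.1 h3.1) (h2.2.symm.trans h3.2)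
  · intro π hπ
    obtain ⟨hπ1, hπ2⟩ := mem_filter.1 hπ
    obtain ⟨r, hr⟩ := (mem_filter.1 hπ1).2
    have hT := isRT_isTree hr
    refine ⟨(r, gr π), mem_product.2 ⟨mem_univ _, mem_filter.2 ⟨mem_univ _, hT, hπ2⟩⟩, ?_⟩
    have h2 := hg (r, ⟨gr π, hT⟩)
    exact isRT_unique h2.1 hr h2.2

end

end Pool.Agent.ST3
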