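import Pool.Agent.Lib.MP_7abaca_co.Defs

/-!
# Components under adding and deleting edges (MP_7abaca_co, module CMP)
-/

set_option autoImplicit false

namespace Pool.Agent.ST3

open Finset Filter
open scoped Classical

noncomputable section

theorem comps_congr {n : ℕ} (M M' : SimpleGraph (Fin n))
    (h : ∀ u v, M.Reachable u v ↔ M'.Reachable u v) : comps M = comps M' := by
  have h1 : M.Reachable = M'.Reachable := by
    funext u v
    exact propext (h u v)
  unfold comps SimpleGraph.ConnectedComponent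
  rw [h1]

theorem comps_anti {n : ℕ} (M M' : SimpleGraph (Fin n)) (h : M ≤ M') : comps M' ≤ comps M :=
  SimpleGraph.ConnectedComponent.card_le_card_of_le h

theorem cmp_reach {n : ℕ} (M : SimpleGraph (Fin n)) (a b u v : Fin n) :
    (M ⊔ SimpleGraph.edge a b).Reachable u v ↔ M.Reachable u v ∨
      (M.Reachable u a ∧ M.Reachable b v) ∨ (M.Reachable u b ∧ M.Reachable a v) := by
  constructor
  · rintro ⟨p⟩
    induction p with
    | nil => exact Or.inl (SimpleGraph.Reachable.refl _)
    | @cons u w v h p ih =>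
      rw [SimpleGraph.sup_adj, SimpleGraph.edge_adj] at h
      rcases h with h | ⟨⟨rfl, rfl⟩ | ⟨rfl, rfl⟩, -⟩
      · have h1 := h.reachable
        rcases ih with h2 | ⟨h2, h3⟩ | ⟨h2, h3⟩
        · exact Or.inl (h1.trans h2)
        · exact Or.inr (Or.inl ⟨h1.trans h2, h3⟩)
        · exact Or.inr (Or.inr ⟨h1.trans h2, h3⟩)
      · rcases ih with h2 | ⟨h2, h3⟩ | ⟨h2, h3⟩
        · exact Or.inr (Or.inl ⟨SimpleGraph.Reachable.refl _, h2⟩)
        · exact Or.inr (Or.inl ⟨SimpleGraph.Reachable.refl _, h3⟩)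
        · exact Or.inl h3
      · rcases ih with h2 | ⟨h2, h3⟩ | ⟨h2, h3⟩
        · exact Or.inr (Or.inr ⟨SimpleGraph.Reachable.refl _, h2⟩)
        · exact Or.inl h3
        · exact Or.inr (Or.inr ⟨SimpleGraph.Reachable.refl _, h3⟩)
  · have hle : M ≤ M ⊔ SimpleGraph.edge a b := le_sup_left
    have hab : (M ⊔ SimpleGraph.edge a b).Reachable a b := by
      rcases eq_or_ne a b with rfl | h
      · exact SimpleGraph.Reachable.refl _
      · apply SimpleGraph.Adj.reachable
        rw [SimpleGraph.sup_adj, SimpleGraph.edge_adj]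
        exact Or.inr ⟨Or.inl ⟨rfl, rfl⟩, h⟩
    rintro (h | ⟨h1, h2⟩ | ⟨h1, h2⟩)
    · exact h.mono hle
    · exact ((h1.mono hle).trans hab).trans (h2.mono hle)
    · exact ((h1.mono hle).trans hab.symm).trans (h2.mono hle)

theorem comps_join {n : ℕ} (M : SimpleGraph (Fin n)) (a b : Fin n) (h : ¬ M.Reachable a b) :
    comps (M ⊔ SimpleGraph.edge a b) + 1 = comps M := by
  have hle : M ≤ M ⊔ SimpleGraph.edge a b := le_sup_left
  let f : {c : M.ConnectedComponent // c ≠ M.connectedComponentMk b} →
      (M ⊔ SimpleGraph.edge a b).ConnectedComponent :=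
    fun c => c.1.map (SimpleGraph.Hom.ofLE hle)
  have hf : Function.Bijective f := by
    constructor
    · rintro ⟨c, hc⟩ ⟨d, hd⟩ hcd
      induction c using SimpleGraph.ConnectedComponent.ind with | _ u =>
      induction d using SimpleGraph.ConnectedComponent.ind with | _ v =>
      have h1 : (M ⊔ SimpleGraph.edge a b).Reachable u v := SimpleGraph.ConnectedComponent.exact hcd
      have hu : ¬ M.Reachable u b := fun h => hc (SimpleGraph.ConnectedComponent.sound h)
      have hv : ¬ M.Reachable v b := fun h => hd (SimpleGraph.ConnectedComponent.sound h)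
      rcases (cmp_reach M a b u v).1 h1 with h2 | ⟨h2, h3⟩ | ⟨h2, h3⟩
      · exact Subtype.ext (SimpleGraph.ConnectedComponent.sound h2)
      · exact absurd h3.symm hv
      · exact absurd h2 hu
    · intro c
      induction c using SimpleGraph.ConnectedComponent.ind with | _ v =>
      by_cases hv : M.Reachable v b
      · refine ⟨⟨M.connectedComponentMk a, fun hc =>
          h (SimpleGraph.ConnectedComponent.exact hc)⟩, ?_⟩
        apply SimpleGraph.ConnectedComponent.sound
        exact (cmp_reach M a b a v).2 (Or.inr (Or.inl ⟨SimpleGraph.Reachable.refl _, hv.symm⟩))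
      · exact ⟨⟨M.connectedComponentMk v, fun hc =>
          hv (SimpleGraph.ConnectedComponent.exact hc)⟩, rfl⟩
  have h1 : Nat.card {c : M.ConnectedComponent // c ≠ M.connectedComponentMk b} =
      comps (M ⊔ SimpleGraph.edge a b) := Nat.card_eq_of_bijective f hf
  rw [← h1, ← Finite.card_option]
  exact Nat.card_congr (Equiv.optionSubtypeNe (M.connectedComponentMk b))

theorem reach_add {n : ℕ} (M : SimpleGraph (Fin n)) (a b : Fin n) (h : M.Reachable a b)
    (u v : Fin n) : (M ⊔ SimpleGraph.edge a b).Reachable u v ↔ M.Reachable u v := by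
  rw [cmp_reach]
  constructor
  · rintro (h1 | ⟨h1, h2⟩ | ⟨h1, h2⟩)
    · exact h1
    · exact (h1.trans h).trans h2
    · exact (h1.trans h.symm).trans h2
  · exact Or.inl

theorem reach_del {n : ℕ} (M : SimpleGraph (Fin n)) (a b : Fin n) (hab : M.Adj a b)
    (h : (M \ SimpleGraph.edge a b).Reachable a b) (u v : Fin n) :
    (M \ SimpleGraph.edge a b).Reachable u v ↔ M.Reachable u v := by
  have hle : SimpleGraph.edge a b ≤ M := by
    intro p q hpq
    rw [SimpleGraph.edge_adj] at hpq
    rcases hpq with ⟨⟨rfl, rfl⟩ | ⟨rfl, rfl⟩, -⟩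
    · exact hab
    · exact hab.symm
  have h1 := reach_add (M \ SimpleGraph.edge a b) a b h u v
  rw [sdiff_sup_cancel hle] at h1
  exact h1.symm

/-- a component all of whose vertices have degree two has no bridge -/
theorem cycle_comp_del {n : ℕ} (M : SimpleGraph (Fin n)) (h2 : Two M) (a b : Fin n)
    (hab : M.Adj a b) (hc : ∀ v, M.Reachable a v → (M.neighborSet v).ncard = 2) :
    (M \ SimpleGraph.edge a b).Reachable a b := by
  let C : SimpleGraph (Fin n) :=
    { Adj := fun p q => M.Adj p q ∧ M.Reachable a p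
      symm := ⟨fun p q h => ⟨h.1.symm, h.2.trans h.1.reachable⟩⟩
      loopless := ⟨fun p h => M.loopless.irrefl p h.1⟩ }
  have hC : C.IsCycles := by
    rintro v ⟨w, hw⟩
    have h1 : M.Adj v w ∧ M.Reachable a v := hw
    rw [← hc v h1.2]
    congr 1
    ext q
    show (M.Adj v q ∧ M.Reachable a v) ↔ M.Adj v q
    exact ⟨fun h => h.1, fun h => ⟨h, h1.2⟩⟩
  have hCab : C.Adj a b := ⟨hab, SimpleGraph.Reachable.refl _⟩
  have h1 := hC.reachable_deleteEdges hCab
  refine h1.mono ?_
  intro p q hpq
  rw [SimpleGraph.deleteEdges_adj] at hpq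
  rw [SimpleGraph.sdiff_adj, SimpleGraph.edge_adj]
  refine ⟨hpq.1.1, fun h => hpq.2 ?_⟩
  rw [Set.mem_singleton_iff, Sym2.eq_iff]
  exact h.1

end

end Pool.Agent.ST3
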