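import Pool.Agent.Lib.MP_7abaca_co.Defs

/-!
# Parent function of a connected induced subgraph
-/

set_option autoImplicit false

namespace Pool.Agent.ST3

open Finset Filter
open scoped Classical

noncomputable section

theorem conn_struct {n : ℕ} (G : SimpleGraph (Fin n)) (W : Finset (Fin n))
    (hc : (G.induce (W : Set (Fin n))).Connected) :
    ∃ x ∈ W, ∃ σ : Fin n → Fin n, (∀ v ∈ W, v ≠ x → σ v ∈ W ∧ G.Adj v (σ v)) ∧
      Set.InjOn (fun v => s(v, σ v)) {v | v ∈ W ∧ v ≠ x} := by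
  obtain ⟨⟨x, hx⟩⟩ := hc.nonempty
  have hx' : x ∈ W := hx
  set H := G.induce (W : Set (Fin n)) with hH
  have key : ∀ (v : Fin n) (hv : v ∈ W), v ≠ x → ∃ (w : Fin n) (hw : w ∈ W), G.Adj v w ∧
      H.dist ⟨w, hw⟩ ⟨x, hx⟩ < H.dist ⟨v, hv⟩ ⟨x, hx⟩ := by
    intro v hv hne
    obtain ⟨p, hp⟩ := (hc.preconnected ⟨v, hv⟩ ⟨x, hx⟩).exists_walk_length_eq_dist
    cases p with
    | nil => exact absurd rfl hne
    | cons h q =>
      rename_i w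
      refine ⟨w.1, w.2, h, ?_⟩
      have h1 := SimpleGraph.dist_le q
      rw [SimpleGraph.Walk.length_cons] at hp
      show H.dist w ⟨x, hx⟩ < _
      omega
  have hσ : ∀ v : Fin n, ∃ w : Fin n, ∀ (hv : v ∈ W), v ≠ x → ∃ hw : w ∈ W, G.Adj v w ∧
      H.dist ⟨w, hw⟩ ⟨x, hx⟩ < H.dist ⟨v, hv⟩ ⟨x, hx⟩ := by
    intro v
    by_cases h : v ∈ W ∧ v ≠ x
    · obtain ⟨w, hw, h1⟩ := key v h.1 h.2
      exact ⟨w, fun _ _ => ⟨hw, h1⟩⟩
    · exact ⟨v, fun hv hne => absurd ⟨hv, hne⟩ h⟩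
  choose σ hσ using hσ
  refine ⟨x, hx', σ, fun v hv hne => ?_, ?_⟩
  · obtain ⟨h1, h2, _⟩ := hσ v hv hne
    exact ⟨h1, h2⟩
  · rintro v ⟨hv, hvx⟩ w ⟨hw, hwx⟩ h
    simp only [Sym2.eq_iff] at h
    rcases h with h | h
    · exact h.1
    · exfalso
      obtain ⟨h1, _, h2⟩ := hσ v hv hvx
      obtain ⟨h3, _, h4⟩ := hσ w hw hwx
      have e1 : (⟨σ v, h1⟩ : (W : Set (Fin n))) = ⟨w, hw⟩ := Subtype.ext h.2
      have e2 : (⟨σ w, h3⟩ : (W : Set (Fin n))) = ⟨v, hv⟩ := Subtype.ext h.1.symm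
      rw [e1] at h2
      rw [e2] at h4
      exact absurd h2 (not_lt.mpr h4.le)

end

end Pool.Agent.ST3
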