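import Pool.Agent.Lib.MP_7abaca_co.Defs

/-!
# Three random spanning trees: the visible part of the third tree
-/

set_option autoImplicit false

namespace Pool.Agent.ST3

open Finset Filter
open scoped Classical

noncomputable section

theorem le_core {n : ℕ} (T F : SimpleGraph (Fin n)) (hF : F ≤ T) : F ≤ core T F := by
  intro a b h
  exact ⟨hF h, Or.inl h⟩

theorem core_le {n : ℕ} (T F : SimpleGraph (Fin n)) : core T F ≤ T := by
  intro a b h
  exact h.1

theorem core_comp {n : ℕ} (hn : 3 ≤ n) (T F : SimpleGraph (Fin n)) (hT : T.IsTree) (hF : F ≤ T)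
    (v : Fin n) : 3 ≤ ((core T F).connectedComponentMk v).supp.ncard := by
  by_contra hcon
  have hle : ((core T F).connectedComponentMk v).supp.ncard ≤ 2 := by omega
  have hmem : ∀ w, w ∈ ((core T F).connectedComponentMk v).supp ↔ (core T F).Reachable w v := by
    intro w
    rw [SimpleGraph.ConnectedComponent.mem_supp_iff, SimpleGraph.ConnectedComponent.eq]
  have hlam : ∀ w, (core T F).Reachable w v → w ∈ lam F := by
    intro w hw
    have hsub : (F.connectedComponentMk w).supp ⊆ ((core T F).connectedComponentMk v).supp := by
      intro x hx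
      rw [SimpleGraph.ConnectedComponent.mem_supp_iff, SimpleGraph.ConnectedComponent.eq] at hx
      rw [hmem]
      exact (hx.mono (le_core T F hF)).trans hw
    have h2 := Set.ncard_le_ncard hsub (Set.toFinite _)
    simp only [lam, mem_filter, mem_univ, true_and]
    omega
  have hall : ∀ w, (core T F).Reachable w v := by
    intro w
    have hconn := hT.1.preconnected v w
    obtain ⟨p⟩ := hconn
    have key : ∀ (a b : Fin n) (p : T.Walk a b), (core T F).Reachable a v →
        (core T F).Reachable b v := by
      intro a b p
      induction p with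
      | nil => exact fun h => h
      | cons hadj q ih =>
        intro h
        apply ih
        have : (core T F).Adj _ _ := ⟨hadj, Or.inr (Or.inl (hlam _ h))⟩
        exact this.symm.reachable.trans h
    exact key v w p (SimpleGraph.Reachable.refl v)
  have huniv : ((core T F).connectedComponentMk v).supp = Set.univ := by
    ext w
    simp only [Set.mem_univ, iff_true]
    exact (hmem w).2 (hall w)
  rw [huniv, Set.ncard_univ, Nat.card_eq_fintype_card, Fintype.card_fin] at hle
  omega

theorem core_group {n : ℕ} (T0 F : SimpleGraph (Fin n)) (hT : T0.IsTree) (hF : F ≤ T0) :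
    univ.filter (fun T : SimpleGraph (Fin n) => T.IsTree ∧ F ≤ T ∧ core T F = core T0 F) =
      NT (core T0 F) (lam F) := by
  ext T
  simp only [NT, mem_filter, mem_univ, true_and]
  constructor
  · rintro ⟨h1, h2, h3⟩
    refine ⟨h1, ?_, ?_⟩
    · rw [← h3]; exact core_le T F
    · intro a b hab hnc
      rw [← h3] at hnc
      constructor
      · intro ha
        exact hnc ⟨hab, Or.inr (Or.inl ha)⟩
      · intro hb
        exact hnc ⟨hab, Or.inr (Or.inr hb)⟩
  · rintro ⟨h1, h2, h3⟩
    refine ⟨h1, (le_core T0 F hF).trans h2, ?_⟩
    ext a b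
    constructor
    · intro h
      by_contra hnc
      obtain ⟨ha, hb⟩ := h3 a b h.1 hnc
      rcases h.2 with h' | h' | h'
      · exact hnc ⟨hF h', Or.inl h'⟩
      · exact ha h'
      · exact hb h'
    · intro h
      exact ⟨h2 h, h.2⟩

end

end Pool.Agent.ST3
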