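import Pool.Agent.Lib.MP_7abaca_co.Defs

/-! # MP_7abaca_co, module CYC: a 2-factor has few components -/

set_option autoImplicit false

namespace Pool.Agent.ST3

open Finset Filter
open scoped Classical

noncomputable section

/-- a set closed under adjacency in a graph with all degrees two spans at least as many edges of
`M` as it has vertices -/
theorem cyc_edges {n : ℕ} (M : SimpleGraph (Fin n)) (h2 : TwoF M) (W : Finset (Fin n))
    (hW : ∀ u ∈ W, ∀ v, M.Adj u v → v ∈ W) :
    W.card ≤ (univ.filter (fun e : Sym2 (Fin n) => e ∈ M.edgeSet ∧ ∀ v ∈ e, v ∈ W)).card := by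
  set D : Finset (Fin n × Fin n) := univ.filter (fun p => p.1 ∈ W ∧ M.Adj p.1 p.2) with hD
  have hDc : D.card = 2 * W.card := by
    have h1 : D.card = ∑ u ∈ W, (D.filter (fun p => p.1 = u)).card := by
      apply Finset.card_eq_sum_card_fiberwise
      intro p hp
      have := (mem_filter.1 (Finset.mem_coe.1 hp)).2.1
      exact Finset.mem_coe.2 this
    rw [h1]
    have h3 : ∀ u ∈ W, (D.filter (fun p => p.1 = u)).card = 2 := by
      intro u hu
      have h4 := h2 u
      rw [Set.ncard_eq_toFinset_card'] at h4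
      rw [← h4]
      apply Finset.card_nbij' (fun p => p.2) (fun v => (u, v))
      · intro p hp
        rw [Finset.mem_coe, mem_filter, hD, mem_filter] at hp
        rw [Finset.mem_coe, Set.mem_toFinset, SimpleGraph.mem_neighborSet, ← hp.2]
        exact hp.1.2.2
      · intro v hv
        rw [Finset.mem_coe, Set.mem_toFinset, SimpleGraph.mem_neighborSet] at hv
        rw [Finset.mem_coe, mem_filter, hD, mem_filter]
        exact ⟨⟨mem_univ _, hu, hv⟩, rfl⟩
      · intro p hp
        rw [Finset.mem_coe, mem_filter] at hp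
        rw [← hp.2]
      · intro v _
        rfl
    rw [Finset.sum_congr rfl h3, Finset.sum_const, smul_eq_mul, mul_comm]
  have hle : D.card ≤ 2 * (D.image (fun p => s(p.1, p.2))).card := by
    apply Finset.card_le_mul_card_image
    intro e he
    obtain ⟨p, hp, rfl⟩ := mem_image.1 he
    have hsub : D.filter (fun q => s(q.1, q.2) = s(p.1, p.2)) ⊆ {(p.1, p.2), (p.2, p.1)} := by
      intro q hq
      have h := (mem_filter.1 hq).2
      rw [Sym2.eq_iff] at h
      rw [mem_insert, mem_singleton]
      rcases h with ⟨h1, h2⟩ | ⟨h1, h2⟩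
      · left; exact Prod.ext h1 h2
      · right; exact Prod.ext h1 h2
    exact (card_le_card hsub).trans card_le_two
  have himg : D.image (fun p => s(p.1, p.2)) ⊆
      univ.filter (fun e : Sym2 (Fin n) => e ∈ M.edgeSet ∧ ∀ v ∈ e, v ∈ W) := by
    intro e he
    obtain ⟨p, hp, rfl⟩ := mem_image.1 he
    rw [hD, mem_filter] at hp
    rw [mem_filter]
    refine ⟨mem_univ _, hp.2.2, ?_⟩
    intro v hv
    rw [Sym2.mem_iff] at hv
    rcases hv with rfl | rfl
    · exact hp.2.1
    · exact hW _ hp.2.1 _ hp.2.2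
  have := card_le_card himg
  omega

/-- simple edges of the union inside `W` are covered by labelled edges -/
theorem cyc_estar {n : ℕ} (π : Fin 3 → Fin n → Fin n) (M : SimpleGraph (Fin n)) (hM : M ≤ GG π)
    (W : Finset (Fin n)) :
    (univ.filter (fun e : Sym2 (Fin n) => e ∈ M.edgeSet ∧ ∀ v ∈ e, v ∈ W)).card ≤ estar π W := by
  have hsub : univ.filter (fun e : Sym2 (Fin n) => e ∈ M.edgeSet ∧ ∀ v ∈ e, v ∈ W) ⊆
      (univ : Finset (Fin 3)).biUnion (fun i =>
        univ.filter (fun e : Sym2 (Fin n) => e ∈ (gr (π i)).edgeSet ∧ ∀ v ∈ e, v ∈ W)) := by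
    intro e he
    rw [mem_filter] at he
    have h1 : e ∈ (GG π).edgeSet := SimpleGraph.edgeSet_mono hM he.2.1
    rw [mem_biUnion]
    unfold GG at h1
    rw [SimpleGraph.edgeSet_sup, SimpleGraph.edgeSet_sup] at h1
    rcases h1 with (h1 | h1) | h1
    · exact ⟨0, mem_univ _, mem_filter.2 ⟨mem_univ _, h1, he.2.2⟩⟩
    · exact ⟨1, mem_univ _, mem_filter.2 ⟨mem_univ _, h1, he.2.2⟩⟩
    · exact ⟨2, mem_univ _, mem_filter.2 ⟨mem_univ _, h1, he.2.2⟩⟩
  exact (card_le_card hsub).trans card_biUnion_le

theorem cyc_few {n : ℕ} (π : Fin 3 → Fin n → Fin n) (M : SimpleGraph (Fin n)) (hM : M ≤ GG π)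
    (h2 : TwoF M) (ℓ : ℕ) (hℓ : 1 ≤ ℓ) : (comps M : ℝ) ≤ Sh ℓ π + n / ℓ := by
  have : Finite M.ConnectedComponent := inferInstance
  have : Fintype M.ConnectedComponent := Fintype.ofFinite _
  set f : M.ConnectedComponent → Finset (Fin n) :=
    fun c => univ.filter (fun v => M.connectedComponentMk v = c) with hf
  have hf_inj : Function.Injective f := by
    intro c c' h
    induction c using SimpleGraph.ConnectedComponent.ind with
    | _ v =>
      have hv : v ∈ f (M.connectedComponentMk v) := mem_filter.2 ⟨mem_univ _, rfl⟩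
      rw [h] at hv
      exact (mem_filter.1 hv).2
  have hf_pos : ∀ c, 1 ≤ (f c).card := by
    intro c
    induction c using SimpleGraph.ConnectedComponent.ind with
    | _ v => exact card_pos.2 ⟨v, mem_filter.2 ⟨mem_univ _, rfl⟩⟩
  have hf_cl : ∀ c, ∀ u ∈ f c, ∀ v, M.Adj u v → v ∈ f c := by
    intro c u hu v huv
    rw [hf, mem_filter] at hu ⊢
    refine ⟨mem_univ _, ?_⟩
    rw [← hu.2]
    exact SimpleGraph.ConnectedComponent.eq.2 huv.symm.reachable
  have hsmall : (univ.filter (fun c : M.ConnectedComponent => (f c).card ≤ ℓ)).card ≤ Sh ℓ π := by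
    unfold Sh
    apply card_le_card_of_injOn f
    · intro c hc
      rw [Finset.mem_coe, mem_filter] at hc
      rw [Finset.mem_coe, mem_filter]
      exact ⟨mem_univ _, hf_pos c, hc.2,
        (cyc_edges M h2 (f c) (hf_cl c)).trans (cyc_estar π M hM (f c))⟩
    · exact fun a _ b _ h => hf_inj h
  have hlarge : ℓ * (univ.filter (fun c : M.ConnectedComponent => ¬ (f c).card ≤ ℓ)).card ≤ n := by
    have hn : n = ∑ c : M.ConnectedComponent, (f c).card := by
      have := Finset.card_eq_sum_card_fiberwise (f := M.connectedComponentMk)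
        (s := (univ : Finset (Fin n))) (t := (univ : Finset M.ConnectedComponent))
        (fun _ _ => mem_univ _)
      rw [card_univ, Fintype.card_fin] at this
      exact this
    calc ℓ * (univ.filter (fun c : M.ConnectedComponent => ¬ (f c).card ≤ ℓ)).card
        = ∑ _c ∈ univ.filter (fun c : M.ConnectedComponent => ¬ (f c).card ≤ ℓ), ℓ := by
          rw [Finset.sum_const, smul_eq_mul, mul_comm]
      _ ≤ ∑ c ∈ univ.filter (fun c : M.ConnectedComponent => ¬ (f c).card ≤ ℓ), (f c).card := by
          apply Finset.sum_le_sum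
          intro c hc
          have := (mem_filter.1 hc).2
          omega
      _ ≤ ∑ c : M.ConnectedComponent, (f c).card :=
          Finset.sum_le_sum_of_subset (subset_univ _)
      _ = n := hn.symm
  have hsplit := Finset.card_filter_add_card_filter_not
    (s := (univ : Finset M.ConnectedComponent)) (fun c => (f c).card ≤ ℓ)
  have hcomps : comps M = (univ : Finset M.ConnectedComponent).card := by
    unfold comps
    rw [Nat.card_eq_fintype_card, card_univ]
  rw [hcomps, ← hsplit]
  push_cast
  have hℓR : (0 : ℝ) < ℓ := by exact_mod_cast hℓ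
  have h1 : ((univ.filter (fun c : M.ConnectedComponent => (f c).card ≤ ℓ)).card : ℝ) ≤ Sh ℓ π := by
    exact_mod_cast hsmall
  have h3 : ((univ.filter (fun c : M.ConnectedComponent => ¬ (f c).card ≤ ℓ)).card : ℝ) ≤
      n / ℓ := by
    rw [le_div_iff₀ hℓR, mul_comm]
    exact_mod_cast hlarge
  exact add_le_add h1 h3

end

end Pool.Agent.ST3
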