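import Pool.Agent.Lib.MP_7abaca_co.Defs

/-!
# The deficiency bound for `G0` (module DEFICIT)
-/

set_option autoImplicit false
set_option linter.unusedSimpArgs false
set_option linter.unusedVariables false

namespace Pool.Agent.ST3

open Finset Filter
open scoped Classical

noncomputable section

theorem dfc_exists_adj {V : Type} {G : SimpleGraph V} {a b : V} (h : G.Reachable a b)
    (hne : a ≠ b) : ∃ c, G.Adj a c := by
  obtain ⟨p⟩ := h
  cases p with
  | nil => exact (hne rfl).elim
  | cons h _ => exact ⟨_, h⟩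

theorem dfc_gr_adj {n : ℕ} (π : Fin n → Fin n) (a b : Fin n) :
    (gr π).Adj a b ↔ a ≠ b ∧ (π a = b ∨ π b = a) := by
  unfold gr
  rw [SimpleGraph.fromRel_adj]

theorem dfc_gr_exists {n : ℕ} (π : Fin n → Fin n) (h : π ∈ RT n) (t u : Fin n) (hne : u ≠ t) :
    ∃ c, (gr π).Adj t c := by
  obtain ⟨r, hr, hreach⟩ := (by simpa [RT] using h : ∃ r, IsRT r π)
  by_cases htr : π t = t
  · obtain ⟨k, hk⟩ := hreach t
    have htr' : t = r := by
      rw [Function.iterate_fixed htr] at hk
      exact hk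
    subst htr'
    have hex : ∃ k, π^[k] u = t := hreach u
    have hm : π^[Nat.find hex] u = t := Nat.find_spec hex
    have hm0 : Nat.find hex ≠ 0 := by
      intro h0
      rw [h0] at hm
      exact hne hm
    obtain ⟨j, hj⟩ := Nat.exists_eq_succ_of_ne_zero hm0
    have hj' : π^[j] u ≠ t := Nat.find_min hex (by omega)
    have hjj : π (π^[j] u) = t := by
      rw [← Function.iterate_succ_apply' π j u, ← hj]
      exact hm
    exact ⟨π^[j] u, by rw [dfc_gr_adj]; exact ⟨hj'.symm, Or.inr hjj⟩⟩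
  · exact ⟨π t, by rw [dfc_gr_adj]; exact ⟨fun h => htr h.symm, Or.inl rfl⟩⟩

/-- the number of ordered pairs with underlying pair in `O` is at most `2 |O|` -/
theorem dfc_pairs {n : ℕ} (O : Finset (Sym2 (Fin n))) :
    (univ.filter (fun p : Fin n × Fin n => s(p.1, p.2) ∈ O)).card ≤ 2 * O.card := by
  refine Finset.card_le_mul_card_image_of_maps_to (f := fun p : Fin n × Fin n => s(p.1, p.2))
    (fun p hp => (Finset.mem_filter.mp hp).2) 2 ?_
  intro e he
  induction e using Sym2.ind with
  | _ a b =>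
    refine le_trans (Finset.card_le_card (t := {(a, b), (b, a)}) ?_) Finset.card_le_two
    intro p hp
    obtain ⟨hp1, hp2⟩ := Finset.mem_filter.mp hp
    rw [Sym2.eq_iff] at hp2
    rw [Finset.mem_insert, Finset.mem_singleton]
    rcases hp2 with ⟨h1, h2⟩ | ⟨h1, h2⟩
    · left; exact Prod.ext h1 h2
    · right; exact Prod.ext h1 h2

/-- edges in both trees `i` and `j` -/
def dfcO {n : ℕ} (π : Fin 3 → Fin n → Fin n) (i j : Fin 3) : Finset (Sym2 (Fin n)) :=
  univ.filter (fun e : Sym2 (Fin n) => e ∈ (gr (π i)).edgeSet ∧ e ∈ (gr (π j)).edgeSet)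

theorem dfc_ov {n : ℕ} (π : Fin 3 → Fin n → Fin n) :
    ov π = (dfcO π 0 1).card + (dfcO π 0 2).card + (dfcO π 1 2).card := by
  unfold ov dfcO
  rw [Fin.sum_univ_three, Fin.sum_univ_three, Fin.sum_univ_three, Fin.sum_univ_three]
  have h01 : (0 : Fin 3) < 1 := by decide
  have h02 : (0 : Fin 3) < 2 := by decide
  have h12 : (1 : Fin 3) < 2 := by decide
  have h00 : ¬ (0 : Fin 3) < 0 := by decide
  have h10 : ¬ (1 : Fin 3) < 0 := by decide
  have h11 : ¬ (1 : Fin 3) < 1 := by decide
  have h20 : ¬ (2 : Fin 3) < 0 := by decide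
  have h21 : ¬ (2 : Fin 3) < 1 := by decide
  have h22 : ¬ (2 : Fin 3) < 2 := by decide
  rw [if_neg h00, if_pos h01, if_pos h02, if_neg h10, if_neg h11, if_pos h12, if_neg h20,
    if_neg h21, if_neg h22]
  omega

theorem dfc_G0_0 {n : ℕ} (π : Fin 3 → Fin n → Fin n) (ω : Sym2 (Fin n) → Bool) (a b : Fin n)
    (h : (gr (π 0)).Adj a b) : (G0 π ω).Adj a b := by
  unfold G0
  rw [SimpleGraph.sup_adj, SimpleGraph.sup_adj]
  exact Or.inl (Or.inl h)

theorem dfc_G0_1 {n : ℕ} (π : Fin 3 → Fin n → Fin n) (ω : Sym2 (Fin n) → Bool) (a b : Fin n)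
    (h : (gr (π 1)).Adj a b) : (G0 π ω).Adj a b := by
  unfold G0
  rw [SimpleGraph.sup_adj, SimpleGraph.sup_adj]
  exact Or.inl (Or.inr h)

theorem dfc_G0_2 {n : ℕ} (π : Fin 3 → Fin n → Fin n) (ω : Sym2 (Fin n) → Bool) (a b : Fin n)
    (h : (core (gr (π 2)) (keep (gr (π 2)) ω)).Adj a b) : (G0 π ω).Adj a b := by
  unfold G0
  rw [SimpleGraph.sup_adj]
  exact Or.inr h

/-- edges of `G0` are labelled -/
theorem dfc_G0_lab {n : ℕ} (π : Fin 3 → Fin n → Fin n) (ω : Sym2 (Fin n) → Bool) (a b : Fin n)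
    (h : (G0 π ω).Adj a b) :
    (gr (π 0)).Adj a b ∨ (gr (π 1)).Adj a b ∨ (gr (π 2)).Adj a b := by
  unfold G0 at h
  rw [SimpleGraph.sup_adj, SimpleGraph.sup_adj] at h
  rcases h with (h | h) | h
  · exact Or.inl h
  · exact Or.inr (Or.inl h)
  · exact Or.inr (Or.inr h.1)

/-- an edge of the third tree which is not flagged is in `G0` -/
theorem dfc_G0_flag {n : ℕ} (π : Fin 3 → Fin n → Fin n) (ω : Sym2 (Fin n) → Bool) (a b : Fin n)
    (h : (gr (π 2)).Adj a b) (hG : ¬ (G0 π ω).Adj a b) : ω s(a, b) = true := by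
  by_contra hω
  exact hG (dfc_G0_2 π ω a b ⟨h, Or.inl ⟨h, by simpa using hω⟩⟩)

theorem dfc_large {n : ℕ} (π : Fin 3 → Fin n → Fin n) (ω : Sym2 (Fin n) → Bool)
    (A B : Finset (Fin n)) :
    dstar π A B ≤ dar (G0 π ω) A B + 2 * nflag π ω + 2 * ov π := by
  have hF := dfc_pairs (univ.filter (fun e : Sym2 (Fin n) => e ∈ (gr (π 2)).edgeSet ∧ ω e = true))
  have h1 := dfc_pairs (dfcO π 0 1)
  have h2 := dfc_pairs (dfcO π 0 2)
  have h3 := dfc_pairs (dfcO π 1 2)
  have hn : nflag π ω =
    (univ.filter (fun e : Sym2 (Fin n) => e ∈ (gr (π 2)).edgeSet ∧ ω e = true)).card := rfl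
  rw [← hn] at hF
  have hov := dfc_ov π
  have key : dstar π A B ≤ dar (G0 π ω) A B +
      (univ.filter (fun p : Fin n × Fin n => s(p.1, p.2) ∈
        (univ.filter (fun e : Sym2 (Fin n) => e ∈ (gr (π 2)).edgeSet ∧ ω e = true)))).card +
      (univ.filter (fun p : Fin n × Fin n => s(p.1, p.2) ∈ dfcO π 0 1)).card +
      (univ.filter (fun p : Fin n × Fin n => s(p.1, p.2) ∈ dfcO π 0 2)).card +
      (univ.filter (fun p : Fin n × Fin n => s(p.1, p.2) ∈ dfcO π 1 2)).card := by
    unfold dstar dar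
    rw [Fin.sum_univ_three]
    simp only [Finset.card_filter]
    rw [← Finset.sum_add_distrib, ← Finset.sum_add_distrib, ← Finset.sum_add_distrib,
      ← Finset.sum_add_distrib, ← Finset.sum_add_distrib, ← Finset.sum_add_distrib]
    refine Finset.sum_le_sum ?_
    rintro ⟨a, v⟩ -
    have m01 : s(a, v) ∈ dfcO π 0 1 ↔ (gr (π 0)).Adj a v ∧ (gr (π 1)).Adj a v := by
      simp [dfcO, SimpleGraph.mem_edgeSet]
    have m02 : s(a, v) ∈ dfcO π 0 2 ↔ (gr (π 0)).Adj a v ∧ (gr (π 2)).Adj a v := by
      simp [dfcO, SimpleGraph.mem_edgeSet]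
    have m12 : s(a, v) ∈ dfcO π 1 2 ↔ (gr (π 1)).Adj a v ∧ (gr (π 2)).Adj a v := by
      simp [dfcO, SimpleGraph.mem_edgeSet]
    have mF : s(a, v) ∈ (univ.filter (fun e : Sym2 (Fin n) =>
        e ∈ (gr (π 2)).edgeSet ∧ ω e = true)) ↔ (gr (π 2)).Adj a v ∧ ω s(a, v) = true := by
      simp [SimpleGraph.mem_edgeSet]
    simp only [m01, m02, m12, mF]
    have g0 := dfc_G0_0 π ω a v
    have g1 := dfc_G0_1 π ω a v
    have g2 := dfc_G0_flag π ω a v
    by_cases hA : a ∈ A
    · by_cases hB : v ∈ B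
      · simp [hA, hB]
      · by_cases e0 : (gr (π 0)).Adj a v
        · have hG := g0 e0
          by_cases e1 : (gr (π 1)).Adj a v
          · by_cases e2 : (gr (π 2)).Adj a v
            · simp only [hA, hB, e0, e1, e2, hG, true_and, and_self, not_false_eq_true, if_true]
              omega
            · simp only [hA, hB, e0, e1, e2, hG, true_and, and_self, not_false_eq_true, if_true,
                false_and, and_false, if_false]
              omega
          · by_cases e2 : (gr (π 2)).Adj a v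
            · simp only [hA, hB, e0, e1, e2, hG, true_and, and_self, not_false_eq_true, if_true,
                false_and, and_false, if_false]
              omega
            · simp only [hA, hB, e0, e1, e2, hG, true_and, and_self, not_false_eq_true, if_true,
                false_and, and_false, if_false]
              omega
        · by_cases e1 : (gr (π 1)).Adj a v
          · have hG := g1 e1
            by_cases e2 : (gr (π 2)).Adj a v
            · simp only [hA, hB, e0, e1, e2, hG, true_and, and_self, not_false_eq_true, if_true,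
                false_and, and_false, if_false]
              omega
            · simp only [hA, hB, e0, e1, e2, hG, true_and, and_self, not_false_eq_true, if_true,
                false_and, and_false, if_false]
              omega
          · by_cases e2 : (gr (π 2)).Adj a v
            · by_cases hG : (G0 π ω).Adj a v
              · simp only [hA, hB, e0, e1, e2, hG, true_and, and_self, not_false_eq_true, if_true,
                  false_and, and_false, if_false]
                omega
              · have hw := g2 e2 hG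
                simp only [hA, hB, e0, e1, e2, hG, hw, true_and, and_self, not_false_eq_true,
                  if_true, false_and, and_false, if_false]
                omega
            · simp only [hA, hB, e0, e1, e2, true_and, and_self, not_false_eq_true, if_true,
                false_and, and_false, if_false]
              omega
    · simp [hA]
  omega

/-- the vertices on an edge of two of the trees -/
def dfcBad {n : ℕ} (π : Fin 3 → Fin n → Fin n) : Finset (Fin n) :=
  univ.filter (fun v => ∃ w, s(v, w) ∈ dfcO π 0 1 ∨ s(v, w) ∈ dfcO π 0 2 ∨ s(v, w) ∈ dfcO π 1 2)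

theorem dfc_bad {n : ℕ} (π : Fin 3 → Fin n → Fin n) : (dfcBad π).card ≤ 2 * ov π := by
  have h1 := dfc_pairs (dfcO π 0 1)
  have h2 := dfc_pairs (dfcO π 0 2)
  have h3 := dfc_pairs (dfcO π 1 2)
  have hov := dfc_ov π
  set P1 := univ.filter (fun p : Fin n × Fin n => s(p.1, p.2) ∈ dfcO π 0 1) with hP1
  set P2 := univ.filter (fun p : Fin n × Fin n => s(p.1, p.2) ∈ dfcO π 0 2) with hP2
  set P3 := univ.filter (fun p : Fin n × Fin n => s(p.1, p.2) ∈ dfcO π 1 2) with hP3
  have hsub : dfcBad π ⊆ ((P1 ∪ P2) ∪ P3).image Prod.fst := by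
    intro v hv
    obtain ⟨w, hw⟩ := (Finset.mem_filter.mp hv).2
    rw [Finset.mem_image]
    refine ⟨(v, w), ?_, rfl⟩
    rw [Finset.mem_union, Finset.mem_union, hP1, hP2, hP3, Finset.mem_filter, Finset.mem_filter,
      Finset.mem_filter]
    rcases hw with h | h | h
    · exact Or.inl (Or.inl ⟨Finset.mem_univ _, h⟩)
    · exact Or.inl (Or.inr ⟨Finset.mem_univ _, h⟩)
    · exact Or.inr ⟨Finset.mem_univ _, h⟩
  have c1 := Finset.card_le_card hsub
  have c2 := Finset.card_image_le (s := (P1 ∪ P2) ∪ P3) (f := Prod.fst)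
  have c3 := Finset.card_union_le (P1 ∪ P2) P3
  have c4 := Finset.card_union_le P1 P2
  omega

/-- `dar` as a sum -/
theorem dfc_dar {n : ℕ} (H : SimpleGraph (Fin n)) (A B : Finset (Fin n)) :
    dar H A B = ∑ a ∈ A, (univ.filter (fun v => v ∉ B ∧ H.Adj a v)).card := by
  unfold dar
  rw [Finset.card_filter, Fintype.sum_prod_type]
  rw [← Finset.sum_filter_add_sum_filter_not univ (fun a => a ∈ A)]
  have h1 : ∑ x ∈ univ.filter (fun a => ¬ a ∈ A), ∑ y,
      (if x ∈ A ∧ y ∉ B ∧ H.Adj x y then 1 else 0) = 0 := by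
    refine Finset.sum_eq_zero ?_
    intro x hx
    have hx' := (Finset.mem_filter.mp hx).2
    refine Finset.sum_eq_zero ?_
    intro y _
    rw [if_neg]
    exact fun h => hx' h.1
  rw [h1, add_zero]
  have h2 : univ.filter (fun a => a ∈ A) = A := by
    ext a
    simp
  rw [h2]
  refine Finset.sum_congr rfl ?_
  intro a ha
  rw [Finset.card_filter]
  refine Finset.sum_congr rfl ?_
  intro v _
  simp [ha]

/-- the edges between `A'` and `B` are labelled edges inside `A' ∪ B` -/
theorem dfc_between {n : ℕ} (π : Fin 3 → Fin n → Fin n) (ω : Sym2 (Fin n) → Bool)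
    (A B : Finset (Fin n)) (hAB : Disjoint A B) :
    ∑ a ∈ A, (univ.filter (fun v => v ∈ B ∧ (G0 π ω).Adj a v)).card ≤ estar π (A ∪ B) := by
  have hone : ∀ i : Fin 3, ∑ a ∈ A, (univ.filter (fun v => v ∈ B ∧ (gr (π i)).Adj a v)).card ≤
      ein (gr (π i)) (A ∪ B) := by
    intro i
    have e1 : ∑ a ∈ A, (univ.filter (fun v => v ∈ B ∧ (gr (π i)).Adj a v)).card =
        (A.sigma (fun a => univ.filter (fun v => v ∈ B ∧ (gr (π i)).Adj a v))).card := by
      rw [Finset.card_sigma]
    rw [e1]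
    unfold ein
    refine Finset.card_le_card_of_injOn (fun p => s(p.1, p.2)) ?_ ?_
    · intro p hp
      rw [Finset.mem_coe, Finset.mem_sigma, Finset.mem_filter] at hp
      obtain ⟨hp1, -, hp2, hp3⟩ := hp
      rw [Finset.mem_coe, Finset.mem_filter]
      refine ⟨Finset.mem_univ _, hp3, ?_⟩
      intro v hv
      rw [Sym2.mem_iff] at hv
      rcases hv with rfl | rfl
      · exact Finset.mem_union_left _ hp1
      · exact Finset.mem_union_right _ hp2
    · rintro ⟨a, v⟩ hp ⟨a', v'⟩ hq h
      rw [Finset.mem_coe, Finset.mem_sigma, Finset.mem_filter] at hp hq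
      obtain ⟨hp1, -, hp2, hp3⟩ := hp
      obtain ⟨hq1, -, hq2, hq3⟩ := hq
      simp only at hp1 hp2 hq1 hq2 h
      rw [Sym2.eq_iff] at h
      rcases h with ⟨rfl, rfl⟩ | ⟨h1, h2⟩
      · rfl
      · exfalso
        rw [h1] at hp1
        exact Finset.disjoint_left.mp hAB hp1 hq2
  have h0 := hone 0
  have h1 := hone 1
  have h2 := hone 2
  unfold estar
  rw [Fin.sum_univ_three]
  refine le_trans ?_ (add_le_add (add_le_add h0 h1) h2)
  rw [← Finset.sum_add_distrib, ← Finset.sum_add_distrib]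
  refine Finset.sum_le_sum ?_
  intro a _
  have hsub : univ.filter (fun v => v ∈ B ∧ (G0 π ω).Adj a v) ⊆
      (univ.filter (fun v => v ∈ B ∧ (gr (π 0)).Adj a v) ∪
        univ.filter (fun v => v ∈ B ∧ (gr (π 1)).Adj a v)) ∪
        univ.filter (fun v => v ∈ B ∧ (gr (π 2)).Adj a v) := by
    intro v hv
    obtain ⟨-, hv1, hv2⟩ := Finset.mem_filter.mp hv
    rw [Finset.mem_union, Finset.mem_union, Finset.mem_filter, Finset.mem_filter,
      Finset.mem_filter]
    rcases dfc_G0_lab π ω a v hv2 with h | h | h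
    · exact Or.inl (Or.inl ⟨Finset.mem_univ _, hv1, h⟩)
    · exact Or.inl (Or.inr ⟨Finset.mem_univ _, hv1, h⟩)
    · exact Or.inr ⟨Finset.mem_univ _, hv1, h⟩
  refine le_trans (Finset.card_le_card hsub) ?_
  refine le_trans (Finset.card_union_le _ _) ?_
  exact Nat.add_le_add_right (Finset.card_union_le _ _) _

/-- a vertex which is not bad has at least three neighbours -/
theorem dfc_deg {n : ℕ} (π : Fin 3 → Fin n → Fin n) (hπ : π ∈ RT3 n)
    (ω : Sym2 (Fin n) → Bool)
    (hc3 : ∀ v, 3 ≤ ((core (gr (π 2)) (keep (gr (π 2)) ω)).connectedComponentMk v).supp.ncard)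
    (B : Finset (Fin n)) (a : Fin n) (ha : a ∉ dfcBad π) :
    3 ≤ (univ.filter (fun v => v ∉ B ∧ (G0 π ω).Adj a v)).card +
      (univ.filter (fun v => v ∈ B ∧ (G0 π ω).Adj a v)).card := by
  have hRT : ∀ i, π i ∈ RT n := by
    intro i
    have := (Finset.mem_filter.mp hπ).2
    exact this i
  -- another vertex in the component of `a`
  obtain ⟨u, hu, hne⟩ : ∃ u, u ∈ ((core (gr (π 2)) (keep (gr (π 2)) ω)).connectedComponentMk a).supp
      ∧ u ≠ a := by
    by_contra hcon
    push Not at hcon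
    have hsub : ((core (gr (π 2)) (keep (gr (π 2)) ω)).connectedComponentMk a).supp ⊆ {a} := by
      intro u hu
      exact hcon u hu
    have h1 := Set.ncard_le_ncard hsub
    rw [Set.ncard_singleton] at h1
    have h2 := hc3 a
    omega
  have hreach : (core (gr (π 2)) (keep (gr (π 2)) ω)).Reachable a u := by
    rw [SimpleGraph.ConnectedComponent.mem_supp_iff] at hu
    exact (SimpleGraph.ConnectedComponent.exact hu).symm
  obtain ⟨c2, hc2⟩ := dfc_exists_adj hreach hne.symm
  obtain ⟨c0, hc0⟩ := dfc_gr_exists (π 0) (hRT 0) a u hne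
  obtain ⟨c1, hc1⟩ := dfc_gr_exists (π 1) (hRT 1) a u hne
  have hT2 : (gr (π 2)).Adj a c2 := hc2.1
  have hbad : ∀ w, ¬ (s(a, w) ∈ dfcO π 0 1 ∨ s(a, w) ∈ dfcO π 0 2 ∨ s(a, w) ∈ dfcO π 1 2) := by
    intro w hw
    exact ha (Finset.mem_filter.mpr ⟨Finset.mem_univ _, w, hw⟩)
  have h01 : c0 ≠ c1 := by
    rintro rfl
    refine hbad c0 (Or.inl ?_)
    simp only [dfcO, Finset.mem_filter, Finset.mem_univ, true_and, SimpleGraph.mem_edgeSet]
    exact ⟨hc0, hc1⟩
  have h02 : c0 ≠ c2 := by
    rintro rfl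
    refine hbad c0 (Or.inr (Or.inl ?_))
    simp only [dfcO, Finset.mem_filter, Finset.mem_univ, true_and, SimpleGraph.mem_edgeSet]
    exact ⟨hc0, hT2⟩
  have h12 : c1 ≠ c2 := by
    rintro rfl
    refine hbad c1 (Or.inr (Or.inr ?_))
    simp only [dfcO, Finset.mem_filter, Finset.mem_univ, true_and, SimpleGraph.mem_edgeSet]
    exact ⟨hc1, hT2⟩
  have hsub : ({c0, c1, c2} : Finset (Fin n)) ⊆
      univ.filter (fun v => v ∉ B ∧ (G0 π ω).Adj a v) ∪
        univ.filter (fun v => v ∈ B ∧ (G0 π ω).Adj a v) := by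
    intro v hv
    have hadj : (G0 π ω).Adj a v := by
      rw [Finset.mem_insert, Finset.mem_insert, Finset.mem_singleton] at hv
      rcases hv with rfl | rfl | rfl
      · exact dfc_G0_0 π ω a _ hc0
      · exact dfc_G0_1 π ω a _ hc1
      · exact dfc_G0_2 π ω a _ hc2
    rw [Finset.mem_union, Finset.mem_filter, Finset.mem_filter]
    by_cases hB : v ∈ B
    · exact Or.inr ⟨Finset.mem_univ _, hB, hadj⟩
    · exact Or.inl ⟨Finset.mem_univ _, hB, hadj⟩
  have hc : ({c0, c1, c2} : Finset (Fin n)).card = 3 := by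
    rw [Finset.card_eq_three]
    exact ⟨c0, c1, c2, h01, h02, h12, rfl⟩
  have := Finset.card_le_card hsub
  have h' := Finset.card_union_le (univ.filter (fun v => v ∉ B ∧ (G0 π ω).Adj a v))
    (univ.filter (fun v => v ∈ B ∧ (G0 π ω).Adj a v))
  omega

theorem deficit {n : ℕ} (δ ξ : ℝ) (hδ : 0 < δ) (hξ : 0 < ξ) (π : Fin 3 → Fin n → Fin n)
    (hπ : π ∈ RT3 n) (ω : Sym2 (Fin n) → Bool) (hLS : LS2 (2 * δ) (1 / 4) π)
    (hUB : UBok δ ξ π)
    (hc3 : ∀ v, 3 ≤ ((core (gr (π 2)) (keep (gr (π 2)) ω)).connectedComponentMk v).supp.ncard)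
    (hflag : 2 * (nflag π ω : ℝ) + 2 * ov π ≤ ξ * n) (A B : Finset (Fin n)) (hAB : Disjoint A B) :
    2 * A.card ≤ 2 * B.card + dar (G0 π ω) A B + 4 * ov π := by
  by_cases hBA : A.card < B.card
  · omega
  push Not at hBA
  by_cases hA : δ * n ≤ (A.card : ℝ)
  · -- large sets
    have h1 := hUB A B hAB hA hBA
    have h2 : (dstar π A B : ℝ) ≤ ((dar (G0 π ω) A B + 2 * nflag π ω + 2 * ov π : ℕ) : ℝ) := by
      exact_mod_cast dfc_large π ω A B
    push_cast at h2
    have h3 : (2 * A.card : ℝ) ≤ 2 * B.card + dar (G0 π ω) A B := by linarith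
    have h4 : 2 * A.card ≤ 2 * B.card + dar (G0 π ω) A B := by exact_mod_cast h3
    omega
  · push Not at hA
    set x : Fin n → ℕ := fun a => (univ.filter (fun v => v ∉ B ∧ (G0 π ω).Adj a v)).card with hx
    set y : Fin n → ℕ := fun a => (univ.filter (fun v => v ∈ B ∧ (G0 π ω).Adj a v)).card with hy
    set A' : Finset (Fin n) := A.filter (fun a => a ∉ dfcBad π ∧ x a ≤ 1) with hA'
    have hA'A : A' ⊆ A := Finset.filter_subset _ _
    have hdis : Disjoint A' B := Finset.disjoint_of_subset_left hA'A hAB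
    -- the claim
    have hclaim : ∑ a ∈ A', (2 - x a) ≤ 2 * B.card := by
      by_contra hcon
      push Not at hcon
      have hy1 : ∀ a ∈ A', 1 + (2 - x a) ≤ y a := by
        intro a ha
        obtain ⟨-, ha1, ha2⟩ := Finset.mem_filter.mp ha
        have := dfc_deg π hπ ω hc3 B a ha1
        change 3 ≤ x a + y a at this
        omega
      have hy2 : ∀ a ∈ A', 2 ≤ y a := by
        intro a ha
        obtain ⟨-, ha1, ha2⟩ := Finset.mem_filter.mp ha
        have := hy1 a ha
        omega
      have hE1 : A'.card + ∑ a ∈ A', (2 - x a) ≤ ∑ a ∈ A', y a := by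
        have := Finset.sum_le_sum hy1
        rw [Finset.sum_add_distrib] at this
        simpa using this
      have hE2 : 2 * A'.card ≤ ∑ a ∈ A', y a := by
        have := Finset.sum_le_sum hy2
        rw [Finset.sum_const, smul_eq_mul] at this
        omega
      have hE3 : ∑ a ∈ A', y a ≤ estar π (A' ∪ B) := dfc_between π ω A' B hdis
      have hW : (A' ∪ B).card = A'.card + B.card := Finset.card_union_of_disjoint hdis
      have hA'c : A'.card ≤ A.card := Finset.card_le_card hA'A
      have hWs : ((A' ∪ B).card : ℝ) ≤ 2 * δ * n := by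
        rw [hW]
        push_cast
        have e1 : (A'.card : ℝ) ≤ A.card := by exact_mod_cast hA'c
        have e2 : (B.card : ℝ) ≤ A.card := by exact_mod_cast hBA
        nlinarith
      have hLS' := hLS (A' ∪ B) hWs
      rw [hW] at hLS'
      push_cast at hLS'
      have hLS2 : 4 * estar π (A' ∪ B) ≤ 5 * (A'.card + B.card) := by
        have : (4 * (estar π (A' ∪ B) : ℝ)) ≤ 5 * (A'.card + B.card) := by linarith
        exact_mod_cast this
      omega
    -- the sum
    have hpt : ∀ a ∈ A, 2 ≤ x a + (if a ∈ dfcBad π then 2 else 0) +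
        (if a ∉ dfcBad π ∧ x a ≤ 1 then 2 - x a else 0) := by
      intro a _
      by_cases hb : a ∈ dfcBad π
      · simp only [hb, if_true]
        omega
      · by_cases hx1 : x a ≤ 1
        · rw [if_neg hb, if_pos ⟨hb, hx1⟩]
          omega
        · push Not at hx1
          omega
    have hsum := Finset.sum_le_sum hpt
    rw [Finset.sum_add_distrib, Finset.sum_add_distrib, Finset.sum_const, smul_eq_mul] at hsum
    have e1 : ∑ a ∈ A, x a = dar (G0 π ω) A B := (dfc_dar (G0 π ω) A B).symm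
    have e2 : ∑ a ∈ A, (if a ∈ dfcBad π then 2 else 0) ≤ 2 * (dfcBad π).card := by
      rw [← Finset.sum_filter, Finset.sum_const, smul_eq_mul, mul_comm]
      refine Nat.mul_le_mul_left 2 (Finset.card_le_card ?_)
      intro a ha
      exact (Finset.mem_filter.mp ha).2
    have e3 : ∑ a ∈ A, (if a ∉ dfcBad π ∧ x a ≤ 1 then 2 - x a else 0) = ∑ a ∈ A', (2 - x a) := by
      rw [hA', Finset.sum_filter]
    have e4 := dfc_bad π
    rw [e1, e3] at hsum
    omega

end

end Pool.Agent.ST3
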