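import Pool.Agent.Lib.MP_7abaca_co.Defs

set_option autoImplicit false

namespace Pool.Agent.ST3

open Finset Filter
open scoped Classical

noncomputable section

namespace TC

variable {n : ℕ}

theorem split (S : Finset (Fin n)) (x : Fin n) (hx : x ∈ S) (u : Fin n → Fin n) :
    S.card = (S.filter (fun y => y ≠ x ∧ u y ∈ S)).card +
      (S.filter (fun y => y ≠ x ∧ u y ∉ S)).card + 1 := by
  rw [← card_erase_add_one hx]
  congr 1
  rw [← card_filter_add_card_filter_not (s := S.erase x) (fun y => u y ∈ S)]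
  congr 1
  · congr 1
    ext y
    simp only [mem_filter, mem_erase]
    tauto
  · congr 1
    ext y
    simp only [mem_filter, mem_erase]
    tauto

/-- at most `ein M S` pivots are inside `S` -/
theorem inside (M : SimpleGraph (Fin n)) (x : Fin n) (S : Finset (Fin n)) (u : Fin n → Fin n)
    (hu : ∀ y ∈ S, y ≠ x → M.Adj y (u y))
    (hi : Set.InjOn (fun y => s(y, u y)) {y | y ∈ S ∧ y ≠ x}) :
    (S.filter (fun y => y ≠ x ∧ u y ∈ S)).card ≤ ein M S := by
  unfold ein
  apply card_le_card_of_injOn (fun y => s(y, u y))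
  · intro y hy
    rw [mem_coe, mem_filter] at hy
    rw [mem_coe, mem_filter]
    refine ⟨mem_univ _, (SimpleGraph.mem_edgeSet M).2 (hu y hy.1 hy.2.1), ?_⟩
    intro v hv
    rw [Sym2.mem_iff] at hv
    rcases hv with rfl | rfl
    · exact hy.1
    · exact hy.2.2
  · intro y hy y' hy' h
    rw [mem_coe, mem_filter] at hy hy'
    exact hi ⟨hy.1, hy.2.1⟩ ⟨hy'.1, hy'.2.1⟩ h

/-- twice the number of edges inside `S` -/
theorem darts_inside (M : SimpleGraph (Fin n)) (S : Finset (Fin n)) :
    (univ.filter (fun p : Fin n × Fin n => p.1 ∈ S ∧ p.2 ∈ S ∧ M.Adj p.1 p.2)).card =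
      2 * ein M S := by
  unfold ein
  rw [card_eq_sum_card_fiberwise (f := fun p : Fin n × Fin n => s(p.1, p.2))
    (t := univ.filter (fun e : Sym2 (Fin n) => e ∈ M.edgeSet ∧ ∀ v ∈ e, v ∈ S))]
  · rw [sum_const_nat (m := 2), mul_comm]
    intro e he
    rw [mem_filter] at he
    obtain ⟨-, he1, he2⟩ := he
    induction e using Sym2.ind with
    | _ a b =>
      rw [SimpleGraph.mem_edgeSet] at he1
      have ha : a ∈ S := he2 a (Sym2.mem_mk_left a b)
      have hb : b ∈ S := he2 b (Sym2.mem_mk_right a b)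
      have hab : a ≠ b := he1.ne
      have : (filter (fun p : Fin n × Fin n => s(p.1, p.2) = s(a, b))
          (univ.filter (fun p : Fin n × Fin n => p.1 ∈ S ∧ p.2 ∈ S ∧ M.Adj p.1 p.2))) =
          {(a, b), (b, a)} := by
        ext ⟨p, q⟩
        simp only [mem_filter, mem_univ, true_and, mem_insert, mem_singleton, Sym2.eq_iff,
          Prod.mk.injEq]
        constructor
        · rintro ⟨_, h⟩; exact h
        · rintro (⟨rfl, rfl⟩ | ⟨rfl, rfl⟩)
          · exact ⟨⟨ha, hb, he1⟩, Or.inl ⟨rfl, rfl⟩⟩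
          · exact ⟨⟨hb, ha, he1.symm⟩, Or.inr ⟨rfl, rfl⟩⟩
      rw [this, card_pair]
      intro h
      exact hab (Prod.mk.inj h).1
  · intro p hp
    rw [mem_coe, mem_filter] at hp
    rw [mem_coe, mem_filter]
    refine ⟨mem_univ _, (SimpleGraph.mem_edgeSet M).2 hp.2.2.2, ?_⟩
    intro v hv
    rw [Sym2.mem_iff] at hv
    rcases hv with rfl | rfl
    · exact hp.2.1
    · exact hp.2.2.1

/-- the outer neighbourhood -/
theorem tw_sdiff (M : SimpleGraph (Fin n)) (S : Finset (Fin n)) :
    tw M S \ S = univ.filter (fun w => w ∉ S ∧ ∃ y ∈ S, M.Adj y w) := by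
  ext w
  simp only [tw, Finset.mem_sdiff, Finset.mem_union, mem_filter, mem_univ, true_and]
  tauto

theorem card_tw (M : SimpleGraph (Fin n)) (S : Finset (Fin n)) :
    (tw M S).card = S.card + (tw M S \ S).card := by
  have h : S ⊆ tw M S := subset_union_left
  rw [card_sdiff_of_subset h]
  have := card_le_card h
  omega

theorem degsum (M : SimpleGraph (Fin n)) (S : Finset (Fin n)) :
    (univ.filter (fun p : Fin n × Fin n => p.1 ∈ S ∧ M.Adj p.1 p.2)).card =
      ∑ y ∈ S, (M.neighborSet y).ncard := by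
  rw [card_eq_sum_card_fiberwise (f := fun p : Fin n × Fin n => p.1) (t := S)]
  · refine sum_congr rfl fun y hy => ?_
    rw [Set.ncard_eq_toFinset_card']
    refine card_bij (fun p _ => p.2) ?_ ?_ ?_
    · intro p hp
      simp only [mem_filter, mem_univ, true_and] at hp
      rw [Set.mem_toFinset, SimpleGraph.mem_neighborSet, ← hp.2]
      exact hp.1.2
    · intro p hp q hq h
      simp only [mem_filter, mem_univ, true_and] at hp hq
      exact Prod.ext (hp.2.trans hq.2.symm) h
    · intro w hw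
      rw [Set.mem_toFinset, SimpleGraph.mem_neighborSet] at hw
      refine ⟨(y, w), ?_, rfl⟩
      simp only [mem_filter, mem_univ, true_and]
      exact ⟨⟨hy, hw⟩, trivial⟩
  · intro p hp
    rw [mem_coe, mem_filter] at hp
    exact hp.2.1

end TC

theorem trap_count2 {n : ℕ} (A H M : SimpleGraph (Fin n)) (x : Fin n) (S : Finset (Fin n))
    (hT : Trap A H M x S) : (tw M S).card + 2 * ein M S + 1 ≤ 3 * S.card := by
  have h1 : ∑ y ∈ S, (M.neighborSet y).ncard + 1 ≤ 2 * S.card := by
    rw [← add_sum_erase S _ hT.mem]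
    have h2 : ∑ y ∈ S.erase x, (M.neighborSet y).ncard ≤ (S.erase x).card * 2 := by
      rw [← smul_eq_mul]
      exact sum_le_card_nsmul _ _ _ fun y _ => hT.two y
    have h3 := card_erase_add_one hT.mem
    have h4 := hT.deg
    omega
  rw [← TC.degsum] at h1
  have h2 : (univ.filter (fun p : Fin n × Fin n => p.1 ∈ S ∧ M.Adj p.1 p.2)).card =
      (univ.filter (fun p : Fin n × Fin n => p.1 ∈ S ∧ p.2 ∈ S ∧ M.Adj p.1 p.2)).card +
      (univ.filter (fun p : Fin n × Fin n => p.1 ∈ S ∧ p.2 ∉ S ∧ M.Adj p.1 p.2)).card := by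
    rw [← card_filter_add_card_filter_not
      (s := univ.filter (fun p : Fin n × Fin n => p.1 ∈ S ∧ M.Adj p.1 p.2)) (fun p => p.2 ∈ S)]
    congr 1
    · congr 1
      ext p
      simp only [mem_filter, mem_univ, true_and]
      tauto
    · congr 1
      ext p
      simp only [mem_filter, mem_univ, true_and]
      tauto
  have h3 : (tw M S \ S).card ≤
      (univ.filter (fun p : Fin n × Fin n => p.1 ∈ S ∧ p.2 ∉ S ∧ M.Adj p.1 p.2)).card := by
    rw [TC.tw_sdiff]
    apply card_le_card_of_surjOn (fun p : Fin n × Fin n => p.2)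
    intro w hw
    rw [mem_coe, mem_filter] at hw
    obtain ⟨-, hw, y, hy, ha⟩ := hw
    exact ⟨(y, w), by simp [hy, hw, ha], rfl⟩
  rw [TC.darts_inside] at h2
  have h4 := TC.card_tw M S
  omega

theorem trap_count3 {n : ℕ} (A H M : SimpleGraph (Fin n)) (x : Fin n) (S : Finset (Fin n))
    (hT : Trap A H M x S) :
    S.card ≤ ((tw M S \ S).filter (fun v => 2 ≤ (S.filter (fun y => H.Adj y v)).card)).card +
      ein M S + 1 := by
  obtain ⟨u, z, h1, h2, h3, h4⟩ := hT.piv
  have e := TC.split S x hT.mem u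
  have i := TC.inside M x S u (fun y hy hyx => (h1 y hy hyx).1) h4
  have j : (S.filter (fun y => y ≠ x ∧ u y ∉ S)).card ≤
      ((tw M S \ S).filter (fun v => 2 ≤ (S.filter (fun y => H.Adj y v)).card)).card := by
    apply card_le_card_of_injOn u
    · intro y hy
      rw [mem_coe, mem_filter] at hy
      obtain ⟨hy, hyx, huy⟩ := hy
      obtain ⟨a1, a2, a3, a4⟩ := h1 y hy hyx
      rw [mem_coe, mem_filter, TC.tw_sdiff, mem_filter]
      refine ⟨⟨mem_univ _, huy, y, hy, a1⟩, ?_⟩
      have hne : y ≠ z y := by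
        intro h
        rw [← h] at a4
        exact a4 a1
      rw [← card_pair hne]
      apply card_le_card
      intro w hw
      rw [mem_insert, mem_singleton] at hw
      rw [mem_filter]
      rcases hw with rfl | rfl
      · exact ⟨hy, hT.le a1⟩
      · exact ⟨a2, a3⟩
    · intro y hy y' hy' h
      rw [mem_coe, mem_filter] at hy hy'
      exact h2 ⟨hy.1, hy.2.1⟩ ⟨hy'.1, hy'.2.1⟩ h
  omega

theorem trap_count1 {n : ℕ} (π : Fin 3 → Fin n → Fin n) (A H M : SimpleGraph (Fin n))
    (hH : H ≤ GG π) (x : Fin n) (S : Finset (Fin n)) (hT : Trap A H M x S) :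
    (tw M S).card + estar π S ≤ lstar π S (tw M S) + ein M S + 1 := by
  obtain ⟨u, z, h1, h2, h3, h4⟩ := hT.piv
  have e := TC.split S x hT.mem u
  have i := TC.inside M x S u (fun y hy hyx => (h1 y hy hyx).1) h4
  have hS : S ⊆ tw M S := subset_union_left
  -- labelled edges: inside `S`, and not inside `S`
  set Eo : Finset (Sym2 (Fin n)) := univ.filter (fun e => e ∈ (GG π).edgeSet ∧
    (∃ v ∈ e, v ∈ S) ∧ (∀ v ∈ e, v ∈ tw M S) ∧ ∃ v ∈ e, v ∉ S) with hEo
  have k1 : estar π S + Eo.card ≤ lstar π S (tw M S) := by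
    have a1 : ∀ j : Fin 3, (univ.filter (fun e : Sym2 (Fin n) =>
        e ∈ (gr (π j)).edgeSet ∧ (∃ v ∈ e, v ∈ S) ∧ ∀ v ∈ e, v ∈ tw M S)).card =
        ein (gr (π j)) S + (univ.filter (fun e : Sym2 (Fin n) =>
        e ∈ (gr (π j)).edgeSet ∧ (∃ v ∈ e, v ∈ S) ∧ (∀ v ∈ e, v ∈ tw M S) ∧
          ∃ v ∈ e, v ∉ S)).card := by
      intro j
      rw [← card_filter_add_card_filter_not (s := univ.filter (fun e : Sym2 (Fin n) =>
        e ∈ (gr (π j)).edgeSet ∧ (∃ v ∈ e, v ∈ S) ∧ ∀ v ∈ e, v ∈ tw M S))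
        (fun e => ∀ v ∈ e, v ∈ S)]
      unfold ein
      congr 1
      · congr 1
        ext e
        simp only [mem_filter, mem_univ, true_and]
        constructor
        · rintro ⟨⟨b1, b2, b3⟩, b4⟩; exact ⟨b1, b4⟩
        · rintro ⟨b1, b2⟩
          refine ⟨⟨b1, ?_, fun v hv => hS (b2 v hv)⟩, b2⟩
          induction e using Sym2.ind with
          | _ a b => exact ⟨a, Sym2.mem_mk_left a b, b2 a (Sym2.mem_mk_left a b)⟩
      · congr 1
        ext e
        simp only [mem_filter, mem_univ, true_and, not_forall, exists_prop]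
        tauto
    unfold estar lstar
    rw [sum_congr rfl fun j _ => a1 j, sum_add_distrib]
    refine Nat.add_le_add_left ?_ _
    have a2 : Eo ⊆ univ.biUnion (fun j : Fin 3 => univ.filter (fun e : Sym2 (Fin n) =>
        e ∈ (gr (π j)).edgeSet ∧ (∃ v ∈ e, v ∈ S) ∧ (∀ v ∈ e, v ∈ tw M S) ∧
          ∃ v ∈ e, v ∉ S)) := by
      intro e he
      rw [hEo, mem_filter] at he
      obtain ⟨-, b1, b2⟩ := he
      rw [mem_biUnion]
      have b3 : ∃ j : Fin 3, e ∈ (gr (π j)).edgeSet := by
        induction e using Sym2.ind with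
        | _ a b =>
          rw [SimpleGraph.mem_edgeSet] at b1
          rcases b1 with (b1 | b1) | b1
          · exact ⟨0, (SimpleGraph.mem_edgeSet _).2 b1⟩
          · exact ⟨1, (SimpleGraph.mem_edgeSet _).2 b1⟩
          · exact ⟨2, (SimpleGraph.mem_edgeSet _).2 b1⟩
      obtain ⟨j, hj⟩ := b3
      exact ⟨j, mem_univ _, by rw [mem_filter]; exact ⟨mem_univ _, hj, b2⟩⟩
    exact (card_le_card a2).trans card_biUnion_le
  -- the two families of edges not inside `S`
  have k2 : (tw M S \ S).card + (S.filter (fun y => y ≠ x ∧ u y ∉ S)).card ≤ Eo.card := by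
    have b1 : (tw M S \ S).card ≤ (Eo.filter (fun e => e ∈ M.edgeSet)).card := by
      have hch : ∀ w : Fin n, ∃ y : Fin n, w ∈ tw M S \ S → y ∈ S ∧ M.Adj y w := by
        intro w
        by_cases hw : w ∈ tw M S \ S
        · rw [TC.tw_sdiff, mem_filter] at hw
          obtain ⟨-, -, y, hy, ha⟩ := hw
          exact ⟨y, fun _ => ⟨hy, ha⟩⟩
        · exact ⟨w, fun h => absurd h hw⟩
      choose g hg using hch
      apply card_le_card_of_injOn (fun w => s(g w, w))
      · intro w hw
        have hw' : w ∉ S := (Finset.mem_sdiff.1 hw).2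
        have hwt : w ∈ tw M S := (Finset.mem_sdiff.1 hw).1
        obtain ⟨hy, ha⟩ := hg w hw
        rw [mem_coe, mem_filter, hEo, mem_filter]
        refine ⟨⟨mem_univ _, (SimpleGraph.mem_edgeSet _).2 (hH (hT.le ha)),
          ⟨g w, Sym2.mem_mk_left _ _, hy⟩, ?_, ⟨w, Sym2.mem_mk_right _ _, hw'⟩⟩,
          (SimpleGraph.mem_edgeSet _).2 ha⟩
        intro v hv
        rw [Sym2.mem_iff] at hv
        rcases hv with rfl | rfl
        · exact hS hy
        · exact hwt
      · intro w hw w' hw' h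
        have hn : w ∉ S := (Finset.mem_sdiff.1 hw).2
        have hn' : w' ∉ S := (Finset.mem_sdiff.1 hw').2
        have hy := (hg w hw).1
        have hy' := (hg w' hw').1
        simp only [Sym2.eq_iff] at h
        rcases h with h | h
        · exact h.2
        · exact absurd (h.2 ▸ hy') hn
    have b2 : (S.filter (fun y => y ≠ x ∧ u y ∉ S)).card ≤
        (Eo.filter (fun e => ¬ e ∈ M.edgeSet)).card := by
      apply card_le_card_of_injOn (fun y => s(z y, u y))
      · intro y hy
        rw [mem_coe, mem_filter] at hy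
        obtain ⟨hy, hyx, huy⟩ := hy
        obtain ⟨a1, a2, a3, a4⟩ := h1 y hy hyx
        have hut : u y ∈ tw M S := by
          rw [tw, Finset.mem_union, mem_filter]
          exact Or.inr ⟨mem_univ _, y, hy, a1⟩
        rw [mem_coe, mem_filter, hEo, mem_filter]
        refine ⟨⟨mem_univ _, (SimpleGraph.mem_edgeSet _).2 (hH a3),
          ⟨z y, Sym2.mem_mk_left _ _, a2⟩, ?_, ⟨u y, Sym2.mem_mk_right _ _, huy⟩⟩, ?_⟩
        · intro v hv
          rw [Sym2.mem_iff] at hv
          rcases hv with rfl | rfl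
          · exact hS a2
          · exact hut
        · rw [SimpleGraph.mem_edgeSet]; exact a4
      · intro y hy y' hy' h
        rw [mem_coe, mem_filter] at hy hy'
        exact h3 ⟨hy.1, hy.2.1⟩ ⟨hy'.1, hy'.2.1⟩ h
    rw [← card_filter_add_card_filter_not (s := Eo) (fun e => e ∈ M.edgeSet)]
    omega
  have k3 := TC.card_tw M S
  omega

end

end Pool.Agent.ST3
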