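import Pool.Agent.Lib.MP_7abaca_co.Forest
import Pool.Agent.Lib.MP_7abaca_co.TC
import Pool.Agent.Lib.MP_7abaca_co.Bridge

/-!
# MP_7abaca_co, module DET: trapped sets span more labelled edges than vertices
-/

set_option autoImplicit false

namespace Pool.Agent.ST3

open Finset Filter
open scoped Classical

noncomputable section

/-- a connected graph has no component inside a small set -/
theorem det_conn {n : ℕ} (T : SimpleGraph (Fin n)) (hT : T.IsTree) (S : Finset (Fin n))
    (hS : S.card < n) :
    S.card ≤ (univ.filter (fun e : Sym2 (Fin n) => e ∈ T.edgeSet ∧ ∃ v ∈ e, v ∈ S)).card := by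
  have h1 := forest_inc T hT.isAcyclic S
  have h2 : (univ.filter (fun c : T.ConnectedComponent => c.supp ⊆ (S : Set (Fin n)))) = ∅ := by
    rw [filter_eq_empty_iff]
    intro c _ hc
    have h3 : S = univ := by
      rw [eq_univ_iff_forall]
      intro v
      have h4 : v ∈ c.supp := by
        induction c using SimpleGraph.ConnectedComponent.ind with
        | h w =>
          rw [SimpleGraph.ConnectedComponent.mem_supp_iff, SimpleGraph.ConnectedComponent.eq]
          exact hT.connected.preconnected v w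
      exact hc h4
    rw [h3, card_univ, Fintype.card_fin] at hS
    exact lt_irrefl _ hS
  rw [h2, card_empty, add_zero] at h1
  exact h1

/-- the edges inside the components of a forest contained in `S` -/
theorem det_inside {n : ℕ} (F : SimpleGraph (Fin n)) (hF : F.IsAcyclic)
    (hc3 : ∀ v, 3 ≤ (F.connectedComponentMk v).supp.ncard) (S : Finset (Fin n)) :
    2 * (univ.filter (fun c : F.ConnectedComponent => c.supp ⊆ (S : Set (Fin n)))).card ≤
      ein F S := by
  set C := univ.filter (fun c : F.ConnectedComponent => c.supp ⊆ (S : Set (Fin n))) with hC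
  set S' := S.filter (fun v => (F.connectedComponentMk v).supp ⊆ (S : Set (Fin n))) with hS'
  have h1 := forest_inc F hF S'
  have h2 : (univ.filter (fun c : F.ConnectedComponent => c.supp ⊆ (S' : Set (Fin n)))) ⊆ C := by
    intro c hc
    rw [mem_filter] at hc
    rw [hC, mem_filter]
    exact ⟨mem_univ _, hc.2.trans (by rw [hS']; exact_mod_cast filter_subset _ _)⟩
  have h3 : (univ.filter (fun e : Sym2 (Fin n) => e ∈ F.edgeSet ∧ ∃ v ∈ e, v ∈ S')).card ≤
      ein F S := by
    apply card_le_card
    intro e he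
    rw [mem_filter] at he ⊢
    refine ⟨mem_univ _, he.2.1, ?_⟩
    obtain ⟨_, he1, v, hv, hvS⟩ := he
    rw [hS', mem_filter] at hvS
    intro w hw
    apply hvS.2
    rw [SimpleGraph.ConnectedComponent.mem_supp_iff, SimpleGraph.ConnectedComponent.eq]
    by_cases hvw : v = w
    · rw [hvw]
    · have h4 : e = s(v, w) := (Sym2.mem_and_mem_iff hvw).1 ⟨hv, hw⟩
      rw [h4, SimpleGraph.mem_edgeSet] at he1
      exact he1.reachable.symm
  have h4 : 3 * C.card ≤ S'.card := by
    have h5 : ∑ c ∈ C, (univ.filter (fun v => v ∈ c.supp)).card ≤ S'.card := by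
      rw [← card_biUnion]
      · apply card_le_card
        intro v hv
        rw [mem_biUnion] at hv
        obtain ⟨c, hc, hv⟩ := hv
        rw [mem_filter] at hv
        rw [hC, mem_filter] at hc
        rw [hS', mem_filter]
        have h6 : F.connectedComponentMk v = c := hv.2
        exact ⟨hc.2 hv.2, by rw [h6]; exact hc.2⟩
      · intro c _ c' _ hcc'
        rw [Function.onFun, disjoint_left]
        intro v hv hv'
        rw [mem_filter] at hv hv'
        exact hcc' (hv.2.symm.trans hv'.2)
    have h6 : ∀ c ∈ C, 3 ≤ (univ.filter (fun v => v ∈ c.supp)).card := by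
      intro c _
      induction c using SimpleGraph.ConnectedComponent.ind with
      | h w =>
        have h7 := hc3 w
        rw [Set.ncard_eq_toFinset_card'] at h7
        refine h7.trans (le_of_eq ?_)
        congr 1
        ext v
        simp
    calc 3 * C.card = ∑ c ∈ C, 3 := by rw [sum_const, smul_eq_mul, mul_comm]
      _ ≤ _ := sum_le_sum h6
      _ ≤ _ := h5
  have h5 := card_le_card h2
  omega

theorem det {n : ℕ} (π : Fin 3 → Fin n → Fin n) (hπ : π ∈ RT3 n) (F H M : SimpleGraph (Fin n))
    (hF : F ≤ gr (π 2)) (hc3 : ∀ v, 3 ≤ (F.connectedComponentMk v).supp.ncard)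
    (hH : H ≤ GG π) (x : Fin n) (S : Finset (Fin n)) (hS : S.card < n)
    (hT : Trap (gr (π 0) ⊔ gr (π 1) ⊔ F) H M x S) :
    (tw M S).card + 1 ≤ lstar π S (tw M S) := by
  have htree : ∀ i, (gr (π i)).IsTree := fun i => gr_isTree (π i) ((mem_filter.1 hπ).2 i)
  have hFa : F.IsAcyclic := (htree 2).isAcyclic.anti hF
  set c := (univ.filter (fun c : F.ConnectedComponent => c.supp ⊆ (S : Set (Fin n)))).card with hc
  have h1 := trap_count1 π _ H M hH x S hT
  have h2 := trap_count2 _ H M x S hT
  have h3 : 2 * c ≤ estar π S := by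
    refine (det_inside F hFa hc3 S).trans ?_
    have h4 : ein F S ≤ ein (gr (π 2)) S := by
      apply card_le_card
      intro e he
      rw [mem_filter] at he ⊢
      exact ⟨mem_univ _, SimpleGraph.edgeSet_mono hF he.2.1, he.2.2⟩
    refine h4.trans ?_
    rw [estar]
    exact single_le_sum (f := fun i => ein (gr (π i)) S) (fun _ _ => Nat.zero_le _) (mem_univ 2)
  -- edges meeting `S` of a graph contained in the visible graph lie inside `tw M S`
  have hin : ∀ G : SimpleGraph (Fin n), G ≤ gr (π 0) ⊔ gr (π 1) ⊔ F → ∀ e ∈ G.edgeSet,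
      (∃ v ∈ e, v ∈ S) → ∀ v ∈ e, v ∈ tw M S := by
    intro G hG e he hv w hw
    obtain ⟨v, hv, hvS⟩ := hv
    by_cases hvw : v = w
    · rw [← hvw, tw, mem_union]
      exact Or.inl hvS
    · have h4 : e = s(v, w) := (Sym2.mem_and_mem_iff hvw).1 ⟨hv, hw⟩
      rw [h4, SimpleGraph.mem_edgeSet] at he
      rw [tw, mem_union, mem_filter]
      rcases hT.closed v hvS w (hG he) with h5 | h5
      · exact Or.inl h5
      · exact Or.inr ⟨mem_univ _, h5⟩
  have h5 : 3 * S.card ≤ lstar π S (tw M S) + c := by
    rw [lstar, Fin.sum_univ_three]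
    have e0 : S.card ≤ (univ.filter (fun e : Sym2 (Fin n) =>
        e ∈ (gr (π 0)).edgeSet ∧ (∃ v ∈ e, v ∈ S) ∧ ∀ v ∈ e, v ∈ tw M S)).card := by
      refine (det_conn _ (htree 0) S hS).trans (card_le_card fun e he => ?_)
      rw [mem_filter] at he ⊢
      exact ⟨mem_univ _, he.2.1, he.2.2, hin (gr (π 0)) (le_sup_left.trans le_sup_left) e
        he.2.1 he.2.2⟩
    have e1 : S.card ≤ (univ.filter (fun e : Sym2 (Fin n) =>
        e ∈ (gr (π 1)).edgeSet ∧ (∃ v ∈ e, v ∈ S) ∧ ∀ v ∈ e, v ∈ tw M S)).card := by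
      refine (det_conn _ (htree 1) S hS).trans (card_le_card fun e he => ?_)
      rw [mem_filter] at he ⊢
      exact ⟨mem_univ _, he.2.1, he.2.2, hin (gr (π 1)) (le_sup_right.trans le_sup_left) e
        he.2.1 he.2.2⟩
    have e2 : S.card ≤ (univ.filter (fun e : Sym2 (Fin n) =>
        e ∈ (gr (π 2)).edgeSet ∧ (∃ v ∈ e, v ∈ S) ∧ ∀ v ∈ e, v ∈ tw M S)).card + c := by
      refine (forest_inc F hFa S).trans (Nat.add_le_add_right (card_le_card fun e he => ?_) _)
      rw [mem_filter] at he ⊢
      exact ⟨mem_univ _, SimpleGraph.edgeSet_mono hF he.2.1, he.2.2, hin F le_sup_right e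
        he.2.1 he.2.2⟩
    omega
  omega

end

end Pool.Agent.ST3
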