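import Pool.Agent.Lib.MP_7abaca_co.Defs

/-!
# Exploration by rotations (MP_7abaca_co, module EXPL)
-/

set_option autoImplicit false

namespace Pool.Agent.ST3

open Finset Filter
open scoped Classical

noncomputable section

theorem expl_mem_tw {n : ℕ} {M : SimpleGraph (Fin n)} {S : Finset (Fin n)} {w : Fin n} :
    w ∈ tw M S ↔ w ∈ S ∨ ∃ y ∈ S, M.Adj y w := by
  simp [tw]

theorem expl_star {n : ℕ} (H M : SimpleGraph (Fin n)) (hM : M ≤ H) (y : Fin n) :
    (H.induce {v | v = y ∨ M.Adj y v}).Connected := by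
  rw [SimpleGraph.connected_iff_exists_forall_reachable]
  refine ⟨⟨y, Or.inl rfl⟩, ?_⟩
  rintro ⟨v, hv | hv⟩
  · subst hv
    exact SimpleGraph.Reachable.refl _
  · apply SimpleGraph.Adj.reachable
    exact hM hv

/-- A set obtained from `x` by rotations. -/
structure ExplGood {n : ℕ} (H M : SimpleGraph (Fin n)) (x : Fin n)
    (Ω : SimpleGraph (Fin n) → Fin n → Prop) (S : Finset (Fin n)) : Prop where
  mem : x ∈ S
  piv : ∃ u z : Fin n → Fin n,
    (∀ y ∈ S, y ≠ x → M.Adj y (u y) ∧ z y ∈ S ∧ H.Adj (z y) (u y) ∧ ¬ M.Adj (z y) (u y)) ∧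
    Set.InjOn u {y | y ∈ S ∧ y ≠ x} ∧
    Set.InjOn (fun y => s(z y, u y)) {y | y ∈ S ∧ y ≠ x} ∧
    Set.InjOn (fun y => s(y, u y)) {y | y ∈ S ∧ y ≠ x}
  conn : (H.induce {w | w ∈ S ∨ ∃ y ∈ S, M.Adj y w}).Connected
  om : ∀ y ∈ S, ∃ M', Ω M' y ∧ ∀ v, v ∉ tw M S → ∀ w, (M'.Adj v w ↔ M.Adj v w)

theorem expl_base {n : ℕ} (H M : SimpleGraph (Fin n)) (x : Fin n) (hM : M ≤ H)
    (Ω : SimpleGraph (Fin n) → Fin n → Prop) (h0 : Ω M x) : ExplGood H M x Ω {x} := by
  refine ⟨mem_singleton_self x, ⟨id, id, ?_, ?_, ?_, ?_⟩, ?_, ?_⟩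
  · intro y hy hyx
    exact absurd (mem_singleton.1 hy) hyx
  · rintro y ⟨hy, hyx⟩
    exact absurd (mem_singleton.1 hy) hyx
  · rintro y ⟨hy, hyx⟩
    exact absurd (mem_singleton.1 hy) hyx
  · rintro y ⟨hy, hyx⟩
    exact absurd (mem_singleton.1 hy) hyx
  · have : {w | w ∈ ({x} : Finset (Fin n)) ∨ ∃ y ∈ ({x} : Finset (Fin n)), M.Adj y w} =
        {v | v = x ∨ M.Adj x v} := by
      ext v
      simp
    rw [this]
    exact expl_star H M hM x
  · intro y hy
    rw [mem_singleton.1 hy]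
    exact ⟨M, h0, fun v _ w => Iff.rfl⟩

theorem expl_injOn {n : ℕ} {α : Type} {S : Finset (Fin n)} {x y : Fin n} (hy : y ∉ S)
    (f g : Fin n → α) (hf : Set.InjOn f {t | t ∈ S ∧ t ≠ x}) (hg : ∀ t ∈ S, t ≠ x → g t = f t)
    (hne : ∀ t ∈ S, t ≠ x → f t ≠ g y) :
    Set.InjOn g {t | t ∈ insert y S ∧ t ≠ x} := by
  rintro a ⟨ha, hax⟩ b ⟨hb, hbx⟩ hab
  rw [mem_insert] at ha hb
  rcases ha with rfl | ha <;> rcases hb with rfl | hb
  · rfl
  · exact absurd ((hg b hb hbx).symm.trans hab.symm) (hne b hb hbx)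
  · exact absurd ((hg a ha hax).symm.trans hab) (hne a ha hax)
  · apply hf ⟨ha, hax⟩ ⟨hb, hbx⟩
    rw [← hg a ha hax, ← hg b hb hbx]
    exact hab

theorem expl_step {n : ℕ} (H M : SimpleGraph (Fin n)) (x : Fin n) (hM : M ≤ H)
    (Ω : SimpleGraph (Fin n) → Fin n → Prop)
    (hcl : ∀ M' z, Ω M' z → ∀ u, H.Adj z u → ¬ M'.Adj z u →
      ∃ y, M'.Adj u y ∧ Ω ((M' ⊔ SimpleGraph.edge z u) \ SimpleGraph.edge u y) y)
    (S : Finset (Fin n)) (hS : ExplGood H M x Ω S) (y0 w : Fin n) (hy0 : y0 ∈ S)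
    (hH : H.Adj y0 w) (hw : w ∉ tw M S) :
    ∃ y, y ∉ S ∧ ExplGood H M x Ω (insert y S) := by
  obtain ⟨hmem, ⟨u, z, hp, hu, he1, he2⟩, hconn, hom⟩ := hS
  have hw' := hw
  rw [expl_mem_tw, not_or] at hw'
  obtain ⟨hwS, hwM⟩ := hw'
  push Not at hwM
  obtain ⟨M0, hM0, hag⟩ := hom y0 hy0
  have hn : ¬ M0.Adj y0 w := by
    intro h
    exact hwM y0 hy0 ((hag w hw y0).1 h.symm).symm
  obtain ⟨y, hy, hΩ⟩ := hcl M0 y0 hM0 w hH hn
  have hMwy : M.Adj w y := (hag w hw y).1 hy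
  have hyS : y ∉ S := fun h => hwM y h hMwy.symm
  have htw : ∀ t ∈ S, t ≠ x → u t ∈ tw M S := fun t ht htx =>
    expl_mem_tw.2 (Or.inr ⟨t, ht, (hp t ht htx).1⟩)
  have hST : ∀ t ∈ S, t ∈ tw M S := fun t ht => expl_mem_tw.2 (Or.inl ht)
  have hyx : y ≠ x := fun h => hyS (h ▸ hmem)
  refine ⟨y, hyS, mem_insert_of_mem hmem, ⟨Function.update u y w, Function.update z y y0,
    ?_, ?_, ?_, ?_⟩, ?_, ?_⟩
  · intro t ht htx
    rw [mem_insert] at ht
    by_cases hty : t = y
    · subst hty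
      rw [Function.update_self, Function.update_self]
      exact ⟨hMwy.symm, mem_insert_of_mem hy0, hH, hwM y0 hy0⟩
    · have ht' : t ∈ S := ht.resolve_left hty
      rw [Function.update_of_ne hty, Function.update_of_ne hty]
      obtain ⟨h1, h2, h3, h4⟩ := hp t ht' htx
      exact ⟨h1, mem_insert_of_mem h2, h3, h4⟩
  · refine expl_injOn hyS u _ hu (fun t ht htx => ?_) (fun t ht htx => ?_)
    · rw [Function.update_of_ne]
      rintro rfl
      exact hyS ht
    · rw [Function.update_self]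
      rintro h
      exact hw (h ▸ htw t ht htx)
  · refine expl_injOn hyS (fun t => s(z t, u t)) _ he1 (fun t ht htx => ?_)
      (fun t ht htx => ?_)
    · have : t ≠ y := by
        rintro rfl
        exact hyS ht
      simp only [Function.update_of_ne this]
    · simp only [Function.update_self]
      intro h
      have h1 : w ∈ s(z t, u t) := by rw [h]; exact Sym2.mem_mk_right _ _
      rw [Sym2.mem_iff] at h1
      rcases h1 with h1 | h1
      · exact hw (h1 ▸ hST _ (hp t ht htx).2.1)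
      · exact hw (h1 ▸ htw t ht htx)
  · refine expl_injOn hyS (fun t => s(t, u t)) _ he2 (fun t ht htx => ?_)
      (fun t ht htx => ?_)
    · have : t ≠ y := by
        rintro rfl
        exact hyS ht
      simp only [Function.update_of_ne this]
    · simp only [Function.update_self]
      intro h
      have h1 : w ∈ s(t, u t) := by rw [h]; exact Sym2.mem_mk_right _ _
      rw [Sym2.mem_iff] at h1
      rcases h1 with h1 | h1
      · exact hw (h1 ▸ hST _ ht)
      · exact hw (h1 ▸ htw t ht htx)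
  · have : {v | v ∈ insert y S ∨ ∃ t ∈ insert y S, M.Adj t v} =
        {v | v ∈ S ∨ ∃ t ∈ S, M.Adj t v} ∪ {v | v = y ∨ M.Adj y v} := by
      ext v
      simp only [mem_insert, Set.mem_ofPred_eq, Set.mem_union, exists_eq_or_imp]
      constructor
      · rintro ((h | h) | (h | h))
        · exact Or.inr (Or.inl h)
        · exact Or.inl (Or.inl h)
        · exact Or.inr (Or.inr h)
        · exact Or.inl (Or.inr h)
      · rintro ((h | h) | (h | h))
        · exact Or.inl (Or.inr h)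
        · exact Or.inr (Or.inr h)
        · exact Or.inl (Or.inl h)
        · exact Or.inr (Or.inl h)
    rw [this]
    exact SimpleGraph.connected_induce_union (v := y0) (w := w) hconn.preconnected
      (expl_star H M hM y).preconnected (Or.inl hy0) (Or.inr hMwy.symm) hH
  · have hmono : ∀ v, v ∉ tw M (insert y S) → v ∉ tw M S := by
      intro v hv hv'
      apply hv
      rw [expl_mem_tw] at hv' ⊢
      rcases hv' with h | ⟨t, ht, h⟩
      · exact Or.inl (mem_insert_of_mem h)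
      · exact Or.inr ⟨t, mem_insert_of_mem ht, h⟩
    intro t ht
    rw [mem_insert] at ht
    rcases ht with rfl | ht
    · refine ⟨_, hΩ, fun v hv v' => ?_⟩
      have hv1 := hmono v hv
      rw [← hag v hv1 v']
      have hvy : v ≠ t := fun h => hv (expl_mem_tw.2 (Or.inl (h ▸ mem_insert_self _ _)))
      have hvy0 : v ≠ y0 := fun h => hv1 (h ▸ hST y0 hy0)
      have hvw : v ≠ w := fun h =>
        hv (expl_mem_tw.2 (Or.inr ⟨t, mem_insert_self _ _, h ▸ hMwy.symm⟩))
      simp only [SimpleGraph.sdiff_adj, SimpleGraph.sup_adj, SimpleGraph.edge_adj]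
      constructor
      · rintro ⟨h | h, -⟩
        · exact h
        · rcases h.1 with h | h
          · exact absurd h.1 hvy0
          · exact absurd h.1 hvw
      · intro h
        refine ⟨Or.inl h, fun h' => ?_⟩
        rcases h'.1 with h' | h'
        · exact hvw h'.1
        · exact hvy h'.1
    · obtain ⟨M', h1, h2⟩ := hom t ht
      exact ⟨M', h1, fun v hv => h2 v (hmono v hv)⟩

theorem expl {n : ℕ} (G0 H M : SimpleGraph (Fin n)) (x : Fin n) (hGH : G0 ≤ H) (hM : M ≤ H)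
    (h2 : Two M) (hx : (M.neighborSet x).ncard ≤ 1)
    (Ω : SimpleGraph (Fin n) → Fin n → Prop) (h0 : Ω M x)
    (hcl : ∀ M' z, Ω M' z → ∀ u, H.Adj z u → ¬ M'.Adj z u →
      ∃ y, M'.Adj u y ∧ Ω ((M' ⊔ SimpleGraph.edge z u) \ SimpleGraph.edge u y) y) :
    ∃ S, Trap G0 H M x S ∧ ∀ z ∈ S, ∃ M', Ω M' z := by
  obtain ⟨S, hS, hmax⟩ := Finset.exists_max_image
    ((univ : Finset (Finset (Fin n))).filter (fun S => ExplGood H M x Ω S)) Finset.card
    ⟨{x}, mem_filter.2 ⟨mem_univ _, expl_base H M x hM Ω h0⟩⟩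
  have hG := (mem_filter.1 hS).2
  refine ⟨S, ⟨hM, h2, hG.mem, hx, hG.piv, ?_, hG.conn⟩, fun z hz => ?_⟩
  · intro y hy w hw
    by_contra hc
    have hw' : w ∉ tw M S := fun h => hc (expl_mem_tw.1 h)
    obtain ⟨y', hy', hG'⟩ := expl_step H M x hM Ω hcl S hG y w hy (hGH hw) hw'
    have := hmax _ (mem_filter.2 ⟨mem_univ _, hG'⟩)
    rw [card_insert_of_notMem hy'] at this
    omega
  · obtain ⟨M', h1, -⟩ := hG.om z hz
    exact ⟨M', h1⟩

end

end Pool.Agent.ST3
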