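import Pool.Agent.Lib.MP_7abaca_co.Defs

/-!
# Edges of a forest incident to a set
-/

set_option autoImplicit false

namespace Pool.Agent.ST3

open Finset Filter
open scoped Classical

noncomputable section

namespace Forest

/-- A neighbour which is nearer to the root. -/
theorem closer {n : ℕ} (F : SimpleGraph (Fin n)) (y r : Fin n) (h : F.Reachable y r)
    (hne : y ≠ r) : ∃ w, F.Adj y w ∧ F.dist w r < F.dist y r := by
  obtain ⟨p, hp⟩ := h.exists_walk_length_eq_dist
  cases p with
  | nil => exact absurd rfl hne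
  | cons hadj q =>
    rename_i w
    refine ⟨w, hadj, ?_⟩
    have h1 := SimpleGraph.dist_le q
    rw [SimpleGraph.Walk.length_cons] at hp
    omega

end Forest

theorem forest_inc {n : ℕ} (F : SimpleGraph (Fin n)) (hF : F.IsAcyclic) (S : Finset (Fin n)) :
    S.card ≤ (univ.filter (fun e : Sym2 (Fin n) => e ∈ F.edgeSet ∧ ∃ v ∈ e, v ∈ S)).card +
      (univ.filter (fun c : F.ConnectedComponent => c.supp ⊆ (S : Set (Fin n)))).card := by
  have hroot : ∀ c : F.ConnectedComponent, ∃ r : Fin n, r ∈ c.supp ∧
      (r ∈ S → c.supp ⊆ (S : Set (Fin n))) := by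
    intro c
    by_cases h : ∃ r ∈ c.supp, r ∉ S
    · obtain ⟨r, h1, h2⟩ := h
      exact ⟨r, h1, fun h3 => absurd h3 h2⟩
    · push Not at h
      obtain ⟨r, hr⟩ := c.nonempty_supp
      exact ⟨r, hr, fun _ v hv => h v hv⟩
  choose r hr1 hr2 using hroot
  set cc : Fin n → F.ConnectedComponent := fun v => F.connectedComponentMk v with hcc
  have hreach : ∀ v, F.Reachable v (r (cc v)) := by
    intro v
    have := hr1 (cc v)
    rw [SimpleGraph.ConnectedComponent.mem_supp_iff] at this
    exact (SimpleGraph.ConnectedComponent.exact this).symm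
  have hw : ∀ y, ∃ w, y ≠ r (cc y) → F.Adj y w ∧ F.dist w (r (cc y)) < F.dist y (r (cc y)) := by
    intro y
    by_cases h : y = r (cc y)
    · exact ⟨y, fun h' => absurd h h'⟩
    · obtain ⟨w, hw⟩ := Forest.closer F y _ (hreach y) h
      exact ⟨w, fun _ => hw⟩
  choose w hw using hw
  have h1 : (S.filter fun y => y ≠ r (cc y)).card ≤
      (univ.filter (fun e : Sym2 (Fin n) => e ∈ F.edgeSet ∧ ∃ v ∈ e, v ∈ S)).card := by
    refine Finset.card_le_card_of_injOn (fun y => s(y, w y)) ?_ ?_
    · intro y hy
      rw [Finset.mem_coe, mem_filter] at hy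
      rw [Finset.mem_coe, mem_filter]
      refine ⟨mem_univ _, (hw y hy.2).1, y, Sym2.mem_mk_left _ _, hy.1⟩
    · intro y hy y' hy' h
      rw [Finset.mem_coe, mem_filter] at hy hy'
      simp only [Sym2.eq_iff] at h
      rcases h with h | h
      · exact h.1
      · exfalso
        obtain ⟨e1, e2⟩ := h
        obtain ⟨a1, a2⟩ := hw y hy.2
        obtain ⟨b1, b2⟩ := hw y' hy'.2
        have hc : cc y = cc y' := by
          rw [← e2]
          exact SimpleGraph.ConnectedComponent.sound a1.reachable
        rw [← hc, ← e1] at b2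
        rw [e2] at a2
        omega
  have h2 : (S.filter fun y => ¬ y ≠ r (cc y)).card ≤
      (univ.filter (fun c : F.ConnectedComponent => c.supp ⊆ (S : Set (Fin n)))).card := by
    refine Finset.card_le_card_of_injOn cc ?_ ?_
    · intro y hy
      rw [Finset.mem_coe, mem_filter, not_not] at hy
      rw [Finset.mem_coe, mem_filter]
      refine ⟨mem_univ _, hr2 _ ?_⟩
      rw [← hy.2]
      exact hy.1
    · intro y hy y' hy' h
      rw [Finset.mem_coe, mem_filter, not_not] at hy hy'
      rw [hy.2, hy'.2, h]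
  rw [← Finset.card_filter_add_card_filter_not (s := S) (fun y => y ≠ r (cc y))]
  exact Nat.add_le_add h1 h2

end

end Pool.Agent.ST3
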