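import Pool.Agent.Lib.MP_7abaca_co.Defs

set_option autoImplicit false

/-!
# Occupancy generating function inequality (module GENF)
-/

namespace Pool.Agent.ST3

open Finset Filter
open scoped Classical

noncomputable section

/-- The sum of a function of the occupancy numbers. -/
theorem genf_count {n m : ℕ} (Φ : (Fin n → ℕ) → ℝ) :
    ∑ g : Fin m → Fin n, Φ (fun v => (univ.filter (fun p => g p = v)).card) =
      ∑ k ∈ piAntidiag (univ : Finset (Fin n)) m, (Nat.multinomial univ k : ℝ) * Φ k := by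
  set L : MvPolynomial (Fin n) ℝ →ₗ[ℝ] ℝ :=
    (MvPolynomial.basisMonomials (Fin n) ℝ).constr ℝ (fun d => Φ d) with hL
  have hLm : ∀ d : Fin n →₀ ℕ, L (MvPolynomial.monomial d 1) = Φ d := by
    intro d
    have h := (MvPolynomial.basisMonomials (Fin n) ℝ).constr_basis ℝ (fun d => Φ d) d
    rwa [MvPolynomial.coe_basisMonomials] at h
  have hmon : ∀ k : Fin n → ℕ, ∏ i, (MvPolynomial.X i : MvPolynomial (Fin n) ℝ) ^ k i =
      MvPolynomial.monomial (Finsupp.equivFunOnFinite.symm k) 1 := by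
    intro k
    rw [MvPolynomial.monomial_eq, map_one, one_mul, Finsupp.prod_fintype]
    · rfl
    · intro i
      exact pow_zero _
  have h1 : (∑ v : Fin n, (MvPolynomial.X v : MvPolynomial (Fin n) ℝ)) ^ m =
      ∑ g : Fin m → Fin n, ∏ v, (MvPolynomial.X v : MvPolynomial (Fin n) ℝ) ^
        (univ.filter (fun p => g p = v)).card := by
    rw [Fintype.sum_pow]
    refine Finset.sum_congr rfl fun g _ => ?_
    rw [← Finset.prod_fiberwise univ g]
    refine Finset.prod_congr rfl fun v _ => ?_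
    rw [Finset.prod_congr rfl (g := fun _ => (MvPolynomial.X v : MvPolynomial (Fin n) ℝ)),
      Finset.prod_const]
    intro p hp
    rw [(Finset.mem_filter.1 hp).2]
  have h2 := Finset.sum_pow_eq_sum_piAntidiag (univ : Finset (Fin n))
    (fun v => (MvPolynomial.X v : MvPolynomial (Fin n) ℝ)) m
  rw [h1] at h2
  have h3 := congrArg L h2
  rw [map_sum, map_sum] at h3
  rw [Finset.sum_congr rfl (fun g _ => ?_), h3, Finset.sum_congr rfl (fun k _ => ?_)]
  · rw [hmon, ← nsmul_eq_mul, map_nsmul, hLm, nsmul_eq_mul]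
    rfl
  · rw [hmon, hLm]
    rfl

theorem genf {n m : ℕ} (ψ : Fin n → ℕ → ℝ) (hψ : ∀ v c, 0 ≤ ψ v c) (X : ℝ) (hX : 0 < X)
    (Z : Fin n → ℝ) (hZ : ∀ v, ∀ M : ℕ, ∑ c ∈ range M, ψ v c * X ^ c / (c.factorial : ℝ) ≤ Z v) :
    ∑ g : Fin m → Fin n, ∏ v, ψ v (univ.filter (fun p => g p = v)).card ≤
      (m.factorial : ℝ) * (1 / X) ^ m * ∏ v, Z v := by
  rw [genf_count (fun k => ∏ v, ψ v (k v))]
  have h1 : ∀ k ∈ piAntidiag (univ : Finset (Fin n)) m,
      (Nat.multinomial univ k : ℝ) * ∏ v, ψ v (k v) =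
        (m.factorial : ℝ) * (1 / X) ^ m * ∏ v, (ψ v (k v) * X ^ (k v) / ((k v).factorial : ℝ)) := by
    intro k hk
    rw [mem_piAntidiag] at hk
    have h2 := Nat.multinomial_spec (univ : Finset (Fin n)) k
    rw [hk.1] at h2
    have h3 : (∏ v, ((k v).factorial : ℝ)) * (Nat.multinomial univ k : ℝ) = m.factorial := by
      exact_mod_cast h2
    have h4 : (∏ v, ((k v).factorial : ℝ)) ≠ 0 :=
      Finset.prod_ne_zero_iff.2 fun v _ => by positivity
    have h5 : ∏ v, X ^ (k v) = X ^ m := by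
      rw [Finset.prod_pow_eq_pow_sum, hk.1]
    rw [Finset.prod_div_distrib, Finset.prod_mul_distrib, h5, ← h3]
    have hX' : X ≠ 0 := hX.ne'
    have h7 : (1 / X) ^ m * X ^ m = 1 := by
      rw [← mul_pow, one_div_mul_cancel hX', one_pow]
    field_simp
    rw [mul_assoc, h7, mul_one]
  rw [Finset.sum_congr rfl h1, ← Finset.mul_sum]
  refine mul_le_mul_of_nonneg_left ?_ (by positivity)
  have h6 : ∑ k ∈ piAntidiag (univ : Finset (Fin n)) m,
      ∏ v, (ψ v (k v) * X ^ (k v) / ((k v).factorial : ℝ)) ≤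
      ∑ k ∈ Fintype.piFinset (fun _ : Fin n => range (m + 1)),
        ∏ v, (ψ v (k v) * X ^ (k v) / ((k v).factorial : ℝ)) := by
    refine Finset.sum_le_sum_of_subset_of_nonneg ?_ ?_
    · intro k hk
      rw [mem_piAntidiag] at hk
      rw [Fintype.mem_piFinset]
      intro v
      rw [Finset.mem_range, Nat.lt_succ_iff, ← hk.1]
      exact Finset.single_le_sum (f := k) (fun _ _ => Nat.zero_le _) (Finset.mem_univ v)
    · intro k _ _
      exact Finset.prod_nonneg fun v _ => div_nonneg (mul_nonneg (hψ _ _) (by positivity))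
        (by positivity)
  refine h6.trans ?_
  rw [← Finset.prod_univ_sum (fun _ : Fin n => range (m + 1))
    (fun v c => ψ v c * X ^ c / (c.factorial : ℝ))]
  refine Finset.prod_le_prod (fun v _ => ?_) fun v _ => hZ v (m + 1)
  exact Finset.sum_nonneg fun c _ => div_nonneg (mul_nonneg (hψ _ _) (by positivity))
    (by positivity)

end

end Pool.Agent.ST3
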