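import Pool.Agent.Lib.MP_7abaca_co.Defs

/-!
Three random spanning trees: a directed subgraph with in- and out-degrees at most two (Hall).
-/

set_option autoImplicit false

namespace Pool.Agent.ST3

open Finset
open scoped Classical

noncomputable section

theorem hall_gen {n : ℕ} (H : SimpleGraph (Fin n)) (b : ℕ)
    (h : ∀ A B : Finset (Fin n), Disjoint A B → 2 * A.card ≤ 2 * B.card + dar H A B + b)
    (A B : Finset (Fin n)) : 2 * A.card ≤ 2 * B.card + dar H A B + b := by
  have h1 := h (A \ B) (B \ A) (by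
    rw [Finset.disjoint_left]
    intro x hx hy
    rw [mem_sdiff] at hx hy
    exact hx.2 hy.1)
  have h2 : (A \ B).card + (A ∩ B).card = A.card := card_sdiff_add_card_inter A B
  have h3 : (B \ A).card + (A ∩ B).card = B.card := by
    rw [inter_comm]; exact card_sdiff_add_card_inter B A
  have h4 : dar H (A \ B) (B \ A) ≤ dar H A B := by
    unfold dar
    refine card_le_card_of_injOn
      (fun p : Fin n × Fin n => if p.2 ∈ B then (p.2, p.1) else p) ?_ ?_
    · intro p hp
      simp only [coe_filter, mem_univ, true_and, Set.mem_ofPred_eq, mem_sdiff] at hp ⊢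
      obtain ⟨⟨a1, a2⟩, a3, a4⟩ := hp
      by_cases hb : p.2 ∈ B
      · rw [if_pos hb]
        have : p.2 ∈ A := by
          by_contra hA
          exact a3 ⟨hb, hA⟩
        exact ⟨this, a2, a4.symm⟩
      · rw [if_neg hb]
        exact ⟨a1, hb, a4⟩
    · intro p hp q hq hpq
      simp only [coe_filter, mem_univ, true_and, Set.mem_ofPred_eq, mem_sdiff] at hp hq
      dsimp only at hpq
      by_cases hb : p.2 ∈ B
      · by_cases hc : q.2 ∈ B
        · rw [if_pos hb, if_pos hc] at hpq
          have e := Prod.ext_iff.1 hpq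
          exact Prod.ext e.2 e.1
        · rw [if_pos hb, if_neg hc] at hpq
          exfalso
          rw [← hpq] at hq
          exact hq.1.2 hb
      · by_cases hc : q.2 ∈ B
        · rw [if_neg hb, if_pos hc] at hpq
          exfalso
          rw [hpq] at hp
          exact hp.1.2 hc
        · rw [if_neg hb, if_neg hc] at hpq
          exact hpq
  omega

theorem hall2 {n : ℕ} (H : SimpleGraph (Fin n)) (b : ℕ)
    (h : ∀ A B : Finset (Fin n), Disjoint A B → 2 * A.card ≤ 2 * B.card + dar H A B + b) :
    ∃ Q : Finset (Fin n × Fin n), (∀ p ∈ Q, H.Adj p.1 p.2) ∧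
      (∀ u, (Q.filter (fun p => p.1 = u)).card ≤ 2) ∧
      (∀ v, (Q.filter (fun p => p.2 = v)).card ≤ 2) ∧ 2 * n ≤ Q.card + b := by
  -- darts
  let E := {p : Fin n × Fin n // H.Adj p.1 p.2}
  let C := Fin n × Fin 2
  let t : C ⊕ E → Finset (E ⊕ (C ⊕ Fin b)) := fun x => univ.filter fun y =>
    match x, y with
    | Sum.inl c, Sum.inl e => e.1.1 = c.1
    | Sum.inl _, Sum.inr (Sum.inl _) => False
    | Sum.inr e, Sum.inl e' => e' = e
    | Sum.inr e, Sum.inr (Sum.inl c) => c.1 = e.1.2
    | _, Sum.inr (Sum.inr _) => True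
  have t1 : ∀ c e, (Sum.inl e ∈ t (Sum.inl c) ↔ e.1.1 = c.1) := by
    intro c e; simp [t]
  have t2 : ∀ c c', Sum.inr (Sum.inl c') ∉ t (Sum.inl c) := by
    intro c c'; simp [t]
  have t3 : ∀ e e', (Sum.inl e' ∈ t (Sum.inr e) ↔ e' = e) := by
    intro e e'; simp [t]
  have t4 : ∀ e c, (Sum.inr (Sum.inl c) ∈ t (Sum.inr e) ↔ c.1 = e.1.2) := by
    intro e c; simp [t]
  have t5 : ∀ x d, Sum.inr (Sum.inr d) ∈ t x := by
    intro x d; rcases x with x | x <;> simp [t]
  have hall : ∀ s : Finset (C ⊕ E), s.card ≤ (s.biUnion t).card := by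
    intro s
    rcases s.eq_empty_or_nonempty with rfl | ⟨x0, hx0⟩
    · simp
    -- the parts of s
    set Xc : Finset C := s.toLeft with hXc
    set Y : Finset E := s.toRight with hY
    have hs : s.card = Xc.card + Y.card := (card_toLeft_add_card_toRight (u := s)).symm
    set A : Finset (Fin n) := Xc.image Prod.fst with hA
    set B : Finset (Fin n) := Y.image (fun e => e.1.2) with hB
    have hXA : Xc.card ≤ 2 * A.card := by
      have : Xc ⊆ A ×ˢ (univ : Finset (Fin 2)) := by
        intro c hc
        rw [mem_product]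
        exact ⟨mem_image_of_mem _ hc, mem_univ _⟩
      have := card_le_card this
      rw [card_product, card_univ, Fintype.card_fin] at this
      omega
    -- the neighbourhood
    set O : Finset E := univ.filter (fun e : E => e.1.1 ∈ A ∧ e.1.2 ∉ B) with hO
    have hOc : O.card = dar H A B := by
      unfold dar
      rw [← card_map ⟨Subtype.val, Subtype.val_injective⟩]
      congr 1
      ext p
      simp only [mem_map, mem_filter, mem_univ, true_and, Function.Embedding.coeFn_mk, hO]
      constructor
      · rintro ⟨e, ⟨h1, h2⟩, rfl⟩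
        exact ⟨h1, h2, e.2⟩
      · rintro ⟨h1, h2, h3⟩
        exact ⟨⟨p, h3⟩, ⟨h1, h2⟩, rfl⟩
    have hsub : (Y ∪ O).disjSum ((B ×ˢ (univ : Finset (Fin 2))).disjSum (univ : Finset (Fin b))) ⊆
        s.biUnion t := by
      intro y hy
      rw [mem_biUnion]
      rw [mem_disjSum] at hy
      rcases hy with ⟨e, he, rfl⟩ | ⟨y, hy, rfl⟩
      · rw [mem_union] at he
        rcases he with he | he
        · exact ⟨Sum.inr e, by simpa [hY] using he, (t3 _ _).2 rfl⟩
        · rw [hO, mem_filter] at he
          obtain ⟨_, he1, _⟩ := he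
          rw [hA, mem_image] at he1
          obtain ⟨c, hc, hce⟩ := he1
          exact ⟨Sum.inl c, by simpa [hXc] using hc, (t1 _ _).2 hce.symm⟩
      · rw [mem_disjSum] at hy
        rcases hy with ⟨c, hc, rfl⟩ | ⟨d, _, rfl⟩
        · rw [mem_product, hB, mem_image] at hc
          obtain ⟨⟨e, he, hec⟩, _⟩ := hc
          exact ⟨Sum.inr e, by simpa [hY] using he, (t4 _ _).2 hec.symm⟩
        · exact ⟨x0, hx0, t5 _ _⟩
    have hcard := card_le_card hsub
    rw [card_disjSum, card_disjSum, card_product, card_univ, card_univ, Fintype.card_fin,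
      Fintype.card_fin, card_union_of_disjoint, hOc] at hcard
    · have := hall_gen H b h A B
      omega
    · rw [Finset.disjoint_left]
      intro e he he'
      rw [hO, mem_filter] at he'
      exact he'.2.2 (by rw [hB]; exact mem_image_of_mem _ he)
  obtain ⟨f, hf, hft⟩ := (Finset.all_card_le_biUnion_card_iff_exists_injective t).1 hall
  -- the darts used by copies whose left twin is not matched to a dummy
  let Q' : Finset E := univ.filter fun e =>
    (∃ c, f (Sum.inl c) = Sum.inl e) ∧ ∀ d, f (Sum.inr e) ≠ Sum.inr (Sum.inr d)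
  refine ⟨Q'.map ⟨Subtype.val, Subtype.val_injective⟩, ?_, ?_, ?_, ?_⟩
  · intro p hp
    rw [mem_map] at hp
    obtain ⟨e, _, rfl⟩ := hp
    exact e.2
  · intro u
    have hle : ((Q'.map ⟨Subtype.val, Subtype.val_injective⟩).filter
        (fun p : Fin n × Fin n => p.1 = u)).card ≤ (univ : Finset (Fin 2)).card := by
      have hch : ∀ p ∈ (Q'.map ⟨Subtype.val, Subtype.val_injective⟩).filter
          (fun p : Fin n × Fin n => p.1 = u), ∃ i : Fin 2, ∃ e : E, e.1 = p ∧
            f (Sum.inl (u, i)) = Sum.inl e := by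
        intro p hp
        rw [mem_filter, mem_map] at hp
        obtain ⟨⟨e, he, rfl⟩, hu⟩ := hp
        rw [mem_filter] at he
        obtain ⟨_, ⟨⟨u', i⟩, hc⟩, _⟩ := he
        have h1 := hft (Sum.inl (u', i))
        rw [hc, t1] at h1
        have h2 : u' = u := by
          rw [← hu]; exact h1.symm
        subst h2
        exact ⟨i, e, rfl, hc⟩
      choose! i hi using hch
      refine card_le_card_of_injOn i (fun _ _ => mem_univ _) ?_
      intro p hp q hq hpq
      obtain ⟨e, he, he'⟩ := hi p hp
      obtain ⟨e2, he2, he2'⟩ := hi q hq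
      rw [← hpq, he'] at he2'
      rw [← he, ← he2, Sum.inl.inj he2']
    simpa using hle
  · intro v
    have hle : ((Q'.map ⟨Subtype.val, Subtype.val_injective⟩).filter
        (fun p : Fin n × Fin n => p.2 = v)).card ≤ (univ : Finset (Fin 2)).card := by
      have hch : ∀ p ∈ (Q'.map ⟨Subtype.val, Subtype.val_injective⟩).filter
          (fun p : Fin n × Fin n => p.2 = v), ∃ i : Fin 2, ∃ e : E, e.1 = p ∧
            f (Sum.inr e) = Sum.inr (Sum.inl (v, i)) := by
        intro p hp
        rw [mem_filter, mem_map] at hp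
        obtain ⟨⟨e, he, rfl⟩, hu⟩ := hp
        rw [mem_filter] at he
        obtain ⟨_, ⟨c, hc⟩, hd⟩ := he
        have h1 := hft (Sum.inr e)
        rcases hfe : f (Sum.inr e) with e' | ⟨w, i⟩ | d
        · rw [hfe, t3] at h1
          rw [h1, ← hc] at hfe
          exact absurd (hf hfe) (by simp)
        · rw [hfe, t4] at h1
          have h2 : w = v := by rw [← hu]; exact h1
          subst h2
          exact ⟨i, e, rfl, hfe⟩
        · exact absurd hfe (hd d)
      choose! i hi using hch
      refine card_le_card_of_injOn i (fun _ _ => mem_univ _) ?_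
      intro p hp q hq hpq
      obtain ⟨e, he, he'⟩ := hi p hp
      obtain ⟨e2, he2, he2'⟩ := hi q hq
      rw [← hpq, ← he'] at he2'
      rw [← he, ← he2, Sum.inr.inj (hf he2')]
    simpa using hle
  · rw [card_map]
    have hex : ∀ c : C, ∃ y : E ⊕ Fin b, y ∈ Q'.disjSum (univ : Finset (Fin b)) ∧
        ((∃ e, y = Sum.inl e ∧ f (Sum.inl c) = Sum.inl e) ∨
          ∃ d, y = Sum.inr d ∧ (f (Sum.inl c) = Sum.inr (Sum.inr d) ∨
            ∃ e, f (Sum.inl c) = Sum.inl e ∧ f (Sum.inr e) = Sum.inr (Sum.inr d))) := by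
      intro c
      have h1 := hft (Sum.inl c)
      rcases hfc : f (Sum.inl c) with e | c' | d
      · by_cases hd : ∃ d, f (Sum.inr e) = Sum.inr (Sum.inr d)
        · obtain ⟨d, hd⟩ := hd
          exact ⟨Sum.inr d, by simp, Or.inr ⟨d, rfl, Or.inr ⟨e, rfl, hd⟩⟩⟩
        · push Not at hd
          refine ⟨Sum.inl e, ?_, Or.inl ⟨e, rfl, rfl⟩⟩
          rw [inl_mem_disjSum, mem_filter]
          exact ⟨mem_univ _, ⟨c, hfc⟩, hd⟩
      · rw [hfc] at h1
        exact absurd h1 (t2 _ _)
      · exact ⟨Sum.inr d, by simp, Or.inr ⟨d, rfl, Or.inl rfl⟩⟩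
    choose φ hφ hφ' using hex
    have hcard : (univ : Finset C).card ≤ (Q'.disjSum (univ : Finset (Fin b))).card := by
      refine card_le_card_of_injOn φ (fun c _ => hφ c) ?_
      intro c _ c' _ hcc
      rcases hφ' c with ⟨e, h1, h2⟩ | ⟨d, h1, h2⟩
      · rcases hφ' c' with ⟨e', h1', h2'⟩ | ⟨d', h1', h2'⟩
        · rw [h1, h1'] at hcc
          rw [Sum.inl.inj hcc, ← h2'] at h2
          exact Sum.inl.inj (hf h2)
        · rw [h1, h1'] at hcc
          exact absurd hcc (by simp)
      · rcases hφ' c' with ⟨e', h1', h2'⟩ | ⟨d', h1', h2'⟩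
        · rw [h1, h1'] at hcc
          exact absurd hcc (by simp)
        · rw [h1, h1'] at hcc
          have hdd := Sum.inr.inj hcc
          subst hdd
          rcases h2 with h2 | ⟨e, h2, h3⟩
          · rcases h2' with h2' | ⟨e', h2', h3'⟩
            · rw [← h2'] at h2
              exact Sum.inl.inj (hf h2)
            · rw [← h3'] at h2
              exact absurd (hf h2) (by simp)
          · rcases h2' with h2' | ⟨e', h2', h3'⟩
            · rw [← h2'] at h3
              exact absurd (hf h3) (by simp)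
            · rw [← h3'] at h3
              have := Sum.inr.inj (hf h3)
              rw [this, ← h2'] at h2
              exact Sum.inl.inj (hf h2)
    rw [card_disjSum, card_univ, card_univ, Fintype.card_prod, Fintype.card_fin, Fintype.card_fin,
      Fintype.card_fin] at hcard
    omega

end

end Pool.Agent.ST3
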