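import Pool.Agent.Lib.MP_7abaca_co.Defs

/-!
# Degrees under adding and deleting edges, rotations (MP_7abaca_co)
-/

set_option autoImplicit false

namespace Pool.Agent.ST3

open Finset Filter
open scoped Classical

noncomputable section

theorem deg_add_left {n : ℕ} (M : SimpleGraph (Fin n)) (a b : Fin n) (hab : a ≠ b)
    (h : ¬ M.Adj a b) : ((M ⊔ SimpleGraph.edge a b).neighborSet a).ncard =
      (M.neighborSet a).ncard + 1 := by
  have h1 : (M ⊔ SimpleGraph.edge a b).neighborSet a = insert b (M.neighborSet a) := by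
    ext v
    rw [SimpleGraph.mem_neighborSet, SimpleGraph.sup_adj, SimpleGraph.edge_adj,
      Set.mem_insert_iff, SimpleGraph.mem_neighborSet]
    constructor
    · rintro (h | ⟨⟨-, h⟩ | ⟨h, -⟩, -⟩)
      · exact Or.inr h
      · exact Or.inl h
      · exact absurd h hab
    · rintro (rfl | h)
      · exact Or.inr ⟨Or.inl ⟨rfl, rfl⟩, hab⟩
      · exact Or.inl h
  have h2 : b ∉ M.neighborSet a := fun hb => h hb
  rw [h1, Set.ncard_insert_of_notMem h2]

theorem deg_add_right {n : ℕ} (M : SimpleGraph (Fin n)) (a b : Fin n) (hab : a ≠ b)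
    (h : ¬ M.Adj a b) : ((M ⊔ SimpleGraph.edge a b).neighborSet b).ncard =
      (M.neighborSet b).ncard + 1 := by
  rw [SimpleGraph.edge_comm]
  exact deg_add_left M b a hab.symm (fun h' => h h'.symm)

theorem deg_add_of_ne {n : ℕ} (M : SimpleGraph (Fin n)) (a b v : Fin n) (ha : v ≠ a)
    (hb : v ≠ b) : ((M ⊔ SimpleGraph.edge a b).neighborSet v).ncard =
      (M.neighborSet v).ncard := by
  congr 1
  ext w
  simp only [SimpleGraph.mem_neighborSet, SimpleGraph.sup_adj, SimpleGraph.edge_adj]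
  constructor
  · rintro (h | ⟨⟨h, -⟩ | ⟨h, -⟩, -⟩)
    · exact h
    · exact absurd h.symm (fun h => ha h.symm)
    · exact absurd h.symm (fun h => hb h.symm)
  · exact Or.inl

theorem deg_del_left {n : ℕ} (M : SimpleGraph (Fin n)) (a b : Fin n) (hab : M.Adj a b) :
    ((M \ SimpleGraph.edge a b).neighborSet a).ncard + 1 = (M.neighborSet a).ncard := by
  have h1 : (M \ SimpleGraph.edge a b).neighborSet a = M.neighborSet a \ {b} := by
    ext v
    rw [SimpleGraph.mem_neighborSet, SimpleGraph.sdiff_adj, SimpleGraph.edge_adj,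
      Set.mem_sdiff, Set.mem_singleton_iff, SimpleGraph.mem_neighborSet]
    constructor
    · rintro ⟨h, h'⟩
      refine ⟨h, fun hv => h' ⟨Or.inl ⟨rfl, hv⟩, h.ne⟩⟩
    · rintro ⟨h, h'⟩
      refine ⟨h, ?_⟩
      rintro ⟨⟨-, h1⟩ | ⟨h1, -⟩, -⟩
      · exact h' h1
      · exact hab.ne h1
  rw [h1]
  exact Set.ncard_sdiff_singleton_add_one hab (Set.toFinite _)

theorem deg_del_right {n : ℕ} (M : SimpleGraph (Fin n)) (a b : Fin n) (hab : M.Adj a b) :
    ((M \ SimpleGraph.edge a b).neighborSet b).ncard + 1 = (M.neighborSet b).ncard := by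
  rw [SimpleGraph.edge_comm]
  exact deg_del_left M b a hab.symm

theorem deg_del_of_ne {n : ℕ} (M : SimpleGraph (Fin n)) (a b v : Fin n) (ha : v ≠ a)
    (hb : v ≠ b) : ((M \ SimpleGraph.edge a b).neighborSet v).ncard =
      (M.neighborSet v).ncard := by
  congr 1
  ext w
  simp only [SimpleGraph.mem_neighborSet, SimpleGraph.sdiff_adj, SimpleGraph.edge_adj]
  constructor
  · exact fun h => h.1
  · refine fun h => ⟨h, ?_⟩
    rintro ⟨⟨h1, -⟩ | ⟨h1, -⟩, -⟩
    · exact ha h1
    · exact hb h1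

theorem edge_le {n : ℕ} {H : SimpleGraph (Fin n)} {a b : Fin n} (h : H.Adj a b) :
    SimpleGraph.edge a b ≤ H := by
  intro p q hpq
  rw [SimpleGraph.edge_adj] at hpq
  rcases hpq with ⟨⟨rfl, rfl⟩ | ⟨rfl, rfl⟩, -⟩
  · exact h
  · exact h.symm

/-- rotation: add `z u`, delete `u y` -/
def rot {n : ℕ} (M : SimpleGraph (Fin n)) (z u y : Fin n) : SimpleGraph (Fin n) :=
  (M ⊔ SimpleGraph.edge z u) \ SimpleGraph.edge u y

theorem rot_le {n : ℕ} {M H : SimpleGraph (Fin n)} {z u y : Fin n} (hM : M ≤ H)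
    (hH : H.Adj z u) : rot M z u y ≤ H :=
  sdiff_le.trans (sup_le hM (edge_le hH))

section

variable {n : ℕ} (M : SimpleGraph (Fin n)) (z u y : Fin n)

theorem rot_adj' (hM : ¬ M.Adj z u) (hy : M.Adj u y) : y ≠ z := by
  rintro rfl
  exact hM hy.symm

theorem rot_deg_u (hzu : z ≠ u) (hM : ¬ M.Adj z u) (hy : M.Adj u y) :
    ((rot M z u y).neighborSet u).ncard = (M.neighborSet u).ncard := by
  have h1 := deg_add_right M z u hzu hM
  have h2 := deg_del_left (M ⊔ SimpleGraph.edge z u) u y (Or.inl hy)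
  unfold rot
  omega

theorem rot_deg_z (hzu : z ≠ u) (hM : ¬ M.Adj z u) (hy : M.Adj u y) :
    ((rot M z u y).neighborSet z).ncard = (M.neighborSet z).ncard + 1 := by
  have h1 := deg_add_left M z u hzu hM
  have h2 := deg_del_of_ne (M ⊔ SimpleGraph.edge z u) u y z hzu (rot_adj' M z u y hM hy).symm
  unfold rot
  omega

theorem rot_deg_y (hM : ¬ M.Adj z u) (hy : M.Adj u y) :
    ((rot M z u y).neighborSet y).ncard + 1 = (M.neighborSet y).ncard := by
  have h1 := deg_add_of_ne M z u y (rot_adj' M z u y hM hy) hy.ne.symm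
  have h2 := deg_del_right (M ⊔ SimpleGraph.edge z u) u y (Or.inl hy)
  unfold rot
  omega

theorem rot_deg_ne (v : Fin n) (hz : v ≠ z) (hu : v ≠ u) (hy : v ≠ y) :
    ((rot M z u y).neighborSet v).ncard = (M.neighborSet v).ncard := by
  have h1 := deg_add_of_ne M z u v hz hu
  have h2 := deg_del_of_ne (M ⊔ SimpleGraph.edge z u) u y v hu hy
  unfold rot
  omega

end

end

end Pool.Agent.ST3
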