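import Pool.Agent.Lib.MP_7abaca_co.Expl
import Pool.Agent.Lib.MP_7abaca_co.Deg

/-!
# Improving pairs when there is no 2-factor (MP_7abaca_co, module IMPA)
-/

set_option autoImplicit false

namespace Pool.Agent.ST3

open Finset Filter
open scoped Classical

noncomputable section

theorem impa_edges_add {n : ℕ} (M : SimpleGraph (Fin n)) (a b : Fin n) (hab : a ≠ b)
    (h : ¬ M.Adj a b) : (M ⊔ SimpleGraph.edge a b).edgeSet.ncard = M.edgeSet.ncard + 1 := by
  have h1 : (M ⊔ SimpleGraph.edge a b).edgeSet = insert s(a, b) M.edgeSet := by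
    ext e
    induction e with | _ p q
    rw [SimpleGraph.mem_edgeSet, SimpleGraph.sup_adj, SimpleGraph.edge_adj, Set.mem_insert_iff,
      SimpleGraph.mem_edgeSet, Sym2.eq_iff]
    constructor
    · rintro (h | ⟨h, -⟩)
      · exact Or.inr h
      · exact Or.inl h
    · rintro (h | h)
      · refine Or.inr ⟨h, ?_⟩
        rcases h with ⟨rfl, rfl⟩ | ⟨rfl, rfl⟩
        · exact hab
        · exact hab.symm
      · exact Or.inl h
  have h2 : s(a, b) ∉ M.edgeSet := fun hc => h hc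
  rw [h1, Set.ncard_insert_of_notMem h2 (Set.toFinite _)]

theorem impa_edges_del {n : ℕ} (M : SimpleGraph (Fin n)) (a b : Fin n) (hab : M.Adj a b) :
    (M \ SimpleGraph.edge a b).edgeSet.ncard + 1 = M.edgeSet.ncard := by
  have hn : ¬ (M \ SimpleGraph.edge a b).Adj a b := by
    rw [SimpleGraph.sdiff_adj, SimpleGraph.edge_adj]
    rintro ⟨-, h⟩
    exact h ⟨Or.inl ⟨rfl, rfl⟩, hab.ne⟩
  have h := impa_edges_add (M \ SimpleGraph.edge a b) a b hab.ne hn
  rw [sdiff_sup_cancel (edge_le hab)] at h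
  exact h.symm

theorem impa_edges_rot {n : ℕ} (M : SimpleGraph (Fin n)) (z u y : Fin n) (hzu : z ≠ u)
    (hM : ¬ M.Adj z u) (hy : M.Adj u y) : (rot M z u y).edgeSet.ncard = M.edgeSet.ncard := by
  have h1 := impa_edges_add M z u hzu hM
  have h2 := impa_edges_del (M ⊔ SimpleGraph.edge z u) u y (Or.inl hy)
  unfold rot
  omega

theorem impa_deg_sum {n : ℕ} (M : SimpleGraph (Fin n)) :
    ∑ v, (M.neighborSet v).ncard = 2 * M.edgeSet.ncard := by
  have h := M.sum_degrees_eq_twice_card_edges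
  have h1 : ∀ v, (M.neighborSet v).ncard = M.degree v := fun v => by
    rw [← Nat.card_coe_set_eq, Nat.card_eq_fintype_card, SimpleGraph.card_neighborSet_eq_degree]
  have h2 : M.edgeSet.ncard = M.edgeFinset.card := by
    rw [← SimpleGraph.coe_edgeFinset, Set.ncard_coe_finset]
  rw [h2, ← h]
  exact sum_congr rfl fun v _ => h1 v

theorem impa_mu_le {n : ℕ} {H M : SimpleGraph (Fin n)} (h1 : M ≤ H) (h2 : Two M) :
    M.edgeSet.ncard ≤ mu H :=
  Finset.le_sup (f := fun M : SimpleGraph (Fin n) => M.edgeSet.ncard)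
    (mem_filter.2 ⟨mem_univ _, h1, h2⟩)

theorem impa_mu_attained {n : ℕ} (H : SimpleGraph (Fin n)) :
    ∃ M : SimpleGraph (Fin n), M ≤ H ∧ Two M ∧ M.edgeSet.ncard = mu H := by
  have hne : (univ.filter (fun M : SimpleGraph (Fin n) => M ≤ H ∧ Two M)).Nonempty := by
    refine ⟨⊥, mem_filter.2 ⟨mem_univ _, bot_le, fun v => ?_⟩⟩
    have : (⊥ : SimpleGraph (Fin n)).neighborSet v = ∅ := by
      ext w
      simp
    rw [this]
    simp
  obtain ⟨M, hM, he⟩ := Finset.exists_mem_eq_sup _ hne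
    (fun M : SimpleGraph (Fin n) => M.edgeSet.ncard)
  rw [mem_filter] at hM
  exact ⟨M, hM.2.1, hM.2.2, he.symm⟩

theorem impa_add_two {n : ℕ} {M : SimpleGraph (Fin n)} {z u : Fin n} (h2 : Two M) (hzu : z ≠ u)
    (hM : ¬ M.Adj z u) (hz : (M.neighborSet z).ncard ≤ 1) (hu : (M.neighborSet u).ncard ≤ 1) :
    Two (M ⊔ SimpleGraph.edge z u) := by
  intro v
  by_cases hvz : v = z
  · subst hvz
    rw [deg_add_left M v u hzu hM]
    omega
  by_cases hvu : v = u
  · subst hvu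
    rw [deg_add_right M z v hzu hM]
    omega
  · rw [deg_add_of_ne M z u v hvz hvu]
    exact h2 v

theorem impa_rot_two {n : ℕ} {M : SimpleGraph (Fin n)} {z u y : Fin n} (h2 : Two M)
    (hzu : z ≠ u) (hM : ¬ M.Adj z u) (hy : M.Adj u y) (hz : (M.neighborSet z).ncard ≤ 1) :
    Two (rot M z u y) := by
  intro v
  by_cases hvz : v = z
  · subst hvz
    rw [rot_deg_z M v u y hzu hM hy]
    omega
  by_cases hvu : v = u
  · subst hvu
    rw [rot_deg_u M z v y hzu hM hy]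
    exact h2 v
  by_cases hvy : v = y
  · subst hvy
    have := rot_deg_y M z u v hM hy
    have := h2 v
    omega
  · rw [rot_deg_ne M z u y v hvz hvu hvy]
    exact h2 v

/-- The degrees of a vertex joined to a deficient vertex in a maximum 2-matching. -/
theorem impa_deg_two {n : ℕ} {H M : SimpleGraph (Fin n)} {z u : Fin n} (hle : M ≤ H)
    (h2 : Two M) (hmu : M.edgeSet.ncard = mu H) (hH : H.Adj z u) (hM : ¬ M.Adj z u)
    (hz : (M.neighborSet z).ncard ≤ 1) : (M.neighborSet u).ncard = 2 := by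
  by_contra hc
  have hu : (M.neighborSet u).ncard ≤ 1 := by
    have := h2 u
    omega
  have h3 := impa_mu_le (H := H) (sup_le hle (edge_le hH)) (impa_add_two h2 hH.ne hM hz hu)
  rw [impa_edges_add M z u hH.ne hM] at h3
  omega

theorem impa_nbr {n : ℕ} {M : SimpleGraph (Fin n)} {u : Fin n}
    (h : (M.neighborSet u).ncard = 2) : ∃ y, M.Adj u y := by
  have : (M.neighborSet u).Nonempty := by
    apply Set.nonempty_of_ncard_ne_zero
    omega
  exact this

/-- The pairs of deficient vertices. -/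
def ImpaP {n : ℕ} (M : SimpleGraph (Fin n)) (z y : Fin n) : Prop :=
  (y ≠ z ∧ (M.neighborSet y).ncard ≤ 1 ∧ (M.neighborSet z).ncard ≤ 1) ∨
    (y = z ∧ (M.neighborSet z).ncard = 0)

theorem impa_close {n : ℕ} {H M : SimpleGraph (Fin n)} {z y u : Fin n} (hle : M ≤ H)
    (h2 : Two M) (hmu : M.edgeSet.ncard = mu H) (hP : ImpaP M z y) (hH : H.Adj y u)
    (hM : ¬ M.Adj y u) : ∃ y', M.Adj u y' ∧ rot M y u y' ≤ H ∧ Two (rot M y u y') ∧
      (rot M y u y').edgeSet.ncard = mu H ∧ ImpaP (rot M y u y') z y' := by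
  have hy : (M.neighborSet y).ncard ≤ 1 := by
    rcases hP with h | ⟨rfl, h⟩
    · exact h.2.1
    · omega
  have hdu := impa_deg_two hle h2 hmu hH hM hy
  obtain ⟨y', hy'⟩ := impa_nbr hdu
  have hyu : y ≠ u := hH.ne
  refine ⟨y', hy', rot_le hle hH, impa_rot_two h2 hyu hM hy' hy, ?_, ?_⟩
  · rw [impa_edges_rot M y u y' hyu hM hy', hmu]
  have hdy' := rot_deg_y M y u y' hM hy'
  have hy'y : y' ≠ y := rot_adj' M y u y' hM hy'
  have hdt := h2 y'
  rcases hP with ⟨hyz, hy1, hz1⟩ | ⟨rfl, h0⟩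
  · have huz : u ≠ z := by
      rintro rfl
      omega
    by_cases hy'z : y' = z
    · right
      subst hy'z
      exact ⟨rfl, by omega⟩
    · left
      refine ⟨hy'z, by omega, ?_⟩
      rw [rot_deg_ne M y u y' z (Ne.symm hyz) (Ne.symm huz) (Ne.symm hy'z)]
      exact hz1
  · left
    refine ⟨hy'y, by omega, ?_⟩
    rw [rot_deg_z M y u y' hyu hM hy']
    omega

theorem impA {n : ℕ} (K0 : ℕ) (d : ℝ) (G0 H : SimpleGraph (Fin n)) (hGH : G0 ≤ H)
    (hnt : NoTrap d G0 H) (hno : ¬ ∃ M : SimpleGraph (Fin n), M ≤ H ∧ TwoF M) :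
    ∃ S : Finset (Fin n), d < (S.card : ℝ) ∧ ∀ z ∈ S, ∃ Y : Finset (Fin n), d < (Y.card : ℝ) ∧
      ∀ y ∈ Y, y ≠ z → ¬ H.Adj z y → Phi K0 (H ⊔ SimpleGraph.edge z y) < Phi K0 H := by
  -- the total deficiency of a maximum 2-matching is at least two
  have hdef : ∀ M : SimpleGraph (Fin n), M ≤ H → Two M → M.edgeSet.ncard = mu H →
      2 * mu H + 2 ≤ 2 * n ∧ ∑ v, (M.neighborSet v).ncard = 2 * mu H := by
    intro M h1 h2 h3
    have hs := impa_deg_sum M
    rw [h3] at hs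
    refine ⟨?_, hs⟩
    obtain ⟨v, hv⟩ : ∃ v, (M.neighborSet v).ncard ≠ 2 := by
      by_contra hc
      push Not at hc
      exact hno ⟨M, h1, hc⟩
    have hlt : ∑ v, (M.neighborSet v).ncard < ∑ v : Fin n, 2 := by
      apply sum_lt_sum (fun i _ => h2 i)
      exact ⟨v, mem_univ _, lt_of_le_of_ne (h2 v) hv⟩
    rw [sum_const, card_univ, Fintype.card_fin, smul_eq_mul] at hlt
    omega
  obtain ⟨M, hM1, hM2, hM3⟩ := impa_mu_attained H
  have hn := (hdef M hM1 hM2 hM3).1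
  obtain ⟨x, hx⟩ : ∃ v, (M.neighborSet v).ncard ≤ 1 := by
    by_contra hc
    push Not at hc
    exact hno ⟨M, hM1, fun v => le_antisymm (hM2 v) (hc v)⟩
  obtain ⟨S, hS, hSz⟩ := expl G0 H M x hGH hM1 hM2 hx
    (fun M' z => M' ≤ H ∧ Two M' ∧ M'.edgeSet.ncard = mu H ∧ (M'.neighborSet z).ncard ≤ 1)
    ⟨hM1, hM2, hM3, hx⟩ (by
      rintro M' z ⟨h1, h2, h3, h4⟩ u hH hM'
      have hzu : z ≠ u := hH.ne
      obtain ⟨y, hy⟩ := impa_nbr (impa_deg_two h1 h2 h3 hH hM' h4)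
      refine ⟨y, hy, rot_le h1 hH, impa_rot_two h2 hzu hM' hy h4, ?_, ?_⟩
      · exact (impa_edges_rot M' z u y hzu hM' hy).trans h3
      · have h5 := rot_deg_y M' z u y hM' hy
        have h6 := h2 y
        show ((rot M' z u y).neighborSet y).ncard ≤ 1
        omega)
  refine ⟨S, hnt M x S hS, fun z hz => ?_⟩
  obtain ⟨Mz, h1, h2, h3, h4⟩ := hSz z hz
  obtain ⟨x', hx'⟩ : ∃ x', ImpaP Mz z x' := by
    by_cases hex : ∃ x', x' ≠ z ∧ (Mz.neighborSet x').ncard ≤ 1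
    · obtain ⟨x', h5, h6⟩ := hex
      exact ⟨x', Or.inl ⟨h5, h6, h4⟩⟩
    · push Not at hex
      refine ⟨z, Or.inr ⟨rfl, ?_⟩⟩
      obtain ⟨h5, h6⟩ := hdef Mz h1 h2 h3
      rw [← add_sum_erase univ _ (mem_univ z)] at h6
      have h7 : ∑ v ∈ univ.erase z, (Mz.neighborSet v).ncard = ∑ v ∈ univ.erase z, 2 := by
        apply sum_congr rfl
        intro v hv
        exact le_antisymm (h2 v) (hex v (ne_of_mem_erase hv))
      rw [h7, sum_const, card_erase_of_mem (mem_univ z), card_univ, Fintype.card_fin,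
        smul_eq_mul] at h6
      have hn1 : 1 ≤ n := by omega
      omega
  have hx'1 : (Mz.neighborSet x').ncard ≤ 1 := by
    rcases hx' with h | ⟨rfl, h⟩
    · exact h.2.1
    · omega
  obtain ⟨Y, hY, hYy⟩ := expl G0 H Mz x' hGH h1 h2 hx'1
    (fun M' y => M' ≤ H ∧ Two M' ∧ M'.edgeSet.ncard = mu H ∧ ImpaP M' z y)
    ⟨h1, h2, h3, hx'⟩ (by
      rintro M' w ⟨h5, h6, h7, h8⟩ u hH hM'
      obtain ⟨y, h9, h10, h11, h12, h13⟩ := impa_close h5 h6 h7 h8 hH hM'
      exact ⟨y, h9, h10, h11, h12, h13⟩)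
  refine ⟨Y, hnt Mz x' Y hY, fun y hy hyz hH => ?_⟩
  obtain ⟨M', h5, h6, h7, h8⟩ := hYy y hy
  have hd : (M'.neighborSet y).ncard ≤ 1 ∧ (M'.neighborSet z).ncard ≤ 1 := by
    rcases h8 with h | ⟨h, -⟩
    · exact h.2
    · exact absurd h hyz
  have hM' : ¬ M'.Adj z y := fun h => hH (h5 h)
  have h9 := impa_mu_le (H := H ⊔ SimpleGraph.edge z y)
    (sup_le_sup_right h5 (SimpleGraph.edge z y))
    (impa_add_two h6 hyz.symm hM' hd.2 hd.1)
  rw [impa_edges_add M' z y hyz.symm hM', h7] at h9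
  unfold Phi
  rw [if_neg hno]
  split_ifs with hf
  · have : min K0 (kap (H ⊔ SimpleGraph.edge z y) - 1) ≤ K0 := min_le_left _ _
    omega
  · omega

end

end Pool.Agent.ST3
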