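import Pool.Agent.Lib.MP_7abaca_co.Expl
import Pool.Agent.Lib.MP_7abaca_co.Cmp
import Pool.Agent.Lib.MP_7abaca_co.Deg

/-!
# Improving pairs when there is a 2-factor but no Hamilton cycle (MP_7abaca_co, module IMPB)
-/

set_option autoImplicit false

namespace Pool.Agent.ST3

open Finset Filter
open scoped Classical

noncomputable section

/-- `M'` is a spanning subgraph of `H` whose components are a path with the ends `a`, `z` and
cycles. -/
structure ImpbSt {n : ℕ} (H M' : SimpleGraph (Fin n)) (a z : Fin n) : Prop where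
  le : M' ≤ H
  deg : ∀ v, v ≠ a → v ≠ z → (M'.neighborSet v).ncard = 2
  ends : a ≠ z → (M'.neighborSet a).ncard = 1 ∧ (M'.neighborSet z).ncard = 1 ∧ M'.Reachable a z
  one : a = z → (M'.neighborSet a).ncard = 0

theorem ImpbSt.symm {n : ℕ} {H M' : SimpleGraph (Fin n)} {a z : Fin n} (h : ImpbSt H M' a z) :
    ImpbSt H M' z a := by
  refine ⟨h.le, fun v h1 h2 => h.deg v h2 h1, fun hne => ?_, fun he => ?_⟩
  · obtain ⟨h1, h2, h3⟩ := h.ends hne.symm
    exact ⟨h2, h1, h3.symm⟩
  · subst he
    exact h.one rfl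

theorem ImpbSt.deg_le {n : ℕ} {H M' : SimpleGraph (Fin n)} {a z : Fin n} (h : ImpbSt H M' a z) :
    (M'.neighborSet z).ncard ≤ 1 := by
  by_cases he : a = z
  · have := h.one he
    subst he
    omega
  · exact (h.ends he).2.1.le

theorem ImpbSt.two {n : ℕ} {H M' : SimpleGraph (Fin n)} {a z : Fin n} (h : ImpbSt H M' a z) :
    Two M' := by
  intro v
  by_cases hz : v = z
  · subst hz
    exact h.deg_le.trans (by norm_num)
  by_cases ha : v = a
  · subst ha
    exact h.symm.deg_le.trans (by norm_num)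
  · exact (h.deg v ha hz).le

theorem impb_avoid {n : ℕ} (M : SimpleGraph (Fin n)) (u y' : Fin n) {y z : Fin n}
    (q : M.Walk y z) (h : u ∉ q.support) : (M \ SimpleGraph.edge u y').Reachable y z := by
  induction q with
  | nil => exact SimpleGraph.Reachable.refl _
  | @cons p w v hpw q ih =>
    rw [SimpleGraph.Walk.support_cons, List.mem_cons, not_or] at h
    have h1 : (M \ SimpleGraph.edge u y').Adj p w := by
      rw [SimpleGraph.sdiff_adj, SimpleGraph.edge_adj]
      refine ⟨hpw, ?_⟩
      rintro ⟨⟨h2, -⟩ | ⟨-, h2⟩, -⟩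
      · exact h.1 h2.symm
      · apply h.2
        rw [← h2]
        exact q.start_mem_support
    exact h1.reachable.trans (ih h.2)

theorem impb_close {n : ℕ} {H M' : SimpleGraph (Fin n)} {a z u : Fin n} {c1 : ℕ}
    (hk : ∀ M'' : SimpleGraph (Fin n), M'' ≤ H → TwoF M'' → c1 < comps M'')
    (hmin : ∀ (M'' : SimpleGraph (Fin n)) (a' z' : Fin n), ImpbSt H M'' a' z' → c1 ≤ comps M'')
    (hst : ImpbSt H M' a z) (hc : comps M' = c1) (hH : H.Adj z u) (hM : ¬ M'.Adj z u) :
    ∃ y, M'.Adj u y ∧ ImpbSt H (rot M' z u y) a y ∧ comps (rot M' z u y) = c1 := by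
  have hzu : z ≠ u := hH.ne
  by_cases hua : u = a
  · -- closing the path gives a 2-factor with few components
    exfalso
    subst hua
    obtain ⟨h1, h2, h3⟩ := hst.ends hzu.symm
    have hF : TwoF (M' ⊔ SimpleGraph.edge z u) := by
      intro v
      by_cases hvz : v = z
      · subst hvz
        rw [deg_add_left M' v u hzu hM, h2]
      by_cases hvu : v = u
      · subst hvu
        rw [deg_add_right M' z v hzu hM, h1]
      · rw [deg_add_of_ne M' z u v hvz hvu]
        exact hst.deg v hvu hvz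
    have h4 := hk _ (sup_le hst.le (edge_le hH)) hF
    have h5 := comps_anti M' (M' ⊔ SimpleGraph.edge z u) le_sup_left
    omega
  have hdu : (M'.neighborSet u).ncard = 2 := hst.deg u hua hzu.symm
  by_cases hr : M'.Reachable z u
  · -- a genuine rotation
    have haz : a ≠ z := by
      intro he
      obtain ⟨p⟩ := hr
      cases p with
      | nil => exact hzu rfl
      | cons h p =>
        have h1 := hst.one he
        rw [he] at h1
        rw [Set.ncard_eq_zero (Set.toFinite _)] at h1
        exact Set.eq_empty_iff_forall_notMem.1 h1 _ h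
    obtain ⟨h1, h2, h3⟩ := hst.ends haz
    obtain ⟨p, hp⟩ := hr.symm.exists_isPath
    cases p with
    | nil => exact absurd rfl hzu
    | @cons _ y _ huy q =>
      rw [SimpleGraph.Walk.cons_isPath_iff] at hp
      have hyz : y ≠ z := rot_adj' M' z u y hM huy
      have hya : y ≠ a := by
        rintro rfl
        cases q with
        | nil => exact hyz rfl
        | @cons _ w _ hyw q' =>
          have hwu : w ≠ u := by
            rintro rfl
            apply hp.2
            rw [SimpleGraph.Walk.support_cons]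
            exact List.mem_cons_of_mem _ q'.start_mem_support
          have h4 : ({u, w} : Set (Fin n)) ⊆ M'.neighborSet y := by
            rintro v (rfl | rfl)
            · exact huy.symm
            · exact hyw
          have h5 := Set.ncard_le_ncard h4 (Set.toFinite _)
          rw [Set.ncard_pair hwu.symm] at h5
          omega
      have hav : (M' \ SimpleGraph.edge u y).Reachable y z := impb_avoid M' u y q hp.2
      have hdel : ((M' ⊔ SimpleGraph.edge z u) \ SimpleGraph.edge u y).Reachable u y := by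
        have h6 : ((M' ⊔ SimpleGraph.edge z u) \ SimpleGraph.edge u y).Adj z u := by
          rw [SimpleGraph.sdiff_adj, SimpleGraph.sup_adj, SimpleGraph.edge_adj,
            SimpleGraph.edge_adj]
          refine ⟨Or.inr ⟨Or.inl ⟨rfl, rfl⟩, hzu⟩, ?_⟩
          rintro ⟨⟨h7, -⟩ | ⟨h7, -⟩, -⟩
          · exact hzu h7
          · exact hyz h7.symm
        have h8 : (M' \ SimpleGraph.edge u y) ≤
            (M' ⊔ SimpleGraph.edge z u) \ SimpleGraph.edge u y :=
          sdiff_le_sdiff_right le_sup_left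
        exact h6.reachable.symm.trans (hav.mono h8).symm
      have hiff : ∀ p q, (rot M' z u y).Reachable p q ↔ M'.Reachable p q := by
        intro p q
        have h9 := reach_del (M' ⊔ SimpleGraph.edge z u) u y (Or.inl huy) hdel p q
        have h10 := reach_add M' z u hr p q
        exact h9.trans h10
      refine ⟨y, huy, ⟨rot_le hst.le hH, ?_, ?_, ?_⟩, ?_⟩
      · intro v hva hvy
        by_cases hvz : v = z
        · subst hvz
          rw [rot_deg_z M' v u y hzu hM huy, h2]
        by_cases hvu : v = u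
        · subst hvu
          rw [rot_deg_u M' z v y hzu hM huy, hdu]
        · rw [rot_deg_ne M' z u y v hvz hvu hvy]
          exact hst.deg v hva hvz
      · intro _
        refine ⟨?_, ?_, ?_⟩
        · rw [rot_deg_ne M' z u y a haz (Ne.symm hua) hya.symm, h1]
        · have h11 := rot_deg_y M' z u y hM huy
          rw [hst.deg y hya hyz] at h11
          omega
        · rw [hiff]
          exact (h3.trans hr).trans huy.reachable
      · intro he
        exact absurd he.symm hya
      · rw [← hc]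
        exact comps_congr _ _ hiff
  · -- a cycle is absorbed: fewer components
    exfalso
    obtain ⟨y, hy⟩ : (M'.neighborSet u).Nonempty := by
      apply Set.nonempty_of_ncard_ne_zero
      omega
    have huy : M'.Adj u y := hy
    have haz' : M'.Reachable a z := by
      by_cases he : a = z
      · rw [he]
      · exact (hst.ends he).2.2
    have hcomp : ∀ v, M'.Reachable u v → v ≠ a ∧ v ≠ z := by
      intro v hv
      constructor
      · rintro rfl
        exact hr (haz'.symm.trans hv.symm)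
      · rintro rfl
        exact hr hv.symm
    have hcyc := cycle_comp_del M' hst.two u y huy fun v hv =>
      hst.deg v (hcomp v hv).1 (hcomp v hv).2
    have hle8 : (M' \ SimpleGraph.edge u y) ≤
        (M' ⊔ SimpleGraph.edge z u) \ SimpleGraph.edge u y :=
      sdiff_le_sdiff_right le_sup_left
    have hiff := fun p q => reach_del (M' ⊔ SimpleGraph.edge z u) u y (Or.inl huy)
      (hcyc.mono hle8) p q
    have hcount : comps (rot M' z u y) + 1 = comps M' := by
      have h1 : comps (rot M' z u y) = comps (M' ⊔ SimpleGraph.edge z u) :=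
        comps_congr _ _ hiff
      rw [h1]
      exact comps_join M' z u hr
    obtain ⟨hya, hyz⟩ := hcomp y huy.reachable
    have hst' : ImpbSt H (rot M' z u y) a y := by
      refine ⟨rot_le hst.le hH, ?_, ?_, ?_⟩
      · intro v hva hvy
        by_cases hvz : v = z
        · subst hvz
          rw [rot_deg_z M' v u y hzu hM huy, (hst.ends hva.symm).2.1]
        by_cases hvu : v = u
        · subst hvu
          rw [rot_deg_u M' z v y hzu hM huy, hdu]
        · rw [rot_deg_ne M' z u y v hvz hvu hvy]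
          exact hst.deg v hva hvz
      · intro _
        refine ⟨?_, ?_, ?_⟩
        · by_cases he : a = z
          · subst he
            rw [rot_deg_z M' a u y hzu hM huy, hst.one rfl]
          · rw [rot_deg_ne M' z u y a he (Ne.symm hua) hya.symm, (hst.ends he).1]
        · have h11 := rot_deg_y M' z u y hM huy
          rw [hst.deg y hya hyz] at h11
          omega
        · show ((M' ⊔ SimpleGraph.edge z u) \ SimpleGraph.edge u y).Reachable a y
          rw [hiff]
          have h12 : (M' ⊔ SimpleGraph.edge z u).Adj z u := by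
            rw [SimpleGraph.sup_adj, SimpleGraph.edge_adj]
            exact Or.inr ⟨Or.inl ⟨rfl, rfl⟩, hzu⟩
          exact ((haz'.mono le_sup_left).trans h12.reachable).trans
            (huy.reachable.mono le_sup_left)
      · intro he
        exact absurd he.symm hya
    have := hmin _ _ _ hst'
    omega

theorem impb_cross {n : ℕ} {H N0 : SimpleGraph (Fin n)} {p q : Fin n} (w : H.Walk p q)
    (h : ¬ N0.Reachable p q) : ∃ u v, H.Adj u v ∧ ¬ N0.Reachable u v := by
  induction w with
  | nil => exact absurd (SimpleGraph.Reachable.refl _) h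
  | @cons p v q hpv w ih =>
    by_cases h1 : N0.Reachable p v
    · exact ih fun h2 => h (h1.trans h2)
    · exact ⟨p, v, hpv, h1⟩

/-- A state with one component fewer than a given 2-factor. -/
theorem impb_start {n : ℕ} {H N0 : SimpleGraph (Fin n)} (hconn : H.Connected) (hN : N0 ≤ H)
    (hF : TwoF N0) (h2 : 2 ≤ comps N0) :
    ∃ (M' : SimpleGraph (Fin n)) (a z : Fin n), ImpbSt H M' a z ∧ comps M' + 1 = comps N0 := by
  obtain ⟨p, q, hpq⟩ : ∃ p q, ¬ N0.Reachable p q := by
    by_contra hc
    push Not at hc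
    have : Subsingleton N0.ConnectedComponent := by
      constructor
      intro c d
      induction c using SimpleGraph.ConnectedComponent.ind with | _ u =>
      induction d using SimpleGraph.ConnectedComponent.ind with | _ v =>
      exact SimpleGraph.ConnectedComponent.sound (hc u v)
    have h3 : comps N0 ≤ 1 := by
      unfold comps
      exact Finite.card_le_one_iff_subsingleton.2 this
    omega
  obtain ⟨w⟩ := hconn.preconnected p q
  obtain ⟨u, v, hH, hr⟩ := impb_cross w hpq
  have hnb : ∀ t, ∃ t', N0.Adj t t' := by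
    intro t
    have : (N0.neighborSet t).Nonempty := by
      apply Set.nonempty_of_ncard_ne_zero
      rw [hF t]
      norm_num
    exact this
  obtain ⟨u', hu⟩ := hnb u
  obtain ⟨v', hv⟩ := hnb v
  have hTwo : Two N0 := fun t => (hF t).le
  have huv : u ≠ v := by
    rintro rfl
    exact hr (SimpleGraph.Reachable.refl _)
  have huv' : u ≠ v' := by
    rintro rfl
    exact hr hv.symm.reachable
  have hu'v : u' ≠ v := by
    rintro rfl
    exact hr hu.reachable
  have hu'v' : u' ≠ v' := by
    rintro rfl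
    exact hr (hu.reachable.trans hv.symm.reachable)
  set N1 := N0 \ SimpleGraph.edge u u' with hN1
  have hN1le : N1 ≤ N0 := sdiff_le
  have hd1 : ∀ t, t ≠ u → t ≠ u' → (N1.neighborSet t).ncard = 2 := fun t h1 h3 => by
    rw [hN1, deg_del_of_ne N0 u u' t h1 h3, hF t]
  have hTwo1 : Two N1 := by
    intro t
    have h3 : N1.neighborSet t ⊆ N0.neighborSet t := fun w hw => hN1le hw
    exact (Set.ncard_le_ncard h3 (Set.toFinite _)).trans (hTwo t)
  have hc1 : N1.Reachable u u' := cycle_comp_del N0 hTwo u u' hu fun t _ => hF t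
  have hi1 : ∀ s t, N1.Reachable s t ↔ N0.Reachable s t := reach_del N0 u u' hu hc1
  have hv1 : N1.Adj v v' := by
    rw [hN1, SimpleGraph.sdiff_adj, SimpleGraph.edge_adj]
    refine ⟨hv, ?_⟩
    rintro ⟨⟨h3, -⟩ | ⟨h3, -⟩, -⟩
    · exact huv h3.symm
    · exact hu'v h3.symm
  have hc2 : (N1 \ SimpleGraph.edge v v').Reachable v v' := by
    refine cycle_comp_del N1 hTwo1 v v' hv1 fun t ht => hd1 t ?_ ?_
    · rintro rfl
      exact hr ((hi1 _ _).1 ht).symm
    · rintro rfl
      exact hr (hu.reachable.trans ((hi1 _ _).1 ht).symm)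
  set N2 := N1 \ SimpleGraph.edge v v' with hN2
  have hi2 : ∀ s t, N2.Reachable s t ↔ N0.Reachable s t := fun s t =>
    (reach_del N1 v v' hv1 hc2 s t).trans (hi1 s t)
  have hr2 : ¬ N2.Reachable u v := fun h3 => hr ((hi2 _ _).1 h3)
  have hN2uv : ¬ N2.Adj u v := fun h3 => hr2 h3.reachable
  have hcomp : comps (N2 ⊔ SimpleGraph.edge u v) + 1 = comps N0 := by
    rw [comps_join N2 u v hr2]
    exact comps_congr _ _ hi2
  -- degrees in `N2`
  have d2u : (N2.neighborSet u).ncard = 1 := by
    have h3 := deg_del_left N0 u u' hu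
    rw [hF u] at h3
    rw [hN2, deg_del_of_ne N1 v v' u huv huv', hN1]
    omega
  have d2u' : (N2.neighborSet u').ncard = 1 := by
    have h3 := deg_del_right N0 u u' hu
    rw [hF u'] at h3
    rw [hN2, deg_del_of_ne N1 v v' u' hu'v hu'v', hN1]
    omega
  have d2v : (N2.neighborSet v).ncard = 1 := by
    have h3 := deg_del_left N1 v v' hv1
    rw [hd1 v huv.symm hu'v.symm] at h3
    rw [hN2]
    omega
  have d2v' : (N2.neighborSet v').ncard = 1 := by
    have h3 := deg_del_right N1 v v' hv1
    rw [hd1 v' huv'.symm hu'v'.symm] at h3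
    rw [hN2]
    omega
  refine ⟨N2 ⊔ SimpleGraph.edge u v, u', v', ⟨?_, ?_, ?_, ?_⟩, hcomp⟩
  · exact sup_le ((sdiff_le.trans hN1le).trans hN) (edge_le hH)
  · intro t htu' htv'
    by_cases htu : t = u
    · subst htu
      rw [deg_add_left N2 t v huv hN2uv, d2u]
    by_cases htv : t = v
    · subst htv
      rw [deg_add_right N2 u t huv hN2uv, d2v]
    · rw [deg_add_of_ne N2 u v t htu htv, hN2, deg_del_of_ne N1 v v' t htv htv']
      exact hd1 t htu htu'
  · intro _
    refine ⟨?_, ?_, ?_⟩
    · rw [deg_add_of_ne N2 u v u' hu.ne.symm hu'v, d2u']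
    · rw [deg_add_of_ne N2 u v v' huv'.symm hv.ne.symm, d2v']
    · have h3 : (N2 ⊔ SimpleGraph.edge u v).Adj u v := by
        rw [SimpleGraph.sup_adj, SimpleGraph.edge_adj]
        exact Or.inr ⟨Or.inl ⟨rfl, rfl⟩, huv⟩
      have h4 : N2.Reachable u' u := (hi2 _ _).2 hu.symm.reachable
      have h5 : N2.Reachable v v' := (hi2 _ _).2 hv.reachable
      exact ((h4.mono le_sup_left).trans h3.reachable).trans (h5.mono le_sup_left)
  · intro h3
    exact absurd h3 hu'v'

theorem impb_drop {n : ℕ} (K0 : ℕ) {H M' : SimpleGraph (Fin n)} {z y : Fin n}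
    (hyes : ∃ M : SimpleGraph (Fin n), M ≤ H ∧ TwoF M) (hk : 2 ≤ kap H) (hK : kap H ≤ K0)
    (hst : ImpbSt H M' z y) (hc : comps M' + 1 ≤ kap H) (hyz : y ≠ z) (hH : ¬ H.Adj z y) :
    Phi K0 (H ⊔ SimpleGraph.edge z y) < Phi K0 H := by
  have hM : ¬ M'.Adj z y := fun h => hH (hst.le h)
  obtain ⟨h1, h2, -⟩ := hst.ends hyz.symm
  have hF : TwoF (M' ⊔ SimpleGraph.edge z y) := by
    intro v
    by_cases hvz : v = z
    · subst hvz
      rw [deg_add_left M' v y hyz.symm hM, h1]
    by_cases hvy : v = y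
    · subst hvy
      rw [deg_add_right M' z v hyz.symm hM, h2]
    · rw [deg_add_of_ne M' z y v hvz hvy]
      exact hst.deg v hvz hvy
  have hle : M' ⊔ SimpleGraph.edge z y ≤ H ⊔ SimpleGraph.edge z y :=
    sup_le_sup_right hst.le _
  have hex : ∃ M : SimpleGraph (Fin n), M ≤ H ⊔ SimpleGraph.edge z y ∧ TwoF M := ⟨_, hle, hF⟩
  have h3 : kap (H ⊔ SimpleGraph.edge z y) ≤ comps (M' ⊔ SimpleGraph.edge z y) :=
    Nat.sInf_le ⟨_, hle, hF, rfl⟩
  have h4 := comps_anti M' (M' ⊔ SimpleGraph.edge z y) le_sup_left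
  unfold Phi
  rw [if_pos hex, if_pos hyes]
  omega

theorem impB {n : ℕ} (K0 : ℕ) (d : ℝ) (G0 H : SimpleGraph (Fin n)) (hGH : G0 ≤ H)
    (hconn : H.Connected) (hnt : NoTrap d G0 H)
    (hyes : ∃ M : SimpleGraph (Fin n), M ≤ H ∧ TwoF M) (hk : 2 ≤ kap H) (hK : kap H ≤ K0) :
    ∃ S : Finset (Fin n), d < (S.card : ℝ) ∧ ∀ z ∈ S, ∃ Y : Finset (Fin n), d < (Y.card : ℝ) ∧
      ∀ y ∈ Y, y ≠ z → ¬ H.Adj z y → Phi K0 (H ⊔ SimpleGraph.edge z y) < Phi K0 H := by
  -- an optimal 2-factor
  have hne : {k | ∃ M : SimpleGraph (Fin n), M ≤ H ∧ TwoF M ∧ comps M = k}.Nonempty := by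
    obtain ⟨M, h1, h2⟩ := hyes
    exact ⟨_, M, h1, h2, rfl⟩
  obtain ⟨N0, hN0, hF0, hc0⟩ := Nat.sInf_mem hne
  have hc0' : comps N0 = kap H := hc0
  have hkap : ∀ M : SimpleGraph (Fin n), M ≤ H → TwoF M → kap H ≤ comps M := fun M h1 h2 =>
    Nat.sInf_le ⟨M, h1, h2, rfl⟩
  obtain ⟨Ms, as, zs, hs, hcs⟩ := impb_start hconn hN0 hF0 (by omega)
  -- a state with the least number of components
  have hP : ∃ c, ∃ (M' : SimpleGraph (Fin n)) (a z : Fin n), ImpbSt H M' a z ∧ comps M' = c :=
    ⟨_, Ms, as, zs, hs, rfl⟩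
  obtain ⟨M1, a, x, h1, hc1⟩ := Nat.find_spec hP
  set c1 := Nat.find hP with hc1def
  have hmin : ∀ (M'' : SimpleGraph (Fin n)) (a' z' : Fin n), ImpbSt H M'' a' z' →
      c1 ≤ comps M'' := fun M'' a' z' h => Nat.find_min' hP ⟨M'', a', z', h, rfl⟩
  have hc1k : c1 + 1 ≤ kap H := by
    have := hmin Ms as zs hs
    omega
  have hkk : ∀ M'' : SimpleGraph (Fin n), M'' ≤ H → TwoF M'' → c1 < comps M'' := by
    intro M'' h2 h3
    have := hkap M'' h2 h3
    omega
  obtain ⟨S, hS, hSz⟩ := expl G0 H M1 x hGH h1.le h1.two h1.deg_le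
    (fun M' z => ImpbSt H M' a z ∧ comps M' = c1) ⟨h1, hc1⟩ (by
      rintro M' z ⟨h2, h3⟩ u h4 h5
      obtain ⟨y, h6, h7, h8⟩ := impb_close hkk hmin h2 h3 h4 h5
      exact ⟨y, h6, h7, h8⟩)
  refine ⟨S, hnt M1 x S hS, fun z hz => ?_⟩
  obtain ⟨Mz, h2, h3⟩ := hSz z hz
  have h2' := h2.symm
  obtain ⟨Y, hY, hYy⟩ := expl G0 H Mz a hGH h2'.le h2'.two h2'.deg_le
    (fun M' y => ImpbSt H M' z y ∧ comps M' = c1) ⟨h2', h3⟩ (by
      rintro M' w ⟨h4, h5⟩ u h6 h7
      obtain ⟨y, h8, h9, h10⟩ := impb_close hkk hmin h4 h5 h6 h7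
      exact ⟨y, h8, h9, h10⟩)
  refine ⟨Y, hnt Mz a Y hY, fun y hy hyz hH => ?_⟩
  obtain ⟨My, h4, h5⟩ := hYy y hy
  exact impb_drop K0 hyes hk hK h4 (by omega) hyz hH

end

end Pool.Agent.ST3
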