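import Pool.Agent.Lib.MP_7abaca_co.Defs

/-!
Three random spanning trees: independent sets in graphs of maximum degree two.
-/

set_option autoImplicit false

namespace Pool.Agent.ST3

open Finset
open scoped Classical

noncomputable section

/-- the graph with the edges at `R` removed -/
def indepDel {X : Type} (P : SimpleGraph X) (R : Finset X) : SimpleGraph X where
  Adj a b := P.Adj a b ∧ a ∉ R ∧ b ∉ R
  symm := ⟨fun _ _ h => ⟨h.1.symm, h.2.2, h.2.1⟩⟩
  loopless := ⟨fun a h => P.loopless.irrefl a h.1⟩

theorem indep_acyclic {X : Type} [Fintype X] (P : SimpleGraph X)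
    (hP : ∀ x, (P.neighborSet x).ncard ≤ 2) (R : Finset X)
    (hR : ∀ c : P.ConnectedComponent, (∀ x ∈ c.supp, (P.neighborSet x).ncard = 2) →
      ∃ x ∈ c.supp, x ∈ R) : (indepDel P R).IsAcyclic := by
  intro v c hc
  have hnb : ∀ u ∈ c.support, P.neighborSet u = c.toSubgraph.neighborSet u := by
    intro u hu
    have h1 := hc.ncard_neighborSet_toSubgraph_eq_two hu
    have h2 : c.toSubgraph.neighborSet u ⊆ P.neighborSet u := by
      intro w hw
      exact (c.toSubgraph.adj_sub hw).1
    refine (Set.eq_of_subset_of_ncard_le h2 ?_ (Set.toFinite _)).symm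
    rw [h1]
    exact hP u
  have hstep : ∀ u ∈ c.support, ∀ w, P.Adj u w → w ∈ c.support := by
    intro u hu w huw
    have h1 : w ∈ P.neighborSet u := huw
    rw [hnb u hu] at h1
    rw [← c.mem_verts_toSubgraph]
    exact c.toSubgraph.edge_vert (c.toSubgraph.adj_symm h1)
  have hwalk : ∀ u w : X, ∀ _ : P.Walk u w, u ∈ c.support → w ∈ c.support := by
    intro u w p
    induction p with
    | nil => intro h; exact h
    | cons hadj p ih => intro h; exact ih (hstep _ h _ hadj)
  have hclosed : ∀ w, P.Reachable v w → w ∈ c.support := by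
    rintro w ⟨p⟩
    exact hwalk v w p c.start_mem_support
  obtain ⟨r, hr, hrR⟩ := hR (P.connectedComponentMk v) (by
    intro x hx
    have h1 : P.Reachable v x := by
      rw [SimpleGraph.ConnectedComponent.mem_supp_iff, SimpleGraph.ConnectedComponent.eq] at hx
      exact hx.symm
    rw [hnb x (hclosed x h1)]
    exact hc.ncard_neighborSet_toSubgraph_eq_two (hclosed x h1))
  have h1 : P.Reachable v r := by
    rw [SimpleGraph.ConnectedComponent.mem_supp_iff, SimpleGraph.ConnectedComponent.eq] at hr
    exact hr.symm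
  have h2 := hc.ncard_neighborSet_toSubgraph_eq_two (hclosed r h1)
  have h3 : (c.toSubgraph.neighborSet r).Nonempty := by
    rw [← Set.ncard_pos (Set.toFinite _), h2]
    norm_num
  obtain ⟨w, hw⟩ := h3
  exact (c.toSubgraph.adj_sub hw).2.1 hrR

theorem indep_deg2 {X : Type} [Fintype X] (P : SimpleGraph X)
    (hP : ∀ x, (P.neighborSet x).ncard ≤ 2) :
    ∃ I : Finset X, (∀ x ∈ I, ∀ y ∈ I, ¬ P.Adj x y) ∧
      Fintype.card X ≤ 2 * I.card + (univ.filter (fun c : P.ConnectedComponent =>
        ∀ x ∈ c.supp, (P.neighborSet x).ncard = 2)).card := by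
  let bad : Finset P.ConnectedComponent := univ.filter (fun c : P.ConnectedComponent =>
    ∀ x ∈ c.supp, (P.neighborSet x).ncard = 2)
  let R : Finset X := bad.image fun c => c.out
  have hRcard : R.card ≤ bad.card := card_image_le
  have hac : (indepDel P R).IsAcyclic := by
    refine indep_acyclic P hP R fun c hc => ⟨c.out, ?_, ?_⟩
    · rw [SimpleGraph.ConnectedComponent.mem_supp_iff]
      exact Quot.out_eq c
    · exact mem_image_of_mem _ (by
        rw [mem_filter]
        exact ⟨mem_univ _, hc⟩)
  obtain ⟨C⟩ := hac.colorable_two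
  let Y : Finset X := univ \ R
  let I0 : Finset X := Y.filter fun x => C x = 0
  let I1 : Finset X := Y.filter fun x => ¬ C x = 0
  have hY : I0.card + I1.card = Y.card := card_filter_add_card_filter_not _
  have hX : Y.card + R.card = Fintype.card X := by
    rw [← card_univ, card_sdiff_add_card_eq_card (subset_univ R)]
  have hadj : ∀ x ∈ Y, ∀ y ∈ Y, P.Adj x y → C x ≠ C y := by
    intro x hx y hy hxy
    refine C.valid ⟨hxy, ?_, ?_⟩
    · exact (mem_sdiff.1 hx).2
    · exact (mem_sdiff.1 hy).2
  by_cases hle : I1.card ≤ I0.card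
  · refine ⟨I0, ?_, ?_⟩
    · intro x hx y hy hxy
      rw [mem_filter] at hx hy
      exact hadj x hx.1 y hy.1 hxy (hx.2.trans hy.2.symm)
    · change Fintype.card X ≤ 2 * I0.card + bad.card
      omega
  · refine ⟨I1, ?_, ?_⟩
    · intro x hx y hy hxy
      rw [mem_filter] at hx hy
      refine hadj x hx.1 y hy.1 hxy ?_
      have h1 := hx.2
      have h2 := hy.2
      have h3 := (C x).isLt
      have h4 := (C y).isLt
      apply Fin.ext
      have h5 : (C x).val ≠ 0 := fun h => h1 (Fin.ext h)
      have h6 : (C y).val ≠ 0 := fun h => h2 (Fin.ext h)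
      omega
    · change Fintype.card X ≤ 2 * I1.card + bad.card
      omega

end

end Pool.Agent.ST3
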