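import Pool.Agent.Lib.MP_7abaca_co.Defs
import Pool.Agent.Lib.MP_7abaca_co.RCount

/-!
# Prescribed edges in random rooted trees (module SUB)
-/

set_option autoImplicit false

namespace Pool.Agent.ST3

open Finset Filter
open scoped Classical

noncomputable section

theorem sub_mem_gr {n : ℕ} (π : Fin n → Fin n) (a b : Fin n) :
    s(a, b) ∈ (gr π).edgeSet ↔ a ≠ b ∧ (π a = b ∨ π b = a) := by
  rw [SimpleGraph.mem_edgeSet, gr, SimpleGraph.fromRel_adj]

theorem sub_one {n : ℕ} (hn : 1 ≤ n) (L : Finset (Sym2 (Fin n))) :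
    (((RT n).filter (fun π => ∀ e ∈ L, e ∈ (gr π).edgeSet)).card : ℝ) ≤
      (n : ℝ) ^ (n - 1) * (2 / (n : ℝ)) ^ L.card := by
  set a : Sym2 (Fin n) → Fin n := fun e => (Quot.out e).1 with ha
  set b : Sym2 (Fin n) → Fin n := fun e => (Quot.out e).2 with hb
  have hab : ∀ e, s(a e, b e) = e := by
    intro e
    have : Quot.mk _ (Quot.out e) = e := Quot.out_eq e
    exact this
  set E : Finset (Sym2 (Fin n)) → Finset (Fin n → Fin n) := fun T =>
    (RT n).filter (fun π => (∀ e ∈ L, a e ≠ b e) ∧ (∀ e ∈ L, e ∈ T → π (a e) = b e) ∧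
      ∀ e ∈ L, e ∉ T → π (b e) = a e) with hE
  have hcov : (RT n).filter (fun π => ∀ e ∈ L, e ∈ (gr π).edgeSet) ⊆ L.powerset.biUnion E := by
    intro π hπ
    rw [mem_filter] at hπ
    obtain ⟨hπ1, hπ2⟩ := hπ
    have hπ3 : ∀ e ∈ L, a e ≠ b e ∧ (π (a e) = b e ∨ π (b e) = a e) := by
      intro e he
      have := hπ2 e he
      rw [← hab e, sub_mem_gr] at this
      exact this
    rw [mem_biUnion]
    refine ⟨L.filter (fun e => π (a e) = b e), mem_powerset.mpr (filter_subset _ _), ?_⟩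
    rw [hE, mem_filter]
    refine ⟨hπ1, fun e he => (hπ3 e he).1, fun e _ he => (mem_filter.mp he).2, ?_⟩
    intro e he hne
    rcases (hπ3 e he).2 with h | h
    · exact absurd (mem_filter.mpr ⟨he, h⟩) hne
    · exact h
  have hET : ∀ T, ((E T).card : ℝ) ≤ (n : ℝ) ^ (n - 1) * (1 / (n : ℝ)) ^ L.card := by
    intro T
    by_cases hemp : E T = ∅
    · rw [hemp, card_empty, Nat.cast_zero]
      positivity
    obtain ⟨π0, hπ0⟩ := nonempty_iff_ne_empty.mpr hemp
    have hπ0' := hπ0
    rw [hE, mem_filter] at hπ0'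
    obtain ⟨hR, hd, h1, h2⟩ := hπ0'
    set src : Sym2 (Fin n) → Fin n := fun e => if e ∈ T then a e else b e with hsrc
    have hsrc2 : ∀ e ∈ L, s(src e, π0 (src e)) = e := by
      intro e he
      simp only [hsrc]
      split_ifs with hT
      · rw [h1 e he hT, hab]
      · rw [h2 e he hT, Sym2.eq_swap, hab]
    have hinj : Set.InjOn src L := by
      intro e he e' he' hee
      rw [← hsrc2 e he, ← hsrc2 e' he', hee]
    have hcard : (L.image src).card = L.card := card_image_of_injOn hinj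
    rw [← hcard]
    refine le_trans ?_ (card_RT_fix hn (L.image src) π0 ?_)
    · have hsub : E T ⊆ (RT n).filter (fun π => ∀ v ∈ L.image src, π v = π0 v) := by
        intro π hπ
        rw [hE, mem_filter] at hπ
        rw [mem_filter]
        refine ⟨hπ.1, ?_⟩
        intro v hv
        obtain ⟨e, he, rfl⟩ := mem_image.mp hv
        simp only [hsrc]
        split_ifs with hT
        · rw [hπ.2.2.1 e he hT, h1 e he hT]
        · rw [hπ.2.2.2 e he hT, h2 e he hT]
      exact_mod_cast card_le_card hsub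
    · intro v hv
      obtain ⟨e, he, rfl⟩ := mem_image.mp hv
      simp only [hsrc]
      split_ifs with hT
      · rw [h1 e he hT]
        exact (hd e he).symm
      · rw [h2 e he hT]
        exact hd e he
  have h3 : (((RT n).filter (fun π => ∀ e ∈ L, e ∈ (gr π).edgeSet)).card : ℝ) ≤
      ∑ T ∈ L.powerset, ((E T).card : ℝ) := by
    have h4 := le_trans (card_le_card hcov) card_biUnion_le
    exact_mod_cast h4
  refine le_trans h3 (le_trans (sum_le_sum fun T _ => hET T) ?_)
  rw [sum_const, card_powerset, nsmul_eq_mul]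
  apply le_of_eq
  rw [div_pow, div_pow, one_pow]
  push_cast
  ring

theorem sub_three {n : ℕ} (hn : 1 ≤ n) (L : Finset (Fin 3 × Sym2 (Fin n))) :
    Pr3 n (fun π => ∀ p ∈ L, p.2 ∈ (gr (π p.1)).edgeSet) ≤ (2 / (n : ℝ)) ^ L.card := by
  set Li : Fin 3 → Finset (Sym2 (Fin n)) := fun i => (L.filter (fun p => p.1 = i)).image Prod.snd
    with hLi
  have hLicard : ∀ i, (Li i).card = (L.filter (fun p => p.1 = i)).card := by
    intro i
    apply card_image_of_injOn
    intro p hp q hq hpq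
    rw [mem_coe, mem_filter] at hp hq
    exact Prod.ext (hp.2.trans hq.2.symm) hpq
  have hsum : ∑ i, (Li i).card = L.card := by
    rw [card_eq_sum_card_fiberwise (f := Prod.fst) (t := univ) (fun _ _ => mem_coe.mpr (mem_univ _))]
    exact sum_congr rfl fun i _ => hLicard i
  have hset : (RT3 n).filter (fun π => ∀ p ∈ L, p.2 ∈ (gr (π p.1)).edgeSet) =
      Fintype.piFinset (fun i => (RT n).filter (fun π => ∀ e ∈ Li i, e ∈ (gr π).edgeSet)) := by
    ext π
    rw [mem_filter, RT3, mem_filter, Fintype.mem_piFinset]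
    constructor
    · rintro ⟨⟨-, h1⟩, h2⟩ i
      rw [mem_filter]
      refine ⟨h1 i, ?_⟩
      intro e he
      rw [hLi] at he
      obtain ⟨p, hp, rfl⟩ := mem_image.mp he
      rw [mem_filter] at hp
      rw [← hp.2]
      exact h2 p hp.1
    · intro h
      refine ⟨⟨mem_univ _, fun i => (mem_filter.mp (h i)).1⟩, ?_⟩
      intro p hp
      refine (mem_filter.mp (h p.1)).2 p.2 ?_
      exact mem_image.mpr ⟨p, mem_filter.mpr ⟨hp, rfl⟩, rfl⟩
  have hn0 : (0 : ℝ) < n := by exact_mod_cast hn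
  have hpos : (0 : ℝ) < ((n : ℝ) ^ (n - 1)) ^ 3 := by positivity
  have hP : Pr3 n (fun π => ∀ p ∈ L, p.2 ∈ (gr (π p.1)).edgeSet) =
      ((Fintype.piFinset (fun i => (RT n).filter
        (fun π => ∀ e ∈ Li i, e ∈ (gr π).edgeSet))).card : ℝ) / ((n : ℝ) ^ (n - 1)) ^ 3 := by
    rw [← hset, Pr3]
    congr!
  rw [hP, Fintype.card_piFinset, div_le_iff₀ hpos]
  push_cast
  refine le_trans (prod_le_prod (fun i _ => Nat.cast_nonneg _) (fun i _ => sub_one hn (Li i))) ?_
  rw [prod_mul_distrib, prod_const, card_univ, Fintype.card_fin,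
    prod_pow_eq_pow_sum univ (fun i => (Li i).card), hsum]
  apply le_of_eq
  ring

theorem sub_wt {n : ℕ} (ε : ℝ) (X : Finset (Sym2 (Fin n))) :
    ∑ ω : Sym2 (Fin n) → Bool, (if ∀ e ∈ X, ω e = true then wt ε ω else 0) = ε ^ X.card := by
  have h1 : ∀ ω : Sym2 (Fin n) → Bool, (if ∀ e ∈ X, ω e = true then wt ε ω else 0) =
      ∏ e : Sym2 (Fin n), ((if ω e = true then ε else 1 - ε) *
        (if e ∈ X → ω e = true then 1 else 0)) := by
    intro ω
    rw [prod_mul_distrib, ← wt]
    split_ifs with h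
    · have : ∏ e : Sym2 (Fin n), (if e ∈ X → ω e = true then (1 : ℝ) else 0) = 1 := by
        apply prod_eq_one
        intro e _
        rw [if_pos (h e)]
      rw [this, mul_one]
    · push Not at h
      obtain ⟨e, he, h2⟩ := h
      have : ∏ e : Sym2 (Fin n), (if e ∈ X → ω e = true then (1 : ℝ) else 0) = 0 := by
        apply prod_eq_zero (mem_univ e)
        rw [if_neg (fun h3 => h2 (h3 he))]
      rw [this, mul_zero]
  rw [sum_congr rfl fun ω _ => h1 ω]
  have h2 := (prod_univ_sum (fun _ : Sym2 (Fin n) => (univ : Finset Bool))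
    (fun (e : Sym2 (Fin n)) (c : Bool) => ((if c = true then ε else 1 - ε) *
        (if e ∈ X → c = true then (1 : ℝ) else 0)))).symm
  rw [Fintype.piFinset_univ] at h2
  rw [h2]
  have h3 : ∀ e : Sym2 (Fin n), ∑ c : Bool, ((if c = true then ε else 1 - ε) *
        (if e ∈ X → c = true then (1 : ℝ) else 0)) = if e ∈ X then ε else 1 := by
    intro e
    rw [Fintype.sum_bool]
    by_cases he : e ∈ X
    · simp [he]
    · simp [he]
  rw [prod_congr rfl fun e _ => h3 e, prod_ite]
  simp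

theorem sub_flag {n : ℕ} (hn : 1 ≤ n) (ε : ℝ) (hε0 : 0 ≤ ε) (hε1 : ε ≤ 1)
    (L : Finset (Fin 3 × Sym2 (Fin n))) (X : Finset (Sym2 (Fin n))) :
    Pr n ε (fun π ω => (∀ p ∈ L, p.2 ∈ (gr (π p.1)).edgeSet) ∧ ∀ e ∈ X, ω e = true) ≤
      (2 / (n : ℝ)) ^ L.card * ε ^ X.card := by
  have h1 : Pr n ε (fun π ω => (∀ p ∈ L, p.2 ∈ (gr (π p.1)).edgeSet) ∧ ∀ e ∈ X, ω e = true) =
      Pr3 n (fun π => ∀ p ∈ L, p.2 ∈ (gr (π p.1)).edgeSet) * ε ^ X.card := by
    rw [Pr, Pr3, div_mul_eq_mul_div]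
    congr 1
    rw [← sub_wt, card_filter]
    push_cast
    rw [sum_mul]
    apply sum_congr rfl
    intro π _
    split_ifs with h
    · rw [one_mul]
      apply sum_congr rfl
      intro ω _
      by_cases h2 : ∀ e ∈ X, ω e = true
      · rw [if_pos ⟨h, h2⟩, if_pos h2]
      · rw [if_neg (fun h3 => h2 h3.2), if_neg h2]
    · rw [zero_mul]
      apply sum_eq_zero
      intro ω _
      rw [if_neg (fun h3 => h h3.1)]
  rw [h1]
  exact mul_le_mul_of_nonneg_right (sub_three hn L) (pow_nonneg hε0 _)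

end

end Pool.Agent.ST3
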