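import Pool.Agent.Lib.MP_7abaca_co.Defs
import Pool.Agent.Lib.MP_7abaca_co.Sub
import Pool.Agent.Lib.MP_7abaca_co.ConnS

/-!
# Few flagged edges leave a large connected set
-/

set_option autoImplicit false

namespace Pool.Agent.ST3

open Finset Filter
open scoped Classical

noncomputable section

/-! ### union bound -/

theorem lf_wt_nonneg {n : ℕ} {ε : ℝ} (hε0 : 0 ≤ ε) (hε1 : ε ≤ 1) (ω : Sym2 (Fin n) → Bool) :
    0 ≤ wt ε ω := by
  unfold wt
  refine prod_nonneg fun e _ => ?_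
  split_ifs
  · exact hε0
  · linarith

theorem lf_nonneg {n : ℕ} {ε : ℝ} (hε0 : 0 ≤ ε) (hε1 : ε ≤ 1)
    (E : (Fin 3 → Fin n → Fin n) → (Sym2 (Fin n) → Bool) → Prop) : 0 ≤ Pr n ε E := by
  unfold Pr
  refine div_nonneg (sum_nonneg fun π _ => sum_nonneg fun ω _ => ?_) (by positivity)
  split_ifs
  · exact lf_wt_nonneg hε0 hε1 ω
  · exact le_rfl

theorem lf_union {n : ℕ} {ε : ℝ} (hε0 : 0 ≤ ε) (hε1 : ε ≤ 1) {α : Type*} (s : Finset α)
    (E : (Fin 3 → Fin n → Fin n) → (Sym2 (Fin n) → Bool) → Prop)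
    (E' : α → (Fin 3 → Fin n → Fin n) → (Sym2 (Fin n) → Bool) → Prop)
    (h : ∀ π ω, E π ω → ∃ i ∈ s, E' i π ω) : Pr n ε E ≤ ∑ i ∈ s, Pr n ε (E' i) := by
  unfold Pr
  rw [← sum_div]
  refine div_le_div_of_nonneg_right ?_ (by positivity)
  have e : ∑ i ∈ s, ∑ π ∈ RT3 n, ∑ ω : Sym2 (Fin n) → Bool,
      (if E' i π ω then wt ε ω else 0 : ℝ) =
      ∑ π ∈ RT3 n, ∑ ω : Sym2 (Fin n) → Bool, ∑ i ∈ s, (if E' i π ω then wt ε ω else 0 : ℝ) := by
    rw [sum_comm]
    exact sum_congr rfl fun π _ => sum_comm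
  rw [e]
  refine sum_le_sum fun π _ => sum_le_sum fun ω _ => ?_
  split_ifs with hE
  · obtain ⟨i, hi, hEi⟩ := h π ω hE
    have h1 : (if E' i π ω then wt ε ω else 0) ≤ ∑ i ∈ s, (if E' i π ω then wt ε ω else 0) :=
      Finset.single_le_sum (f := fun i => (if E' i π ω then wt ε ω else 0 : ℝ)) (fun j _ => by
          split_ifs
          · exact lf_wt_nonneg hε0 hε1 ω
          · exact le_rfl) hi
    rwa [if_pos hEi] at h1
  · refine sum_nonneg fun j _ => ?_
    split_ifs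
    · exact lf_wt_nonneg hε0 hε1 ω
    · exact le_rfl

theorem lf_union_card {n : ℕ} {ε : ℝ} (hε0 : 0 ≤ ε) (hε1 : ε ≤ 1) {α : Type*} (s : Finset α)
    (E' : α → (Fin 3 → Fin n → Fin n) → (Sym2 (Fin n) → Bool) → Prop) (b : ℝ)
    (h : ∀ i ∈ s, Pr n ε (E' i) ≤ b) :
    Pr n ε (fun π ω => ∃ i ∈ s, E' i π ω) ≤ s.card * b := by
  refine (lf_union hε0 hε1 s _ E' fun π ω h => h).trans ?_
  refine (sum_le_sum h).trans ?_
  rw [sum_const, nsmul_eq_mul]

/-! ### the encoding -/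

/-- pairs with exactly one end in `W` -/
def lfB {n : ℕ} (W : Finset (Fin n)) : Finset (Sym2 (Fin n)) :=
  univ.filter (fun e => (∃ v ∈ e, v ∈ W) ∧ (∃ v ∈ e, v ∉ W))

theorem lfB_card {n : ℕ} (W : Finset (Fin n)) : (lfB W).card ≤ W.card * n := by
  have h : lfB W ⊆ (W ×ˢ (univ : Finset (Fin n))).image (fun p => s(p.1, p.2)) := by
    intro e he
    simp only [lfB, mem_filter, mem_univ, true_and] at he
    obtain ⟨⟨v, hv, hvW⟩, -⟩ := he
    obtain ⟨u, rfl⟩ := Sym2.mem_iff_exists.1 hv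
    exact mem_image.2 ⟨(v, u), by simp [hvW], rfl⟩
  refine (card_le_card h).trans (card_image_le.trans ?_)
  rw [card_product, card_univ, Fintype.card_fin]

/-- the labelled edges -/
def lfL {n : ℕ} (W : Finset (Fin n)) (x : Fin n) (σ : Fin n → Fin n) (ι : Fin n → Fin 3)
    (X : Finset (Sym2 (Fin n))) : Finset (Fin 3 × Sym2 (Fin n)) :=
  ((W.erase x).image fun v => (ι v, s(v, σ v))) ∪ X.image fun e => ((2 : Fin 3), e)

theorem lfL_card {n : ℕ} (W : Finset (Fin n)) (x : Fin n) (hx : x ∈ W) (σ : Fin n → Fin n)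
    (hσ : ∀ v ∈ W, σ v ∈ W) (ι : Fin n → Fin 3) (X : Finset (Sym2 (Fin n))) (hX : X ⊆ lfB W)
    (hinj : Set.InjOn (fun v => s(v, σ v)) {v | v ∈ W ∧ v ≠ x}) :
    (lfL W x σ ι X).card = (W.card - 1) + X.card := by
  unfold lfL
  rw [card_union_of_disjoint, card_image_of_injOn, card_image_of_injective, card_erase_of_mem hx]
  · intro a b hab
    exact (Prod.mk.inj hab).2
  · intro a ha b hb hab
    rw [mem_coe, mem_erase] at ha hb
    exact hinj ⟨ha.2, ha.1⟩ ⟨hb.2, hb.1⟩ (Prod.mk.inj hab).2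
  · rw [disjoint_left]
    intro p hp hp'
    obtain ⟨v, hv, rfl⟩ := mem_image.1 hp
    obtain ⟨e, he, hee⟩ := mem_image.1 hp'
    have h1 := (Prod.mk.inj hee).2
    have h2 := hX he
    simp only [lfB, mem_filter, mem_univ, true_and] at h2
    obtain ⟨-, u, hu, huW⟩ := h2
    rw [h1, Sym2.mem_iff] at hu
    rw [mem_erase] at hv
    rcases hu with rfl | rfl
    · exact huW hv.2
    · exact huW (hσ _ hv.2)

/-- the elementary event -/
def lfE {n : ℕ} (W : Finset (Fin n)) (x : Fin n) (σ : Fin n → Fin n) (ι : Fin n → Fin 3)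
    (X : Finset (Sym2 (Fin n))) (π : Fin 3 → Fin n → Fin n) (ω : Sym2 (Fin n) → Bool) : Prop :=
  Set.InjOn (fun v => s(v, σ v)) {v | v ∈ W ∧ v ≠ x} ∧
    (∀ p ∈ lfL W x σ ι X, p.2 ∈ (gr (π p.1)).edgeSet) ∧ ∀ e ∈ X, ω e = true

theorem lfE_bound {n : ℕ} (hn : 1 ≤ n) {ε : ℝ} (hε0 : 0 ≤ ε) (hε1 : ε ≤ 1) (h : ℕ)
    (W : Finset (Fin n)) (x : Fin n) (hx : x ∈ W) (σ : Fin n → Fin n) (hσ : ∀ v ∈ W, σ v ∈ W)
    (ι : Fin n → Fin 3) (X : Finset (Sym2 (Fin n))) (hX : X ∈ powersetCard h (lfB W)) :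
    Pr n ε (lfE W x σ ι X) ≤ (2 / (n : ℝ)) ^ (W.card - 1 + h) * ε ^ h := by
  rw [mem_powersetCard] at hX
  by_cases hinj : Set.InjOn (fun v => s(v, σ v)) {v | v ∈ W ∧ v ≠ x}
  · have h1 := sub_flag hn ε hε0 hε1 (lfL W x σ ι X) X
    rw [lfL_card W x hx σ hσ ι X hX.1 hinj, hX.2] at h1
    refine le_trans (le_of_eq ?_) h1
    congr 1
    ext π ω
    simp only [lfE, hinj, true_and]
  · have h0 : Pr n ε (lfE W x σ ι X) = 0 := by
      unfold Pr
      simp only [lfE, hinj, false_and, if_false, sum_const_zero, zero_div]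
    rw [h0]
    positivity

/-- the event for `W` -/
def lfEW {n : ℕ} (h : ℕ) (W : Finset (Fin n)) (π : Fin 3 → Fin n → Fin n)
    (ω : Sym2 (Fin n) → Bool) : Prop :=
  ∃ x ∈ W, ∃ σ ∈ Fintype.piFinset (fun v => if v ∈ W then W else {x}),
    ∃ ι ∈ Fintype.piFinset (fun v => if v ∈ W then (univ : Finset (Fin 3)) else {0}),
      ∃ X ∈ powersetCard h (lfB W), lfE W x σ ι X π ω

theorem lf_piCard {n : ℕ} {α : Type*} (W : Finset (Fin n)) (s : Finset α) (a : α) :
    (Fintype.piFinset (fun v : Fin n => if v ∈ W then s else {a})).card = s.card ^ W.card := by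
  rw [Fintype.card_piFinset]
  have : ∀ v : Fin n, (if v ∈ W then s else {a}).card = if v ∈ W then s.card else 1 := by
    intro v
    split_ifs <;> simp
  rw [prod_congr rfl fun v _ => this v, prod_ite_mem, univ_inter, prod_const]

theorem lfEW_bound {n : ℕ} (hn : 1 ≤ n) {ε : ℝ} (hε0 : 0 ≤ ε) (hε1 : ε ≤ 1) (h w : ℕ)
    (W : Finset (Fin n)) (hW : W.card = w) :
    Pr n ε (lfEW h W) ≤ w * ((w : ℝ) ^ w * (3 ^ w * (((w * n).choose h : ℝ) *
      ((2 / (n : ℝ)) ^ (w - 1 + h) * ε ^ h)))) := by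
  unfold lfEW
  have hc : ((powersetCard h (lfB W)).card : ℝ) ≤ ((w * n).choose h : ℝ) := by
    rw [card_powersetCard]
    exact_mod_cast Nat.choose_le_choose h (by rw [← hW]; exact lfB_card W)
  have hb0 : 0 ≤ (2 / (n : ℝ)) ^ (w - 1 + h) * ε ^ h := by positivity
  have := lf_union_card hε0 hε1 W (fun x π ω =>
    ∃ σ ∈ Fintype.piFinset (fun v => if v ∈ W then W else {x}),
    ∃ ι ∈ Fintype.piFinset (fun v => if v ∈ W then (univ : Finset (Fin 3)) else {0}),
      ∃ X ∈ powersetCard h (lfB W), lfE W x σ ι X π ω)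
    ((w : ℝ) ^ w * (3 ^ w * (((w * n).choose h : ℝ) * ((2 / (n : ℝ)) ^ (w - 1 + h) * ε ^ h))))
    fun x hx => by
      have h1 := lf_union_card hε0 hε1 (Fintype.piFinset (fun v => if v ∈ W then W else {x}))
        (fun σ π ω =>
          ∃ ι ∈ Fintype.piFinset (fun v => if v ∈ W then (univ : Finset (Fin 3)) else {0}),
          ∃ X ∈ powersetCard h (lfB W), lfE W x σ ι X π ω)
        (3 ^ w * (((w * n).choose h : ℝ) * ((2 / (n : ℝ)) ^ (w - 1 + h) * ε ^ h)))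
        fun σ hσ => by
          have hσ' : ∀ v ∈ W, σ v ∈ W := by
            intro v hv
            have := Fintype.mem_piFinset.1 hσ v
            rwa [if_pos hv] at this
          have h2 := lf_union_card hε0 hε1
            (Fintype.piFinset (fun v => if v ∈ W then (univ : Finset (Fin 3)) else {0}))
            (fun ι π ω => ∃ X ∈ powersetCard h (lfB W), lfE W x σ ι X π ω)
            (((w * n).choose h : ℝ) * ((2 / (n : ℝ)) ^ (w - 1 + h) * ε ^ h))
            fun ι _ => by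
              have h3 := lf_union_card hε0 hε1 (powersetCard h (lfB W))
                (fun X => lfE W x σ ι X) ((2 / (n : ℝ)) ^ (w - 1 + h) * ε ^ h)
                fun X hX => by
                  have := lfE_bound hn hε0 hε1 h W x hx σ hσ' ι X hX
                  rwa [hW] at this
              exact h3.trans (mul_le_mul_of_nonneg_right hc hb0)
          rw [lf_piCard, card_univ, Fintype.card_fin, hW] at h2
          push_cast at h2
          exact h2
      rw [lf_piCard, hW] at h1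
      push_cast at h1
      exact h1
  rw [hW] at this
  exact this

theorem lf_encode {n : ℕ} (θ : ℝ) (π : Fin 3 → Fin n → Fin n) (ω : Sym2 (Fin n) → Bool)
    (W : Finset (Fin n)) (hc : ((GG π).induce (W : Set (Fin n))).Connected)
    (hlt : θ * W.card < ((univ.filter (fun e : Sym2 (Fin n) => e ∈ (gr (π 2)).edgeSet ∧
      ω e = true ∧ (∃ v ∈ e, v ∈ W) ∧ (∃ v ∈ e, v ∉ W))).card : ℝ)) :
    lfEW ⌈θ * W.card⌉₊ W π ω := by
  obtain ⟨x, hx, σ, hσ, hinj⟩ := conn_struct (GG π) W hc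
  have hlab : ∀ v, ∃ i : Fin 3, v ∈ W → v ≠ x → s(v, σ v) ∈ (gr (π i)).edgeSet := by
    intro v
    by_cases hv : v ∈ W ∧ v ≠ x
    · have h1 := (hσ v hv.1 hv.2).2
      unfold GG at h1
      rw [SimpleGraph.sup_adj, SimpleGraph.sup_adj] at h1
      rcases h1 with (h1 | h1) | h1
      · exact ⟨0, fun _ _ => (SimpleGraph.mem_edgeSet _).2 h1⟩
      · exact ⟨1, fun _ _ => (SimpleGraph.mem_edgeSet _).2 h1⟩
      · exact ⟨2, fun _ _ => (SimpleGraph.mem_edgeSet _).2 h1⟩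
    · exact ⟨0, fun h1 h2 => absurd ⟨h1, h2⟩ hv⟩
  choose ι hι using hlab
  have hle : ⌈θ * W.card⌉₊ ≤ (univ.filter (fun e : Sym2 (Fin n) => e ∈ (gr (π 2)).edgeSet ∧
      ω e = true ∧ (∃ v ∈ e, v ∈ W) ∧ (∃ v ∈ e, v ∉ W))).card := Nat.ceil_le.2 hlt.le
  obtain ⟨X, hXsub, hXcard⟩ := exists_subset_card_eq hle
  refine ⟨x, hx, fun v => if v ∈ W ∧ v ≠ x then σ v else x, ?_,
    fun v => if v ∈ W then ι v else 0, ?_, X, ?_, ?_, ?_, ?_⟩
  · rw [Fintype.mem_piFinset]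
    intro v
    by_cases hv : v ∈ W
    · rw [if_pos hv]
      by_cases hvx : v = x
      · rw [if_neg (fun h => h.2 hvx)]; exact hx
      · rw [if_pos ⟨hv, hvx⟩]; exact (hσ v hv hvx).1
    · rw [if_neg hv, if_neg (fun h => hv h.1)]
      exact mem_singleton_self _
  · rw [Fintype.mem_piFinset]
    intro v
    by_cases hv : v ∈ W
    · rw [if_pos hv]; exact mem_univ _
    · rw [if_neg hv, if_neg hv]; exact mem_singleton_self _
  · rw [mem_powersetCard]
    refine ⟨fun e he => ?_, hXcard⟩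
    have := hXsub he
    rw [mem_filter] at this
    simp only [lfB, mem_filter, mem_univ, true_and]
    exact this.2.2.2
  · intro a ha b hb hab
    have ha' : a ∈ W ∧ a ≠ x := ha
    have hb' : b ∈ W ∧ b ≠ x := hb
    simp only at hab
    rw [if_pos ha', if_pos hb'] at hab
    exact hinj ha hb hab
  · intro p hp
    unfold lfL at hp
    rw [mem_union] at hp
    rcases hp with hp | hp
    · obtain ⟨v, hv, rfl⟩ := mem_image.1 hp
      rw [mem_erase] at hv
      have hv' : v ∈ W ∧ v ≠ x := ⟨hv.2, hv.1⟩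
      simp only [if_pos hv', if_pos hv.2]
      exact hι v hv.2 hv.1
    · obtain ⟨e, he, rfl⟩ := mem_image.1 hp
      have := hXsub he
      rw [mem_filter] at this
      exact this.2.1
  · intro e he
    have := hXsub he
    rw [mem_filter] at this
    exact this.2.2.1

/-! ### the estimate -/

theorem lf_term (c θ ε : ℝ) (hc : 0 < c) (hθ : 0 < θ) (hε : 0 < ε)
    (hε0 : ε ≤ θ / (2 * Real.exp 1) * Real.exp (-((5 / c + 3) / θ))) (n w : ℕ) (hn : 1 ≤ n)
    (hw : 1 ≤ w) :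
    (n.choose w : ℝ) * (w * ((w : ℝ) ^ w * (3 ^ w * (((w * n).choose ⌈θ * w⌉₊ : ℝ) *
      ((2 / (n : ℝ)) ^ (w - 1 + ⌈θ * w⌉₊) * ε ^ ⌈θ * w⌉₊))))) ≤
      w * n * Real.exp (-(5 / c) * w) := by
  set h := ⌈θ * w⌉₊ with hh
  have hn0 : (0 : ℝ) < n := by exact_mod_cast hn
  have hw0 : (0 : ℝ) < w := by exact_mod_cast hw
  have hθw : 0 < θ * w := by positivity
  have hhle : θ * w ≤ h := Nat.le_ceil _
  have hh0 : (0 : ℝ) < h := lt_of_lt_of_le hθw hhle
  have A : (n.choose w : ℝ) ≤ (n : ℝ) ^ w / (w.factorial : ℝ) := by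
    exact_mod_cast Nat.choose_le_pow_div w n
  have B : ((w * n).choose h : ℝ) ≤ ((w : ℝ) * n) ^ h / (h.factorial : ℝ) := by
    have := Nat.choose_le_pow_div (α := ℝ) h (w * n)
    push_cast at this
    exact this
  have C1 : (w : ℝ) ^ w / (w.factorial : ℝ) ≤ Real.exp w :=
    Real.pow_div_factorial_le_exp (w : ℝ) hw0.le w
  have C2 : (h : ℝ) ^ h / (h.factorial : ℝ) ≤ Real.exp h :=
    Real.pow_div_factorial_le_exp (h : ℝ) hh0.le h
  have e1 : (n : ℝ) ^ w * (2 / (n : ℝ)) ^ (w - 1 + h) = n * 2 ^ (w - 1) * (2 / (n : ℝ)) ^ h := by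
    obtain ⟨k, rfl⟩ : ∃ k, w = k + 1 := ⟨w - 1, by omega⟩
    rw [Nat.add_sub_cancel, pow_add (2 / (n : ℝ)), div_pow, pow_succ]
    field_simp
  have step1 : (n.choose w : ℝ) * (w * ((w : ℝ) ^ w * (3 ^ w * (((w * n).choose h : ℝ) *
      ((2 / (n : ℝ)) ^ (w - 1 + h) * ε ^ h))))) ≤
      ((n : ℝ) ^ w / (w.factorial : ℝ)) * (w * ((w : ℝ) ^ w * (3 ^ w *
        ((((w : ℝ) * n) ^ h / (h.factorial : ℝ)) *
      ((2 / (n : ℝ)) ^ (w - 1 + h) * ε ^ h))))) := by
    gcongr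
  have e2 : ((n : ℝ) ^ w / (w.factorial : ℝ)) * (w * ((w : ℝ) ^ w * (3 ^ w *
        ((((w : ℝ) * n) ^ h / (h.factorial : ℝ)) *
      ((2 / (n : ℝ)) ^ (w - 1 + h) * ε ^ h))))) =
      w * n * (2 ^ (w - 1) * 3 ^ w * ((w : ℝ) ^ w / (w.factorial : ℝ))) *
        ((2 * w * ε / h) ^ h * ((h : ℝ) ^ h / (h.factorial : ℝ))) := by
    have e3 : (((w : ℝ) * n) ^ h) * (2 / (n : ℝ)) ^ h * ε ^ h =
        (2 * w * ε / h) ^ h * (h : ℝ) ^ h := by
      rw [← mul_pow, ← mul_pow, ← mul_pow]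
      congr 1
      field_simp
    calc _ = ((n : ℝ) ^ w * (2 / (n : ℝ)) ^ (w - 1 + h)) * (w * 3 ^ w *
          ((w : ℝ) ^ w / (w.factorial : ℝ))) * (((w : ℝ) * n) ^ h / (h.factorial : ℝ) * ε ^ h) := by
          ring
      _ = (n * 2 ^ (w - 1)) * (w * 3 ^ w * ((w : ℝ) ^ w / (w.factorial : ℝ))) *
          ((((w : ℝ) * n) ^ h) * (2 / (n : ℝ)) ^ h * ε ^ h / (h.factorial : ℝ)) := by
          rw [e1]; ring
      _ = _ := by rw [e3]; ring
  have step2 : 2 ^ (w - 1) * 3 ^ w * ((w : ℝ) ^ w / (w.factorial : ℝ)) ≤ Real.exp (3 * w) := by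
    have hexp2 : (6 : ℝ) ≤ Real.exp 2 := by
      have h1 := Real.exp_one_gt_d9
      have h2 : Real.exp 2 = Real.exp 1 * Real.exp 1 := by rw [← Real.exp_add]; norm_num
      rw [h2]
      nlinarith
    calc (2 : ℝ) ^ (w - 1) * 3 ^ w * ((w : ℝ) ^ w / (w.factorial : ℝ))
        ≤ 2 ^ w * 3 ^ w * Real.exp w := by
          gcongr
          · norm_num
          · omega
      _ = 6 ^ w * Real.exp w := by rw [← mul_pow]; norm_num
      _ ≤ (Real.exp 2) ^ w * Real.exp w := by gcongr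
      _ = Real.exp (3 * w) := by
          rw [← Real.exp_nat_mul, ← Real.exp_add]
          congr 1
          ring
  have step3 : (2 * w * ε / h) ^ h * ((h : ℝ) ^ h / (h.factorial : ℝ)) ≤
      Real.exp (-((5 / c + 3) * w)) := by
    have k1 : 2 * w * ε / h ≤ Real.exp (-1) * Real.exp (-((5 / c + 3) / θ)) := by
      have k2 : 2 * w * ε / h ≤ 2 * ε / θ := by
        rw [div_le_div_iff₀ hh0 hθ]
        nlinarith
      refine k2.trans ?_
      rw [div_le_iff₀ hθ]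
      have k3 : Real.exp (-1) = (Real.exp 1)⁻¹ := Real.exp_neg 1
      rw [k3]
      calc 2 * ε ≤ 2 * (θ / (2 * Real.exp 1) * Real.exp (-((5 / c + 3) / θ))) := by gcongr
        _ = _ := by field_simp
    calc (2 * w * ε / h) ^ h * ((h : ℝ) ^ h / (h.factorial : ℝ))
        ≤ (Real.exp (-1) * Real.exp (-((5 / c + 3) / θ))) ^ h * Real.exp h := by gcongr
      _ = Real.exp (-((5 / c + 3) / θ) * h) := by
          rw [← Real.exp_add, ← Real.exp_nat_mul, ← Real.exp_add]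
          congr 1
          ring
      _ ≤ Real.exp (-((5 / c + 3) * w)) := by
          rw [Real.exp_le_exp]
          have k4 : (5 / c + 3) / θ * (θ * w) ≤ (5 / c + 3) / θ * h :=
            mul_le_mul_of_nonneg_left hhle (by positivity)
          have k5 : (5 / c + 3) / θ * (θ * w) = (5 / c + 3) * w := by field_simp
          linarith
  calc _ ≤ _ := step1
    _ = _ := e2
    _ ≤ w * n * Real.exp (3 * w) * Real.exp (-((5 / c + 3) * w)) := by
        gcongr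
    _ = w * n * Real.exp (-(5 / c) * w) := by
        rw [mul_assoc ((w : ℝ) * n), ← Real.exp_add]
        congr 2
        ring

theorem lf_bound (c θ ε : ℝ) (hc : 0 < c) (hθ : 0 < θ) (hε : 0 < ε) (hε1 : ε ≤ 1)
    (hε0 : ε ≤ θ / (2 * Real.exp 1) * Real.exp (-((5 / c + 3) / θ))) (n : ℕ) (hn : 1 ≤ n) :
    Pr n ε (fun π ω => ¬ LFok c θ π ω) ≤ 1 / (n : ℝ) := by
  have hn0 : (0 : ℝ) < n := by exact_mod_cast hn
  have h1 : Pr n ε (fun π ω => ¬ LFok c θ π ω) ≤
      ∑ w ∈ (Icc 1 n).filter (fun w : ℕ => c * Real.log n ≤ (w : ℝ)),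
        Pr n ε (fun π ω => ∃ W ∈ powersetCard w (univ : Finset (Fin n)),
          lfEW ⌈θ * w⌉₊ W π ω) := by
    refine lf_union hε.le hε1 _ _ _ fun π ω h => ?_
    unfold LFok at h
    push Not at h
    obtain ⟨W, hW, hcon, hlt⟩ := h
    have hne : W.Nonempty := by
      obtain ⟨v⟩ := hcon.nonempty
      exact ⟨v.1, v.2⟩
    refine ⟨W.card, ?_, W, ?_, lf_encode θ π ω W hcon hlt⟩
    · rw [mem_filter, mem_Icc]
      refine ⟨⟨hne.card_pos, ?_⟩, hW⟩
      have := card_le_univ W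
      rwa [Fintype.card_fin] at this
    · rw [mem_powersetCard]
      exact ⟨subset_univ _, rfl⟩
  refine h1.trans ?_
  have h2 : ∀ w ∈ (Icc 1 n).filter (fun w : ℕ => c * Real.log n ≤ (w : ℝ)),
      Pr n ε (fun π ω => ∃ W ∈ powersetCard w (univ : Finset (Fin n)),
          lfEW ⌈θ * w⌉₊ W π ω) ≤ (n : ℝ) * n * ((n : ℝ) ^ 5)⁻¹ := by
    intro w hw
    rw [mem_filter, mem_Icc] at hw
    obtain ⟨⟨hw1, hwn⟩, hwc⟩ := hw
    have h3 := lf_union_card hε.le hε1 (powersetCard w (univ : Finset (Fin n)))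
      (fun W => lfEW ⌈θ * w⌉₊ W) _ fun W hW =>
        lfEW_bound hn hε.le hε1 ⌈θ * w⌉₊ w W (mem_powersetCard.1 hW).2
    rw [card_powersetCard, card_univ, Fintype.card_fin] at h3
    refine h3.trans ((lf_term c θ ε hc hθ hε hε0 n w hn hw1).trans ?_)
    have h4 : Real.exp (-(5 / c) * w) ≤ ((n : ℝ) ^ 5)⁻¹ := by
      have h5 : ((n : ℝ) ^ 5)⁻¹ = Real.exp (-(5 * Real.log n)) := by
        rw [Real.exp_neg]
        congr 1
        have := Real.exp_nat_mul (Real.log n) 5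
        push_cast at this
        rw [this, Real.exp_log hn0]
      rw [h5, Real.exp_le_exp]
      have h6 : 5 / c * (c * Real.log n) ≤ 5 / c * w :=
        mul_le_mul_of_nonneg_left hwc (by positivity)
      have h7 : 5 / c * (c * Real.log n) = 5 * Real.log n := by field_simp
      linarith
    have hwn' : (w : ℝ) ≤ n := by exact_mod_cast hwn
    gcongr
  refine (sum_le_sum h2).trans ?_
  rw [sum_const, nsmul_eq_mul]
  have h3 : (((Icc 1 n).filter (fun w : ℕ => c * Real.log n ≤ (w : ℝ))).card : ℝ) ≤ n := by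
    have := card_filter_le (Icc 1 n) (fun w : ℕ => c * Real.log n ≤ (w : ℝ))
    rw [Nat.card_Icc, Nat.add_sub_cancel] at this
    exact_mod_cast this
  calc _ ≤ (n : ℝ) * ((n : ℝ) * n * ((n : ℝ) ^ 5)⁻¹) := by gcongr
    _ = 1 / (n : ℝ) ^ 2 := by field_simp
    _ ≤ 1 / (n : ℝ) := by
        have : (1 : ℝ) ≤ n := by exact_mod_cast hn
        refine one_div_le_one_div_of_le hn0 ?_
        nlinarith

theorem lf (c θ : ℝ) (hc : 0 < c) (hθ : 0 < θ) : ∃ ε0 > 0, ∀ ε : ℝ, 0 < ε → ε ≤ ε0 →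
    Tendsto (fun n : ℕ => Pr n ε (fun π ω => ¬ LFok c θ π ω)) atTop (nhds 0) := by
  refine ⟨min 1 (θ / (2 * Real.exp 1) * Real.exp (-((5 / c + 3) / θ))), by positivity,
    fun ε hε hle => ?_⟩
  have hε1 : ε ≤ 1 := hle.trans (min_le_left _ _)
  have hε0 := hle.trans (min_le_right _ _)
  refine squeeze_zero' (Eventually.of_forall fun n => lf_nonneg hε.le hε1 _) ?_
    tendsto_one_div_atTop_nhds_zero_nat
  filter_upwards [eventually_ge_atTop 1] with n hn
  exact lf_bound c θ ε hc hθ hε hε1 hε0 n hn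

end

end Pool.Agent.ST3
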