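import Pool.Agent.Lib.MP_7abaca_co.Sub

/-!
# Expected number of dense sets
-/

set_option autoImplicit false

namespace Pool.Agent.ST3

open Finset Filter
open scoped Classical

noncomputable section

theorem lsc_union {n : ℕ} {ι : Type*} (S : Finset ι)
    (E : (Fin 3 → Fin n → Fin n) → Prop) (F : ι → (Fin 3 → Fin n → Fin n) → Prop)
    (h : ∀ π, E π → ∃ x ∈ S, F x π) : Pr3 n E ≤ ∑ x ∈ S, Pr3 n (F x) := by
  unfold Pr3
  rw [← Finset.sum_div]
  refine div_le_div_of_nonneg_right ?_ (by positivity)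
  have h1 : (RT3 n).filter E ⊆ S.biUnion fun x => (RT3 n).filter (F x) := by
    intro π hπ
    rw [Finset.mem_filter] at hπ
    obtain ⟨x, hx, hF⟩ := h π hπ.2
    exact Finset.mem_biUnion.2 ⟨x, hx, Finset.mem_filter.2 ⟨hπ.1, hF⟩⟩
  calc (((RT3 n).filter E).card : ℝ) ≤ ((S.biUnion fun x => (RT3 n).filter (F x)).card : ℝ) := by
        exact_mod_cast Finset.card_le_card h1
    _ ≤ ((∑ x ∈ S, ((RT3 n).filter (F x)).card : ℕ) : ℝ) := by
        exact_mod_cast Finset.card_biUnion_le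
    _ = ∑ x ∈ S, (((RT3 n).filter (F x)).card : ℝ) := by push_cast; rfl

/-- the labelled pairs inside `W` -/
def lscP {n : ℕ} (W : Finset (Fin n)) : Finset (Fin 3 × Sym2 (Fin n)) :=
  univ ×ˢ (W.offDiag.image Sym2.mk.uncurry)

theorem ls_W {n : ℕ} (hn : 1 ≤ n) (W : Finset (Fin n)) (m : ℕ) :
    Pr3 n (fun π => m ≤ estar π W) ≤
      ((3 * W.card.choose 2).choose m : ℝ) * (2 / (n : ℝ)) ^ m := by
  have hP : (lscP W).card = 3 * W.card.choose 2 := by
    unfold lscP
    rw [Finset.card_product, Finset.card_univ, Fintype.card_fin, Sym2.card_image_offDiag]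
  have hest : ∀ π : Fin 3 → Fin n → Fin n,
      ((lscP W).filter fun p => p.2 ∈ (gr (π p.1)).edgeSet).card = estar π W := by
    intro π
    unfold lscP estar ein
    rw [Finset.card_filter, Finset.sum_product]
    refine Finset.sum_congr rfl fun i _ => ?_
    rw [← Finset.card_filter]
    congr 1
    ext e
    simp only [Finset.mem_filter, Finset.mem_univ, true_and, Finset.mem_image]
    constructor
    · rintro ⟨⟨⟨a, b⟩, hab, rfl⟩, he⟩
      rw [Finset.mem_offDiag] at hab
      refine ⟨he, fun v hv => ?_⟩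
      simp only [Function.uncurry_apply_pair, Sym2.mem_iff] at hv
      rcases hv with rfl | rfl
      · exact hab.1
      · exact hab.2.1
    · rintro ⟨he, hW⟩
      induction e with
      | h a b =>
        refine ⟨⟨(a, b), ?_, rfl⟩, he⟩
        rw [Finset.mem_offDiag]
        refine ⟨hW a (Sym2.mem_mk_left a b), hW b (Sym2.mem_mk_right a b), ?_⟩
        exact ((SimpleGraph.mem_edgeSet _).1 he).ne
  have h1 := lsc_union ((lscP W).powersetCard m) (fun π => m ≤ estar π W)
    (fun L π => ∀ p ∈ L, p.2 ∈ (gr (π p.1)).edgeSet) fun π hπ => by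
      rw [← hest π] at hπ
      obtain ⟨L, hL, hLc⟩ := Finset.exists_subset_card_eq hπ
      refine ⟨L, Finset.mem_powersetCard.2 ⟨hL.trans (Finset.filter_subset _ _), hLc⟩,
        fun p hp => ?_⟩
      exact (Finset.mem_filter.1 (hL hp)).2
  refine h1.trans ?_
  calc ∑ L ∈ (lscP W).powersetCard m,
        Pr3 n (fun π => ∀ p ∈ L, p.2 ∈ (gr (π p.1)).edgeSet)
      ≤ ∑ L ∈ (lscP W).powersetCard m, (2 / (n : ℝ)) ^ m := by
        refine Finset.sum_le_sum fun L hL => ?_
        have := sub_three hn L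
        rwa [(Finset.mem_powersetCard.1 hL).2] at this
    _ = _ := by
        rw [Finset.sum_const, Finset.card_powersetCard, hP, nsmul_eq_mul]

theorem lsc_choose (N m : ℕ) (hm : 1 ≤ m) :
    (N.choose m : ℝ) ≤ (Real.exp 1 * N / m) ^ m := by
  have h1 : (N.choose m : ℝ) ≤ (N : ℝ) ^ m / (m.factorial : ℝ) := Nat.choose_le_pow_div m N
  have h2 : (m : ℝ) ^ m / (m.factorial : ℝ) ≤ Real.exp m :=
    Real.pow_div_factorial_le_exp m (by positivity) m
  have h3 : Real.exp (m : ℝ) = Real.exp 1 ^ m := by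
    rw [← Real.exp_nat_mul, mul_one]
  have hf : (0 : ℝ) < (m.factorial : ℝ) := by exact_mod_cast m.factorial_pos
  have hm' : (0 : ℝ) < m := by exact_mod_cast hm
  refine h1.trans ?_
  rw [div_pow, mul_pow, ← h3, div_le_div_iff₀ hf (by positivity)]
  rw [div_le_iff₀ hf] at h2
  calc (N : ℝ) ^ m * (m : ℝ) ^ m ≤ (N : ℝ) ^ m * (Real.exp m * m.factorial) := by gcongr
    _ = Real.exp m * (N : ℝ) ^ m * m.factorial := by ring

theorem ls_count {n : ℕ} (hn : 1 ≤ n) (w m : ℕ) (hw : 1 ≤ w) (hm : w ≤ m) :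
    Pr3 n (fun π => ∃ W : Finset (Fin n), W.card = w ∧ m ≤ estar π W) ≤
      23 ^ w * (9 * (w : ℝ) / n) ^ (m - w) := by
  have hn' : (0 : ℝ) < n := by exact_mod_cast hn
  have hw' : (0 : ℝ) < w := by exact_mod_cast hw
  have hm' : (0 : ℝ) < m := by exact_mod_cast (lt_of_lt_of_le hw hm)
  have h1 : Pr3 n (fun π => ∃ W : Finset (Fin n), W.card = w ∧ m ≤ estar π W) ≤
      ∑ W ∈ (univ : Finset (Fin n)).powersetCard w, Pr3 n (fun π => m ≤ estar π W) := by
    refine lsc_union _ _ (fun (W : Finset (Fin n)) π => m ≤ estar π W) fun π hπ => ?_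
    obtain ⟨W, hW, hE⟩ := hπ
    exact ⟨W, Finset.mem_powersetCard.2 ⟨Finset.subset_univ _, hW⟩, hE⟩
  refine h1.trans ?_
  have h2 : ∑ W ∈ (univ : Finset (Fin n)).powersetCard w, Pr3 n (fun π => m ≤ estar π W) ≤
      (n.choose w : ℝ) * (((3 * w.choose 2).choose m : ℝ) * (2 / (n : ℝ)) ^ m) := by
    calc ∑ W ∈ (univ : Finset (Fin n)).powersetCard w, Pr3 n (fun π => m ≤ estar π W)
        ≤ ∑ W ∈ (univ : Finset (Fin n)).powersetCard w,
            (((3 * w.choose 2).choose m : ℝ) * (2 / (n : ℝ)) ^ m) := by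
          refine Finset.sum_le_sum fun W hW => ?_
          have := ls_W hn W m
          rwa [(Finset.mem_powersetCard.1 hW).2] at this
      _ = _ := by
          rw [Finset.sum_const, Finset.card_powersetCard, nsmul_eq_mul, Finset.card_univ,
            Fintype.card_fin]
  refine h2.trans ?_
  have h3 : (n.choose w : ℝ) ≤ (Real.exp 1 * n / w) ^ w := lsc_choose n w hw
  have h4 : ((3 * w.choose 2).choose m : ℝ) ≤ (Real.exp 1 * (3 * w) / 2) ^ m := by
    refine (lsc_choose _ m (hw.trans hm)).trans ?_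
    have h5 : ((3 * w.choose 2 : ℕ) : ℝ) ≤ 3 * w * w / 2 := by
      have : (w.choose 2 : ℝ) ≤ w * w / 2 := by
        rw [Nat.cast_choose_two]
        nlinarith
      push_cast
      linarith
    have hmw : (w : ℝ) ≤ m := by exact_mod_cast hm
    refine pow_le_pow_left₀ (by positivity) ?_ m
    rw [div_le_div_iff₀ hm' (by norm_num)]
    calc Real.exp 1 * ((3 * w.choose 2 : ℕ) : ℝ) * 2 ≤ Real.exp 1 * (3 * w * w / 2) * 2 := by
          gcongr
      _ = Real.exp 1 * (3 * w) * w := by ring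
      _ ≤ Real.exp 1 * (3 * w) * m := by gcongr
  have he : Real.exp 1 < 2.7182818286 := Real.exp_one_lt_d9
  have he0 : 0 < Real.exp 1 := Real.exp_pos 1
  obtain ⟨k, rfl⟩ := Nat.exists_eq_add_of_le hm
  rw [Nat.add_sub_cancel_left]
  calc (n.choose w : ℝ) * (((3 * w.choose 2).choose (w + k) : ℝ) * (2 / (n : ℝ)) ^ (w + k))
      ≤ (Real.exp 1 * n / w) ^ w * ((Real.exp 1 * (3 * w) / 2) ^ (w + k) *
          (2 / (n : ℝ)) ^ (w + k)) := by gcongr
    _ = ((Real.exp 1 * n / w) * ((Real.exp 1 * (3 * w) / 2) * (2 / n))) ^ w *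
          ((Real.exp 1 * (3 * w) / 2) * (2 / n)) ^ k := by
        rw [mul_pow, mul_pow, mul_pow, pow_add, pow_add]
        ring
    _ ≤ 23 ^ w * (9 * (w : ℝ) / n) ^ k := by
        have e1 : (Real.exp 1 * n / w) * ((Real.exp 1 * (3 * w) / 2) * (2 / n)) =
            3 * Real.exp 1 ^ 2 := by field_simp
        have e2 : (Real.exp 1 * (3 * w) / 2) * (2 / n) = 3 * Real.exp 1 * w / n := by
          field_simp
        rw [e1, e2]
        have e3 : 3 * Real.exp 1 ^ 2 ≤ 23 := by nlinarith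
        have e4 : 3 * Real.exp 1 ≤ 9 := by linarith
        gcongr

end

end Pool.Agent.ST3
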