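import Pool.Agent.Lib.MP_7abaca_co.Prb
import Pool.Agent.Lib.MP_7abaca_co.LSC

/-!
Small scale sparsity.
-/

set_option autoImplicit false

namespace Pool.Agent.ST3

open Finset Filter
open scoped Classical

noncomputable section

theorem Pr3_exists {n : ℕ} {ι : Type} (s : Finset ι) (E : ι → (Fin 3 → Fin n → Fin n) → Prop) :
    Pr3 n (fun π => ∃ i ∈ s, E i π) ≤ ∑ i ∈ s, Pr3 n (E i) := by
  induction s using Finset.induction_on with
  | empty =>
    have : Pr3 n (fun π => ∃ i ∈ (∅ : Finset ι), E i π) ≤ 0 := by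
      unfold Pr3
      rw [Finset.card_filter]
      simp
    simpa using this
  | insert a s ha ih =>
    rw [Finset.sum_insert ha]
    refine le_trans (Pr3_mono n _ (fun π => E a π ∨ ∃ i ∈ s, E i π) ?_)
      ((Pr3_or n _ _).trans (add_le_add (le_refl _) ih))
    rintro π _ ⟨i, hi, h⟩
    rcases Finset.mem_insert.mp hi with rfl | hi
    · exact Or.inl h
    · exact Or.inr ⟨i, hi, h⟩

theorem estar_empty {n : ℕ} (π : Fin 3 → Fin n → Fin n) : estar π ∅ = 0 := by
  unfold estar ein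
  apply Finset.sum_eq_zero
  intro i _
  rw [Finset.card_eq_zero, Finset.filter_eq_empty_iff]
  rintro e _ ⟨_, h⟩
  induction e using Sym2.ind with
  | _ a b => exact absurd (h a (Sym2.mem_mk_left a b)) (Finset.notMem_empty a)

/-- the threshold `L = ⌊log n / 8⌋` -/
theorem pow_small {n w : ℕ} (hn : 1 ≤ n) (hw : (w : ℝ) ≤ 1 / 8 * Real.log n) :
    (23 : ℝ) ^ w ≤ Real.sqrt n := by
  have hn0 : (0 : ℝ) < n := by exact_mod_cast hn
  have h1 : (23 : ℝ) ≤ Real.exp 4 := by
    have h2 : (2.7182818283 : ℝ) < Real.exp 1 := Real.exp_one_gt_d9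
    have h3 : Real.exp 4 = Real.exp 1 ^ 4 := by
      rw [← Real.exp_nat_mul]; norm_num
    rw [h3]
    calc (23 : ℝ) ≤ (2.7182818283 : ℝ) ^ 4 := by norm_num
      _ ≤ Real.exp 1 ^ 4 := pow_le_pow_left₀ (by norm_num) h2.le 4
  calc (23 : ℝ) ^ w ≤ Real.exp 4 ^ w := pow_le_pow_left₀ (by norm_num) h1 w
    _ = Real.exp (w * 4) := by rw [← Real.exp_nat_mul]
    _ ≤ Real.exp (Real.log n / 2) := by
        apply Real.exp_le_exp.mpr
        linarith
    _ = Real.sqrt n := by
        rw [Real.sqrt_eq_rpow, Real.rpow_def_of_pos hn0]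
        congr 1; ring

theorem small_term {n w : ℕ} (hn : 1 ≤ n) (hw : (w : ℝ) ≤ 1 / 8 * Real.log n) :
    (23 : ℝ) ^ w * (9 * (w : ℝ) / n) ≤ 9 * Real.log n / Real.sqrt n := by
  have hn0 : (0 : ℝ) < n := by exact_mod_cast hn
  have hlog : 0 ≤ Real.log n := Real.log_nonneg (by exact_mod_cast hn)
  have hs : 0 < Real.sqrt n := Real.sqrt_pos.mpr hn0
  have h1 := pow_small hn hw
  have h2 : (w : ℝ) ≤ Real.log n := by linarith
  calc (23 : ℝ) ^ w * (9 * (w : ℝ) / n) ≤ Real.sqrt n * (9 * Real.log n / n) := by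
        gcongr
    _ = 9 * Real.log n / Real.sqrt n := by
        have h3 : (n : ℝ) = Real.sqrt n * Real.sqrt n := (Real.mul_self_sqrt hn0.le).symm
        rw [eq_div_iff hs.ne']
        calc Real.sqrt n * (9 * Real.log n / n) * Real.sqrt n
            = (Real.sqrt n * Real.sqrt n) * (9 * Real.log n) / n := by ring
          _ = 9 * Real.log n := by
            rw [← h3]; field_simp

theorem small_sum {n : ℕ} (hn : 1 ≤ n) :
    ∑ w ∈ Icc 1 ⌊1 / 8 * Real.log n⌋₊, (23 : ℝ) ^ w * (9 * (w : ℝ) / n) ≤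
      9 * Real.log n ^ 2 / Real.sqrt n := by
  have hlog : 0 ≤ Real.log n := Real.log_nonneg (by exact_mod_cast hn)
  have hfl : (⌊1 / 8 * Real.log n⌋₊ : ℝ) ≤ 1 / 8 * Real.log n :=
    Nat.floor_le (by positivity)
  have h1 : ∑ w ∈ Icc 1 ⌊1 / 8 * Real.log n⌋₊, (23 : ℝ) ^ w * (9 * (w : ℝ) / n) ≤
      ∑ w ∈ Icc 1 ⌊1 / 8 * Real.log n⌋₊, 9 * Real.log n / Real.sqrt n := by
    apply Finset.sum_le_sum
    intro w hw
    apply small_term hn
    rw [Finset.mem_Icc] at hw
    have : (w : ℝ) ≤ ⌊1 / 8 * Real.log n⌋₊ := by exact_mod_cast hw.2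
    linarith
  refine h1.trans ?_
  rw [Finset.sum_const, Nat.card_Icc, nsmul_eq_mul]
  have h2 : ((⌊1 / 8 * Real.log n⌋₊ + 1 - 1 : ℕ) : ℝ) ≤ Real.log n := by
    rw [Nat.add_sub_cancel]
    linarith
  calc ((⌊1 / 8 * Real.log n⌋₊ + 1 - 1 : ℕ) : ℝ) * (9 * Real.log n / Real.sqrt n)
      ≤ Real.log n * (9 * Real.log n / Real.sqrt n) := by
        apply mul_le_mul_of_nonneg_right h2 (by positivity)
    _ = 9 * Real.log n ^ 2 / Real.sqrt n := by ring

theorem small_tendsto :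
    Tendsto (fun n : ℕ => 9 * Real.log n ^ 2 / Real.sqrt n) atTop (nhds 0) := by
  have h1 : Tendsto (fun x : ℝ => Real.log x ^ 2 / x ^ (1 / 2 : ℝ)) atTop (nhds 0) := by
    have := (isLittleO_log_rpow_atTop (show (0 : ℝ) < 1 / 4 by norm_num)).pow
      (show 0 < 2 by norm_num)
    have h2 := this.tendsto_div_nhds_zero
    refine h2.congr' ?_
    filter_upwards [eventually_gt_atTop (0 : ℝ)] with x hx
    rw [← Real.rpow_natCast (x ^ (1 / 4 : ℝ)) 2, ← Real.rpow_mul hx.le]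
    norm_num
  have h3 := (h1.comp tendsto_natCast_atTop_atTop).const_mul 9
  rw [mul_zero] at h3
  refine h3.congr' ?_
  filter_upwards with n
  simp only [Function.comp]
  rw [Real.sqrt_eq_rpow]
  ring

theorem ls1 : Tendsto (fun n : ℕ => Pr3 n (fun π => ¬ LS1 (1 / 8) π)) atTop (nhds 0) := by
  refine squeeze_zero' (Eventually.of_forall fun n => Pr3_nonneg n _) ?_ small_tendsto
  filter_upwards [eventually_ge_atTop 1] with n hn
  have hlog : 0 ≤ Real.log n := Real.log_nonneg (by exact_mod_cast hn)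
  refine le_trans (Pr3_mono n _ (fun π => ∃ w ∈ Icc 1 ⌊1 / 8 * Real.log n⌋₊,
    ∃ W : Finset (Fin n), W.card = w ∧ w + 1 ≤ estar π W) ?_)
    ((Pr3_exists _ _).trans ((Finset.sum_le_sum ?_).trans (small_sum hn)))
  · intro π _ h
    unfold LS1 at h
    push Not at h
    obtain ⟨W, hW, hW2⟩ := h
    refine ⟨W.card, ?_, W, rfl, hW2⟩
    rw [Finset.mem_Icc]
    constructor
    · rw [Nat.one_le_iff_ne_zero]
      intro h0
      rw [Finset.card_eq_zero] at h0
      subst h0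
      rw [estar_empty] at hW2
      simp at hW2
    · exact Nat.le_floor hW
  · intro w hw
    rw [Finset.mem_Icc] at hw
    have h1 := ls_count hn w (w + 1) hw.1 (Nat.le_succ w)
    have h2 : w + 1 - w = 1 := by omega
    rw [h2, pow_one] at h1
    exact h1

end

end Pool.Agent.ST3
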