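import Pool.Agent.Lib.MP_7abaca_co.LS1

/-!
Linear scale sparsity.
-/

set_option autoImplicit false

namespace Pool.Agent.ST3

open Finset Filter
open scoped Classical

noncomputable section

theorem geom_tail (a b : ℕ) : ∑ w ∈ Ioc a b, (1 / 2 : ℝ) ^ w ≤ (1 / 2 : ℝ) ^ a := by
  rcases le_total b a with h | h
  · rw [Finset.Ioc_eq_empty (by omega)]
    simp only [Finset.sum_empty]
    positivity
  · induction b, h using Nat.le_induction with
    | base => simp
    | succ b hab ih =>
      have h2 : ∀ b, a ≤ b → ∑ w ∈ Ioc a b, (1 / 2 : ℝ) ^ w = (1 / 2 : ℝ) ^ a - (1 / 2 : ℝ) ^ b := by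
        intro b hb
        induction b, hb using Nat.le_induction with
        | base => simp
        | succ b hab ih =>
          rw [← Finset.insert_Ioc_right_eq_Ioc_add_one (by omega), Finset.sum_insert (by simp), ih]
          rw [pow_succ]; ring
      rw [h2 (b + 1) (by omega)]
      have : (0 : ℝ) < (1 / 2 : ℝ) ^ (b + 1) := by positivity
      linarith

theorem ls2 (θ : ℝ) (hθ : 0 < θ) : ∃ δ > 0, ∀ δ' : ℝ, δ' ≤ δ →
    Tendsto (fun n : ℕ => Pr3 n (fun π => ¬ LS2 δ' θ π)) atTop (nhds 0) := by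
  have hx0 : 0 < min ((1 / 46 : ℝ) ^ (1 / θ)) (1 / 2) := by
    apply lt_min
    · apply Real.rpow_pos_of_pos; norm_num
    · norm_num
  set x0 : ℝ := min ((1 / 46 : ℝ) ^ (1 / θ)) (1 / 2) with hx0def
  have hx0a : x0 ^ θ ≤ 1 / 46 := by
    have h1 : x0 ≤ (1 / 46 : ℝ) ^ (1 / θ) := min_le_left _ _
    calc x0 ^ θ ≤ ((1 / 46 : ℝ) ^ (1 / θ)) ^ θ := Real.rpow_le_rpow hx0.le h1 hθ.le
      _ = 1 / 46 := by
        rw [← Real.rpow_mul (by norm_num), one_div_mul_cancel hθ.ne', Real.rpow_one]
  have hx0b : x0 ≤ 1 := (min_le_right _ _).trans (by norm_num)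
  refine ⟨x0 / 9, by positivity, ?_⟩
  intro δ' hδ'
  -- the second part tends to zero
  have hlim2 : Tendsto (fun n : ℕ => (1 / 2 : ℝ) ^ ⌊1 / 8 * Real.log n⌋₊) atTop (nhds 0) := by
    apply (tendsto_pow_atTop_nhds_zero_of_lt_one (by norm_num) (by norm_num)).comp
    apply tendsto_nat_floor_atTop.comp
    apply Tendsto.const_mul_atTop (by norm_num)
    exact Real.tendsto_log_atTop.comp tendsto_natCast_atTop_atTop
  have hlim := small_tendsto.add hlim2
  rw [add_zero] at hlim
  refine squeeze_zero' (Eventually.of_forall fun n => Pr3_nonneg n _) ?_ hlim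
  filter_upwards [eventually_ge_atTop 1] with n hn
  have hn0 : (0 : ℝ) < n := by exact_mod_cast hn
  set L : ℕ := ⌊1 / 8 * Real.log n⌋₊ with hL
  have hsmall := small_sum hn
  rw [← hL] at hsmall
  refine le_trans (Pr3_mono n _ (fun π => (∃ w ∈ Icc 1 L,
      ∃ W : Finset (Fin n), W.card = w ∧ w + 1 ≤ estar π W) ∨
      (∃ w ∈ Ioc L n, (w : ℝ) ≤ x0 / 9 * n ∧
        ∃ W : Finset (Fin n), W.card = w ∧ ⌊(1 + θ) * w⌋₊ + 1 ≤ estar π W)) ?_)
    ((Pr3_or n _ _).trans (add_le_add ?_ ?_))
  · intro π _ h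
    unfold LS2 at h
    push Not at h
    obtain ⟨W, hW, hW2⟩ := h
    have hm : ⌊(1 + θ) * (W.card : ℝ)⌋₊ + 1 ≤ estar π W :=
      (Nat.floor_lt (by positivity)).mpr hW2
    have hw1 : 1 ≤ W.card := by
      rw [Nat.one_le_iff_ne_zero]
      intro h0
      rw [Finset.card_eq_zero] at h0
      subst h0
      rw [estar_empty] at hW2
      simp at hW2
    by_cases hwL : W.card ≤ L
    · left
      refine ⟨W.card, Finset.mem_Icc.mpr ⟨hw1, hwL⟩, W, rfl, ?_⟩
      refine le_trans ?_ hm
      have : W.card ≤ ⌊(1 + θ) * (W.card : ℝ)⌋₊ := by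
        apply Nat.le_floor
        have : (0 : ℝ) ≤ θ * W.card := by positivity
        linarith
      omega
    · right
      refine ⟨W.card, Finset.mem_Ioc.mpr ⟨by omega, ?_⟩, ?_, W, rfl, hm⟩
      · have := Finset.card_le_univ W
        rwa [Fintype.card_fin] at this
      · refine hW.trans ?_
        apply mul_le_mul_of_nonneg_right hδ' hn0.le
  · refine (Pr3_exists _ _).trans ((Finset.sum_le_sum ?_).trans hsmall)
    intro w hw
    rw [Finset.mem_Icc] at hw
    have h1 := ls_count hn w (w + 1) hw.1 (Nat.le_succ w)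
    have h2 : w + 1 - w = 1 := by omega
    rw [h2, pow_one] at h1
    exact h1
  · refine (Pr3_exists _ _).trans ((Finset.sum_le_sum ?_).trans (geom_tail L n))
    intro w hw
    rw [Finset.mem_Ioc] at hw
    by_cases hwx : (w : ℝ) ≤ x0 / 9 * n
    · have hw0 : (0 : ℝ) < w := by
        have : 0 < w := by omega
        exact_mod_cast this
      set m : ℕ := ⌊(1 + θ) * (w : ℝ)⌋₊ + 1 with hm
      have hmw : (1 + θ) * (w : ℝ) < m := by
        rw [hm]; push_cast; exact Nat.lt_floor_add_one _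
      have hwm : w ≤ m := by
        have : (w : ℝ) ≤ m := by
          have : (0 : ℝ) ≤ θ * w := by positivity
          linarith
        exact_mod_cast this
      have h1 := ls_count hn w m (by omega) hwm
      refine le_trans (Pr3_mono n _ (fun π => ∃ W : Finset (Fin n), W.card = w ∧
        m ≤ estar π W) ?_) (h1.trans ?_)
      · rintro π _ ⟨_, W, hW1, hW2⟩
        exact ⟨W, hW1, hW2⟩
      · have hy0 : 0 < 9 * (w : ℝ) / n := by positivity
        have hy1 : 9 * (w : ℝ) / n ≤ x0 := by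
          rw [div_le_iff₀ hn0]
          linarith
        have h3 : (9 * (w : ℝ) / n) ^ (m - w) ≤ (1 / 46 : ℝ) ^ w := by
          calc (9 * (w : ℝ) / n) ^ (m - w) ≤ x0 ^ (m - w) :=
                pow_le_pow_left₀ hy0.le hy1 _
            _ = x0 ^ ((m - w : ℕ) : ℝ) := (Real.rpow_natCast _ _).symm
            _ ≤ x0 ^ (θ * w) := by
                apply Real.rpow_le_rpow_of_exponent_ge hx0 hx0b
                rw [Nat.cast_sub hwm]
                linarith
            _ = (x0 ^ θ) ^ w := by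
                rw [Real.rpow_mul hx0.le, Real.rpow_natCast]
            _ ≤ (1 / 46 : ℝ) ^ w :=
                pow_le_pow_left₀ (Real.rpow_nonneg hx0.le _) hx0a w
        calc (23 : ℝ) ^ w * (9 * (w : ℝ) / n) ^ (m - w) ≤ 23 ^ w * (1 / 46 : ℝ) ^ w :=
              mul_le_mul_of_nonneg_left h3 (by positivity)
          _ = (1 / 2 : ℝ) ^ w := by
              rw [← mul_pow]; norm_num
    · have h0 : Pr3 n (fun π => (w : ℝ) ≤ x0 / 9 * n ∧
          ∃ W : Finset (Fin n), W.card = w ∧ ⌊(1 + θ) * (w : ℝ)⌋₊ + 1 ≤ estar π W) ≤ 0 := by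
        unfold Pr3
        rw [Finset.card_filter]
        simp [hwx]
      refine h0.trans (by positivity)

end

end Pool.Agent.ST3
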