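import Pool.Agent.Lib.MP_7abaca_co.RCount

/-!
# Small components and flagged edges (module LAM)
-/

set_option autoImplicit false

namespace Pool.Agent.ST3

open Finset Filter
open scoped Classical

noncomputable section

namespace Lam

theorem card_RT3 {n : ℕ} (hn : 1 ≤ n) : ((RT3 n).card : ℝ) = ((n : ℝ) ^ (n - 1)) ^ 3 := by
  have h : RT3 n = Fintype.piFinset (fun _ : Fin 3 => RT n) := by
    ext π
    simp [RT3]
  rw [h, Fintype.card_piFinset_const, card_RT hn]
  push_cast
  rfl

theorem wt_nonneg {n : ℕ} (ε : ℝ) (hε0 : 0 ≤ ε) (hε1 : ε ≤ 1) (ω : Sym2 (Fin n) → Bool) :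
    0 ≤ wt ε ω := by
  unfold wt
  apply Finset.prod_nonneg
  intro e _
  split_ifs
  · exact hε0
  · linarith

/-- Markov-free reduction to a fixed triple of trees -/
theorem Pr_le {n : ℕ} (hn : 1 ≤ n) (ε B : ℝ)
    (E : (Fin 3 → Fin n → Fin n) → (Sym2 (Fin n) → Bool) → Prop)
    (h : ∀ π ∈ RT3 n, ∑ ω : Sym2 (Fin n) → Bool, (if E π ω then wt ε ω else 0) ≤ B) :
    Pr n ε E ≤ B := by
  unfold Pr
  have hn' : (0 : ℝ) < n := by exact_mod_cast hn
  rw [div_le_iff₀ (by positivity)]
  refine (Finset.sum_le_card_nsmul _ _ B h).trans ?_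
  rw [nsmul_eq_mul, card_RT3 hn, mul_comm]

/-- one prescribed coordinate -/
theorem sum_one {n : ℕ} (ε : ℝ) (e : Sym2 (Fin n)) :
    ∑ ω : Sym2 (Fin n) → Bool, (if ω e = true then wt ε ω else 0) = ε := by
  have h1 : ∀ ω : Sym2 (Fin n) → Bool, (if ω e = true then wt ε ω else 0) =
      ∏ e' : Sym2 (Fin n), (if ω e' = true then ε else (if e' = e then 0 else 1 - ε)) := by
    intro ω
    split_ifs with h
    · unfold wt
      refine Finset.prod_congr rfl fun e' _ => ?_
      by_cases h2 : ω e' = true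
      · simp [h2]
      · have : e' ≠ e := fun h3 => h2 (h3 ▸ h)
        simp [h2, this]
    · symm
      apply Finset.prod_eq_zero (mem_univ e)
      simp [h]
  rw [Finset.sum_congr rfl fun ω _ => h1 ω]
  have h2 := Fintype.prod_sum (fun (e' : Sym2 (Fin n)) (b : Bool) =>
    (if b = true then ε else (if e' = e then 0 else 1 - ε)))
  rw [← h2]
  rw [Finset.prod_eq_single e]
  · simp
  · intro e' _ he'
    simp [he']
  · simp

/-- Markov inequality for the marking -/
theorem markov {n : ℕ} (ε : ℝ) (hε0 : 0 ≤ ε) (hε1 : ε ≤ 1) (X : (Sym2 (Fin n) → Bool) → ℕ)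
    (t C : ℝ) (ht : 0 < t) (h : ∑ ω, (X ω : ℝ) * wt ε ω ≤ C) :
    ∑ ω : Sym2 (Fin n) → Bool, (if t < (X ω : ℝ) then wt ε ω else 0) ≤ C / t := by
  rw [le_div_iff₀ ht]
  refine le_trans ?_ h
  rw [Finset.sum_mul]
  apply Finset.sum_le_sum
  intro ω _
  have hw := wt_nonneg ε hε0 hε1 ω
  split_ifs with h1
  · rw [mul_comm]
    exact mul_le_mul_of_nonneg_right h1.le hw
  · rw [zero_mul]
    positivity

theorem expect_count {n : ℕ} (ε : ℝ) {ι : Type} (s : Finset ι)
    (P : ι → (Sym2 (Fin n) → Bool) → Prop) (p : ℝ)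
    (h : ∀ i ∈ s, ∑ ω : Sym2 (Fin n) → Bool, (if P i ω then wt ε ω else 0) ≤ p) :
    ∑ ω, ((s.filter (fun i => P i ω)).card : ℝ) * wt ε ω ≤ s.card * p := by
  have h1 : ∀ ω : Sym2 (Fin n) → Bool, ((s.filter (fun i => P i ω)).card : ℝ) * wt ε ω =
      ∑ i ∈ s, (if P i ω then wt ε ω else 0) := by
    intro ω
    rw [Finset.card_filter]
    push_cast
    rw [Finset.sum_mul]
    refine Finset.sum_congr rfl fun i _ => ?_
    split_ifs <;> simp
  rw [Finset.sum_congr rfl fun ω _ => h1 ω, Finset.sum_comm]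
  refine (Finset.sum_le_card_nsmul _ _ p h).trans ?_
  rw [nsmul_eq_mul]

theorem gr_adj {n : ℕ} (π : Fin n → Fin n) (a b : Fin n) :
    (gr π).Adj a b ↔ a ≠ b ∧ (π a = b ∨ π b = a) := by
  unfold gr
  rw [SimpleGraph.fromRel_adj]

theorem gr_reach {n : ℕ} (π : Fin n → Fin n) (v : Fin n) (k : ℕ) :
    (gr π).Reachable v (π^[k] v) := by
  induction k with
  | zero => exact SimpleGraph.Reachable.refl _
  | succ k ih =>
    rw [Function.iterate_succ_apply']
    by_cases h : π (π^[k] v) = π^[k] v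
    · rw [h]; exact ih
    · refine ih.trans (SimpleGraph.Adj.reachable ?_)
      rw [gr_adj]
      exact ⟨fun h2 => h h2.symm, Or.inl rfl⟩

theorem gr_conn {n : ℕ} (π : Fin n → Fin n) (h : π ∈ RT n) (u v : Fin n) :
    (gr π).Reachable u v := by
  simp only [RT, mem_filter, mem_univ, true_and] at h
  obtain ⟨r, hr⟩ := h
  obtain ⟨k, hk⟩ := hr.2 u
  obtain ⟨l, hl⟩ := hr.2 v
  have h1 := gr_reach π u k
  have h2 := gr_reach π v l
  rw [hk] at h1
  rw [hl] at h2
  exact h1.trans h2.symm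

theorem exists_boundary {n : ℕ} (G : SimpleGraph (Fin n)) (hG : ∀ u v, G.Reachable u v)
    (S : Set (Fin n)) (u v : Fin n) (hu : u ∈ S) (hv : v ∉ S) :
    ∃ x ∈ S, ∃ y, y ∉ S ∧ G.Adj x y := by
  obtain ⟨p⟩ := hG u v
  obtain ⟨d, _, hd1, hd2⟩ := p.exists_boundary_dart S hu hv
  exact ⟨d.fst, hd1, d.snd, hd2, d.adj⟩

/-- two edges which protect a vertex -/
theorem two_edges {n : ℕ} (hn : 3 ≤ n) (T : SimpleGraph (Fin n)) (hG : ∀ u v, T.Reachable u v)
    (v : Fin n) : ∃ e1 e2 : Sym2 (Fin n), ∀ ω : Sym2 (Fin n) → Bool, ω e1 = false →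
      ω e2 = false → v ∉ lam (keep T ω) := by
  obtain ⟨x0, hx0⟩ : ∃ x0 : Fin n, x0 ≠ v := by
    have : Nontrivial (Fin n) := Fin.nontrivial_iff_two_le.mpr (by omega)
    exact exists_ne v
  obtain ⟨x, hx, w, hw, hxw⟩ := exists_boundary T hG {v} v x0 (Set.mem_singleton v) hx0
  rw [Set.mem_singleton_iff] at hx hw
  subst hx
  obtain ⟨u0, hu0⟩ : ∃ u0 : Fin n, u0 ∉ ({x, w} : Finset (Fin n)) := by
    by_contra h
    push Not at h
    have h1 : (univ : Finset (Fin n)) ⊆ {x, w} := fun a _ => h a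
    have h2 := Finset.card_le_card h1
    have h3 := Finset.card_le_two (a := x) (b := w)
    simp at h2
    omega
  obtain ⟨y, hy, u, hu, hyu⟩ := exists_boundary T hG (({x, w} : Finset (Fin n)) : Set (Fin n)) x u0
    (by simp) (by exact_mod_cast hu0)
  refine ⟨s(x, w), s(y, u), ?_⟩
  intro ω h1 h2 h3
  simp only [lam, mem_filter, mem_univ, true_and] at h3
  have hk1 : (keep T ω).Adj x w := ⟨hxw, h1⟩
  have hk2 : (keep T ω).Adj y u := ⟨hyu, h2⟩
  have hy' : y = x ∨ y = w := by simpa using hy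
  have hu' : u ≠ x ∧ u ≠ w := by
    have : ¬ (u = x ∨ u = w) := by simpa using hu
    tauto
  have hr : (keep T ω).Reachable x u := by
    rcases hy' with h | h
    · rw [← h]; exact hk2.reachable
    · rw [h] at hk2; exact hk1.reachable.trans hk2.reachable
  have hsub : (({x, w, u} : Finset (Fin n)) : Set (Fin n)) ⊆
      ((keep T ω).connectedComponentMk x).supp := by
    intro a ha
    rw [SimpleGraph.ConnectedComponent.mem_supp_iff, SimpleGraph.ConnectedComponent.eq]
    have ha' : a = x ∨ a = w ∨ a = u := by simpa using ha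
    rcases ha' with h | h | h
    · rw [h]
    · rw [h]; exact hk1.reachable.symm
    · rw [h]; exact hr.symm
  have hc := Set.ncard_le_ncard hsub (Set.toFinite _)
  rw [Set.ncard_coe_finset, Finset.card_eq_three.mpr ⟨x, w, u, hxw.ne, hu'.1.symm, hu'.2.symm, rfl⟩]
    at hc
  omega

end Lam

theorem lam_small (ε δ : ℝ) (hε0 : 0 ≤ ε) (hε1 : ε ≤ 1) (hδ : 0 < δ) (n : ℕ) (hn : 3 ≤ n) :
    Pr n ε (fun π ω => δ * n < ((lam (keep (gr (π 2)) ω)).card : ℝ)) ≤ 2 * ε / δ := by
  have hn' : (0 : ℝ) < n := by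
    have : 0 < n := by omega
    exact_mod_cast this
  apply Lam.Pr_le (by omega)
  intro π hπ
  have hG : ∀ u v, (gr (π 2)).Reachable u v := by
    simp only [RT3, mem_filter, mem_univ, true_and] at hπ
    exact Lam.gr_conn (π 2) (hπ 2)
  have h1 := Lam.markov (n := n) ε hε0 hε1 (fun ω => (lam (keep (gr (π 2)) ω)).card) (δ * n)
    (n * (2 * ε)) (by positivity) ?_
  · refine h1.trans (le_of_eq ?_)
    field_simp
  · have h2 := Lam.expect_count (n := n) ε (univ : Finset (Fin n))
      (fun v ω => v ∈ lam (keep (gr (π 2)) ω)) (2 * ε) ?_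
    · simp only [Finset.filter_mem_eq_inter, Finset.univ_inter, Finset.card_univ,
        Fintype.card_fin] at h2
      exact h2
    · intro v _
      obtain ⟨e1, e2, he⟩ := Lam.two_edges hn (gr (π 2)) hG v
      have h3 : ∀ ω : Sym2 (Fin n) → Bool, (if v ∈ lam (keep (gr (π 2)) ω) then wt ε ω else 0) ≤
          (if ω e1 = true then wt ε ω else 0) + (if ω e2 = true then wt ε ω else 0) := by
        intro ω
        have hw := Lam.wt_nonneg ε hε0 hε1 ω
        by_cases h4 : ω e1 = true
        · by_cases h5 : ω e2 = true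
          · simp only [h4, h5, if_true]
            split_ifs <;> linarith
          · simp only [h4, h5, if_true]
            split_ifs <;> linarith
        · by_cases h5 : ω e2 = true
          · simp only [h4, h5, if_true]
            split_ifs <;> linarith
          · have h6 := he ω (by simpa using h4) (by simpa using h5)
            simp [h6, h4, h5]
      have h7 : ∑ ω : Sym2 (Fin n) → Bool,
          (if v ∈ lam (keep (gr (π 2)) ω) then wt ε ω else 0) ≤ 2 * ε := by
        refine (Finset.sum_le_sum fun ω _ => h3 ω).trans ?_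
        rw [Finset.sum_add_distrib, Lam.sum_one, Lam.sum_one]
        linarith
      convert h7

theorem nflag_small (ε δ : ℝ) (hε0 : 0 ≤ ε) (hε1 : ε ≤ 1) (hδ : 0 < δ) (n : ℕ) (hn : 1 ≤ n) :
    Pr n ε (fun π ω => δ * n < (nflag π ω : ℝ)) ≤ ε / δ := by
  have hn' : (0 : ℝ) < n := by exact_mod_cast hn
  apply Lam.Pr_le hn
  intro π hπ
  have h1 := Lam.markov (n := n) ε hε0 hε1 (fun ω => nflag π ω) (δ * n)
    (n * ε) (by positivity) ?_
  · refine h1.trans (le_of_eq ?_)
    field_simp
  · have h2 := Lam.expect_count (n := n) ε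
      (univ.filter (fun e : Sym2 (Fin n) => e ∈ (gr (π 2)).edgeSet))
      (fun e ω => ω e = true) ε (fun e _ => le_of_eq (by convert Lam.sum_one ε e))
    have h3 : (univ.filter (fun e : Sym2 (Fin n) => e ∈ (gr (π 2)).edgeSet)).card ≤ n := by
      have h4 : univ.filter (fun e : Sym2 (Fin n) => e ∈ (gr (π 2)).edgeSet) ⊆
          (univ : Finset (Fin n)).image (fun v => s(v, π 2 v)) := by
        intro e he
        simp only [mem_filter, mem_univ, true_and] at he
        induction e using Sym2.ind with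
        | _ a b =>
          rw [SimpleGraph.mem_edgeSet, Lam.gr_adj] at he
          rw [mem_image]
          rcases he.2 with h5 | h5
          · exact ⟨a, mem_univ _, by rw [h5]⟩
          · exact ⟨b, mem_univ _, by rw [h5, Sym2.eq_swap]⟩
      refine (Finset.card_le_card h4).trans (Finset.card_image_le.trans ?_)
      simp
    have h4 : ((univ.filter (fun e : Sym2 (Fin n) => e ∈ (gr (π 2)).edgeSet)).card : ℝ) ≤ n := by
      exact_mod_cast h3
    refine le_trans (le_of_eq ?_) (h2.trans (mul_le_mul_of_nonneg_right h4 hε0))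
    refine Finset.sum_congr rfl fun ω _ => ?_
    congr 2
    unfold nflag
    apply congrArg
    ext e
    simp

end

end Pool.Agent.ST3
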