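import Pool.Agent.Lib.MP_7abaca_co.Defs
import Pool.Agent.Lib.MP_7abaca_co.GenF

set_option autoImplicit false

/-!
# Exponential moment bound for one pair (module LTSA)
-/

namespace Pool.Agent.ST3

open Finset Filter
open scoped Classical

noncomputable section

namespace LtsA

theorem split {P V : Type} [Fintype P] [DecidableEq P] [Fintype V] (q : P → Prop)
    [DecidablePred q]
    (F : ({x // q x} → V) → ℝ) (h : P → V → ℝ) :
    ∑ g : P → V, F (fun x => g x.1) * ∏ x ∈ univ.filter (fun x => ¬ q x), h x (g x) =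
      (∑ g1, F g1) * ∏ x ∈ univ.filter (fun x => ¬ q x), ∑ v, h x v := by
  rw [← Equiv.sum_comp (Equiv.piEquivPiSubtypeProd q (fun _ => V)).symm, Fintype.sum_prod_type]
  have e2 : ∏ x ∈ univ.filter (fun x => ¬ q x), ∑ v, h x v =
      ∑ g2 : {x // ¬ q x} → V, ∏ x : {x // ¬ q x}, h x.1 (g2 x) := by
    rw [Finset.prod_subtype (p := fun x => ¬ q x) _ (fun x => by simp)]
    rw [Finset.prod_univ_sum, Fintype.piFinset_univ]
  rw [e2, Finset.sum_mul_sum]
  refine Finset.sum_congr rfl fun g1 _ => Finset.sum_congr rfl fun g2 _ => ?_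
  congr 1
  · congr 1
    funext x
    simp [Equiv.piEquivPiSubtypeProd, x.2]
  · rw [Finset.prod_subtype (p := fun x => ¬ q x) _ (fun x => by simp)]
    refine Finset.prod_congr rfl fun x _ => ?_
    simp [Equiv.piEquivPiSubtypeProd, x.2]

theorem genf' {Q : Type} [Fintype Q] [DecidableEq Q] {n m : ℕ} (hm : Fintype.card Q = m) (ψ : Fin n → ℕ → ℝ)
    (hψ : ∀ v c, 0 ≤ ψ v c) (X : ℝ) (hX : 0 < X)
    (Z : Fin n → ℝ) (hZ : ∀ v, ∀ M : ℕ, ∑ c ∈ range M, ψ v c * X ^ c / (c.factorial : ℝ) ≤ Z v) :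
    ∑ g : Q → Fin n, ∏ v, ψ v (univ.filter (fun p => g p = v)).card ≤
      (m.factorial : ℝ) * (1 / X) ^ m * ∏ v, Z v := by
  refine le_trans (le_of_eq ?_) (genf (m := m) ψ hψ X hX Z hZ)
  have e : Q ≃ Fin m := Fintype.equivFinOfCardEq hm
  rw [← Equiv.sum_comp (e.symm.arrowCongr (Equiv.refl (Fin n)))]
  refine Finset.sum_congr rfl fun g _ => Finset.prod_congr rfl fun v _ => ?_
  congr 1
  refine Finset.card_bij (fun a _ => e a) ?_ ?_ ?_
  · intro a ha
    simp only [Finset.mem_filter, Finset.mem_univ, true_and] at ha ⊢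
    simpa [Equiv.arrowCongr] using ha
  · intro a _ b _ hab
    exact e.injective hab
  · intro b hb
    simp only [Finset.mem_filter, Finset.mem_univ, true_and] at hb
    refine ⟨e.symm b, ?_, by simp⟩
    simp only [Finset.mem_filter, Finset.mem_univ, true_and]
    simpa [Equiv.arrowCongr] using hb

theorem prod_if {α : Type} (s : Finset α) (p : α → Prop) [DecidablePred p] (a : ℝ) :
    ∏ x ∈ s, (if p x then a else 1) = a ^ (s.filter p).card := by
  rw [Finset.prod_ite, Finset.prod_const, Finset.prod_const_one, mul_one]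

theorem card_pick {n : ℕ} (T : Finset (Fin n)) :
    (univ.filter (fun p : Fin 3 × Fin n => p.2 ∈ T)).card = 3 * T.card := by
  have : univ.filter (fun p : Fin 3 × Fin n => p.2 ∈ T) = (univ : Finset (Fin 3)) ×ˢ T := by
    ext p
    simp
  rw [this, Finset.card_product, Finset.card_univ, Fintype.card_fin]

/-- the sum of the occupancy numbers over a set of targets -/
theorem sum_occ {n : ℕ} (S T : Finset (Fin n)) (f : Fin 3 → Fin n → Fin n) :
    ∑ v ∈ T, (univ.filter (fun p : Fin 3 × Fin n => p.2 ∈ S ∧ f p.1 p.2 = v)).card =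
      (univ.filter (fun p : Fin 3 × Fin n => p.2 ∈ S ∧ f p.1 p.2 ∈ T)).card := by
  rw [Finset.card_eq_sum_card_fiberwise (f := fun p : Fin 3 × Fin n => f p.1 p.2) (t := T)]
  · refine Finset.sum_congr rfl fun v hv => ?_
    congr 1
    ext p
    simp only [Finset.mem_filter, Finset.mem_univ, true_and]
    constructor
    · rintro ⟨h1, h2⟩
      exact ⟨⟨h1, h2 ▸ hv⟩, h2⟩
    · rintro ⟨⟨h1, _⟩, h2⟩
      exact ⟨h1, h2⟩
  · intro p hp
    simp only [Finset.coe_filter, Finset.mem_univ, true_and, Set.mem_ofPred_eq] at hp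
    exact hp.2

/-! ### numerical bounds -/

def cA : ℝ := (10 : ℝ) ^ (1 / 100 : ℝ)

def cB : ℝ := (40 : ℝ) ^ (-(999 / 1000) : ℝ)

def cZ : ℝ := 1 / 1000 + 1 / 20 + 40 * (Real.exp (1 / 20) - 1 - 1 / 20)

theorem cA_pos : 0 < cA := by
  unfold cA
  positivity

theorem cB_pos : 0 < cB := by
  unfold cB
  positivity

theorem rpow_le_of_pow {a x : ℝ} (ha : 0 ≤ a) (hx : 0 ≤ x) {k : ℕ} (hk : 0 < k)
    (h : a ≤ x ^ k) : a ^ (1 / (k : ℝ)) ≤ x := by
  have h1 := Real.rpow_le_rpow ha h (z := 1 / (k : ℝ)) (by positivity)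
  rw [one_div] at h1 ⊢
  rwa [Real.pow_rpow_inv_natCast hx hk.ne'] at h1

theorem pow_thousand {a b x : ℝ} (hb : 0 ≤ b) (h1 : b ≤ x ^ 100) (h2 : a ≤ b ^ 10) :
    a ≤ x ^ 1000 := by
  have e : x ^ 1000 = (x ^ 100) ^ 10 := by rw [← pow_mul]
  rw [e]
  exact h2.trans (pow_le_pow_left₀ hb h1 10)

theorem cA_le : cA ≤ 1024 / 1000 := by
  have h := rpow_le_of_pow (a := 10) (x := 1024 / 1000) (by norm_num) (by norm_num) (k := 100)
    (by norm_num) (by norm_num)
  unfold cA
  exact_mod_cast h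

theorem cB_le : cB ≤ 251 / 10000 := by
  have h := rpow_le_of_pow (a := 40) (x := 1004 / 1000) (by norm_num) (by norm_num) (k := 1000)
    (by norm_num) (pow_thousand (b := 149 / 100) (by norm_num) (by norm_num) (by norm_num))
  have h' : (40 : ℝ) ^ (1 / 1000 : ℝ) ≤ 1004 / 1000 := by exact_mod_cast h
  have e : cB = (40 : ℝ)⁻¹ * (40 : ℝ) ^ (1 / 1000 : ℝ) := by
    unfold cB
    rw [← Real.rpow_neg_one, ← Real.rpow_add (by norm_num)]
    norm_num
  rw [e]
  calc (40 : ℝ)⁻¹ * (40 : ℝ) ^ (1 / 1000 : ℝ) ≤ (40 : ℝ)⁻¹ * (1004 / 1000) := by gcongr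
    _ ≤ 251 / 10000 := by norm_num

theorem exp_twentieth : Real.exp (1 / 20) ≤ 1051272 / 1000000 := by
  have h := Real.exp_bound' (x := 1 / 20) (by norm_num) (by norm_num) (n := 4) (by norm_num)
  refine h.trans ?_
  norm_num [Finset.sum_range_succ, Nat.factorial]

theorem cZ_pos : 0 < cZ := by
  have h := Real.add_one_le_exp (1 / 20 : ℝ)
  unfold cZ
  have : 0 ≤ Real.exp (1 / 20) - 1 - 1 / 20 := by linarith
  positivity

theorem cZ_le : cZ ≤ 10189 / 100000 := by
  have h := exp_twentieth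
  unfold cZ
  linarith

theorem cZ_pow : cZ ^ (1999 / 1000 : ℝ) ≤ 10410 / 1000000 := by
  have hx : (10189 / 100000 : ℝ) ^ (1999 / 1000 : ℝ) ≤ 10410 / 1000000 := by
    have e : (10189 / 100000 : ℝ) ^ (1999 / 1000 : ℝ) =
        (10189 / 100000 : ℝ) ^ (2 : ℕ) * (100000 / 10189 : ℝ) ^ (1 / 1000 : ℝ) := by
      have e1 : (100000 / 10189 : ℝ) = (10189 / 100000 : ℝ)⁻¹ := by norm_num
      rw [e1, Real.inv_rpow (by norm_num), ← Real.rpow_neg (by norm_num), ← Real.rpow_natCast,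
        ← Real.rpow_add (by norm_num)]
      norm_num
    have h := rpow_le_of_pow (a := 100000 / 10189) (x := 10024 / 10000) (by norm_num)
      (by norm_num) (k := 1000) (by norm_num)
      (pow_thousand (b := 127 / 100) (by norm_num) (by norm_num) (by norm_num))
    have h' : (100000 / 10189 : ℝ) ^ (1 / 1000 : ℝ) ≤ 10024 / 10000 := by exact_mod_cast h
    rw [e]
    calc (10189 / 100000 : ℝ) ^ (2 : ℕ) * (100000 / 10189 : ℝ) ^ (1 / 1000 : ℝ) ≤
        (10189 / 100000 : ℝ) ^ (2 : ℕ) * (10024 / 10000) := by gcongr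
      _ ≤ 10410 / 1000000 := by norm_num
  exact (Real.rpow_le_rpow cZ_pos.le cZ_le (by norm_num)).trans hx

theorem exp_hundredth : Real.exp (1 / 100) ≤ 10102 / 10000 := by
  have h := Real.exp_bound' (x := 1 / 100) (by norm_num) (by norm_num) (n := 2) (by norm_num)
  refine h.trans ?_
  norm_num [Finset.sum_range_succ, Nat.factorial]

theorem exp_three : Real.exp (-(296109 / 100000)) ≤ 519 / 10000 := by
  have h1 : (193 / 10 : ℝ) ≤ Real.exp (296109 / 100000) := by
    have e : (296109 / 100000 : ℝ) = (3 : ℕ) * 1 + (-(3891 / 100000)) := by norm_num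
    rw [e, Real.exp_add, Real.exp_nat_mul]
    have h2 := Real.exp_one_gt_d9
    have h3 := Real.add_one_le_exp (-(3891 / 100000) : ℝ)
    have h4 : (2.7182818283 : ℝ) ^ 3 ≤ Real.exp 1 ^ 3 := by gcongr
    calc (193 / 10 : ℝ) ≤ 2.7182818283 ^ 3 * (-(3891 / 100000) + 1) := by norm_num
      _ ≤ Real.exp 1 ^ 3 * Real.exp (-(3891 / 100000)) := by
        apply mul_le_mul h4 h3 (by norm_num) (by positivity)
  rw [Real.exp_neg]
  have h5 : (Real.exp (296109 / 100000))⁻¹ ≤ (193 / 10 : ℝ)⁻¹ := inv_anti₀ (by norm_num) h1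
  exact h5.trans (by norm_num)

theorem numeric : cA * cB * 8000 * Real.exp (1 / 100) * cZ ^ (1999 / 1000 : ℝ) *
    (1001 / 1000) ^ 6 * Real.exp (-(296109 / 100000)) ≤ 13 / 100 := by
  have hA := cA_pos.le
  have hB := cB_pos.le
  have hZ : 0 ≤ cZ ^ (1999 / 1000 : ℝ) := Real.rpow_nonneg cZ_pos.le _
  calc cA * cB * 8000 * Real.exp (1 / 100) * cZ ^ (1999 / 1000 : ℝ) *
      (1001 / 1000) ^ 6 * Real.exp (-(296109 / 100000)) ≤
      (1024 / 1000) * (251 / 10000) * 8000 * (10102 / 10000) * (10410 / 1000000) *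
      (1001 / 1000) ^ 6 * (519 / 10000) := by
        gcongr
        · exact cA_le
        · exact cB_le
        · exact exp_hundredth
        · exact cZ_pow
        · exact exp_three
    _ ≤ 13 / 100 := by norm_num

/-! ### the weights -/

/-- occupancy of the target `v` by the own picks -/
def occ {n : ℕ} (S : Finset (Fin n)) (f : Fin 3 → Fin n → Fin n) (v : Fin n) : ℕ :=
  (univ.filter (fun p : Fin 3 × Fin n => p.2 ∈ S ∧ f p.1 p.2 = v)).card

/-- weight of a target -/
def psi {n : ℕ} (S N : Finset (Fin n)) (r : ℝ) (v : Fin n) (c : ℕ) : ℝ :=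
  (if v ∈ S ∪ N then r ^ c else 1) * (if v ∈ S then (1 / 10 : ℝ) ^ c else 1) *
    (if v ∈ (S ∪ N)ᶜ then (1 / 10 : ℝ) ^ c else 1) *
    (if v ∈ N then (if c = 0 then 1 / 1000 else 1) else 1) *
    (if v ∈ N then (if 2 ≤ c then 40 else 1) else 1)

/-- weight of a pick outside `S` -/
def hw {n : ℕ} (S N : Finset (Fin n)) (r : ℝ) (p : Fin 3 × Fin n) (v : Fin n) : ℝ :=
  if v ∈ S then (if p.2 ∈ N then r / 1000 else 1 / 100) else 1

theorem psi_nonneg {n : ℕ} (S N : Finset (Fin n)) {r : ℝ} (hr : 0 ≤ r) (v : Fin n) (c : ℕ) :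
    0 ≤ psi S N r v c := by
  unfold psi
  split_ifs <;> positivity

theorem prod_pow_mem {n : ℕ} (T : Finset (Fin n)) (a : ℝ) (c : Fin n → ℕ) :
    ∏ v, (if v ∈ T then a ^ c v else 1) = a ^ (∑ v ∈ T, c v) := by
  rw [Finset.prod_ite_mem, Finset.univ_inter, Finset.prod_pow_eq_pow_sum]

theorem prod_psi {n : ℕ} (S N : Finset (Fin n)) (r : ℝ) (f : Fin 3 → Fin n → Fin n) :
    ∏ v, psi S N r v (occ S f v) =
      r ^ (univ.filter (fun p : Fin 3 × Fin n => p.2 ∈ S ∧ f p.1 p.2 ∈ S ∪ N)).card *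
      (1 / 10) ^ (univ.filter (fun p : Fin 3 × Fin n => p.2 ∈ S ∧ f p.1 p.2 ∈ S)).card *
      (1 / 10) ^ (univ.filter (fun p : Fin 3 × Fin n => p.2 ∈ S ∧ f p.1 p.2 ∈ (S ∪ N)ᶜ)).card *
      (1 / 1000) ^ (N.filter (fun v => occ S f v = 0)).card *
      40 ^ (N.filter (fun v => 2 ≤ occ S f v)).card := by
  unfold psi
  rw [Finset.prod_mul_distrib, Finset.prod_mul_distrib, Finset.prod_mul_distrib,
    Finset.prod_mul_distrib, prod_pow_mem, prod_pow_mem, prod_pow_mem, Finset.prod_ite_mem,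
    Finset.prod_ite_mem, Finset.univ_inter, prod_if, prod_if]
  unfold occ
  rw [sum_occ, sum_occ, sum_occ]

theorem prod_hw {n : ℕ} (S N : Finset (Fin n)) (r : ℝ) (f : Fin 3 → Fin n → Fin n)
    (hd : Disjoint S N) :
    ∏ p ∈ univ.filter (fun p : Fin 3 × Fin n => ¬ p.2 ∈ S), hw S N r p (f p.1 p.2) =
      (r / 1000) ^ (univ.filter (fun p : Fin 3 × Fin n => p.2 ∈ N ∧ f p.1 p.2 ∈ S)).card *
      (1 / 100) ^ (univ.filter (fun p : Fin 3 × Fin n =>
        p.2 ∉ S ∧ p.2 ∉ N ∧ f p.1 p.2 ∈ S)).card := by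
  have e : ∀ p : Fin 3 × Fin n, hw S N r p (f p.1 p.2) =
      (if p.2 ∈ N ∧ f p.1 p.2 ∈ S then r / 1000 else 1) *
      (if p.2 ∉ N ∧ f p.1 p.2 ∈ S then 1 / 100 else 1) := by
    intro p
    unfold hw
    by_cases h1 : f p.1 p.2 ∈ S <;> by_cases h2 : p.2 ∈ N <;> simp [h1, h2]
  rw [Finset.prod_congr rfl fun p _ => e p, Finset.prod_mul_distrib, prod_if, prod_if,
    Finset.filter_filter, Finset.filter_filter]
  congr 3
  ext p
  simp only [Finset.mem_filter, Finset.mem_univ, true_and]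
  constructor
  · rintro ⟨_, h⟩
    exact h
  · rintro ⟨h1, h2⟩
    exact ⟨fun h3 => (Finset.disjoint_left.1 hd h3) h1, h1, h2⟩

theorem occ_zero {n : ℕ} (S : Finset (Fin n)) (f : Fin 3 → Fin n → Fin n) (v : Fin n) :
    occ S f v = 0 ↔ ∀ i, ∀ y ∈ S, f i y ≠ v := by
  unfold occ
  rw [Finset.card_eq_zero, Finset.filter_eq_empty_iff]
  constructor
  · intro h i y hy h2
    exact h (Finset.mem_univ (i, y)) ⟨hy, h2⟩
  · rintro h ⟨i, y⟩ _ ⟨h1, h2⟩
    exact h i y h1 h2

/-- a natural power of a number at least one, bounded through a real exponent -/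
theorem pow_le_rpow_pow {a : ℝ} (ha : 1 ≤ a) {k s : ℕ} {θ : ℝ} (h : (k : ℝ) ≤ θ * s) :
    a ^ k ≤ (a ^ θ) ^ s := by
  rw [← Real.rpow_natCast (a ^ θ) s, ← Real.rpow_mul (by linarith), ← Real.rpow_natCast]
  exact Real.rpow_le_rpow_of_exponent_le ha h

/-- the pointwise bound -/
theorem pointwise {n s : ℕ} (hs : 1 ≤ s) (hsn : s ≤ n) (S N : Finset (Fin n)) (hS : S.card = s)
    (f : Fin 3 → Fin n → Fin n) (h : AA (1 / 1000) f S N) {r : ℝ} (hr : r = (n : ℝ) / s) :
    1 ≤ (1 / r) ^ (s + N.card) * cA ^ s * cB ^ s * ((∏ v, psi S N r v (occ S f v)) *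
      ∏ p ∈ univ.filter (fun p : Fin 3 × Fin n => ¬ p.2 ∈ S), hw S N r p (f p.1 p.2)) := by
  have hs0 : (0 : ℝ) < s := by exact_mod_cast hs
  have hr1 : 1 ≤ r := by
    rw [hr, le_div_iff₀ hs0, one_mul]
    exact_mod_cast hsn
  have hr0 : 0 < r := by linarith
  rw [prod_psi, prod_hw S N r f h.disj]
  set J := (univ.filter (fun p : Fin 3 × Fin n => p.2 ∈ S ∧ f p.1 p.2 ∈ S ∪ N)).card with hJ
  set I := (univ.filter (fun p : Fin 3 × Fin n => p.2 ∈ S ∧ f p.1 p.2 ∈ S)).card with hI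
  set O := (univ.filter (fun p : Fin 3 × Fin n => p.2 ∈ S ∧ f p.1 p.2 ∈ (S ∪ N)ᶜ)).card with hO
  set Zr := (N.filter (fun v => occ S f v = 0)).card with hZr
  set D := (N.filter (fun v => 2 ≤ occ S f v)).card with hD
  set qN := (univ.filter (fun p : Fin 3 × Fin n => p.2 ∈ N ∧ f p.1 p.2 ∈ S)).card with hqN
  set qO := (univ.filter (fun p : Fin 3 × Fin n =>
        p.2 ∉ S ∧ p.2 ∉ N ∧ f p.1 p.2 ∈ S)).card with hqO
  have eO : O = (univ.filter (fun p : Fin 3 × Fin n =>
      p.2 ∈ S ∧ f p.1 p.2 ∉ S ∧ f p.1 p.2 ∉ N)).card := by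
    rw [hO]
    congr 1
    ext p
    simp only [Finset.mem_filter, Finset.mem_univ, true_and, Finset.mem_compl, Finset.mem_union,
      not_or]
  have hJO : J + O = 3 * s := by
    rw [← hS, ← card_pick S, hJ, hO, ← Finset.card_union_of_disjoint]
    · congr 1
      ext p
      simp only [Finset.mem_union, Finset.mem_filter, Finset.mem_univ, true_and,
        Finset.mem_compl]
      tauto
    · rw [Finset.disjoint_left]
      intro p hp hp'
      simp only [Finset.mem_filter, Finset.mem_univ, true_and, Finset.mem_compl] at hp hp'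
      exact hp'.2 hp.2
  have hpow : s + N.card ≤ J + qN := by
    have := h.pow
    rw [← eO, ← hqN, hS] at this
    omega
  have bO : (O : ℝ) ≤ 1 / 1000 * s := by
    have := h.out
    rwa [← eO, hS] at this
  have bI : (I : ℝ) ≤ 1 / 1000 * s := by
    have := h.inS
    rwa [← hI, hS] at this
  have eZ : Zr = (N.filter (fun v => ∀ i, ∀ y ∈ S, f i y ≠ v)).card := by
    rw [hZr]
    congr 1
    ext v
    simp only [Finset.mem_filter, occ_zero]
  have bZ : (Zr : ℝ) ≤ 1 / 1000 * s := by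
    have := h.zero
    rwa [← eZ, hS] at this
  have bD : (1 - 1 / 1000) * (s : ℝ) ≤ D := by
    have := h.dbl
    rw [hS] at this
    exact this
  have bqN : (qN : ℝ) ≤ 1 / 1000 * s := by
    have := h.qN
    rwa [← hqN, hS] at this
  have bqO : (qO : ℝ) ≤ 1 / 1000 * s := by
    have := h.qO
    rwa [← hqO, hS] at this
  -- the powers of ten
  have t1 : (10 : ℝ) ^ (I + O + 3 * Zr + 3 * qN + 2 * qO) ≤ cA ^ s := by
    unfold cA
    refine pow_le_rpow_pow (by norm_num) ?_
    push_cast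
    linarith
  have t2 : 1 ≤ cB ^ s * (40 : ℝ) ^ D := by
    have h1 : cB ^ s = (40 : ℝ) ^ (-(999 / 1000) * (s : ℝ)) := by
      unfold cB
      rw [← Real.rpow_natCast, ← Real.rpow_mul (by norm_num)]
    rw [h1, ← Real.rpow_natCast, ← Real.rpow_add (by norm_num)]
    refine Real.one_le_rpow (by norm_num) ?_
    linarith
  have t3 : 1 ≤ (1 / r) ^ (s + N.card) * (r ^ J * r ^ qN) := by
    rw [← pow_add, one_div, inv_pow, inv_mul_eq_div, one_le_div (by positivity)]
    exact pow_le_pow_right₀ hr1 hpow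
  have t4 : 1 ≤ cA ^ s * ((1 / 10) ^ I * (1 / 10) ^ O * (1 / 1000) ^ Zr * (1 / 1000) ^ qN *
      (1 / 100) ^ qO) := by
    have e : ((1 / 10 : ℝ) ^ I * (1 / 10) ^ O * (1 / 1000) ^ Zr * (1 / 1000) ^ qN *
      (1 / 100) ^ qO) = ((10 : ℝ) ^ (I + O + 3 * Zr + 3 * qN + 2 * qO))⁻¹ := by
      rw [← inv_pow, pow_add, pow_add, pow_add, pow_add, pow_mul, pow_mul, pow_mul]
      norm_num
    rw [e, ← div_eq_mul_inv, one_le_div (by positivity)]
    exact t1
  calc (1 : ℝ) = 1 * 1 * 1 := by norm_num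
    _ ≤ ((1 / r) ^ (s + N.card) * (r ^ J * r ^ qN)) * (cA ^ s * ((1 / 10) ^ I * (1 / 10) ^ O *
        (1 / 1000) ^ Zr * (1 / 1000) ^ qN * (1 / 100) ^ qO)) * (cB ^ s * (40 : ℝ) ^ D) := by
        gcongr
    _ = _ := by
      rw [div_pow r 1000 qN, one_div_pow (1000 : ℝ) qN]
      ring

theorem occ_curry {n : ℕ} (S : Finset (Fin n)) (g : Fin 3 × Fin n → Fin n) (v : Fin n) :
    occ S (fun i y => g (i, y)) v =
      (univ.filter (fun x : {p : Fin 3 × Fin n // p.2 ∈ S} => g x.1 = v)).card := by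
  unfold occ
  rw [← Finset.card_map (Function.Embedding.subtype (fun p : Fin 3 × Fin n => p.2 ∈ S))]
  congr 1
  ext p
  simp only [Finset.mem_filter, Finset.mem_univ, true_and, Finset.mem_map,
    Function.Embedding.coe_subtype, Subtype.exists, exists_and_left, exists_prop]
  constructor
  · rintro ⟨h1, h2⟩
    exact ⟨p, h2, h1, rfl⟩
  · rintro ⟨q, h1, h2, rfl⟩
    exact ⟨h2, h1⟩

theorem sum_factor {n s : ℕ} (S N : Finset (Fin n)) (hS : S.card = s) {r : ℝ} (hr : 0 ≤ r)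
    (X : ℝ) (hX : 0 < X) (Z : Fin n → ℝ)
    (hZ : ∀ v, ∀ M : ℕ, ∑ c ∈ range M, psi S N r v c * X ^ c / (c.factorial : ℝ) ≤ Z v) :
    ∑ f : Fin 3 → Fin n → Fin n, (∏ v, psi S N r v (occ S f v)) *
      ∏ p ∈ univ.filter (fun p : Fin 3 × Fin n => ¬ p.2 ∈ S), hw S N r p (f p.1 p.2) ≤
    (((3 * s).factorial : ℝ) * (1 / X) ^ (3 * s) * ∏ v, Z v) *
      ∏ p ∈ univ.filter (fun p : Fin 3 × Fin n => ¬ p.2 ∈ S), ∑ v, hw S N r p v := by
  rw [← Equiv.sum_comp (Equiv.curry (Fin 3) (Fin n) (Fin n))]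
  have h1 := split (V := Fin n) (fun p : Fin 3 × Fin n => p.2 ∈ S)
    (fun g1 => ∏ v, psi S N r v (univ.filter (fun x => g1 x = v)).card) (hw S N r)
  have h2 : ∑ g : Fin 3 × Fin n → Fin n,
      (∏ v, psi S N r v (occ S (Equiv.curry (Fin 3) (Fin n) (Fin n) g) v)) *
      ∏ p ∈ univ.filter (fun p : Fin 3 × Fin n => ¬ p.2 ∈ S),
        hw S N r p (Equiv.curry (Fin 3) (Fin n) (Fin n) g p.1 p.2) =
      ∑ g : Fin 3 × Fin n → Fin n,
      (∏ v, psi S N r v (univ.filter (fun x : {p : Fin 3 × Fin n // p.2 ∈ S} =>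
        g x.1 = v)).card) *
      ∏ x ∈ univ.filter (fun x : Fin 3 × Fin n => ¬ x.2 ∈ S), hw S N r x (g x) := by
    refine Finset.sum_congr rfl fun g _ => ?_
    congr 1
    refine Finset.prod_congr rfl fun v _ => ?_
    congr 1
    exact occ_curry S g v
  refine le_trans (le_of_eq (h2.trans h1)) ?_
  refine mul_le_mul_of_nonneg_right ?_ ?_
  · refine genf' (Q := {p : Fin 3 × Fin n // p.2 ∈ S}) ?_ (psi S N r) (psi_nonneg S N hr) X hX
      Z hZ
    rw [Fintype.card_subtype, card_pick, hS]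
  · refine Finset.prod_nonneg fun p _ => Finset.sum_nonneg fun v _ => ?_
    unfold hw
    split_ifs <;> positivity

/-- the bound for the generating function of a target -/
def zz {n : ℕ} (S N : Finset (Fin n)) (X : ℝ) (v : Fin n) : ℝ :=
  (if v ∈ S then Real.exp (1 / 200) else 1) * (if v ∈ N then cZ else 1) *
    (if v ∈ (S ∪ N)ᶜ then Real.exp (X / 10) else 1)

theorem sum_wc (M : ℕ) : ∑ c ∈ range M, ((if c = 0 then 1 / 1000 else 1) *
    (if 2 ≤ c then 40 else 1) : ℝ) * (1 / 20) ^ c / (c.factorial : ℝ) ≤ cZ := by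
  have h1 : ∑ c ∈ range M, ((if c = 0 then 1 / 1000 else 1) *
      (if 2 ≤ c then 40 else 1) : ℝ) * (1 / 20) ^ c / (c.factorial : ℝ) ≤
      ∑ c ∈ range (M + 2), ((if c = 0 then 1 / 1000 else 1) *
      (if 2 ≤ c then 40 else 1) : ℝ) * (1 / 20) ^ c / (c.factorial : ℝ) := by
    refine Finset.sum_le_sum_of_subset_of_nonneg ?_ ?_
    · intro c hc
      rw [Finset.mem_range] at hc ⊢
      omega
    · intro c _ _
      split_ifs <;> positivity
  refine h1.trans ?_
  rw [Finset.sum_range_succ', Finset.sum_range_succ']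
  have h2 := Real.sum_le_exp_of_nonneg (x := 1 / 20) (by norm_num) (M + 2)
  rw [Finset.sum_range_succ', Finset.sum_range_succ'] at h2
  have h3 : ∑ k ∈ range M, ((if k + 1 + 1 = 0 then 1 / 1000 else 1) *
      (if 2 ≤ k + 1 + 1 then 40 else 1) : ℝ) * (1 / 20) ^ (k + 1 + 1) /
        ((k + 1 + 1).factorial : ℝ) =
      40 * ∑ k ∈ range M, (1 / 20 : ℝ) ^ (k + 1 + 1) / ((k + 1 + 1).factorial : ℝ) := by
    rw [Finset.mul_sum]
    refine Finset.sum_congr rfl fun k _ => ?_
    rw [if_neg (by omega), if_pos (by omega)]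
    ring
  rw [h3]
  norm_num at h2 ⊢
  unfold cZ
  linarith

theorem psi_sum {n : ℕ} (S N : Finset (Fin n)) (hd : Disjoint S N) {r X : ℝ}
    (hX : 0 ≤ X) (hrX : r * X = 1 / 20) (v : Fin n) (M : ℕ) :
    ∑ c ∈ range M, psi S N r v c * X ^ c / (c.factorial : ℝ) ≤ zz S N X v := by
  unfold psi zz
  by_cases h1 : v ∈ S
  · have h2 : v ∉ N := Finset.disjoint_left.1 hd h1
    simp only [h1, h2, Finset.mem_union, Finset.mem_compl, if_true, if_false,
      not_true_eq_false, mul_one, or_false]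
    have h3 := Real.sum_le_exp_of_nonneg (x := 1 / 200) (by norm_num) M
    refine le_trans (le_of_eq (Finset.sum_congr rfl fun c _ => ?_)) h3
    rw [← mul_pow, ← mul_pow]
    congr 2
    rw [mul_right_comm, hrX]
    norm_num
  · by_cases h2 : v ∈ N
    · simp only [h1, h2, Finset.mem_union, Finset.mem_compl, or_true, if_true, if_false,
        not_true_eq_false, mul_one, one_mul]
      refine le_trans (le_of_eq (Finset.sum_congr rfl fun c _ => ?_)) (sum_wc M)
      have e : (1 / 20 : ℝ) ^ c = r ^ c * X ^ c := by rw [← mul_pow, hrX]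
      rw [e]
      ring
    · simp only [h1, h2, Finset.mem_union, Finset.mem_compl, or_self, if_true, if_false,
        not_false_eq_true, mul_one, one_mul]
      have h3 := Real.sum_le_exp_of_nonneg (x := X / 10) (by positivity) M
      refine le_trans (le_of_eq (Finset.sum_congr rfl fun c _ => ?_)) h3
      rw [← mul_pow]
      congr 2
      ring

theorem prod_zz {n : ℕ} (S N : Finset (Fin n)) (X : ℝ) :
    ∏ v, zz S N X v = Real.exp (1 / 200) ^ S.card * cZ ^ N.card *
      Real.exp (X / 10) ^ ((S ∪ N)ᶜ).card := by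
  unfold zz
  rw [Finset.prod_mul_distrib, Finset.prod_mul_distrib, Finset.prod_ite_mem, Finset.prod_ite_mem,
    Finset.prod_ite_mem, Finset.univ_inter, Finset.univ_inter, Finset.univ_inter,
    Finset.prod_const, Finset.prod_const, Finset.prod_const]

theorem sum_hw {n : ℕ} (S N : Finset (Fin n)) (r : ℝ) (p : Fin 3 × Fin n) :
    ∑ v, hw S N r p v = ((n : ℝ) - S.card) +
      S.card * (if p.2 ∈ N then r / 1000 else 1 / 100) := by
  unfold hw
  rw [Finset.sum_ite, Finset.sum_const, Finset.sum_const, nsmul_eq_mul, nsmul_eq_mul, mul_one]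
  have h1 : (univ.filter (fun v : Fin n => v ∈ S)).card = S.card := by
    congr 1
    ext v
    simp
  have h2 : (univ.filter (fun v : Fin n => v ∉ S)).card + S.card = n := by
    have := Finset.card_filter_add_card_filter_not (s := (univ : Finset (Fin n)))
      (p := fun v => v ∈ S)
    rw [h1, Finset.card_univ, Fintype.card_fin] at this
    omega
  have h3 : ((univ.filter (fun v : Fin n => v ∉ S)).card : ℝ) = (n : ℝ) - S.card := by
    have : ((univ.filter (fun v : Fin n => v ∉ S)).card : ℝ) + S.card = n := by exact_mod_cast h2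
    linarith
  rw [h1, h3]
  ring

theorem prod_sum_hw {n s : ℕ} (hs : 1 ≤ s) (hsn : s ≤ n) (S N : Finset (Fin n))
    (hS : S.card = s) (hd : Disjoint S N) {r : ℝ} (hr : r = (n : ℝ) / s) :
    ∏ p ∈ univ.filter (fun p : Fin 3 × Fin n => ¬ p.2 ∈ S), ∑ v, hw S N r p v ≤
      (n : ℝ) ^ (3 * (n - s)) * (1001 / 1000) ^ (3 * N.card) *
        Real.exp (-(99 / 100 / r)) ^ (3 * ((S ∪ N)ᶜ).card) := by
  have hs0 : (0 : ℝ) < s := by exact_mod_cast hs
  have hn0 : (0 : ℝ) < n := by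
    have : 0 < n := by omega
    exact_mod_cast this
  have hsn' : (s : ℝ) ≤ n := by exact_mod_cast hsn
  have h1 : ∀ p ∈ univ.filter (fun p : Fin 3 × Fin n => ¬ p.2 ∈ S), ∑ v, hw S N r p v ≤
      (n : ℝ) * (if p.2 ∈ N then 1001 / 1000 else Real.exp (-(99 / 100 / r))) := by
    intro p _
    rw [sum_hw, hS]
    split_ifs with h
    · rw [hr]
      have : (s : ℝ) * (n / s / 1000) = n / 1000 := by field_simp
      rw [this]
      linarith
    · have h2 := Real.add_one_le_exp (-(99 / 100 / r))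
      have h3 : (n : ℝ) * (-(99 / 100 / r) + 1) = n - s + s * (1 / 100) := by
        rw [hr]
        field_simp
        ring
      rw [← h3]
      gcongr
  refine (Finset.prod_le_prod (fun p _ => ?_) h1).trans (le_of_eq ?_)
  · rw [sum_hw, hS, hr]
    have : (0 : ℝ) ≤ n - s := by linarith
    split_ifs <;> positivity
  · rw [Finset.prod_mul_distrib, Finset.prod_const, Finset.prod_ite, Finset.prod_const,
      Finset.prod_const, Finset.filter_filter, Finset.filter_filter]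
    have c1 : (univ.filter (fun p : Fin 3 × Fin n => ¬ p.2 ∈ S)).card = 3 * (n - s) := by
      have e : univ.filter (fun p : Fin 3 × Fin n => ¬ p.2 ∈ S) =
          univ.filter (fun p : Fin 3 × Fin n => p.2 ∈ Sᶜ) := by
        ext p
        simp
      rw [e, card_pick, Finset.card_compl, Fintype.card_fin, hS]
    have c2 : (univ.filter (fun p : Fin 3 × Fin n => ¬ p.2 ∈ S ∧ p.2 ∈ N)).card =
        3 * N.card := by
      rw [← card_pick N]
      congr 1
      ext p
      simp only [Finset.mem_filter, Finset.mem_univ, true_and]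
      exact ⟨fun h => h.2, fun h => ⟨fun h' => (Finset.disjoint_left.1 hd h') h, h⟩⟩
    have c3 : (univ.filter (fun p : Fin 3 × Fin n => ¬ p.2 ∈ S ∧ ¬ p.2 ∈ N)).card =
        3 * ((S ∪ N)ᶜ).card := by
      rw [← card_pick]
      congr 1
      ext p
      simp only [Finset.mem_filter, Finset.mem_univ, true_and, Finset.mem_compl,
        Finset.mem_union, not_or]
    rw [c1, c2, c3]
    ring

theorem key {n s k m : ℕ} (hs : 1 ≤ s) (hsn : 1000 * s ≤ n) (hk1 : k ≤ 2 * s)
    (hk2 : (2 - 1 / 1000) * (s : ℝ) ≤ k) (hm : s + k + m = n) {r X : ℝ} (hr : r = (n : ℝ) / s)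
    (hX : X = (s : ℝ) / (20 * n)) :
    cA ^ s * cB ^ s * 8000 ^ s * Real.exp (1 / 200) ^ s * cZ ^ k * Real.exp (X / 10) ^ m *
      (1001 / 1000) ^ (3 * k) * Real.exp (-(99 / 100 / r)) ^ (3 * m) ≤ (13 / 100 : ℝ) ^ s := by
  have hs0 : (0 : ℝ) < s := by exact_mod_cast hs
  have hn0 : (0 : ℝ) < n := by
    have : 0 < n := by omega
    exact_mod_cast this
  have hZ0 := cZ_pos
  have hA := cA_pos
  have hB := cB_pos
  have b1 : Real.exp (X / 10) ^ m ≤ Real.exp (1 / 200) ^ s := by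
    rw [← Real.exp_nat_mul, ← Real.exp_nat_mul, Real.exp_le_exp, hX]
    have hmn : (m : ℝ) ≤ n := by
      have : m ≤ n := by omega
      exact_mod_cast this
    calc (m : ℝ) * (s / (20 * n) / 10) ≤ n * (s / (20 * n) / 10) := by gcongr
      _ = s * (1 / 200) := by
        field_simp
        norm_num
  have b2 : cZ ^ k ≤ (cZ ^ (1999 / 1000 : ℝ)) ^ s := by
    rw [← Real.rpow_natCast (cZ ^ (1999 / 1000 : ℝ)) s, ← Real.rpow_mul hZ0.le,
      ← Real.rpow_natCast]
    refine Real.rpow_le_rpow_of_exponent_ge hZ0 ?_ ?_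
    · exact cZ_le.trans (by norm_num)
    · linarith
  have b3 : (1001 / 1000 : ℝ) ^ (3 * k) ≤ ((1001 / 1000) ^ 6) ^ s := by
    rw [← pow_mul]
    refine pow_le_pow_right₀ (by norm_num) ?_
    omega
  have b4 : Real.exp (-(99 / 100 / r)) ^ (3 * m) ≤ Real.exp (-(296109 / 100000)) ^ s := by
    rw [← Real.exp_nat_mul, ← Real.exp_nat_mul, Real.exp_le_exp, hr]
    have hmn : (997 / 1000 : ℝ) * n ≤ m := by
      have h1 : n ≤ 3 * s + m := by omega
      have h2 : (n : ℝ) ≤ 3 * s + m := by exact_mod_cast h1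
      have h3 : (1000 : ℝ) * s ≤ n := by exact_mod_cast hsn
      linarith
    have h4 : (99 / 100 : ℝ) / (n / s) = 99 / 100 * (s / n) := by
      field_simp
    rw [h4]
    push_cast
    have h5 : (997 / 1000 : ℝ) * s ≤ m * (s / n) := by
      have : (m : ℝ) * (s / n) = m * s / n := by ring
      rw [this, le_div_iff₀ hn0]
      nlinarith
    linarith
  have b5 : Real.exp (1 / 200) ^ s * Real.exp (1 / 200) ^ s = Real.exp (1 / 100) ^ s := by
    rw [← mul_pow, ← Real.exp_add]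
    norm_num
  calc cA ^ s * cB ^ s * 8000 ^ s * Real.exp (1 / 200) ^ s * cZ ^ k * Real.exp (X / 10) ^ m *
      (1001 / 1000) ^ (3 * k) * Real.exp (-(99 / 100 / r)) ^ (3 * m)
      ≤ cA ^ s * cB ^ s * 8000 ^ s * Real.exp (1 / 200) ^ s * (cZ ^ (1999 / 1000 : ℝ)) ^ s *
        Real.exp (1 / 200) ^ s * ((1001 / 1000) ^ 6) ^ s *
        Real.exp (-(296109 / 100000)) ^ s := by
        have : 0 ≤ cZ ^ (1999 / 1000 : ℝ) := Real.rpow_nonneg hZ0.le _
        gcongr
    _ = (cA * cB * 8000 * Real.exp (1 / 100) * cZ ^ (1999 / 1000 : ℝ) *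
        (1001 / 1000) ^ 6 * Real.exp (-(296109 / 100000))) ^ s := by
        rw [mul_pow, mul_pow, mul_pow, mul_pow, mul_pow, mul_pow, ← b5]
        ring
    _ ≤ (13 / 100 : ℝ) ^ s := by
        refine pow_le_pow_left₀ ?_ numeric s
        have : 0 ≤ cZ ^ (1999 / 1000 : ℝ) := Real.rpow_nonneg hZ0.le _
        positivity

end LtsA

open LtsA in
theorem lts_one {n s : ℕ} (hs : 1 ≤ s) (hsn : 1000 * s ≤ n) (S N : Finset (Fin n))
    (hS : S.card = s) :
    ((univ.filter (fun f : Fin 3 → Fin n → Fin n => AA (1 / 1000) f S N)).card : ℝ) ≤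
      ((n : ℝ) ^ n) ^ 3 * ((s : ℝ) / n) ^ (s + N.card) *
        (((3 * s).factorial : ℝ) / (s : ℝ) ^ (3 * s)) * (13 / 100 : ℝ) ^ s := by
  have hs0 : (0 : ℝ) < s := by exact_mod_cast hs
  have hn0 : (0 : ℝ) < n := by
    have : 0 < n := by omega
    exact_mod_cast this
  by_cases hex : ∃ f : Fin 3 → Fin n → Fin n, AA (1 / 1000) f S N
  swap
  · have : univ.filter (fun f : Fin 3 → Fin n → Fin n => AA (1 / 1000) f S N) = ∅ := by
      rw [Finset.filter_eq_empty_iff]
      intro f _ hf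
      exact hex ⟨f, hf⟩
    rw [this, Finset.card_empty, Nat.cast_zero]
    positivity
  obtain ⟨f0, hf0⟩ := hex
  have hd := hf0.disj
  have hk1 : N.card ≤ 2 * s := by
    have := hf0.N_le
    rwa [hS] at this
  have hk2 : (2 - 1 / 1000) * (s : ℝ) ≤ N.card := by
    have := hf0.le_N
    rwa [hS] at this
  set k := N.card with hk
  set m := ((S ∪ N)ᶜ).card with hm'
  have hm : s + k + m = n := by
    have h1 := Finset.card_add_card_compl (S ∪ N)
    rw [Finset.card_union_of_disjoint hd, hS, Fintype.card_fin] at h1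
    omega
  set r : ℝ := (n : ℝ) / s with hr
  set X : ℝ := (s : ℝ) / (20 * n) with hX
  have hr0 : 0 < r := by positivity
  have hX0 : 0 < X := by positivity
  have hrX : r * X = 1 / 20 := by
    rw [hr, hX]
    field_simp
  have hA := cA_pos
  have hB := cB_pos
  have hZ := cZ_pos
  set C : ℝ := (1 / r) ^ (s + k) * cA ^ s * cB ^ s with hC
  have hC0 : 0 < C := by positivity
  have step1 : ((univ.filter (fun f : Fin 3 → Fin n → Fin n => AA (1 / 1000) f S N)).card : ℝ) ≤
      ∑ f : Fin 3 → Fin n → Fin n, C * ((∏ v, psi S N r v (occ S f v)) *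
        ∏ p ∈ univ.filter (fun p : Fin 3 × Fin n => ¬ p.2 ∈ S), hw S N r p (f p.1 p.2)) := by
    rw [Finset.card_eq_sum_ones, Nat.cast_sum, Finset.sum_filter]
    refine Finset.sum_le_sum fun f _ => ?_
    split_ifs with hf
    · rw [Nat.cast_one]
      exact pointwise hs (by omega) S N hS f hf hr
    · refine mul_nonneg hC0.le (mul_nonneg (Finset.prod_nonneg fun v _ =>
        psi_nonneg S N hr0.le v _) (Finset.prod_nonneg fun p _ => ?_))
      unfold hw
      split_ifs <;> positivity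
  have step2 := sum_factor S N hS hr0.le X hX0 (zz S N X) (psi_sum S N hd hX0.le hrX)
  have step3 := prod_sum_hw hs (by omega) S N hS hd hr
  rw [prod_zz, hS] at step2
  have step4 := key hs hsn hk1 hk2 hm hr hX
  rw [← Finset.mul_sum] at step1
  refine step1.trans ?_
  have hP0 : 0 ≤ ((3 * s).factorial : ℝ) * (1 / X) ^ (3 * s) *
      (Real.exp (1 / 200) ^ s * cZ ^ k * Real.exp (X / 10) ^ m) := by positivity
  calc C * _ ≤ C * ((((3 * s).factorial : ℝ) * (1 / X) ^ (3 * s) *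
      (Real.exp (1 / 200) ^ s * cZ ^ k * Real.exp (X / 10) ^ m)) *
      ((n : ℝ) ^ (3 * (n - s)) * (1001 / 1000) ^ (3 * k) *
        Real.exp (-(99 / 100 / r)) ^ (3 * m))) :=
        mul_le_mul_of_nonneg_left (step2.trans (mul_le_mul_of_nonneg_left step3 hP0)) hC0.le
    _ = ((n : ℝ) ^ n) ^ 3 * ((s : ℝ) / n) ^ (s + k) *
        (((3 * s).factorial : ℝ) / (s : ℝ) ^ (3 * s)) *
        (cA ^ s * cB ^ s * 8000 ^ s * Real.exp (1 / 200) ^ s * cZ ^ k * Real.exp (X / 10) ^ m *
        (1001 / 1000) ^ (3 * k) * Real.exp (-(99 / 100 / r)) ^ (3 * m)) := by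
        have e1 : (1 / X) ^ (3 * s) * (n : ℝ) ^ (3 * (n - s)) =
            8000 ^ s * ((n : ℝ) ^ n) ^ 3 / (s : ℝ) ^ (3 * s) := by
          have e2 : 1 / X = 20 * (n / s) := by
            rw [hX]
            field_simp
          have e3 : 3 * s + 3 * (n - s) = n * 3 := by omega
          rw [e2, mul_pow, div_pow, pow_mul (20 : ℝ), ← pow_mul (n : ℝ) n 3, ← e3, pow_add]
          norm_num
          ring
        have e4 : 1 / r = (s : ℝ) / n := by
          rw [hr]
          field_simp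
        rw [hC, e4]
        calc _ = (s / n : ℝ) ^ (s + k) * cA ^ s * cB ^ s * ((3 * s).factorial : ℝ) *
            ((1 / X) ^ (3 * s) * (n : ℝ) ^ (3 * (n - s))) *
            (Real.exp (1 / 200) ^ s * cZ ^ k * Real.exp (X / 10) ^ m) *
            (1001 / 1000) ^ (3 * k) * Real.exp (-(99 / 100 / r)) ^ (3 * m) := by ring
          _ = _ := by
            rw [e1]
            ring
    _ ≤ _ := by
        refine mul_le_mul_of_nonneg_left step4 ?_
        positivity

end

end Pool.Agent.ST3
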