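import Pool.Agent.Lib.MP_7abaca_co.Defs
import Pool.Agent.Lib.MP_7abaca_co.LtsA

set_option autoImplicit false

namespace Pool.Agent.ST3

open Finset Filter
open scoped Classical

noncomputable section

namespace LtsFX

theorem choose_three (s : ℕ) : ((3 * s).choose s : ℝ) ≤ (27 / 4 : ℝ) ^ s := by
  have h1 := add_pow (1 / 3 : ℝ) (2 / 3) (3 * s)
  have h2 : (1 / 3 : ℝ) ^ s * (2 / 3) ^ (3 * s - s) * ((3 * s).choose s : ℝ) ≤
      ∑ m ∈ range (3 * s + 1), (1 / 3 : ℝ) ^ m * (2 / 3) ^ (3 * s - m) * ((3 * s).choose m : ℝ) :=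
    Finset.single_le_sum (f := fun m => (1 / 3 : ℝ) ^ m * (2 / 3) ^ (3 * s - m) *
      ((3 * s).choose m : ℝ)) (fun m _ => by positivity) (Finset.mem_range.2 (by omega))
  rw [← h1] at h2
  norm_num at h2
  have h3 : 3 * s - s = 2 * s := by omega
  rw [h3, pow_mul, ← mul_pow] at h2
  norm_num at h2
  calc ((3 * s).choose s : ℝ) = (27 / 4 : ℝ) ^ s * ((4 / 27 : ℝ) ^ s * ((3 * s).choose s : ℝ)) := by
        rw [← mul_assoc, ← mul_pow]
        norm_num
    _ ≤ (27 / 4 : ℝ) ^ s * 1 := mul_le_mul_of_nonneg_left h2 (by positivity)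
    _ = _ := mul_one _

/-- the bound for one pair of sizes -/
theorem term {n s k : ℕ} (hs : 1 ≤ s) (hn : 1 ≤ n) (hk : k ≤ 2 * s)
    (hk2 : (2 - 1 / 1000) * (s : ℝ) ≤ k) :
    (n.choose s : ℝ) * ((n.choose k : ℝ) * (((n : ℝ) ^ n) ^ 3 * ((s : ℝ) / n) ^ (s + k) *
        (((3 * s).factorial : ℝ) / (s : ℝ) ^ (3 * s)) * (13 / 100 : ℝ) ^ s)) ≤
      (9 / 10 : ℝ) ^ s * ((n : ℝ) ^ n) ^ 3 := by
  have hn' : (0 : ℝ) < n := by exact_mod_cast hn
  have hs' : (0 : ℝ) < s := by exact_mod_cast hs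
  obtain ⟨h, hh⟩ := Nat.exists_eq_add_of_le hk
  have h1000 : 1000 * h ≤ s := by
    have h1 : (2 * (s : ℝ)) = k + h := by exact_mod_cast hh
    have h2 : 1000 * (h : ℝ) ≤ s := by linarith
    exact_mod_cast h2
  have hc1 : (n.choose s : ℝ) ≤ (n : ℝ) ^ s / s.factorial := Nat.choose_le_pow_div s n
  have hc2 : (n.choose k : ℝ) ≤ (n : ℝ) ^ k / k.factorial := Nat.choose_le_pow_div k n
  have hfac : ((2 * s).factorial : ℝ) ≤ (k.factorial : ℝ) * (2 * (s : ℝ)) ^ h := by
    have h3 : (2 * s - h).factorial * (2 * s).descFactorial h = (2 * s).factorial :=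
      Nat.factorial_mul_descFactorial (by omega)
    have h4 : 2 * s - h = k := by omega
    rw [h4] at h3
    rw [← h3]
    have h5 := Nat.descFactorial_le_pow (2 * s) h
    push_cast
    apply mul_le_mul_of_nonneg_left _ (by positivity)
    exact_mod_cast h5
  have hchoose : ((3 * s).factorial : ℝ) =
      ((3 * s).choose s : ℝ) * s.factorial * (2 * s).factorial := by
    have h6 := Nat.choose_mul_factorial_mul_factorial (show s ≤ 3 * s by omega)
    have h7 : 3 * s - s = 2 * s := by omega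
    rw [h7] at h6
    exact_mod_cast h6.symm
  have hpow2 : (2 : ℝ) ^ h ≤ (40 / 39 : ℝ) ^ s := by
    have h8 : (2 : ℝ) ≤ (40 / 39 : ℝ) ^ 1000 := by
      have := one_add_mul_le_pow (a := (1 / 39 : ℝ)) (by norm_num) 1000
      have h12 : (1 : ℝ) + 1 / 39 = 40 / 39 := by norm_num
      rw [h12] at this
      exact le_trans (by norm_num) this
    calc (2 : ℝ) ^ h ≤ ((40 / 39 : ℝ) ^ 1000) ^ h := pow_le_pow_left₀ (by norm_num) h8 h
      _ = (40 / 39 : ℝ) ^ (1000 * h) := by rw [pow_mul]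
      _ ≤ _ := pow_le_pow_right₀ (by norm_num) h1000
  have hstep : (n.choose s : ℝ) * ((n.choose k : ℝ) * ((s : ℝ) / n) ^ (s + k)) ≤
      (s : ℝ) ^ (s + k) / (s.factorial * k.factorial) := by
    calc (n.choose s : ℝ) * ((n.choose k : ℝ) * ((s : ℝ) / n) ^ (s + k)) ≤
        ((n : ℝ) ^ s / s.factorial) * (((n : ℝ) ^ k / k.factorial) * ((s : ℝ) / n) ^ (s + k)) := by
          gcongr
      _ = (s : ℝ) ^ (s + k) / (s.factorial * k.factorial) := by
          rw [div_pow, pow_add, pow_add]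
          have := Nat.factorial_pos s
          have := Nat.factorial_pos k
          field_simp
  have hmain : (s : ℝ) ^ (s + k) / (s.factorial * k.factorial) *
      (((3 * s).factorial : ℝ) / (s : ℝ) ^ (3 * s)) ≤ (27 / 4 : ℝ) ^ s * (40 / 39 : ℝ) ^ s := by
    have h9 : (s : ℝ) ^ (3 * s) = (s : ℝ) ^ (s + k) * (s : ℝ) ^ h := by
      rw [← pow_add]; congr 1; omega
    have hfs : (0 : ℝ) < s.factorial := by exact_mod_cast Nat.factorial_pos s
    have hfk : (0 : ℝ) < k.factorial := by exact_mod_cast Nat.factorial_pos k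
    have h10 : (s : ℝ) ^ (s + k) / (s.factorial * k.factorial) *
      (((3 * s).factorial : ℝ) / (s : ℝ) ^ (3 * s)) =
      ((3 * s).choose s : ℝ) * ((2 * s).factorial : ℝ) / (k.factorial * (s : ℝ) ^ h) := by
      rw [h9, hchoose]
      field_simp
    rw [h10, div_le_iff₀ (by positivity)]
    calc ((3 * s).choose s : ℝ) * ((2 * s).factorial : ℝ) ≤
        (27 / 4 : ℝ) ^ s * ((k.factorial : ℝ) * (2 * (s : ℝ)) ^ h) :=
          mul_le_mul (choose_three s) hfac (by positivity) (by positivity)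
      _ = (27 / 4 : ℝ) ^ s * (2 : ℝ) ^ h * (k.factorial * (s : ℝ) ^ h) := by
          rw [mul_pow]; ring
      _ ≤ (27 / 4 : ℝ) ^ s * (40 / 39 : ℝ) ^ s * (k.factorial * (s : ℝ) ^ h) := by
          gcongr
  calc (n.choose s : ℝ) * ((n.choose k : ℝ) * (((n : ℝ) ^ n) ^ 3 * ((s : ℝ) / n) ^ (s + k) *
        (((3 * s).factorial : ℝ) / (s : ℝ) ^ (3 * s)) * (13 / 100 : ℝ) ^ s)) =
      ((n.choose s : ℝ) * ((n.choose k : ℝ) * ((s : ℝ) / n) ^ (s + k))) *
        (((3 * s).factorial : ℝ) / (s : ℝ) ^ (3 * s)) * (13 / 100 : ℝ) ^ s * ((n : ℝ) ^ n) ^ 3 := by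
        ring
    _ ≤ ((s : ℝ) ^ (s + k) / (s.factorial * k.factorial)) *
        (((3 * s).factorial : ℝ) / (s : ℝ) ^ (3 * s)) * (13 / 100 : ℝ) ^ s * ((n : ℝ) ^ n) ^ 3 := by
        gcongr
    _ ≤ ((27 / 4 : ℝ) ^ s * (40 / 39 : ℝ) ^ s) * (13 / 100 : ℝ) ^ s * ((n : ℝ) ^ n) ^ 3 := by
        gcongr
    _ = (9 / 10 : ℝ) ^ s * ((n : ℝ) ^ n) ^ 3 := by
        rw [← mul_pow, ← mul_pow]
        norm_num

end LtsFX

open LtsFX in
theorem ltsf {n s : ℕ} (hs : 1 ≤ s) (hsn : 1000 * s ≤ n) :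
    ∑ S ∈ powersetCard s (univ : Finset (Fin n)),
      ((univ.filter (fun f : Fin 3 → Fin n → Fin n => ∃ N, AA (1 / 1000) f S N)).card : ℝ) ≤
      (s + 1) * (9 / 10 : ℝ) ^ s * ((n : ℝ) ^ n) ^ 3 := by
  have hn : 1 ≤ n := by omega
  set K : Finset ℕ := (range (2 * s + 1)).filter fun k => (2 - 1 / 1000) * (s : ℝ) ≤ (k : ℝ) with hK
  set B : ℕ → ℝ := fun k => ((n : ℝ) ^ n) ^ 3 * ((s : ℝ) / n) ^ (s + k) *
        (((3 * s).factorial : ℝ) / (s : ℝ) ^ (3 * s)) * (13 / 100 : ℝ) ^ s with hB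
  have hKcard : (K.card : ℝ) ≤ s + 1 := by
    have h1 : K ⊆ Finset.Icc s (2 * s) := by
      intro k hk
      rw [hK, Finset.mem_filter, Finset.mem_range] at hk
      rw [Finset.mem_Icc]
      have hs' : (0 : ℝ) ≤ s := Nat.cast_nonneg _
      have h2 : (s : ℝ) ≤ k := by linarith [hk.2]
      have h3 : s ≤ k := by exact_mod_cast h2
      omega
    have h4 := Finset.card_le_card h1
    rw [Nat.card_Icc] at h4
    have h5 : K.card ≤ s + 1 := by omega
    exact_mod_cast h5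
  have hone : ∀ S ∈ powersetCard s (univ : Finset (Fin n)),
      ((univ.filter (fun f : Fin 3 → Fin n → Fin n => ∃ N, AA (1 / 1000) f S N)).card : ℝ) ≤
      ∑ k ∈ K, (n.choose k : ℝ) * B k := by
    intro S hS
    rw [Finset.mem_powersetCard] at hS
    have h6 : (univ.filter (fun f : Fin 3 → Fin n → Fin n => ∃ N, AA (1 / 1000) f S N)) ⊆
        K.biUnion fun k => (powersetCard k (univ : Finset (Fin n))).biUnion fun N =>
          univ.filter (fun f : Fin 3 → Fin n → Fin n => AA (1 / 1000) f S N) := by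
      intro f hf
      rw [Finset.mem_filter] at hf
      obtain ⟨N, hN⟩ := hf.2
      rw [Finset.mem_biUnion]
      refine ⟨N.card, ?_, ?_⟩
      · rw [hK, Finset.mem_filter, Finset.mem_range]
        have h7 := hN.N_le
        have h8 := hN.le_N
        rw [hS.2] at h7 h8
        exact ⟨by omega, h8⟩
      · rw [Finset.mem_biUnion]
        exact ⟨N, Finset.mem_powersetCard.2 ⟨Finset.subset_univ _, rfl⟩,
          Finset.mem_filter.2 ⟨Finset.mem_univ _, hN⟩⟩
    have h9 : ((univ.filter (fun f : Fin 3 → Fin n → Fin n =>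
        ∃ N, AA (1 / 1000) f S N)).card : ℝ) ≤
        ∑ k ∈ K, ∑ N ∈ powersetCard k (univ : Finset (Fin n)),
          ((univ.filter (fun f : Fin 3 → Fin n → Fin n => AA (1 / 1000) f S N)).card : ℝ) := by
      have h10 := (Finset.card_le_card h6).trans (Finset.card_biUnion_le.trans
        (Finset.sum_le_sum fun k _ => Finset.card_biUnion_le))
      exact_mod_cast h10
    refine h9.trans (Finset.sum_le_sum fun k _ => ?_)
    calc ∑ N ∈ powersetCard k (univ : Finset (Fin n)),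
          ((univ.filter (fun f : Fin 3 → Fin n → Fin n => AA (1 / 1000) f S N)).card : ℝ) ≤
        ∑ N ∈ powersetCard k (univ : Finset (Fin n)), B k := by
          refine Finset.sum_le_sum fun N hN => ?_
          have h11 := lts_one hs hsn S N hS.2
          rw [(Finset.mem_powersetCard.1 hN).2] at h11
          exact h11
      _ = (n.choose k : ℝ) * B k := by
          rw [Finset.sum_const, Finset.card_powersetCard, Finset.card_univ, Fintype.card_fin,
            nsmul_eq_mul]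
  calc ∑ S ∈ powersetCard s (univ : Finset (Fin n)),
      ((univ.filter (fun f : Fin 3 → Fin n → Fin n => ∃ N, AA (1 / 1000) f S N)).card : ℝ) ≤
      ∑ S ∈ powersetCard s (univ : Finset (Fin n)), ∑ k ∈ K, (n.choose k : ℝ) * B k :=
        Finset.sum_le_sum hone
    _ = ∑ k ∈ K, (n.choose s : ℝ) * ((n.choose k : ℝ) * B k) := by
        rw [Finset.sum_const, Finset.card_powersetCard, Finset.card_univ, Fintype.card_fin,
          nsmul_eq_mul, Finset.mul_sum]
    _ ≤ ∑ k ∈ K, (9 / 10 : ℝ) ^ s * ((n : ℝ) ^ n) ^ 3 := by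
        refine Finset.sum_le_sum fun k hk => ?_
        rw [hK, Finset.mem_filter, Finset.mem_range] at hk
        exact term hs hn (by omega) hk.2
    _ = (K.card : ℝ) * ((9 / 10 : ℝ) ^ s * ((n : ℝ) ^ n) ^ 3) := by
        rw [Finset.sum_const, nsmul_eq_mul]
    _ ≤ ((s : ℝ) + 1) * ((9 / 10 : ℝ) ^ s * ((n : ℝ) ^ n) ^ 3) :=
        mul_le_mul_of_nonneg_right hKcard (by positivity)
    _ = _ := by ring

end

end Pool.Agent.ST3
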