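import Pool.Agent.Lib.MP_7abaca_co.Defs
import Pool.Agent.Lib.MP_7abaca_co.LemR

/-!
# Transfer of local information from a random tree to a random function
-/

set_option autoImplicit false

namespace Pool.Agent.ST3

open Finset Filter
open scoped Classical

noncomputable section

namespace TP1

/-- the trees with root `r` which agree with `g` on `D` and avoid `S` elsewhere -/
def AA1 {n : ℕ} (S D : Finset (Fin n)) (g : Fin n → Fin n) (r : Fin n) :
    Finset (Fin n → Fin n) :=
  univ.filter (fun π => (IsRT r π ∧ ∀ v ∈ D, π v = g v) ∧ ∀ v, v ∉ D ∧ v ≠ r → π v ∉ S)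

/-- the vertices outside of `S` which are sent to `r` -/
def cmp1 {n : ℕ} (S D : Finset (Fin n)) (g : Fin n → Fin n) (r : Fin n) : Finset (Fin n) :=
  univ.filter (fun v => (∃ k : ℕ, (∀ j < k, g^[j] v ∈ D) ∧ g^[k] v = r) ∧ v ∉ S)

lemma sum_x {n : ℕ} (S : Finset (Fin n)) :
    ∑ v : Fin n, (if v ∉ S then (1 : ℝ) else 0) = (n : ℝ) - S.card := by
  rw [Finset.sum_boole]
  have h : (univ.filter fun v : Fin n => v ∉ S) = Sᶜ := by
    ext v
    simp
  rw [h, Finset.card_compl, Fintype.card_fin, Nat.cast_sub (by
    simpa using Finset.card_le_univ S)]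

lemma tcore {n : ℕ} (S D : Finset (Fin n)) (hS : S.card < n) (g : Fin n → Fin n) (r : Fin n)
    (hr : r ∉ D) :
    ((n : ℝ) - S.card) * (AA1 S D g r).card ≤
      (cmp1 S D g r).card * ((n : ℝ) - S.card) ^ (n - D.card - 1) := by
  have hpos : (0 : ℝ) < (n : ℝ) - S.card := by
    have : (S.card : ℝ) < n := by exact_mod_cast hS
    linarith
  by_cases hac : ∀ v, ∃ k : ℕ, g^[k] v ∉ D
  · have h := lemR (fun v => if v ∉ S then (1 : ℝ) else 0) D g r hr hac
    rw [sum_x] at h
    have h1 : ∑ π ∈ univ.filter (fun π : Fin n → Fin n => IsRT r π ∧ ∀ v ∈ D, π v = g v),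
        ∏ v ∈ univ.filter (fun v => v ∉ D ∧ v ≠ r), (if π v ∉ S then (1 : ℝ) else 0) =
        ((AA1 S D g r).card : ℝ) := by
      have h2 : ∀ π : Fin n → Fin n,
          ∏ v ∈ univ.filter (fun v => v ∉ D ∧ v ≠ r), (if π v ∉ S then (1 : ℝ) else 0) =
          if ∀ v, v ∉ D ∧ v ≠ r → π v ∉ S then (1 : ℝ) else 0 := by
        intro π
        rw [Finset.prod_ite_zero, Finset.prod_const_one]
        congr 1
        simp
      rw [Finset.sum_congr rfl fun π _ => h2 π, Finset.sum_boole, Finset.filter_filter]
      rfl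
    rw [h1] at h
    rw [h]
    have h3 : ∑ v ∈ univ.filter (fun v => ∃ k : ℕ, (∀ j < k, g^[j] v ∈ D) ∧ g^[k] v = r),
        (if v ∉ S then (1 : ℝ) else 0) = ((cmp1 S D g r).card : ℝ) := by
      rw [Finset.sum_boole, Finset.filter_filter]
      rfl
    rw [h3]
  · have h0 : AA1 S D g r = ∅ := by
      rw [Finset.eq_empty_iff_forall_notMem]
      intro π hπ
      obtain ⟨⟨⟨_, h1⟩, h2⟩, _⟩ := (Finset.mem_filter.1 hπ).2
      apply hac
      intro v
      by_contra hcon
      push Not at hcon
      have h3 : ∀ k, π^[k] v = g^[k] v := by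
        intro k
        induction k with
        | zero => rfl
        | succ k ih =>
          rw [Function.iterate_succ_apply', Function.iterate_succ_apply', ih]
          exact h2 _ (hcon k)
      obtain ⟨k, hk⟩ := h1 v
      rw [h3] at hk
      exact hr (hk ▸ hcon k)
    rw [h0, Finset.card_empty, Nat.cast_zero, mul_zero]
    positivity

lemma root_unique {n : ℕ} {r r' : Fin n} {π : Fin n → Fin n} (h : IsRT r π) (h' : π r' = r') :
    r' = r := by
  obtain ⟨k, hk⟩ := h.2 r'
  rw [← hk]
  exact (Function.iterate_fixed h' k).symm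

/-- the vertices where the values are known -/
def DD {n : ℕ} (S : Finset (Fin n)) (g : Fin n → Fin n) : Finset (Fin n) :=
  univ.filter (fun v => v ∈ S ∨ g v ∈ S)

lemma mem_DD {n : ℕ} {S : Finset (Fin n)} {g : Fin n → Fin n} {v : Fin n} :
    v ∈ DD S g ↔ v ∈ S ∨ g v ∈ S := by
  simp [DD]

lemma loc_eq_iff {n : ℕ} (S : Finset (Fin n)) (g f : Fin n → Fin n) :
    loc S f = loc S g ↔ (∀ v ∈ DD S g, f v = g v) ∧ ∀ v, v ∉ DD S g → f v ∉ S := by
  constructor
  · intro h
    refine ⟨fun v hv => ?_, fun v hv hf => ?_⟩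
    · have h1 := congrFun h v
      unfold loc at h1
      rw [if_pos (mem_DD.1 hv)] at h1
      split_ifs at h1 with h2
      exact Option.some.inj h1
    · have h1 := congrFun h v
      unfold loc at h1
      rw [if_pos (Or.inr hf), if_neg (fun h2 => hv (mem_DD.2 h2))] at h1
      exact absurd h1 (Option.some_ne_none _)
  · rintro ⟨h1, h2⟩
    funext v
    unfold loc
    by_cases hv : v ∈ DD S g
    · have h3 := mem_DD.1 hv
      rw [h1 v hv, if_pos h3]
    · have h3 : ¬ (v ∈ S ∨ g v ∈ S) := fun h3 => hv (mem_DD.2 h3)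
      have h4 : ¬ (v ∈ S ∨ f v ∈ S) := by
        rintro (h5 | h5)
        · exact h3 (Or.inl h5)
        · exact h2 v hv h5
      rw [if_neg h3, if_neg h4]

lemma card_fun {n : ℕ} (S : Finset (Fin n)) (g : Fin n → Fin n) :
    ((univ.filter (fun f : Fin n → Fin n => loc S f = loc S g)).card : ℝ) =
      ((n : ℝ) - S.card) ^ (n - (DD S g).card) := by
  have h : (univ.filter (fun f : Fin n → Fin n => loc S f = loc S g)) =
      Fintype.piFinset (fun v => if v ∈ DD S g then {g v} else Sᶜ) := by
    ext f
    rw [Finset.mem_filter, Fintype.mem_piFinset, loc_eq_iff]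
    constructor
    · rintro ⟨_, h1, h2⟩ v
      split_ifs with hv
      · rw [Finset.mem_singleton]
        exact h1 v hv
      · rw [Finset.mem_compl]
        exact h2 v hv
    · intro h
      refine ⟨Finset.mem_univ _, fun v hv => ?_, fun v hv => ?_⟩
      · have := h v
        rw [if_pos hv, Finset.mem_singleton] at this
        exact this
      · have := h v
        rw [if_neg hv, Finset.mem_compl] at this
        exact this
  rw [h, Fintype.card_piFinset]
  have h1 : ∀ v : Fin n, (if v ∈ DD S g then ({g v} : Finset (Fin n)) else Sᶜ).card =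
      if v ∈ DD S g then 1 else n - S.card := by
    intro v
    split_ifs
    · exact Finset.card_singleton _
    · rw [Finset.card_compl, Fintype.card_fin]
  rw [Finset.prod_congr rfl fun v _ => h1 v, Finset.prod_ite, Finset.prod_const_one, one_mul,
    Finset.prod_const]
  have h2 : (univ.filter fun v : Fin n => v ∉ DD S g) = (DD S g)ᶜ := by
    ext v
    simp
  rw [h2, Finset.card_compl, Fintype.card_fin, Nat.cast_pow, Nat.cast_sub (by
    simpa using Finset.card_le_univ S)]

end TP1

open TP1 in
theorem tp_one {n : ℕ} (S : Finset (Fin n)) (hS : S.card < n) (L : Fin n → Option (Fin n)) :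
    ((n : ℝ) - S.card) * ((RT n).filter (fun π => loc S π = L)).card ≤
      max 1 ((univ.filter (fun v => v ∉ S ∧ L v ≠ none)).card : ℝ) *
        (univ.filter (fun f : Fin n → Fin n => loc S f = L)).card := by
  have hpos : (0 : ℝ) < (n : ℝ) - S.card := by
    have : (S.card : ℝ) < n := by exact_mod_cast hS
    linarith
  by_cases hex : ∃ g : Fin n → Fin n, loc S g = L
  swap
  · have h0 : (RT n).filter (fun π => loc S π = L) = ∅ := by
      rw [Finset.eq_empty_iff_forall_notMem]
      intro π hπ
      exact hex ⟨π, (Finset.mem_filter.1 hπ).2⟩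
    rw [h0, Finset.card_empty, Nat.cast_zero, mul_zero]
    positivity
  obtain ⟨g, rfl⟩ := hex
  rw [card_fun]
  set D := DD S g with hD
  have hSD : ∀ v ∈ S, v ∈ D := fun v hv => mem_DD.2 (Or.inl hv)
  by_cases hfix : ∃ r ∈ S, g r = r
  · -- the root is in `S`
    obtain ⟨r, hrS, hgr⟩ := hfix
    have hrD : r ∈ D := hSD r hrS
    have hcore := tcore S (D.erase r) hS g r (Finset.notMem_erase r D)
    have hsub : (RT n).filter (fun π => loc S π = loc S g) ⊆ AA1 S (D.erase r) g r := by
      intro π hπ
      obtain ⟨h1, h2⟩ := Finset.mem_filter.1 hπ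
      obtain ⟨r', hr'⟩ := (Finset.mem_filter.1 h1).2
      obtain ⟨h3, h4⟩ := (loc_eq_iff S g π).1 h2
      have h5 : r = r' := root_unique hr' (by rw [h3 r hrD, hgr])
      subst h5
      refine Finset.mem_filter.2 ⟨Finset.mem_univ _, ⟨hr', fun v hv => ?_⟩, fun v hv => ?_⟩
      · exact h3 v (Finset.mem_of_mem_erase hv)
      · refine h4 v fun hvD => hv.1 ?_
        exact Finset.mem_erase.2 ⟨hv.2, hvD⟩
    have hcard : n - (D.erase r).card - 1 = n - D.card := by
      rw [Finset.card_erase_of_mem hrD]
      have : 0 < D.card := Finset.card_pos.2 ⟨r, hrD⟩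
      omega
    rw [hcard] at hcore
    have hcmp : (cmp1 S (D.erase r) g r).card ≤
        (univ.filter (fun v => v ∉ S ∧ loc S g v ≠ none)).card := by
      refine Finset.card_le_card fun v hv => ?_
      obtain ⟨⟨k, hk1, hk2⟩, hvS⟩ := (Finset.mem_filter.1 hv).2
      refine Finset.mem_filter.2 ⟨Finset.mem_univ _, hvS, ?_⟩
      have hk0 : 0 < k := by
        rcases Nat.eq_zero_or_pos k with h | h
        · subst h
          rw [Function.iterate_zero_apply] at hk2
          rw [hk2] at hvS
          exact absurd hrS hvS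
        · exact h
      have h1 := hk1 0 hk0
      rw [Function.iterate_zero_apply] at h1
      have h2 := mem_DD.1 (Finset.mem_of_mem_erase h1)
      unfold loc
      rw [if_pos h2]
      exact Option.some_ne_none _
    have h1 : (((RT n).filter (fun π => loc S π = loc S g)).card : ℝ) ≤
        (AA1 S (D.erase r) g r).card := by exact_mod_cast Finset.card_le_card hsub
    calc ((n : ℝ) - S.card) * ((RT n).filter (fun π => loc S π = loc S g)).card
        ≤ ((n : ℝ) - S.card) * (AA1 S (D.erase r) g r).card :=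
          mul_le_mul_of_nonneg_left h1 hpos.le
      _ ≤ (cmp1 S (D.erase r) g r).card * ((n : ℝ) - S.card) ^ (n - D.card) := hcore
      _ ≤ _ := by
          refine mul_le_mul_of_nonneg_right ?_ (by positivity)
          refine le_trans ?_ (le_max_right _ _)
          exact_mod_cast hcmp
  · -- the root is not in `D`
    push Not at hfix
    have hsub : (RT n).filter (fun π => loc S π = loc S g) ⊆
        Dᶜ.biUnion (fun r => AA1 S D g r) := by
      intro π hπ
      obtain ⟨h1, h2⟩ := Finset.mem_filter.1 hπ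
      obtain ⟨r, hr⟩ := (Finset.mem_filter.1 h1).2
      obtain ⟨h3, h4⟩ := (loc_eq_iff S g π).1 h2
      have hrD : r ∉ D := by
        intro hrD
        have h5 : g r = r := by rw [← h3 r hrD, hr.1]
        rcases mem_DD.1 hrD with h6 | h6
        · exact hfix r h6 h5
        · rw [h5] at h6
          exact hfix r h6 h5
      rw [Finset.mem_biUnion]
      refine ⟨r, Finset.mem_compl.2 hrD, ?_⟩
      exact Finset.mem_filter.2 ⟨Finset.mem_univ _, ⟨hr, h3⟩, fun v hv => h4 v hv.1⟩
    have h1 : (((RT n).filter (fun π => loc S π = loc S g)).card : ℝ) ≤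
        ∑ r ∈ Dᶜ, ((AA1 S D g r).card : ℝ) := by
      exact_mod_cast (Finset.card_le_card hsub).trans Finset.card_biUnion_le
    have hdisj : ∑ r ∈ Dᶜ, (cmp1 S D g r).card ≤ (Sᶜ : Finset (Fin n)).card := by
      rw [← Finset.card_biUnion]
      · refine Finset.card_le_card fun v hv => ?_
        obtain ⟨r, _, hv⟩ := Finset.mem_biUnion.1 hv
        exact Finset.mem_compl.2 (Finset.mem_filter.1 hv).2.2
      · intro r hr r' hr' hne
        rw [Function.onFun, Finset.disjoint_left]
        intro v hv hv'
        obtain ⟨⟨k, hk1, hk2⟩, _⟩ := (Finset.mem_filter.1 hv).2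
        obtain ⟨⟨k', hk1', hk2'⟩, _⟩ := (Finset.mem_filter.1 hv').2
        have hr1 : r ∉ D := Finset.mem_compl.1 hr
        have hr1' : r' ∉ D := Finset.mem_compl.1 hr'
        rcases lt_trichotomy k k' with h | h | h
        · exact hr1 (hk2 ▸ hk1' k h)
        · subst h
          exact hne (hk2.symm.trans hk2')
        · exact hr1' (hk2' ▸ hk1 k' h)
    have hdisj' : ∑ r ∈ Dᶜ, ((cmp1 S D g r).card : ℝ) ≤ (n : ℝ) - S.card := by
      have h2 : ((Sᶜ : Finset (Fin n)).card : ℝ) = (n : ℝ) - S.card := by
        rw [Finset.card_compl, Fintype.card_fin, Nat.cast_sub hS.le]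
      rw [← h2]
      exact_mod_cast hdisj
    have hmain : ((n : ℝ) - S.card) * ((RT n).filter (fun π => loc S π = loc S g)).card ≤
        ((n : ℝ) - S.card) ^ (n - D.card) := by
      rcases Finset.eq_empty_or_nonempty (Dᶜ) with h0 | h0
      · have h2 : (((RT n).filter (fun π => loc S π = loc S g)).card : ℝ) ≤ 0 := by
          rw [h0, Finset.sum_empty] at h1
          exact h1
        calc ((n : ℝ) - S.card) * ((RT n).filter (fun π => loc S π = loc S g)).card
            ≤ ((n : ℝ) - S.card) * 0 := mul_le_mul_of_nonneg_left h2 hpos.le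
          _ ≤ _ := by
              rw [mul_zero]
              positivity
      · have hDn : D.card < n := by
          have h2 := Finset.card_pos.2 h0
          rw [Finset.card_compl, Fintype.card_fin] at h2
          omega
        calc ((n : ℝ) - S.card) * ((RT n).filter (fun π => loc S π = loc S g)).card
            ≤ ((n : ℝ) - S.card) * ∑ r ∈ Dᶜ, ((AA1 S D g r).card : ℝ) :=
              mul_le_mul_of_nonneg_left h1 hpos.le
          _ = ∑ r ∈ Dᶜ, ((n : ℝ) - S.card) * ((AA1 S D g r).card : ℝ) := Finset.mul_sum _ _ _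
          _ ≤ ∑ r ∈ Dᶜ, (cmp1 S D g r).card * ((n : ℝ) - S.card) ^ (n - D.card - 1) :=
              Finset.sum_le_sum fun r hr => tcore S D hS g r (Finset.mem_compl.1 hr)
          _ = (∑ r ∈ Dᶜ, ((cmp1 S D g r).card : ℝ)) * ((n : ℝ) - S.card) ^ (n - D.card - 1) := by
              rw [Finset.sum_mul]
          _ ≤ ((n : ℝ) - S.card) * ((n : ℝ) - S.card) ^ (n - D.card - 1) :=
              mul_le_mul_of_nonneg_right hdisj' (by positivity)
          _ = ((n : ℝ) - S.card) ^ (n - D.card) := by
              rw [← pow_succ']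
              congr 1
              omega
    refine hmain.trans ?_
    exact le_mul_of_one_le_left (by positivity) (le_max_left _ _)

end

end Pool.Agent.ST3
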