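import Pool.Agent.Lib.MP_7abaca_co.Defs
import Pool.Agent.Lib.MP_7abaca_co.TP1

/-!
# Transfer of local information for three trees
-/

set_option autoImplicit false

namespace Pool.Agent.ST3

open Finset Filter
open scoped Classical

noncomputable section

namespace TP3

/-- counting triples with a given local information -/
lemma card_fib {n : ℕ} (S : Finset (Fin n)) (A : (Fin 3 → Fin n → Option (Fin n)) → Prop)
    (R : Finset (Fin n → Fin n)) :
    ((univ.filter (fun π : Fin 3 → Fin n → Fin n =>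
      (∀ i, π i ∈ R) ∧ A (fun i => loc S (π i)))).card : ℝ) =
      ∑ L ∈ univ.filter A, ∏ i, ((R.filter (fun π => loc S π = L i)).card : ℝ) := by
  rw [Finset.card_eq_sum_card_fiberwise (f := fun π : Fin 3 → Fin n → Fin n =>
    fun i => loc S (π i)) (t := univ.filter A)
    (fun π hπ => Finset.mem_coe.2 (Finset.mem_filter.2 ⟨Finset.mem_univ _,
      (Finset.mem_filter.1 (Finset.mem_coe.1 hπ)).2.2⟩)), Nat.cast_sum]
  refine Finset.sum_congr rfl fun L hL => ?_
  have hAL := (Finset.mem_filter.1 hL).2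
  rw [← Nat.cast_prod, ← Fintype.card_piFinset]
  congr 2
  ext π
  rw [Finset.mem_filter, Finset.mem_filter, Fintype.mem_piFinset]
  constructor
  · rintro ⟨⟨_, h1, _⟩, h2⟩ i
    exact Finset.mem_filter.2 ⟨h1 i, congrFun h2 i⟩
  · intro h
    have h2 : (fun i => loc S (π i)) = L := funext fun i => (Finset.mem_filter.1 (h i)).2
    refine ⟨⟨Finset.mem_univ _, fun i => (Finset.mem_filter.1 (h i)).1, ?_⟩, h2⟩
    rw [h2]
    exact hAL

end TP3

open TP3 in
theorem tp_three {n : ℕ} (S : Finset (Fin n)) (hS : 2 * S.card ≤ n) (hn : 1 ≤ n) (Q : ℕ)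
    (hQ : 1 ≤ Q) (A : (Fin 3 → Fin n → Option (Fin n)) → Prop)
    (hA : ∀ L, A L → ∀ i, (univ.filter (fun v => v ∉ S ∧ L i v ≠ none)).card ≤ Q) :
    Pr3 n (fun π => A (fun i => loc S (π i))) ≤
      (2 * (Q : ℝ)) ^ 3 *
        ((univ.filter (fun f : Fin 3 → Fin n → Fin n => A (fun i => loc S (f i)))).card : ℝ) /
          ((n : ℝ) ^ n) ^ 3 := by
  have hSn : S.card < n := by omega
  have hnR : (0 : ℝ) < n := by exact_mod_cast hn
  have hSR : (n : ℝ) ≤ 2 * ((n : ℝ) - S.card) := by
    have : (2 : ℝ) * S.card ≤ n := by exact_mod_cast hS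
    linarith
  have hpos : (0 : ℝ) < (n : ℝ) - S.card := by linarith
  have h1 : (((RT3 n).filter (fun π => A (fun i => loc S (π i)))).card : ℝ) =
      ∑ L ∈ univ.filter A, ∏ i, (((RT n).filter (fun π => loc S π = L i)).card : ℝ) := by
    rw [← card_fib]
    unfold RT3
    rw [Finset.filter_filter]
  have h2 : ((univ.filter (fun f : Fin 3 → Fin n → Fin n => A (fun i => loc S (f i)))).card : ℝ) =
      ∑ L ∈ univ.filter A, ∏ i : Fin 3,
        ((univ.filter (fun f : Fin n → Fin n => loc S f = L i)).card : ℝ) := by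
    rw [← card_fib]
    congr 2
    ext π
    simp
  have h3 : ∀ L ∈ univ.filter A, ∏ i, (((RT n).filter (fun π => loc S π = L i)).card : ℝ) ≤
      (2 * (Q : ℝ) / n) ^ 3 * ∏ i : Fin 3,
        ((univ.filter (fun f : Fin n → Fin n => loc S f = L i)).card : ℝ) := by
    intro L hL
    have hAL := (Finset.mem_filter.1 hL).2
    have h4 : ∀ i ∈ (univ : Finset (Fin 3)), (((RT n).filter (fun π => loc S π = L i)).card : ℝ) ≤
        (2 * (Q : ℝ) / n) * ((univ.filter (fun f : Fin n → Fin n => loc S f = L i)).card : ℝ) := by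
      intro i _
      have h5 := tp_one S hSn (L i)
      have h6 : max 1 ((univ.filter (fun v => v ∉ S ∧ L i v ≠ none)).card : ℝ) ≤ Q := by
        refine max_le ?_ ?_
        · exact_mod_cast hQ
        · exact_mod_cast hA L hAL i
      have hc : (0 : ℝ) ≤ ((univ.filter (fun f : Fin n → Fin n => loc S f = L i)).card : ℝ) :=
        Nat.cast_nonneg _
      have hc' : (0 : ℝ) ≤ (((RT n).filter (fun π => loc S π = L i)).card : ℝ) :=
        Nat.cast_nonneg _
      rw [div_mul_eq_mul_div, le_div_iff₀ hnR]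
      calc (((RT n).filter (fun π => loc S π = L i)).card : ℝ) * n
          ≤ (((RT n).filter (fun π => loc S π = L i)).card : ℝ) * (2 * ((n : ℝ) - S.card)) :=
            mul_le_mul_of_nonneg_left hSR hc'
        _ = 2 * (((n : ℝ) - S.card) * (((RT n).filter (fun π => loc S π = L i)).card : ℝ)) := by
            ring
        _ ≤ 2 * (max 1 ((univ.filter (fun v => v ∉ S ∧ L i v ≠ none)).card : ℝ) *
            ((univ.filter (fun f : Fin n → Fin n => loc S f = L i)).card : ℝ)) := by
            linarith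
        _ ≤ 2 * ((Q : ℝ) * ((univ.filter (fun f : Fin n → Fin n => loc S f = L i)).card : ℝ)) := by
            have := mul_le_mul_of_nonneg_right h6 hc
            linarith
        _ = 2 * (Q : ℝ) * ((univ.filter (fun f : Fin n → Fin n => loc S f = L i)).card : ℝ) := by
            ring
    refine (Finset.prod_le_prod (fun i _ => Nat.cast_nonneg _) h4).trans (le_of_eq ?_)
    rw [Finset.prod_mul_distrib, Finset.prod_const, Finset.card_univ, Fintype.card_fin]
  unfold Pr3
  rw [h1, h2, div_le_iff₀ (by positivity)]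
  refine (Finset.sum_le_sum h3).trans (le_of_eq ?_)
  rw [← Finset.mul_sum]
  have h5 : (n : ℝ) ^ n = (n : ℝ) ^ (n - 1) * n := by
    rw [← pow_succ]
    congr 1
    omega
  rw [h5]
  field_simp

end

end Pool.Agent.ST3
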