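import Pool.Agent.Lib.MP_7abaca_co.Defs
import Pool.Agent.Lib.MP_7abaca_co.TP3
import Pool.Agent.Lib.MP_7abaca_co.LtsF

/-!
# Large trapped patterns in random trees (module LTST)
-/

set_option autoImplicit false

namespace Pool.Agent.ST3

open Finset Filter
open scoped Classical

noncomputable section

/-! ### elementary facts about `Pr3` -/

theorem lt_pr3_mono {n : ℕ} {E F : (Fin 3 → Fin n → Fin n) → Prop} (h : ∀ π, E π → F π) :
    Pr3 n E ≤ Pr3 n F := by
  unfold Pr3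
  refine div_le_div_of_nonneg_right ?_ (by positivity)
  have : (RT3 n).filter E ⊆ (RT3 n).filter F := by
    intro π hπ
    rw [Finset.mem_filter] at hπ ⊢
    exact ⟨hπ.1, h π hπ.2⟩
  exact_mod_cast Finset.card_le_card this

theorem lt_pr3_nonneg {n : ℕ} (E : (Fin 3 → Fin n → Fin n) → Prop) : 0 ≤ Pr3 n E := by
  unfold Pr3
  positivity

theorem lt_pr3_union' {n : ℕ} {ι : Type} (s : Finset ι)
    (E : ι → (Fin 3 → Fin n → Fin n) → Prop) (E' : (Fin 3 → Fin n → Fin n) → Prop)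
    (h : ∀ π, E' π → ∃ x ∈ s, E x π) :
    Pr3 n E' ≤ ∑ x ∈ s, Pr3 n (E x) := by
  unfold Pr3
  rw [← Finset.sum_div]
  refine div_le_div_of_nonneg_right ?_ (by positivity)
  rw [← Nat.cast_sum]
  refine Nat.cast_le.mpr (le_trans (Finset.card_le_card (fun π hπ => ?_))
    (Finset.card_biUnion_le (s := s) (t := fun x => (RT3 n).filter (E x))))
  rw [Finset.mem_filter] at hπ
  obtain ⟨x, hx, hE⟩ := h π hπ.2
  exact Finset.mem_biUnion.mpr ⟨x, hx, Finset.mem_filter.mpr ⟨hπ.1, hE⟩⟩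

theorem lt_pr3_union {n : ℕ} {ι : Type} (s : Finset ι) (E : ι → (Fin 3 → Fin n → Fin n) → Prop) :
    Pr3 n (fun π => ∃ x ∈ s, E x π) ≤ ∑ x ∈ s, Pr3 n (E x) :=
  lt_pr3_union' s E _ (fun _ h => h)

/-! ### the pattern only depends on the local information -/

theorem loc_own {n : ℕ} {S : Finset (Fin n)} {f g : Fin n → Fin n} (h : loc S f = loc S g)
    {v : Fin n} (hv : v ∈ S) : f v = g v := by
  have := congrFun h v
  simp only [loc, hv, true_or, if_true, Option.some.injEq] at this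
  exact this

theorem loc_into {n : ℕ} {S : Finset (Fin n)} {f g : Fin n → Fin n} (h : loc S f = loc S g)
    {v : Fin n} : f v ∈ S ↔ g v ∈ S := by
  by_cases hv : v ∈ S
  · rw [loc_own h hv]
  · have := congrFun h v
    simp only [loc, hv, false_or] at this
    by_cases hf : f v ∈ S
    · by_cases hg : g v ∈ S
      · exact ⟨fun _ => hg, fun _ => hf⟩
      · rw [if_pos hf, if_neg hg] at this
        exact absurd this (by simp)
    · by_cases hg : g v ∈ S
      · rw [if_neg hf, if_pos hg] at this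
        exact absurd this (by simp)
      · exact ⟨fun h => absurd h hf, fun h => absurd h hg⟩

theorem AA_congr {n : ℕ} {θ : ℝ} {S N : Finset (Fin n)} {f g : Fin 3 → Fin n → Fin n}
    (h : ∀ i, loc S (f i) = loc S (g i)) (hf : AA θ f S N) : AA θ g S N := by
  have hown : ∀ i v, v ∈ S → f i v = g i v := fun i v hv => loc_own (h i) hv
  have hinto : ∀ i v, f i v ∈ S ↔ g i v ∈ S := fun i v => loc_into (h i)
  have e1 : univ.filter (fun p : Fin 3 × Fin n => p.2 ∈ S ∧ f p.1 p.2 ∉ S ∧ f p.1 p.2 ∉ N) =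
      univ.filter (fun p : Fin 3 × Fin n => p.2 ∈ S ∧ g p.1 p.2 ∉ S ∧ g p.1 p.2 ∉ N) := by
    refine Finset.filter_congr (fun p _ => ?_)
    constructor
    · rintro ⟨a, b⟩
      rw [hown p.1 p.2 a] at b
      exact ⟨a, b⟩
    · rintro ⟨a, b⟩
      rw [← hown p.1 p.2 a] at b
      exact ⟨a, b⟩
  have e2 : univ.filter (fun p : Fin 3 × Fin n => p.2 ∈ S ∧ f p.1 p.2 ∈ S) =
      univ.filter (fun p : Fin 3 × Fin n => p.2 ∈ S ∧ g p.1 p.2 ∈ S) := by
    refine Finset.filter_congr (fun p _ => ?_)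
    rw [hinto p.1 p.2]
  have e3 : N.filter (fun v => ∀ i, ∀ y ∈ S, f i y ≠ v) =
      N.filter (fun v => ∀ i, ∀ y ∈ S, g i y ≠ v) := by
    refine Finset.filter_congr (fun v _ => ?_)
    constructor
    · intro hv i y hy
      rw [← hown i y hy]
      exact hv i y hy
    · intro hv i y hy
      rw [hown i y hy]
      exact hv i y hy
  have e4 : N.filter (fun v =>
      2 ≤ (univ.filter (fun p : Fin 3 × Fin n => p.2 ∈ S ∧ f p.1 p.2 = v)).card) =
      N.filter (fun v =>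
      2 ≤ (univ.filter (fun p : Fin 3 × Fin n => p.2 ∈ S ∧ g p.1 p.2 = v)).card) := by
    refine Finset.filter_congr (fun v _ => ?_)
    have : univ.filter (fun p : Fin 3 × Fin n => p.2 ∈ S ∧ f p.1 p.2 = v) =
        univ.filter (fun p : Fin 3 × Fin n => p.2 ∈ S ∧ g p.1 p.2 = v) := by
      refine Finset.filter_congr (fun p _ => ?_)
      constructor
      · rintro ⟨a, b⟩
        rw [hown p.1 p.2 a] at b
        exact ⟨a, b⟩
      · rintro ⟨a, b⟩
        rw [← hown p.1 p.2 a] at b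
        exact ⟨a, b⟩
    rw [this]
  have e5 : univ.filter (fun p : Fin 3 × Fin n => p.2 ∈ N ∧ f p.1 p.2 ∈ S) =
      univ.filter (fun p : Fin 3 × Fin n => p.2 ∈ N ∧ g p.1 p.2 ∈ S) := by
    refine Finset.filter_congr (fun p _ => ?_)
    rw [hinto p.1 p.2]
  have e6 : univ.filter (fun p : Fin 3 × Fin n => p.2 ∉ S ∧ p.2 ∉ N ∧ f p.1 p.2 ∈ S) =
      univ.filter (fun p : Fin 3 × Fin n => p.2 ∉ S ∧ p.2 ∉ N ∧ g p.1 p.2 ∈ S) := by
    refine Finset.filter_congr (fun p _ => ?_)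
    rw [hinto p.1 p.2]
  exact ⟨hf.disj, hf.N_le, hf.le_N, e1 ▸ hf.out, e2 ▸ hf.inS, e3 ▸ hf.zero, e4 ▸ hf.dbl,
    e5 ▸ hf.qN, e6 ▸ hf.qO, by rw [← e1, ← e5]; exact hf.pow⟩

/-- the number of outside vertices that pick into `S` is at most `|S|` -/
theorem AA_Q {n : ℕ} {S N : Finset (Fin n)} {f : Fin 3 → Fin n → Fin n}
    (hf : AA (1 / 1000) f S N) (i : Fin 3) :
    (univ.filter (fun v => v ∉ S ∧ loc S (f i) v ≠ none)).card ≤ S.card := by
  have h1 : (univ.filter (fun v => v ∉ S ∧ loc S (f i) v ≠ none)).card ≤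
      (univ.filter (fun p : Fin 3 × Fin n => p.2 ∈ N ∧ f p.1 p.2 ∈ S)).card +
      (univ.filter (fun p : Fin 3 × Fin n => p.2 ∉ S ∧ p.2 ∉ N ∧ f p.1 p.2 ∈ S)).card := by
    refine le_trans ?_ (Finset.card_union_le _ _)
    refine Finset.card_le_card_of_injOn (fun v => (i, v)) ?_ ?_
    · intro v hv
      have hv' := (Finset.mem_filter.mp (Finset.mem_coe.mp hv)).2
      have hfS : f i v ∈ S := by
        by_contra hn
        apply hv'.2
        simp only [loc]
        rw [if_neg]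
        rintro (h | h)
        · exact hv'.1 h
        · exact hn h
      refine Finset.mem_coe.mpr (Finset.mem_union.mpr ?_)
      by_cases hN : v ∈ N
      · exact Or.inl (Finset.mem_filter.mpr ⟨Finset.mem_univ _, hN, hfS⟩)
      · exact Or.inr (Finset.mem_filter.mpr ⟨Finset.mem_univ _, hv'.1, hN, hfS⟩)
    · intro a _ b _ hab
      exact (Prod.mk.inj hab).2
  have h2 := hf.qN
  have h3 := hf.qO
  have h4 : ((univ.filter (fun v => v ∉ S ∧ loc S (f i) v ≠ none)).card : ℝ) ≤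
      ((univ.filter (fun p : Fin 3 × Fin n => p.2 ∈ N ∧ f p.1 p.2 ∈ S)).card : ℝ) +
      ((univ.filter (fun p : Fin 3 × Fin n => p.2 ∉ S ∧ p.2 ∉ N ∧ f p.1 p.2 ∈ S)).card : ℝ) := by
    exact_mod_cast h1
  have h5 : ((univ.filter (fun v => v ∉ S ∧ loc S (f i) v ≠ none)).card : ℝ) ≤ (S.card : ℝ) := by
    have : (0 : ℝ) ≤ S.card := Nat.cast_nonneg _
    linarith
  exact_mod_cast h5

/-- transfer for a fixed `S` -/
theorem lt_fixS {n : ℕ} (S : Finset (Fin n)) (hs : 1 ≤ S.card) (hsn : 1000 * S.card ≤ n) :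
    Pr3 n (fun π => ∃ N, AA (1 / 1000) π S N) ≤
      (2 * (S.card : ℝ)) ^ 3 *
        ((univ.filter (fun f : Fin 3 → Fin n → Fin n => ∃ N, AA (1 / 1000) f S N)).card : ℝ) /
          ((n : ℝ) ^ n) ^ 3 := by
  have key := tp_three S (by omega) (by omega) S.card hs
    (fun L => ∃ f : Fin 3 → Fin n → Fin n, (∀ i, loc S (f i) = L i) ∧ ∃ N, AA (1 / 1000) f S N) ?_
  · have hiff : ∀ f : Fin 3 → Fin n → Fin n, (∃ g : Fin 3 → Fin n → Fin n,
        (∀ i, loc S (g i) = loc S (f i)) ∧ ∃ N, AA (1 / 1000) g S N) ↔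
          ∃ N, AA (1 / 1000) f S N := by
      intro f
      constructor
      · rintro ⟨g, hg, N, hN⟩
        exact ⟨N, AA_congr hg hN⟩
      · rintro ⟨N, hN⟩
        exact ⟨f, fun _ => rfl, N, hN⟩
    simp only [hiff] at key
    exact key
  · rintro L ⟨f, hf, N, hN⟩ i
    rw [← hf i]
    exact AA_Q hN i

theorem lt_fixs {n s : ℕ} (hs : 1 ≤ s) (hsn : 1000 * s ≤ n) :
    Pr3 n (fun π => ∃ S ∈ powersetCard s (univ : Finset (Fin n)), ∃ N, AA (1 / 1000) π S N) ≤
      8 * (s : ℝ) ^ 3 * ((s + 1) * (9 / 10 : ℝ) ^ s) := by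
  have hn : 0 < n := by omega
  have hpos : (0 : ℝ) < ((n : ℝ) ^ n) ^ 3 := by positivity
  refine (lt_pr3_union _ _).trans ?_
  calc ∑ S ∈ powersetCard s (univ : Finset (Fin n)), Pr3 n (fun π => ∃ N, AA (1 / 1000) π S N)
      ≤ ∑ S ∈ powersetCard s (univ : Finset (Fin n)), ((2 * (s : ℝ)) ^ 3 / ((n : ℝ) ^ n) ^ 3) *
        ((univ.filter (fun f : Fin 3 → Fin n → Fin n =>
          ∃ N, AA (1 / 1000) f S N)).card : ℝ) := by
        refine Finset.sum_le_sum (fun S hS => ?_)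
        have hc : S.card = s := (Finset.mem_powersetCard.mp hS).2
        have := lt_fixS S (by omega) (by omega)
        rw [hc] at this
        refine this.trans (le_of_eq ?_)
        ring
    _ = ((2 * (s : ℝ)) ^ 3 / ((n : ℝ) ^ n) ^ 3) *
        ∑ S ∈ powersetCard s (univ : Finset (Fin n)),
        ((univ.filter (fun f : Fin 3 → Fin n → Fin n =>
          ∃ N, AA (1 / 1000) f S N)).card : ℝ) := by
        rw [Finset.mul_sum]
    _ ≤ ((2 * (s : ℝ)) ^ 3 / ((n : ℝ) ^ n) ^ 3) *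
        ((s + 1) * (9 / 10 : ℝ) ^ s * ((n : ℝ) ^ n) ^ 3) := by
        refine mul_le_mul_of_nonneg_left (ltsf hs hsn) (by positivity)
    _ = 8 * (s : ℝ) ^ 3 * ((s + 1) * (9 / 10 : ℝ) ^ s) := by
        field_simp
        ring

/-- the bound for one size -/
def ltb (s : ℕ) : ℝ := 8 * (s : ℝ) ^ 3 * ((s + 1) * (9 / 10 : ℝ) ^ s)

theorem ltb_nonneg (s : ℕ) : 0 ≤ ltb s := by
  unfold ltb
  positivity

theorem ltb_summable : Summable ltb := by
  have h4 := summable_pow_mul_geometric_of_norm_lt_one (R := ℝ) 4 (r := (9 / 10 : ℝ))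
    (by rw [Real.norm_eq_abs, abs_lt]; constructor <;> norm_num)
  have h3 := summable_pow_mul_geometric_of_norm_lt_one (R := ℝ) 3 (r := (9 / 10 : ℝ))
    (by rw [Real.norm_eq_abs, abs_lt]; constructor <;> norm_num)
  have h := (h4.add h3).mul_left 8
  refine h.congr (fun s => ?_)
  unfold ltb
  ring

theorem ltst (c : ℝ) (hc : 0 < c) : Tendsto (fun n : ℕ => Pr3 n (fun π =>
    ∃ S N : Finset (Fin n), c * Real.log n ≤ (S.card : ℝ) ∧ 1 ≤ S.card ∧ 1000 * S.card ≤ n ∧
      AA (1 / 1000) π S N)) atTop (nhds 0) := by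
  have htail : Tendsto (fun n : ℕ => ∑' k : ℕ, ltb (k + ⌈c * Real.log n⌉₊)) atTop (nhds 0) := by
    refine (tendsto_sum_nat_add ltb).comp ?_
    refine tendsto_nat_ceil_atTop.comp ?_
    exact (Real.tendsto_log_atTop.comp tendsto_natCast_atTop_atTop).const_mul_atTop hc
  refine squeeze_zero (fun n => lt_pr3_nonneg _) (fun n => ?_) htail
  set m := ⌈c * Real.log n⌉₊ with hm
  have h1 : Pr3 n (fun π => ∃ S N : Finset (Fin n), c * Real.log n ≤ (S.card : ℝ) ∧ 1 ≤ S.card ∧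
      1000 * S.card ≤ n ∧ AA (1 / 1000) π S N) ≤
      Pr3 n (fun π => ∃ s ∈ (Finset.range (n + 1)).filter
        (fun s => m ≤ s ∧ 1 ≤ s ∧ 1000 * s ≤ n),
        ∃ S ∈ powersetCard s (univ : Finset (Fin n)), ∃ N, AA (1 / 1000) π S N) := by
    refine lt_pr3_mono (fun π => ?_)
    rintro ⟨S, N, hS1, hS2, hS3, hN⟩
    refine ⟨S.card, Finset.mem_filter.mpr ⟨Finset.mem_range.mpr (by omega), ?_, hS2, hS3⟩, S,
      Finset.mem_powersetCard.mpr ⟨Finset.subset_univ _, rfl⟩, N, hN⟩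
    exact Nat.ceil_le.mpr hS1
  refine h1.trans ((lt_pr3_union _ _).trans ?_)
  calc ∑ s ∈ (Finset.range (n + 1)).filter (fun s => m ≤ s ∧ 1 ≤ s ∧ 1000 * s ≤ n),
        Pr3 n (fun π => ∃ S ∈ powersetCard s (univ : Finset (Fin n)), ∃ N, AA (1 / 1000) π S N)
      ≤ ∑ s ∈ (Finset.range (n + 1)).filter (fun s => m ≤ s ∧ 1 ≤ s ∧ 1000 * s ≤ n), ltb s := by
        refine Finset.sum_le_sum (fun s hs => ?_)
        have := (Finset.mem_filter.mp hs).2
        exact lt_fixs this.2.1 this.2.2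
    _ ≤ ∑ s ∈ (Finset.range (n + 1)).image (fun k => k + m), ltb s := by
        refine Finset.sum_le_sum_of_subset_of_nonneg ?_ (fun s _ _ => ltb_nonneg s)
        intro s hs
        have := Finset.mem_filter.mp hs
        refine Finset.mem_image.mpr ⟨s - m, Finset.mem_range.mpr ?_, ?_⟩
        · have := Finset.mem_range.mp this.1
          omega
        · omega
    _ = ∑ k ∈ Finset.range (n + 1), ltb (k + m) := by
        rw [Finset.sum_image]
        intro a _ b _ hab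
        simpa using hab
    _ ≤ ∑' k : ℕ, ltb (k + m) :=
        ((summable_nat_add_iff m).mpr ltb_summable).sum_le_tsum _ (fun k _ => ltb_nonneg _)

end

end Pool.Agent.ST3
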