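import Pool.Agent.Lib.MP_7abaca_co.Defs

/-!
# Three random spanning trees: module PICK
-/

set_option autoImplicit false

namespace Pool.Agent.ST3

open Finset Filter
open scoped Classical

noncomputable section

namespace Pick

lemma iter_fix {n : ℕ} {f : Fin n → Fin n} {v : Fin n} (h : f v = v) (k : ℕ) : f^[k] v = v := by
  induction k with
  | zero => rfl
  | succ k ih => rw [Function.iterate_succ_apply, h, ih]

lemma ne_of_ne_root {n : ℕ} {r : Fin n} {f : Fin n → Fin n} (hf : IsRT r f) {v : Fin n}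
    (hv : v ≠ r) : f v ≠ v := by
  intro h
  obtain ⟨k, hk⟩ := hf.2 v
  rw [iter_fix h] at hk
  exact hv hk

lemma no_two_cycle {n : ℕ} {r : Fin n} {f : Fin n → Fin n} (hf : IsRT r f) {v w : Fin n}
    (hv : v ≠ r) (hw : w ≠ r) (h1 : f v = w) (h2 : f w = v) : False := by
  obtain ⟨k, hk⟩ := hf.2 v
  have key : ∀ k : ℕ, f^[k] v = v ∨ f^[k] v = w := by
    intro k
    induction k with
    | zero => exact Or.inl rfl
    | succ k ih =>
      rw [Function.iterate_succ_apply']
      rcases ih with ih | ih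
      · rw [ih]
        exact Or.inr h1
      · rw [ih]
        exact Or.inl h2
  rcases key k with h | h
  · exact hv (h.symm.trans hk)
  · exact hw (h.symm.trans hk)

/-- the own picks and the picks from outside -/
def AB {n : ℕ} (f : Fin n → Fin n) (S W : Finset (Fin n)) : Finset (Fin n) :=
  univ.filter (fun v => (v ∈ S ∧ f v ∈ W) ∨ (v ∈ W ∧ v ∉ S ∧ f v ∈ S))

/-- the edges inside `W` that meet `S` -/
def EE {n : ℕ} (f : Fin n → Fin n) (S W : Finset (Fin n)) : Finset (Sym2 (Fin n)) :=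
  univ.filter (fun e : Sym2 (Fin n) => e ∈ (gr f).edgeSet ∧ (∃ v ∈ e, v ∈ S) ∧ ∀ v ∈ e, v ∈ W)

lemma card_EE {n : ℕ} {r : Fin n} {f : Fin n → Fin n} (hf : IsRT r f) (S W : Finset (Fin n))
    (hSW : S ⊆ W) : (EE f S W).card = ((AB f S W).erase r).card := by
  symm
  refine Finset.card_bij (fun v _ => s(v, f v)) ?_ ?_ ?_
  · intro v hv
    rw [Finset.mem_erase, AB, Finset.mem_filter] at hv
    obtain ⟨hvr, -, hv⟩ := hv
    rw [EE, Finset.mem_filter]
    refine ⟨Finset.mem_univ _, ?_, ?_, ?_⟩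
    · rw [SimpleGraph.mem_edgeSet, gr, SimpleGraph.fromRel_adj]
      exact ⟨(ne_of_ne_root hf hvr).symm, Or.inl rfl⟩
    · rcases hv with ⟨h1, -⟩ | ⟨-, -, h3⟩
      · exact ⟨v, Sym2.mem_mk_left _ _, h1⟩
      · exact ⟨f v, Sym2.mem_mk_right _ _, h3⟩
    · intro w hw
      rw [Sym2.mem_iff] at hw
      rcases hv with ⟨h1, h2⟩ | ⟨h1, -, h3⟩
      · rcases hw with rfl | rfl
        · exact hSW h1
        · exact h2
      · rcases hw with rfl | rfl
        · exact h1
        · exact hSW h3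
  · intro v hv w hw h
    rw [Finset.mem_erase] at hv hw
    rw [Sym2.eq_iff] at h
    rcases h with ⟨h, -⟩ | ⟨h1, h2⟩
    · exact h
    · exact (no_two_cycle hf hv.1 hw.1 h2 h1.symm).elim
  · intro e he
    rw [EE, Finset.mem_filter] at he
    obtain ⟨-, he1, he2, he3⟩ := he
    have key : ∀ a b : Fin n, e = s(a, b) → a ≠ b → f a = b →
        ∃ v, ∃ _ : v ∈ (AB f S W).erase r, s(v, f v) = e := by
      intro a b hab hne hfa
      refine ⟨a, ?_, by rw [hfa, hab]⟩
      have haW : a ∈ W := he3 a (by rw [hab]; exact Sym2.mem_mk_left _ _)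
      have hbW : b ∈ W := he3 b (by rw [hab]; exact Sym2.mem_mk_right _ _)
      rw [Finset.mem_erase, AB, Finset.mem_filter]
      refine ⟨?_, Finset.mem_univ _, ?_⟩
      · rintro rfl
        rw [hf.1] at hfa
        exact hne hfa
      · by_cases haS : a ∈ S
        · left
          exact ⟨haS, by rw [hfa]; exact hbW⟩
        · right
          refine ⟨haW, haS, ?_⟩
          obtain ⟨v, hv, hvS⟩ := he2
          rw [hab, Sym2.mem_iff] at hv
          rcases hv with rfl | rfl
          · exact absurd hvS haS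
          · rw [hfa]
            exact hvS
    induction e using Sym2.ind with
    | _ a b =>
      rw [SimpleGraph.mem_edgeSet, gr, SimpleGraph.fromRel_adj] at he1
      obtain ⟨hne, h | h⟩ := he1
      · obtain ⟨v, hv, hve⟩ := key a b rfl hne h
        exact ⟨v, hv, hve⟩
      · obtain ⟨v, hv, hve⟩ := key b a Sym2.eq_swap hne.symm h
        exact ⟨v, hv, hve⟩

lemma card_AB {n : ℕ} (f : Fin n → Fin n) (S W : Finset (Fin n)) :
    (AB f S W).card = (univ.filter (fun v => v ∈ S ∧ f v ∈ W)).card +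
      (univ.filter (fun v => v ∈ W ∧ v ∉ S ∧ f v ∈ S)).card := by
  rw [AB, Finset.filter_or, Finset.card_union_of_disjoint]
  rw [Finset.disjoint_filter]
  rintro v - ⟨h1, -⟩ ⟨-, h2, -⟩
  exact h2 h1

lemma card_prod {n : ℕ} (P : Fin 3 → Fin n → Prop) :
    (univ.filter (fun p : Fin 3 × Fin n => P p.1 p.2)).card =
      ∑ i, (univ.filter (fun v => P i v)).card := by
  simp only [Finset.card_filter]
  rw [Fintype.sum_prod_type]

end Pick

open Pick

theorem picks {n : ℕ} (π : Fin 3 → Fin n → Fin n) (hπ : π ∈ RT3 n) (S W : Finset (Fin n))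
    (hSW : S ⊆ W) :
    lstar π S W ≤ (univ.filter (fun p : Fin 3 × Fin n => p.2 ∈ S ∧ π p.1 p.2 ∈ W)).card +
      (univ.filter (fun p : Fin 3 × Fin n => p.2 ∈ W ∧ p.2 ∉ S ∧ π p.1 p.2 ∈ S)).card ∧
    (univ.filter (fun p : Fin 3 × Fin n => p.2 ∈ S ∧ π p.1 p.2 ∈ W)).card +
      (univ.filter (fun p : Fin 3 × Fin n => p.2 ∈ W ∧ p.2 ∉ S ∧ π p.1 p.2 ∈ S)).card ≤
      lstar π S W + 3 := by
  have hroot : ∀ i, ∃ r, IsRT r (π i) := by
    intro i
    rw [RT3, Finset.mem_filter] at hπ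
    have := hπ.2 i
    rw [RT, Finset.mem_filter] at this
    exact this.2
  have h1 : (univ.filter (fun p : Fin 3 × Fin n => p.2 ∈ S ∧ π p.1 p.2 ∈ W)).card =
      ∑ i, (univ.filter (fun v => v ∈ S ∧ π i v ∈ W)).card := by
    convert card_prod (n := n) (fun i v => v ∈ S ∧ π i v ∈ W)
  have h2 : (univ.filter (fun p : Fin 3 × Fin n => p.2 ∈ W ∧ p.2 ∉ S ∧ π p.1 p.2 ∈ S)).card =
      ∑ i, (univ.filter (fun v => v ∈ W ∧ v ∉ S ∧ π i v ∈ S)).card := by
    convert card_prod (n := n) (fun i v => v ∈ W ∧ v ∉ S ∧ π i v ∈ S)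
  have h3 : lstar π S W = ∑ i, (EE (π i) S W).card := rfl
  rw [h1, h2, h3, ← Finset.sum_add_distrib]
  constructor
  · refine Finset.sum_le_sum fun i _ => ?_
    obtain ⟨r, hr⟩ := hroot i
    rw [card_EE hr S W hSW, ← card_AB]
    exact Finset.card_erase_le
  · have h4 : ∑ i : Fin 3, ((EE (π i) S W).card + 1) = ∑ i : Fin 3, (EE (π i) S W).card + 3 := by
      rw [Finset.sum_add_distrib]
      simp
    rw [← h4]
    refine Finset.sum_le_sum fun i _ => ?_
    obtain ⟨r, hr⟩ := hroot i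
    rw [card_EE hr S W hSW, ← card_AB]
    have := Finset.pred_card_le_card_erase (s := AB (π i) S W) (a := r)
    omega

end

end Pool.Agent.ST3
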