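import Pool.Agent.Lib.MP_7abaca_co.Defs
import Pool.Agent.Lib.MP_7abaca_co.Indep

/-!
# Rounding a 2-in 2-out digraph to a 2-matching (module ROUND)
-/

set_option autoImplicit false

namespace Pool.Agent.ST3

open Finset Filter
open scoped Classical

noncomputable section

/-! ### half darts and the conflict graph -/

/-- number of full edges at `w` -/
def rf {n : ℕ} (Q : Finset (Fin n × Fin n)) (w : Fin n) : ℕ :=
  (univ.filter (fun v => (w, v) ∈ Q ∧ (v, w) ∈ Q)).card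

/-- half darts -/
abbrev HD {n : ℕ} (Q : Finset (Fin n × Fin n)) : Type :=
  {p : Fin n × Fin n // p ∈ Q ∧ p.swap ∉ Q}

/-- conflict at the tail of `p` -/
def A1 {n : ℕ} (Q : Finset (Fin n × Fin n)) (p q : HD Q) : Prop :=
  p ≠ q ∧ (p.1.1 = q.1.1 ∨ (p.1.1 = q.1.2 ∧ 1 ≤ rf Q p.1.1))

/-- conflict at the head of `p` -/
def A2 {n : ℕ} (Q : Finset (Fin n × Fin n)) (p q : HD Q) : Prop :=
  p ≠ q ∧ (p.1.2 = q.1.2 ∨ (p.1.2 = q.1.1 ∧ 1 ≤ rf Q p.1.2))

/-- conflict graph -/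
def confl {n : ℕ} (Q : Finset (Fin n × Fin n)) : SimpleGraph (HD Q) where
  Adj p q := A1 Q p q ∨ A2 Q p q
  symm := ⟨by
    rintro p q (⟨h, h' | ⟨h', h''⟩⟩ | ⟨h, h' | ⟨h', h''⟩⟩)
    · exact Or.inl ⟨h.symm, Or.inl h'.symm⟩
    · exact Or.inr ⟨h.symm, Or.inr ⟨h'.symm, h' ▸ h''⟩⟩
    · exact Or.inr ⟨h.symm, Or.inl h'.symm⟩
    · exact Or.inl ⟨h.symm, Or.inr ⟨h'.symm, h' ▸ h''⟩⟩⟩
  loopless := ⟨by
    rintro p (⟨h, _⟩ | ⟨h, _⟩)
    · exact h rfl
    · exact h rfl⟩

theorem rf_pos {n : ℕ} {Q : Finset (Fin n × Fin n)} {w : Fin n} (h : 1 ≤ rf Q w) :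
    ∃ v, (w, v) ∈ Q ∧ (v, w) ∈ Q := by
  unfold rf at h
  obtain ⟨v, hv⟩ := Finset.card_pos.mp (Nat.lt_of_lt_of_le Nat.zero_lt_one h)
  exact ⟨v, (Finset.mem_filter.mp hv).2⟩

/-- three distinct out-neighbours are impossible -/
theorem no3out {n : ℕ} {Q : Finset (Fin n × Fin n)}
    (h1 : ∀ u, (Q.filter (fun p => p.1 = u)).card ≤ 2) {w a b c : Fin n}
    (ha : (w, a) ∈ Q) (hb : (w, b) ∈ Q) (hc : (w, c) ∈ Q) (hab : a ≠ b) (hac : a ≠ c)
    (hbc : b ≠ c) : False := by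
  have h := h1 w
  have : 2 < (Q.filter (fun p => p.1 = w)).card := by
    rw [Finset.two_lt_card]
    refine ⟨(w, a), ?_, (w, b), ?_, (w, c), ?_, ?_, ?_, ?_⟩
    · simp [ha]
    · simp [hb]
    · simp [hc]
    · simp [hab]
    · simp [hac]
    · simp [hbc]
  omega

/-- three distinct in-neighbours are impossible -/
theorem no3in {n : ℕ} {Q : Finset (Fin n × Fin n)}
    (h2 : ∀ v, (Q.filter (fun p => p.2 = v)).card ≤ 2) {w a b c : Fin n}
    (ha : (a, w) ∈ Q) (hb : (b, w) ∈ Q) (hc : (c, w) ∈ Q) (hab : a ≠ b) (hac : a ≠ c)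
    (hbc : b ≠ c) : False := by
  have h := h2 w
  have : 2 < (Q.filter (fun p => p.2 = w)).card := by
    rw [Finset.two_lt_card]
    refine ⟨(a, w), ?_, (b, w), ?_, (c, w), ?_, ?_, ?_, ?_⟩
    · simp [ha]
    · simp [hb]
    · simp [hc]
    · simp [hab]
    · simp [hac]
    · simp [hbc]
  omega

theorem A1_unique {n : ℕ} {Q : Finset (Fin n × Fin n)}
    (h1 : ∀ u, (Q.filter (fun p => p.1 = u)).card ≤ 2)
    (h2 : ∀ v, (Q.filter (fun p => p.2 = v)).card ≤ 2) {p q r : HD Q}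
    (hq : A1 Q p q) (hr : A1 Q p r) : q = r := by
  obtain ⟨⟨w, v⟩, hp1, hp2⟩ := p
  obtain ⟨⟨a, a'⟩, hq1, hq2⟩ := q
  obtain ⟨⟨b, b'⟩, hr1, hr2⟩ := r
  obtain ⟨hpq, hq⟩ := hq
  obtain ⟨hpr, hr⟩ := hr
  simp only [Prod.swap_prod_mk] at hp2 hq2 hr2
  simp only [ne_eq, Subtype.mk.injEq, Prod.mk.injEq] at hpq hpr ⊢
  simp only at hq hr
  rcases hq with rfl | ⟨rfl, hf⟩
  · rcases hr with rfl | ⟨rfl, hf⟩
    · refine ⟨rfl, ?_⟩
      by_contra hne
      exact no3out h1 hp1 hq1 hr1 (fun h => hpq ⟨rfl, h⟩) (fun h => hpr ⟨rfl, h⟩) hne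
    · obtain ⟨c, hc1, hc2⟩ := rf_pos hf
      exact (no3out h1 hp1 hq1 hc1 (fun h => hpq ⟨rfl, h⟩) (fun h => hp2 (h ▸ hc2))
        (fun h => hq2 (h ▸ hc2))).elim
  · rcases hr with rfl | ⟨rfl, -⟩
    · obtain ⟨c, hc1, hc2⟩ := rf_pos hf
      exact (no3out h1 hp1 hr1 hc1 (fun h => hpr ⟨rfl, h⟩) (fun h => hp2 (h ▸ hc2))
        (fun h => hr2 (h ▸ hc2))).elim
    · obtain ⟨c, hc1, hc2⟩ := rf_pos hf
      refine ⟨?_, rfl⟩
      by_contra hne
      exact no3in h2 hq1 hr1 hc2 hne (fun h => hq2 (h ▸ hc1)) (fun h => hr2 (h ▸ hc1))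

theorem A2_unique {n : ℕ} {Q : Finset (Fin n × Fin n)}
    (h1 : ∀ u, (Q.filter (fun p => p.1 = u)).card ≤ 2)
    (h2 : ∀ v, (Q.filter (fun p => p.2 = v)).card ≤ 2) {p q r : HD Q}
    (hq : A2 Q p q) (hr : A2 Q p r) : q = r := by
  obtain ⟨⟨v, w⟩, hp1, hp2⟩ := p
  obtain ⟨⟨a', a⟩, hq1, hq2⟩ := q
  obtain ⟨⟨b', b⟩, hr1, hr2⟩ := r
  obtain ⟨hpq, hq⟩ := hq
  obtain ⟨hpr, hr⟩ := hr
  simp only [Prod.swap_prod_mk] at hp2 hq2 hr2
  simp only [ne_eq, Subtype.mk.injEq, Prod.mk.injEq] at hpq hpr ⊢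
  simp only at hq hr
  rcases hq with rfl | ⟨rfl, hf⟩
  · rcases hr with rfl | ⟨rfl, hf⟩
    · refine ⟨?_, rfl⟩
      by_contra hne
      exact no3in h2 hp1 hq1 hr1 (fun h => hpq ⟨h, rfl⟩) (fun h => hpr ⟨h, rfl⟩) hne
    · obtain ⟨c, hc1, hc2⟩ := rf_pos hf
      exact (no3in h2 hp1 hq1 hc2 (fun h => hpq ⟨h, rfl⟩) (fun h => hp2 (h ▸ hc1))
        (fun h => hq2 (h ▸ hc1))).elim
  · rcases hr with rfl | ⟨rfl, -⟩
    · obtain ⟨c, hc1, hc2⟩ := rf_pos hf
      exact (no3in h2 hp1 hr1 hc2 (fun h => hpr ⟨h, rfl⟩) (fun h => hp2 (h ▸ hc1))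
        (fun h => hr2 (h ▸ hc1))).elim
    · obtain ⟨c, hc1, hc2⟩ := rf_pos hf
      refine ⟨rfl, ?_⟩
      by_contra hne
      exact no3out h1 hq1 hr1 hc1 hne (fun h => hq2 (h ▸ hc2)) (fun h => hr2 (h ▸ hc2))

theorem confl_nbr {n : ℕ} (Q : Finset (Fin n × Fin n)) (p : HD Q) :
    (confl Q).neighborSet p = {q | A1 Q p q} ∪ {q | A2 Q p q} := by
  ext q
  simp [confl, SimpleGraph.mem_neighborSet]

theorem A1_ncard {n : ℕ} {Q : Finset (Fin n × Fin n)}
    (h1 : ∀ u, (Q.filter (fun p => p.1 = u)).card ≤ 2)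
    (h2 : ∀ v, (Q.filter (fun p => p.2 = v)).card ≤ 2) (p : HD Q) :
    {q | A1 Q p q}.ncard ≤ 1 := by
  rw [Set.ncard_le_one_iff]
  intro a b ha hb
  exact A1_unique h1 h2 ha hb

theorem A2_ncard {n : ℕ} {Q : Finset (Fin n × Fin n)}
    (h1 : ∀ u, (Q.filter (fun p => p.1 = u)).card ≤ 2)
    (h2 : ∀ v, (Q.filter (fun p => p.2 = v)).card ≤ 2) (p : HD Q) :
    {q | A2 Q p q}.ncard ≤ 1 := by
  rw [Set.ncard_le_one_iff]
  intro a b ha hb
  exact A2_unique h1 h2 ha hb

theorem confl_deg {n : ℕ} {Q : Finset (Fin n × Fin n)}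
    (h1 : ∀ u, (Q.filter (fun p => p.1 = u)).card ≤ 2)
    (h2 : ∀ v, (Q.filter (fun p => p.2 = v)).card ≤ 2) (p : HD Q) :
    ((confl Q).neighborSet p).ncard ≤ 2 := by
  rw [confl_nbr]
  calc _ ≤ {q | A1 Q p q}.ncard + {q | A2 Q p q}.ncard := Set.ncard_union_le _ _
    _ ≤ 1 + 1 := Nat.add_le_add (A1_ncard h1 h2 p) (A2_ncard h1 h2 p)

theorem deg2_A {n : ℕ} {Q : Finset (Fin n × Fin n)}
    (h1 : ∀ u, (Q.filter (fun p => p.1 = u)).card ≤ 2)
    (h2 : ∀ v, (Q.filter (fun p => p.2 = v)).card ≤ 2) (p : HD Q)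
    (hp : ((confl Q).neighborSet p).ncard = 2) : (∃ q, A1 Q p q) ∧ (∃ q, A2 Q p q) := by
  rw [confl_nbr] at hp
  have h := Set.ncard_union_le {q | A1 Q p q} {q | A2 Q p q}
  have a1 := A1_ncard h1 h2 p
  have a2 := A2_ncard h1 h2 p
  constructor
  · by_contra hn
    have : {q | A1 Q p q} = ∅ := by
      ext q
      simp only [Set.mem_ofPred_eq, Set.mem_empty_iff_false, iff_false]
      exact fun hq => hn ⟨q, hq⟩
    rw [this, Set.ncard_empty] at h
    rw [this] at hp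
    omega
  · by_contra hn
    have : {q | A2 Q p q} = ∅ := by
      ext q
      simp only [Set.mem_ofPred_eq, Set.mem_empty_iff_false, iff_false]
      exact fun hq => hn ⟨q, hq⟩
    rw [this, Set.ncard_empty] at h
    rw [this] at hp
    omega

/-! ### cyclic components -/

/-- darts of the component `c` -/
def cD {n : ℕ} {Q : Finset (Fin n × Fin n)} (c : (confl Q).ConnectedComponent) : Finset (HD Q) :=
  univ.filter (fun x => (confl Q).connectedComponentMk x = c)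

/-- vertices touched by the component `c` -/
def cV {n : ℕ} {Q : Finset (Fin n × Fin n)} (c : (confl Q).ConnectedComponent) : Finset (Fin n) :=
  univ.filter (fun v => ∃ x ∈ cD c, v = x.1.1 ∨ v = x.1.2)

theorem cV_le {n : ℕ} {Q : Finset (Fin n × Fin n)}
    (h1 : ∀ u, (Q.filter (fun p => p.1 = u)).card ≤ 2)
    (h2 : ∀ v, (Q.filter (fun p => p.2 = v)).card ≤ 2) (c : (confl Q).ConnectedComponent)
    (hc : ∀ x ∈ c.supp, ((confl Q).neighborSet x).ncard = 2) : (cV c).card ≤ (cD c).card := by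
  have key := Finset.card_mul_le_card_mul (s := cV c) (t := cD c)
    (fun (v : Fin n) (x : HD Q) => v = x.1.1 ∨ v = x.1.2) (m := 2) (n := 2) ?_ ?_
  · omega
  · intro v hv
    obtain ⟨x, hx, hvx⟩ := (Finset.mem_filter.mp hv).2
    have hxc : (confl Q).connectedComponentMk x = c := (Finset.mem_filter.mp hx).2
    obtain ⟨⟨q, hq⟩, ⟨r, hr⟩⟩ := deg2_A h1 h2 x (hc x hxc)
    have h2c : ∀ y : HD Q, (confl Q).Adj x y → y ∈ cD c := by
      intro y hy
      refine Finset.mem_filter.mpr ⟨Finset.mem_univ _, ?_⟩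
      rw [← hxc]
      exact (SimpleGraph.ConnectedComponent.eq.mpr hy.reachable).symm
    have : 1 < ((cD c).filter (fun y => v = y.1.1 ∨ v = y.1.2)).card := by
      rw [Finset.one_lt_card]
      rcases hvx with hv1 | hv2
      · refine ⟨x, Finset.mem_filter.mpr ⟨hx, Or.inl hv1⟩, q, Finset.mem_filter.mpr
          ⟨h2c q (Or.inl hq), ?_⟩, hq.1⟩
        rcases hq.2 with h | ⟨h, _⟩
        · exact Or.inl (hv1.trans h)
        · exact Or.inr (hv1.trans h)
      · refine ⟨x, Finset.mem_filter.mpr ⟨hx, Or.inr hv2⟩, r, Finset.mem_filter.mpr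
          ⟨h2c r (Or.inr hr), ?_⟩, hr.1⟩
        rcases hr.2 with h | ⟨h, _⟩
        · exact Or.inr (hv2.trans h)
        · exact Or.inl (hv2.trans h)
    exact this
  · intro x hx
    have : (cV c).bipartiteBelow (fun (v : Fin n) (x : HD Q) => v = x.1.1 ∨ v = x.1.2) x ⊆
        {x.1.1, x.1.2} := by
      intro v hv
      have := (Finset.mem_filter.mp hv).2
      simp only [Finset.mem_insert, Finset.mem_singleton]
      exact this
    exact (Finset.card_le_card this).trans Finset.card_le_two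

theorem ein_union {n : ℕ} (π : Fin 3 → Fin n → Fin n) (W : Finset (Fin n)) :
    (univ.filter (fun e : Sym2 (Fin n) => e ∈ (GG π).edgeSet ∧ ∀ v ∈ e, v ∈ W)).card ≤
      estar π W := by
  unfold estar ein
  have hsub : (univ.filter (fun e : Sym2 (Fin n) => e ∈ (GG π).edgeSet ∧ ∀ v ∈ e, v ∈ W)) ⊆
      (univ : Finset (Fin 3)).biUnion (fun i => univ.filter (fun e : Sym2 (Fin n) =>
        e ∈ (gr (π i)).edgeSet ∧ ∀ v ∈ e, v ∈ W)) := by
    intro e he
    obtain ⟨he1, he2⟩ := (Finset.mem_filter.mp he).2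
    have : ∃ i : Fin 3, e ∈ (gr (π i)).edgeSet := by
      induction e using Sym2.ind with
      | _ a b =>
        rw [SimpleGraph.mem_edgeSet] at he1
        rcases he1 with (h | h) | h
        · exact ⟨0, h⟩
        · exact ⟨1, h⟩
        · exact ⟨2, h⟩
    obtain ⟨i, hi⟩ := this
    exact Finset.mem_biUnion.mpr ⟨i, Finset.mem_univ _, Finset.mem_filter.mpr
      ⟨Finset.mem_univ _, hi, he2⟩⟩
  exact (Finset.card_le_card hsub).trans Finset.card_biUnion_le

theorem cD_le_estar {n : ℕ} (π : Fin 3 → Fin n → Fin n) (H : SimpleGraph (Fin n)) (hH : H ≤ GG π)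
    {Q : Finset (Fin n × Fin n)} (hQ : ∀ p ∈ Q, H.Adj p.1 p.2)
    (c : (confl Q).ConnectedComponent) : (cD c).card ≤ estar π (cV c) := by
  refine le_trans ?_ (ein_union π (cV c))
  refine Finset.card_le_card_of_injOn (fun x : HD Q => s(x.1.1, x.1.2)) ?_ ?_
  · intro x hx
    have hx' : x ∈ cD c := hx
    refine Finset.mem_coe.mpr (Finset.mem_filter.mpr ⟨Finset.mem_univ _, ?_, ?_⟩)
    · exact hH (hQ x.1 x.2.1)
    · intro v hv
      rw [Sym2.mem_iff] at hv
      exact Finset.mem_filter.mpr ⟨Finset.mem_univ _, x, hx', hv⟩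
  · intro x _ y _ hxy
    simp only [Sym2.eq_iff] at hxy
    rcases hxy with ⟨h, h'⟩ | ⟨h, h'⟩
    · exact Subtype.ext (Prod.ext h h')
    · exfalso
      apply x.2.2
      have : x.1.swap = y.1 := Prod.ext h' h
      rw [this]
      exact y.2.1

theorem Q_card {n : ℕ} {Q : Finset (Fin n × Fin n)}
    (h1 : ∀ u, (Q.filter (fun p => p.1 = u)).card ≤ 2) : Q.card ≤ 2 * n := by
  have := Finset.card_eq_sum_card_fiberwise (s := Q) (t := (univ : Finset (Fin n)))
    (f := fun p => p.1) (fun _ _ => Finset.mem_coe.mpr (Finset.mem_univ _))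
  rw [this]
  calc ∑ b ∈ (univ : Finset (Fin n)), (Q.filter (fun p => p.1 = b)).card
      ≤ ∑ b ∈ (univ : Finset (Fin n)), 2 := Finset.sum_le_sum (fun b _ => h1 b)
    _ = 2 * n := by simp [mul_comm]

theorem HD_card {n : ℕ} (Q : Finset (Fin n × Fin n)) :
    Fintype.card (HD Q) = (Q.filter (fun p => p.swap ∉ Q)).card := by
  rw [Fintype.card_subtype]
  congr 1
  ext p
  simp

theorem cyc_comps {n : ℕ} (π : Fin 3 → Fin n → Fin n) (H : SimpleGraph (Fin n)) (hH : H ≤ GG π)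
    (ℓ : ℕ) (hℓ : 1 ≤ ℓ) (Q : Finset (Fin n × Fin n)) (hQ : ∀ p ∈ Q, H.Adj p.1 p.2)
    (h1 : ∀ u, (Q.filter (fun p => p.1 = u)).card ≤ 2)
    (h2 : ∀ v, (Q.filter (fun p => p.2 = v)).card ≤ 2) :
    ((univ.filter (fun c : (confl Q).ConnectedComponent =>
        ∀ x ∈ c.supp, ((confl Q).neighborSet x).ncard = 2)).card : ℝ) ≤
      (ℓ : ℝ) ^ 2 * Sh ℓ π + 2 * n / ℓ := by
  set Cy := univ.filter (fun c : (confl Q).ConnectedComponent =>
        ∀ x ∈ c.supp, ((confl Q).neighborSet x).ncard = 2) with hCy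
  have hsplit : (Cy.filter (fun c => (cD c).card ≤ ℓ)).card +
      (Cy.filter (fun c => ¬ (cD c).card ≤ ℓ)).card = Cy.card :=
    Finset.card_filter_add_card_filter_not _
  have hrep : ∀ c : (confl Q).ConnectedComponent, ∃ x : HD Q,
      (confl Q).connectedComponentMk x = c := by
    intro c
    induction c using SimpleGraph.ConnectedComponent.ind with
    | _ x => exact ⟨x, rfl⟩
  choose rep hrep using hrep
  have hrepD : ∀ c, rep c ∈ cD c := fun c =>
    Finset.mem_filter.mpr ⟨Finset.mem_univ _, hrep c⟩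
  -- small components
  have hsmall : (Cy.filter (fun c => (cD c).card ≤ ℓ)).card ≤ ℓ ^ 2 * Sh ℓ π := by
    set SS := univ.filter (fun W : Finset (Fin n) => 1 ≤ W.card ∧ W.card ≤ ℓ ∧
      W.card ≤ estar π W) with hSS
    have hinj : (Cy.filter (fun c => (cD c).card ≤ ℓ)).card ≤
        (SS.sigma (fun W => W ×ˢ W)).card := by
      refine Finset.card_le_card_of_injOn (fun c => (⟨cV c, (rep c).1⟩ :
        Σ _ : Finset (Fin n), Fin n × Fin n)) ?_ ?_
      · intro c hc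
        have hc' := Finset.mem_filter.mp (Finset.mem_coe.mp hc)
        have hcy := (Finset.mem_filter.mp hc'.1).2
        have hle := cV_le h1 h2 c hcy
        refine Finset.mem_coe.mpr (Finset.mem_sigma.mpr ⟨?_, ?_⟩)
        · refine Finset.mem_filter.mpr ⟨Finset.mem_univ _, ?_, hle.trans hc'.2,
            hle.trans (cD_le_estar π H hH hQ c)⟩
          refine Finset.card_pos.mpr ⟨(rep c).1.1, Finset.mem_filter.mpr ⟨Finset.mem_univ _,
            rep c, hrepD c, Or.inl rfl⟩⟩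
        · refine Finset.mem_product.mpr ⟨Finset.mem_filter.mpr ⟨Finset.mem_univ _,
            rep c, hrepD c, Or.inl rfl⟩, Finset.mem_filter.mpr ⟨Finset.mem_univ _,
            rep c, hrepD c, Or.inr rfl⟩⟩
      · intro c _ c' _ hcc
        have h3 : (rep c).1 = (rep c').1 := by
          have := congrArg Sigma.snd hcc
          exact this
        have h4 : rep c = rep c' := Subtype.ext h3
        rw [← hrep c, ← hrep c', h4]
    refine hinj.trans ?_
    rw [Finset.card_sigma]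
    calc ∑ a ∈ SS, (a ×ˢ a).card ≤ ∑ a ∈ SS, ℓ ^ 2 := by
          refine Finset.sum_le_sum (fun W hW => ?_)
          rw [Finset.card_product, ← pow_two]
          exact Nat.pow_le_pow_left (Finset.mem_filter.mp hW).2.2.1 2
      _ = ℓ ^ 2 * Sh ℓ π := by
          rw [Finset.sum_const, smul_eq_mul, mul_comm]
          rfl
  -- large components
  have hlarge : ℓ * (Cy.filter (fun c => ¬ (cD c).card ≤ ℓ)).card ≤ 2 * n := by
    have hfib := Finset.card_eq_sum_card_fiberwise (s := (univ : Finset (HD Q)))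
      (t := (univ : Finset (confl Q).ConnectedComponent))
      (f := fun x => (confl Q).connectedComponentMk x)
      (fun _ _ => Finset.mem_coe.mpr (Finset.mem_univ _))
    have hX : (univ : Finset (HD Q)).card ≤ 2 * n := by
      rw [Finset.card_univ, HD_card]
      exact (Finset.card_filter_le _ _).trans (Q_card h1)
    calc ℓ * (Cy.filter (fun c => ¬ (cD c).card ≤ ℓ)).card
        = ∑ c ∈ Cy.filter (fun c => ¬ (cD c).card ≤ ℓ), ℓ := by
          rw [Finset.sum_const, smul_eq_mul, mul_comm]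
      _ ≤ ∑ c ∈ Cy.filter (fun c => ¬ (cD c).card ≤ ℓ), (cD c).card := by
          refine Finset.sum_le_sum (fun c hc => ?_)
          have := (Finset.mem_filter.mp hc).2
          omega
      _ ≤ ∑ c : (confl Q).ConnectedComponent, (cD c).card :=
          Finset.sum_le_sum_of_subset (Finset.subset_univ _)
      _ = (univ : Finset (HD Q)).card := by
          rw [hfib]
          rfl
      _ ≤ 2 * n := hX
  have hℓ0 : (0 : ℝ) < ℓ := by exact_mod_cast hℓ
  have hb : ((Cy.filter (fun c => ¬ (cD c).card ≤ ℓ)).card : ℝ) ≤ 2 * n / ℓ := by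
    rw [le_div_iff₀ hℓ0]
    have : ((ℓ * (Cy.filter (fun c => ¬ (cD c).card ≤ ℓ)).card : ℕ) : ℝ) ≤ ((2 * n : ℕ) : ℝ) := by
      exact_mod_cast hlarge
    push_cast at this
    linarith
  have ha : ((Cy.filter (fun c => (cD c).card ≤ ℓ)).card : ℝ) ≤ (ℓ : ℝ) ^ 2 * Sh ℓ π := by
    exact_mod_cast hsmall
  have : (Cy.card : ℝ) = ((Cy.filter (fun c => (cD c).card ≤ ℓ)).card : ℝ) +
      ((Cy.filter (fun c => ¬ (cD c).card ≤ ℓ)).card : ℝ) := by
    exact_mod_cast hsplit.symm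
  rw [this]
  exact add_le_add ha hb

/-! ### the 2-matching -/

/-- the 2-matching given by the full edges and the half darts of `I` -/
def MMr {n : ℕ} (Q : Finset (Fin n × Fin n)) (I : Finset (HD Q)) : SimpleGraph (Fin n) where
  Adj a b := a ≠ b ∧ (((a, b) ∈ Q ∧ (b, a) ∈ Q) ∨ (∃ x ∈ I, x.1 = (a, b)) ∨
    (∃ x ∈ I, x.1 = (b, a)))
  symm := ⟨by
    rintro a b ⟨h, h' | h' | h'⟩
    · exact ⟨h.symm, Or.inl ⟨h'.2, h'.1⟩⟩
    · exact ⟨h.symm, Or.inr (Or.inr h')⟩
    · exact ⟨h.symm, Or.inr (Or.inl h')⟩⟩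
  loopless := ⟨fun a h => h.1 rfl⟩

theorem MMr_two {n : ℕ} {Q : Finset (Fin n × Fin n)} (hloop : ∀ a, (a, a) ∉ Q)
    (h1 : ∀ u, (Q.filter (fun p => p.1 = u)).card ≤ 2)
    (h2 : ∀ v, (Q.filter (fun p => p.2 = v)).card ≤ 2) (I : Finset (HD Q))
    (hI : ∀ x ∈ I, ∀ y ∈ I, ¬ (confl Q).Adj x y) : Two (MMr Q I) := by
  intro w
  set f := univ.filter (fun v => (w, v) ∈ Q ∧ (v, w) ∈ Q) with hf
  set o := univ.filter (fun v => ∃ x ∈ I, x.1 = (w, v)) with ho
  set i := univ.filter (fun v => ∃ x ∈ I, x.1 = (v, w)) with hi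
  have hsub : (MMr Q I).neighborSet w ⊆ ((f ∪ o ∪ i : Finset (Fin n)) : Set (Fin n)) := by
    rintro v ⟨_, h | h | h⟩
    · simp [hf, h]
    · simp only [Finset.coe_union, Set.mem_union, Finset.mem_coe]
      exact Or.inl (Or.inr (Finset.mem_filter.mpr ⟨Finset.mem_univ _, h⟩))
    · simp only [Finset.coe_union, Set.mem_union, Finset.mem_coe]
      exact Or.inr (Finset.mem_filter.mpr ⟨Finset.mem_univ _, h⟩)
  have hcard : ((MMr Q I).neighborSet w).ncard ≤ f.card + o.card + i.card := by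
    calc _ ≤ ((f ∪ o ∪ i : Finset (Fin n)) : Set (Fin n)).ncard :=
          Set.ncard_le_ncard hsub (Finset.finite_toSet _)
      _ = (f ∪ o ∪ i).card := Set.ncard_coe_finset _
      _ ≤ (f ∪ o).card + i.card := Finset.card_union_le _ _
      _ ≤ f.card + o.card + i.card := Nat.add_le_add_right (Finset.card_union_le _ _) _
  have hfo : f.card + o.card ≤ 2 := by
    have hdis : Disjoint f o := by
      rw [Finset.disjoint_left]
      intro v hv hv'
      obtain ⟨x, _, hx⟩ := (Finset.mem_filter.mp hv').2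
      apply x.2.2
      rw [hx]
      exact (Finset.mem_filter.mp hv).2.2
    rw [← Finset.card_union_of_disjoint hdis]
    refine le_trans ?_ (h1 w)
    refine Finset.card_le_card_of_injOn (fun v => (w, v)) ?_ ?_
    · intro v hv
      rcases Finset.mem_union.mp (Finset.mem_coe.mp hv) with h | h
      · exact Finset.mem_coe.mpr (Finset.mem_filter.mpr ⟨(Finset.mem_filter.mp h).2.1, rfl⟩)
      · obtain ⟨x, _, hx⟩ := (Finset.mem_filter.mp h).2
        refine Finset.mem_coe.mpr (Finset.mem_filter.mpr ⟨?_, rfl⟩)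
        show (w, v) ∈ Q
        rw [← hx]
        exact x.2.1
    · intro a _ b _ hab
      exact (Prod.mk.inj hab).2
  have hfi : f.card + i.card ≤ 2 := by
    have hdis : Disjoint f i := by
      rw [Finset.disjoint_left]
      intro v hv hv'
      obtain ⟨x, _, hx⟩ := (Finset.mem_filter.mp hv').2
      apply x.2.2
      rw [hx]
      exact (Finset.mem_filter.mp hv).2.1
    rw [← Finset.card_union_of_disjoint hdis]
    refine le_trans ?_ (h2 w)
    refine Finset.card_le_card_of_injOn (fun v => (v, w)) ?_ ?_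
    · intro v hv
      rcases Finset.mem_union.mp (Finset.mem_coe.mp hv) with h | h
      · exact Finset.mem_coe.mpr (Finset.mem_filter.mpr ⟨(Finset.mem_filter.mp h).2.2, rfl⟩)
      · obtain ⟨x, _, hx⟩ := (Finset.mem_filter.mp h).2
        refine Finset.mem_coe.mpr (Finset.mem_filter.mpr ⟨?_, rfl⟩)
        show (v, w) ∈ Q
        rw [← hx]
        exact x.2.1
    · intro a _ b _ hab
      exact (Prod.mk.inj hab).1
  have ho1 : o.card ≤ 1 := by
    rw [Finset.card_le_one]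
    intro a ha b hb
    obtain ⟨x, hx, hxa⟩ := (Finset.mem_filter.mp ha).2
    obtain ⟨y, hy, hyb⟩ := (Finset.mem_filter.mp hb).2
    by_contra hne
    apply hI x hx y hy
    left
    refine ⟨?_, Or.inl ?_⟩
    · rintro rfl
      rw [hxa] at hyb
      exact hne (Prod.mk.inj hyb).2
    · rw [hxa, hyb]
  have hi1 : i.card ≤ 1 := by
    rw [Finset.card_le_one]
    intro a ha b hb
    obtain ⟨x, hx, hxa⟩ := (Finset.mem_filter.mp ha).2
    obtain ⟨y, hy, hyb⟩ := (Finset.mem_filter.mp hb).2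
    by_contra hne
    apply hI x hx y hy
    right
    refine ⟨?_, Or.inl ?_⟩
    · rintro rfl
      rw [hxa] at hyb
      exact hne (Prod.mk.inj hyb).1
    · rw [hxa, hyb]
  have hoi : 1 ≤ f.card → o.card = 0 ∨ i.card = 0 := by
    intro hfp
    by_contra hcon
    push Not at hcon
    obtain ⟨a, ha⟩ := Finset.card_pos.mp (Nat.pos_of_ne_zero hcon.1)
    obtain ⟨b, hb⟩ := Finset.card_pos.mp (Nat.pos_of_ne_zero hcon.2)
    obtain ⟨x, hx, hxa⟩ := (Finset.mem_filter.mp ha).2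
    obtain ⟨y, hy, hyb⟩ := (Finset.mem_filter.mp hb).2
    apply hI x hx y hy
    left
    refine ⟨?_, Or.inr ⟨?_, ?_⟩⟩
    · rintro rfl
      rw [hxa] at hyb
      obtain ⟨h3, h4⟩ := Prod.mk.inj hyb
      have := x.2.1
      rw [hxa, h4] at this
      exact hloop w this
    · rw [hxa, hyb]
    · rw [hxa]
      exact hfp
  rcases Nat.eq_zero_or_pos f.card with h0 | h0
  · omega
  · rcases hoi h0 with h | h
    · omega
    · omega

theorem MMr_edges {n : ℕ} {Q : Finset (Fin n × Fin n)} (hloop : ∀ a, (a, a) ∉ Q)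
    (I : Finset (HD Q)) :
    (Q.filter (fun p => p.swap ∈ Q)).card + 2 * I.card ≤ 2 * (MMr Q I).edgeSet.ncard := by
  set A := Q.filter (fun p => p.swap ∈ Q) with hA
  set B := I.image (fun x => x.1) with hB
  set C := I.image (fun x => x.1.swap) with hC
  have hBc : B.card = I.card := Finset.card_image_of_injective _ Subtype.val_injective
  have hCc : C.card = I.card := Finset.card_image_of_injective _
    (fun x y h => Subtype.ext (Prod.swap_injective h))
  have hAB : Disjoint A B := by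
    rw [Finset.disjoint_left]
    intro p hp hp'
    obtain ⟨x, _, rfl⟩ := Finset.mem_image.mp hp'
    exact x.2.2 (Finset.mem_filter.mp hp).2
  have hABC : Disjoint (A ∪ B) C := by
    rw [Finset.disjoint_left]
    intro p hp hp'
    obtain ⟨x, _, rfl⟩ := Finset.mem_image.mp hp'
    rcases Finset.mem_union.mp hp with h | h
    · exact x.2.2 (Finset.mem_filter.mp h).1
    · obtain ⟨y, _, hy⟩ := Finset.mem_image.mp h
      apply x.2.2
      rw [← hy]
      exact y.2.1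
  have hcard : (A ∪ B ∪ C).card = A.card + 2 * I.card := by
    rw [Finset.card_union_of_disjoint hABC, Finset.card_union_of_disjoint hAB, hBc, hCc]
    ring
  rw [← hcard]
  have hne : ∀ p ∈ Q, p.1 ≠ p.2 := by
    intro p hp h
    apply hloop p.1
    have : (p.1, p.1) = p := Prod.ext rfl h
    rw [this]
    exact hp
  have hadj : ∀ p ∈ A ∪ B ∪ C, (MMr Q I).Adj p.1 p.2 := by
    intro p hp
    rcases Finset.mem_union.mp hp with h | h
    · rcases Finset.mem_union.mp h with h | h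
      · obtain ⟨h3, h4⟩ := Finset.mem_filter.mp h
        exact ⟨hne p h3, Or.inl ⟨h3, h4⟩⟩
      · obtain ⟨x, hx, rfl⟩ := Finset.mem_image.mp h
        exact ⟨hne x.1 x.2.1, Or.inr (Or.inl ⟨x, hx, rfl⟩)⟩
    · obtain ⟨x, hx, rfl⟩ := Finset.mem_image.mp h
      exact ⟨(hne x.1 x.2.1).symm, Or.inr (Or.inr ⟨x, hx, rfl⟩)⟩
  have himg := Finset.card_le_mul_card_image (f := fun p : Fin n × Fin n => s(p.1, p.2))
    (A ∪ B ∪ C) 2 ?_
  · refine himg.trans (Nat.mul_le_mul_left 2 ?_)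
    rw [← Set.ncard_coe_finset]
    refine Set.ncard_le_ncard ?_ (Set.toFinite _)
    intro e he
    obtain ⟨p, hp, rfl⟩ := Finset.mem_image.mp (Finset.mem_coe.mp he)
    exact hadj p hp
  · intro e he
    obtain ⟨p, hp, rfl⟩ := Finset.mem_image.mp he
    have : (A ∪ B ∪ C).filter (fun x : Fin n × Fin n => s(x.1, x.2) = s(p.1, p.2)) ⊆
        {p, p.swap} := by
      intro x hx
      have := (Finset.mem_filter.mp hx).2
      rw [Sym2.eq_iff] at this
      simp only [Finset.mem_insert, Finset.mem_singleton]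
      rcases this with ⟨h, h'⟩ | ⟨h, h'⟩
      · exact Or.inl (Prod.ext h h')
      · exact Or.inr (Prod.ext h h')
    exact (Finset.card_le_card this).trans Finset.card_le_two

theorem round2 {n : ℕ} (π : Fin 3 → Fin n → Fin n) (H : SimpleGraph (Fin n)) (hH : H ≤ GG π)
    (ℓ : ℕ) (hℓ : 1 ≤ ℓ) (Q : Finset (Fin n × Fin n)) (hQ : ∀ p ∈ Q, H.Adj p.1 p.2)
    (h1 : ∀ u, (Q.filter (fun p => p.1 = u)).card ≤ 2)
    (h2 : ∀ v, (Q.filter (fun p => p.2 = v)).card ≤ 2) :
    ∃ M ≤ H, Two M ∧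
      (Q.card : ℝ) ≤ 2 * (M.edgeSet.ncard : ℝ) + (ℓ : ℝ) ^ 2 * Sh ℓ π + 2 * n / ℓ := by
  obtain ⟨I, hI, hcard0⟩ := indep_deg2 (confl Q) (confl_deg h1 h2)
  have hcard : Fintype.card (HD Q) ≤ 2 * I.card +
      (univ.filter (fun c : (confl Q).ConnectedComponent =>
          ∀ x ∈ c.supp, ((confl Q).neighborSet x).ncard = 2)).card := by
    refine (le_of_eq (Fintype.card_congr (Equiv.refl _))).trans (hcard0.trans (le_of_eq ?_))
    refine congrArg (fun x => 2 * I.card + x) (congrArg Finset.card ?_)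
    ext c
    simp only [Finset.mem_filter, Finset.mem_univ, true_and]
  have hloop : ∀ a, (a, a) ∉ Q := fun a h => (hQ _ h).ne rfl
  refine ⟨MMr Q I, ?_, MMr_two hloop h1 h2 I hI, ?_⟩
  · rintro a b ⟨_, h | ⟨x, _, h⟩ | ⟨x, _, h⟩⟩
    · exact hQ _ h.1
    · have := hQ x.1 x.2.1
      rw [h] at this
      exact this
    · have := hQ x.1 x.2.1
      rw [h] at this
      exact this.symm
  · have hedge := MMr_edges hloop I
    have hcyc := cyc_comps π H hH ℓ hℓ Q hQ h1 h2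
    rw [HD_card] at hcard
    have hQs : (Q.filter (fun p => p.swap ∈ Q)).card + (Q.filter (fun p => ¬ p.swap ∈ Q)).card =
      Q.card := Finset.card_filter_add_card_filter_not _
    have hnat : Q.card ≤ 2 * (MMr Q I).edgeSet.ncard +
        (univ.filter (fun c : (confl Q).ConnectedComponent =>
          ∀ x ∈ c.supp, ((confl Q).neighborSet x).ncard = 2)).card := by
      omega
    have hreal : (Q.card : ℝ) ≤ 2 * ((MMr Q I).edgeSet.ncard : ℝ) +
        ((univ.filter (fun c : (confl Q).ConnectedComponent =>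
          ∀ x ∈ c.supp, ((confl Q).neighborSet x).ncard = 2)).card : ℝ) := by
      exact_mod_cast hnat
    linarith

end

end Pool.Agent.ST3
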