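import Pool.Agent.Lib.MP_7abaca_co.Defs

/-!
# Switching an edge of a spanning tree
-/

set_option autoImplicit false

namespace Pool.Agent.ST3

open Finset Filter
open scoped Classical

noncomputable section

/-- reachability after deleting an edge -/
theorem sw_reach {n : ℕ} (T : SimpleGraph (Fin n)) (ρ q : Fin n) {a b : Fin n}
    (h : T.Reachable a b) :
    (T \ SimpleGraph.edge ρ q).Reachable a b ∨
      ((T \ SimpleGraph.edge ρ q).Reachable a ρ ∧ (T \ SimpleGraph.edge ρ q).Reachable q b) ∨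
      ((T \ SimpleGraph.edge ρ q).Reachable a q ∧ (T \ SimpleGraph.edge ρ q).Reachable ρ b) := by
  obtain ⟨w⟩ := h
  induction w with
  | nil => exact Or.inl (SimpleGraph.Reachable.refl _)
  | @cons u v w' huv w ih =>
    by_cases he : (T \ SimpleGraph.edge ρ q).Adj u v
    · rcases ih with h | ⟨h1, h2⟩ | ⟨h1, h2⟩
      · exact Or.inl (he.reachable.trans h)
      · exact Or.inr (Or.inl ⟨he.reachable.trans h1, h2⟩)
      · exact Or.inr (Or.inr ⟨he.reachable.trans h1, h2⟩)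
    · have h3 : (SimpleGraph.edge ρ q).Adj u v := by
        by_contra hcon
        exact he (by rw [SimpleGraph.sdiff_adj]; exact ⟨huv, hcon⟩)
      rw [SimpleGraph.edge_adj] at h3
      rcases h3.1 with ⟨rfl, rfl⟩ | ⟨rfl, rfl⟩
      · rcases ih with h | ⟨h1, h2⟩ | ⟨h1, h2⟩
        · exact Or.inr (Or.inl ⟨SimpleGraph.Reachable.refl _, h⟩)
        · exact Or.inr (Or.inl ⟨SimpleGraph.Reachable.refl _, h2⟩)
        · exact Or.inl h2
      · rcases ih with h | ⟨h1, h2⟩ | ⟨h1, h2⟩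
        · exact Or.inr (Or.inr ⟨SimpleGraph.Reachable.refl _, h⟩)
        · exact Or.inl h2
        · exact Or.inr (Or.inr ⟨SimpleGraph.Reachable.refl _, h2⟩)

/-- an edge of the path from `z` to `p` which leaves the component of `z` -/
theorem sw_exists {n : ℕ} (F T : SimpleGraph (Fin n)) (hT : T.IsTree) (z p : Fin n)
    (hzp : ¬ F.Reachable z p) :
    ∃ ρ q, F.Reachable z ρ ∧ ¬ F.Reachable z q ∧ T.Adj ρ q ∧
      ¬ (T \ SimpleGraph.edge ρ q).Reachable z p := by
  obtain ⟨w, hw⟩ := hT.connected.exists_isPath z p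
  obtain ⟨d, hd, h1, h2⟩ := w.exists_boundary_dart {v | F.Reachable z v}
    (SimpleGraph.Reachable.refl _) hzp
  refine ⟨d.fst, d.snd, h1, h2, d.adj, ?_⟩
  intro hr
  obtain ⟨w', hw'⟩ := hr.exists_isPath
  have hle : T \ SimpleGraph.edge d.fst d.snd ≤ T := sdiff_le
  have heq := hT.isAcyclic.path_unique ⟨w, hw⟩ ⟨w'.mapLe hle, hw'.mapLe hle⟩
  have heq' : w = w'.mapLe hle := congrArg Subtype.val heq
  have hmem : s(d.fst, d.snd) ∈ w.edges := by
    rw [SimpleGraph.Walk.edges]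
    exact List.mem_map.2 ⟨d, hd, rfl⟩
  rw [heq'] at hmem
  have hmem' : s(d.fst, d.snd) ∈ w'.edges := by
    simpa using hmem
  have := w'.adj_of_mem_edges hmem'
  rw [SimpleGraph.sdiff_adj, SimpleGraph.edge_adj] at this
  exact this.2 ⟨Or.inl ⟨rfl, rfl⟩, d.adj.ne⟩

theorem sw_tree {n : ℕ} (T : SimpleGraph (Fin n)) (hT : T.IsTree) (z p ρ q : Fin n)
    (hr : ¬ (T \ SimpleGraph.edge ρ q).Reachable z p) :
    ((T \ SimpleGraph.edge ρ q) ⊔ SimpleGraph.edge z p).IsTree := by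
  have hle : T \ SimpleGraph.edge ρ q ≤ (T \ SimpleGraph.edge ρ q) ⊔ SimpleGraph.edge z p :=
    le_sup_left
  have hzp : ((T \ SimpleGraph.edge ρ q) ⊔ SimpleGraph.edge z p).Reachable z p := by
    by_cases h : z = p
    · subst h; exact SimpleGraph.Reachable.refl _
    · refine SimpleGraph.Adj.reachable ?_
      rw [SimpleGraph.sup_adj, SimpleGraph.edge_adj]
      exact Or.inr ⟨Or.inl ⟨rfl, rfl⟩, h⟩
  have hρq : ((T \ SimpleGraph.edge ρ q) ⊔ SimpleGraph.edge z p).Reachable ρ q := by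
    rcases sw_reach T ρ q (hT.connected.preconnected z p) with h | ⟨h1, h2⟩ | ⟨h1, h2⟩
    · exact absurd h hr
    · exact ((h1.mono hle).symm.trans hzp).trans (h2.mono hle).symm
    · exact ((h2.mono hle).trans hzp.symm).trans (h1.mono hle)
  have := hT.connected.nonempty
  refine ⟨⟨fun a b => ?_⟩, SimpleGraph.IsAcyclic.sup_edge_of_not_reachable hr
    (hT.isAcyclic.anti sdiff_le)⟩
  rcases sw_reach T ρ q (hT.connected.preconnected a b) with h | ⟨h1, h2⟩ | ⟨h1, h2⟩
  · exact h.mono hle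
  · exact ((h1.mono hle).trans hρq).trans (h2.mono hle)
  · exact ((h1.mono hle).trans hρq.symm).trans (h2.mono hle)

theorem sw_recover {n : ℕ} (T : SimpleGraph (Fin n)) (z p ρ q : Fin n) (hadj : T.Adj ρ q)
    (hr : ¬ (T \ SimpleGraph.edge ρ q).Reachable z p) :
    (((T \ SimpleGraph.edge ρ q) ⊔ SimpleGraph.edge z p) \ SimpleGraph.edge z p) ⊔
      SimpleGraph.edge ρ q = T := by
  have hna : ¬ (T \ SimpleGraph.edge ρ q).Adj z p := fun h => hr h.reachable
  ext a b
  simp only [SimpleGraph.sup_adj, SimpleGraph.sdiff_adj, SimpleGraph.edge_adj] at hna ⊢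
  constructor
  · rintro (⟨⟨h1, -⟩ | h1, h2⟩ | ⟨⟨rfl, rfl⟩ | ⟨rfl, rfl⟩, -⟩)
    · exact h1
    · exact absurd h1 h2
    · exact hadj
    · exact hadj.symm
  · intro h
    by_cases h1 : (a = ρ ∧ b = q ∨ a = q ∧ b = ρ) ∧ a ≠ b
    · exact Or.inr h1
    · left
      refine ⟨Or.inl ⟨h, h1⟩, ?_⟩
      rintro ⟨⟨rfl, rfl⟩ | ⟨rfl, rfl⟩, h3⟩
      · exact hna ⟨h, h1⟩
      · refine hna ⟨h.symm, ?_⟩
        rintro ⟨⟨rfl, rfl⟩ | ⟨rfl, rfl⟩, h4⟩
        · exact h1 ⟨Or.inr ⟨rfl, rfl⟩, h3⟩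
        · exact h1 ⟨Or.inl ⟨rfl, rfl⟩, h3⟩

/-- SWITCH -/
theorem switch {n : ℕ} (F : SimpleGraph (Fin n)) (Λ : Finset (Fin n)) (z p : Fin n)
    (hz : z ∉ Λ) (hp : p ∉ Λ) (hzp : ¬ F.Reachable z p) :
    (NT F Λ).card ≤ (F.connectedComponentMk z).supp.ncard * n *
      (NT (F ⊔ SimpleGraph.edge z p) Λ).card := by
  have key : ∀ T : SimpleGraph (Fin n), ∃ e : Fin n × Fin n, T.IsTree →
      F.Reachable z e.1 ∧ ¬ F.Reachable z e.2 ∧ T.Adj e.1 e.2 ∧
      ¬ (T \ SimpleGraph.edge e.1 e.2).Reachable z p := by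
    intro T
    by_cases hT : T.IsTree
    · obtain ⟨ρ, q, h⟩ := sw_exists F T hT z p hzp
      exact ⟨(ρ, q), fun _ => h⟩
    · exact ⟨(z, z), fun h => absurd h hT⟩
  choose e he using key
  have hcard : (F.connectedComponentMk z).supp.ncard =
      (univ.filter (fun v => F.Reachable z v)).card := by
    rw [← Set.ncard_coe_finset]
    congr 1
    ext v
    simp only [SimpleGraph.ConnectedComponent.mem_supp_iff, SimpleGraph.ConnectedComponent.eq,
      coe_filter, mem_univ, true_and]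
    exact ⟨fun h => h.symm, fun h => h.symm⟩
  have hmaps : Set.MapsTo (fun T : SimpleGraph (Fin n) => ((e T).1, (e T).2,
      (T \ SimpleGraph.edge (e T).1 (e T).2) ⊔ SimpleGraph.edge z p)) (NT F Λ : Set _)
      (((univ.filter (fun v => F.Reachable z v)) ×ˢ (univ : Finset (Fin n)) ×ˢ
        (NT (F ⊔ SimpleGraph.edge z p) Λ) : Finset _) : Set _) := by
    intro T hT
    simp only [NT, coe_filter, mem_univ, true_and] at hT
    obtain ⟨hT1, hT2, hT3⟩ := hT
    obtain ⟨h1, h2, h3, h4⟩ := he T hT1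
    simp only [coe_product, Set.mem_prod, coe_filter, mem_univ, true_and, coe_univ, Set.mem_univ,
      NT]
    refine ⟨h1, sw_tree T hT1 z p _ _ h4, ?_, ?_⟩
    · refine sup_le_sup_right ?_ _
      intro a b hab
      rw [SimpleGraph.sdiff_adj, SimpleGraph.edge_adj]
      refine ⟨hT2 hab, ?_⟩
      rintro ⟨⟨ha, hb⟩ | ⟨ha, hb⟩, -⟩
      · subst ha hb
        exact h2 (h1.trans hab.reachable)
      · subst ha hb
        exact h2 (h1.trans hab.symm.reachable)
    · intro a b hab hnab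
      rw [SimpleGraph.sup_adj] at hab hnab
      rcases hab with hab | hab
      · rw [SimpleGraph.sdiff_adj] at hab
        exact hT3 a b hab.1 fun h => hnab (Or.inl h)
      · exact absurd (Or.inr hab) hnab
  have hinj : Set.InjOn (fun T : SimpleGraph (Fin n) => ((e T).1, (e T).2,
      (T \ SimpleGraph.edge (e T).1 (e T).2) ⊔ SimpleGraph.edge z p)) (NT F Λ : Set _) := by
    intro T hT T' hT' heq
    simp only [NT, coe_filter, mem_univ, true_and] at hT hT'
    obtain ⟨h1, h2, h3, h4⟩ := he T hT.1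
    obtain ⟨h1', h2', h3', h4'⟩ := he T' hT'.1
    simp only [Prod.mk.injEq] at heq
    obtain ⟨e1, e2, e3⟩ := heq
    rw [← sw_recover T z p _ _ h3 h4, ← sw_recover T' z p _ _ h3' h4', e3, e1, e2]
  have := card_le_card_of_injOn _ hmaps hinj
  rw [card_product, card_product, card_univ, Fintype.card_fin] at this
  rw [hcard, mul_assoc]
  exact this

end

end Pool.Agent.ST3
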