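import Pool.Agent.Lib.MP_7abaca_co.SprCore
import Pool.Agent.Lib.MP_7abaca_co.Switch

/-!
# Sprinkling by double counting (module SPR)
-/

set_option autoImplicit false

namespace Pool.Agent.ST3

open Finset Filter
open scoped Classical

noncomputable section

theorem spr {n : ℕ} (δ : ℝ) (hδ : 0 < δ) (hδ1 : δ ≤ 1) (K m : ℕ) (hK : 1 ≤ K)
    (Λ : Finset (Fin n)) (A F0 : SimpleGraph (Fin n)) (hFA : F0 ≤ A)
    (Φ : SimpleGraph (Fin n) → ℕ) (bad : SimpleGraph (Fin n) → Prop)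
    (hΦ : ∀ H H', H ≤ H' → Φ H' ≤ Φ H) (hbad : ∀ H H', H ≤ H' → bad H → bad H')
    (himp : ∀ H, A ≤ H → ¬ bad H → 0 < Φ H →
      ∃ S : Finset (Fin n), δ * n < (S.card : ℝ) ∧ ∀ z ∈ S, ∃ Y : Finset (Fin n),
        δ * n < (Y.card : ℝ) ∧ ∀ y ∈ Y, y ≠ z → ¬ H.Adj z y → Φ (H ⊔ SimpleGraph.edge z y) < Φ H)
    (hedge : ∀ T ∈ NT F0 Λ, (A ⊔ T).edgeSet.ncard ≤ 3 * n)
    (hΛ : (Λ.card : ℝ) ≤ δ * n / 8) (hbig : (big F0 K : ℝ) ≤ δ * n / 16)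
    (hm : (2 * m * K : ℝ) ≤ δ * n / 16) (hn1 : (48 / δ : ℝ) ≤ δ * n / 8)
    (hn2 : (K + 1 : ℝ) ≤ δ * n / 8) :
    (((NT F0 Λ).filter (fun T => ¬ bad (A ⊔ T) ∧ 0 < Φ (A ⊔ T))).card : ℝ) ≤
      2 ^ (Φ A) * (1 - δ ^ 2 / (16 * K)) ^ m * (NT F0 Λ).card := by
  have h := Spr.spr_aux δ hδ hδ1 K m hK Λ A F0 (fun F z p h1 h2 h3 => switch F Λ z p h1 h2 h3) Φ bad hΦ hbad himp hedge hΛ hbig hm hn1 hn2 m F0
    le_rfl (fun a b h1 h2 => absurd h1 h2) le_rfl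
  rw [sup_eq_left.mpr hFA] at h
  have h2 : ((NT F0 Λ).filter (fun T => ¬ bad (A ⊔ T) ∧ 0 < Φ (A ⊔ T))).card =
      Spr.bb Λ A Φ bad F0 := by
    unfold Spr.bb Spr.BadP
    congr
  rw [h2]
  exact h

end
end Pool.Agent.ST3
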