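import Pool.Agent.Lib.MP_7abaca_co.Defs
import Pool.Agent.Lib.MP_7abaca_co.TC
import Pool.Agent.Lib.MP_7abaca_co.Det
import Pool.Agent.Lib.MP_7abaca_co.Pick

/-!
# Large trapped sets have the pattern AA (module TRAPB)
-/

set_option autoImplicit false

namespace Pool.Agent.ST3

open Finset Filter
open scoped Classical

noncomputable section

theorem TrapB.gr_adj {n : ℕ} (f : Fin n → Fin n) (a b : Fin n) :
    (gr f).Adj a b ↔ a ≠ b ∧ (f a = b ∨ f b = a) := by
  unfold gr
  rw [SimpleGraph.fromRel_adj]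

theorem TrapB.core_of_unflagged {n : ℕ} (T : SimpleGraph (Fin n)) (ω : Sym2 (Fin n) → Bool)
    (a b : Fin n) (h : T.Adj a b) (hn : ¬ (core T (keep T ω)).Adj a b) : ω s(a, b) = true := by
  by_contra hω
  apply hn
  refine ⟨h, Or.inl ⟨h, ?_⟩⟩
  simpa using hω

theorem TrapB.lstar_le_estar {n : ℕ} (π : Fin 3 → Fin n → Fin n) (S W : Finset (Fin n)) :
    lstar π S W ≤ estar π W := by
  unfold lstar estar ein
  apply Finset.sum_le_sum
  intro i _
  apply Finset.card_le_card
  intro e he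
  simp only [mem_filter, mem_univ, true_and] at he ⊢
  exact ⟨he.1, he.2.2⟩

theorem TrapB.estar_eq {n : ℕ} (π : Fin 3 → Fin n → Fin n) (S : Finset (Fin n)) :
    lstar π S S ≤ estar π S := TrapB.lstar_le_estar π S S

/-- the outside picks are flagged boundary edges of the third tree -/
theorem TrapB.out_flag {n : ℕ} (π : Fin 3 → Fin n → Fin n) (ω : Sym2 (Fin n) → Bool)
    (S W : Finset (Fin n)) (hSW : S ⊆ W)
    (hcl : ∀ y ∈ S, ∀ w, (G0 π ω).Adj y w → w ∈ W) :
    (univ.filter (fun p : Fin 3 × Fin n => p.2 ∈ S ∧ π p.1 p.2 ∉ W)).card ≤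
      (univ.filter (fun e : Sym2 (Fin n) => e ∈ (gr (π 2)).edgeSet ∧ ω e = true ∧
        (∃ v ∈ e, v ∈ W) ∧ (∃ v ∈ e, v ∉ W))).card := by
  have key : ∀ p : Fin 3 × Fin n, p.2 ∈ S → π p.1 p.2 ∉ W →
      p.1 = 2 ∧ (gr (π 2)).Adj p.2 (π 2 p.2) ∧ ω s(p.2, π 2 p.2) = true := by
    rintro ⟨i, y⟩ hy hw
    simp only at hy hw ⊢
    have hne : y ≠ π i y := by
      intro h
      apply hw
      rw [← h]
      exact hSW hy
    have hadj : (gr (π i)).Adj y (π i y) := (TrapB.gr_adj _ _ _).2 ⟨hne, Or.inl rfl⟩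
    have hnot : ¬ (G0 π ω).Adj y (π i y) := fun h => hw (hcl y hy _ h)
    unfold G0 at hnot
    simp only [SimpleGraph.sup_adj, not_or] at hnot
    fin_cases i
    · exact absurd hadj hnot.1.1
    · exact absurd hadj hnot.1.2
    · exact ⟨rfl, hadj, TrapB.core_of_unflagged _ _ _ _ hadj hnot.2⟩
  apply Finset.card_le_card_of_injOn (fun p => s(p.2, π 2 p.2))
  · intro p hp
    simp only [coe_filter, mem_univ, true_and, Set.mem_ofPred_eq] at hp ⊢
    obtain ⟨h1, h2, h3⟩ := key p hp.1 hp.2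
    refine ⟨h2, h3, ⟨p.2, Sym2.mem_mk_left _ _, hSW hp.1⟩, ⟨π 2 p.2, Sym2.mem_mk_right _ _, ?_⟩⟩
    rw [← h1]
    exact hp.2
  · intro p hp q hq heq
    simp only [coe_filter, mem_univ, true_and, Set.mem_ofPred_eq] at hp hq
    obtain ⟨h1, -, -⟩ := key p hp.1 hp.2
    obtain ⟨h1', -, -⟩ := key q hq.1 hq.2
    simp only [Sym2.eq_iff] at heq
    rcases heq with ⟨h, -⟩ | ⟨h, h'⟩
    · exact Prod.ext (h1.trans h1'.symm) h
    · exfalso
      apply hq.2
      rw [h1', ← h]
      exact hSW hp.1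

/-- the outside picks into `S` are flagged boundary edges of the third tree -/
theorem TrapB.in_flag {n : ℕ} (π : Fin 3 → Fin n → Fin n) (ω : Sym2 (Fin n) → Bool)
    (S W : Finset (Fin n)) (hSW : S ⊆ W)
    (hcl : ∀ y ∈ S, ∀ w, (G0 π ω).Adj y w → w ∈ W) :
    (univ.filter (fun p : Fin 3 × Fin n => p.2 ∉ W ∧ π p.1 p.2 ∈ S)).card ≤
      (univ.filter (fun e : Sym2 (Fin n) => e ∈ (gr (π 2)).edgeSet ∧ ω e = true ∧
        (∃ v ∈ e, v ∈ W) ∧ (∃ v ∈ e, v ∉ W))).card := by
  have key : ∀ p : Fin 3 × Fin n, p.2 ∉ W → π p.1 p.2 ∈ S →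
      p.1 = 2 ∧ (gr (π 2)).Adj (π 2 p.2) p.2 ∧ ω s(π 2 p.2, p.2) = true := by
    rintro ⟨i, y⟩ hy hw
    simp only at hy hw ⊢
    have hne : π i y ≠ y := by
      intro h
      apply hy
      rw [← h]
      exact hSW hw
    have hadj : (gr (π i)).Adj (π i y) y := (TrapB.gr_adj _ _ _).2 ⟨hne, Or.inr rfl⟩
    have hnot : ¬ (G0 π ω).Adj (π i y) y := fun h => hy (hcl _ hw _ h)
    unfold G0 at hnot
    simp only [SimpleGraph.sup_adj, not_or] at hnot
    fin_cases i
    · exact absurd hadj hnot.1.1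
    · exact absurd hadj hnot.1.2
    · exact ⟨rfl, hadj, TrapB.core_of_unflagged _ _ _ _ hadj hnot.2⟩
  apply Finset.card_le_card_of_injOn (fun p => s(π 2 p.2, p.2))
  · intro p hp
    simp only [coe_filter, mem_univ, true_and, Set.mem_ofPred_eq] at hp ⊢
    obtain ⟨h1, h2, h3⟩ := key p hp.1 hp.2
    refine ⟨h2, h3, ⟨π 2 p.2, Sym2.mem_mk_left _ _, ?_⟩, ⟨p.2, Sym2.mem_mk_right _ _, hp.1⟩⟩
    rw [← h1]
    exact hSW hp.2
  · intro p hp q hq heq
    simp only [coe_filter, mem_univ, true_and, Set.mem_ofPred_eq] at hp hq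
    obtain ⟨h1, -, -⟩ := key p hp.1 hp.2
    obtain ⟨h1', -, -⟩ := key q hq.1 hq.2
    simp only [Sym2.eq_iff] at heq
    rcases heq with ⟨-, h⟩ | ⟨h, h'⟩
    · exact Prod.ext (h1.trans h1'.symm) h
    · exfalso
      apply hp.1
      rw [h', ← h1']
      exact hSW hq.2

theorem trapbig : ∃ s0 : ℕ, ∀ (n : ℕ) (π : Fin 3 → Fin n → Fin n) (ω : Sym2 (Fin n) → Bool)
    (M : SimpleGraph (Fin n)) (x : Fin n) (S : Finset (Fin n)), π ∈ RT3 n → s0 ≤ S.card →
    1000 * S.card ≤ n → Trap (G0 π ω) (GG π) M x S →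
    (∀ v, 3 ≤ ((core (gr (π 2)) (keep (gr (π 2)) ω)).connectedComponentMk v).supp.ncard) →
    (∀ W : Finset (Fin n), (W.card : ℝ) ≤ 3 * S.card →
      (estar π W : ℝ) ≤ (1 + 1 / 20000) * W.card) →
    (∀ W : Finset (Fin n), S ⊆ W → W.card ≤ 3 * S.card →
      ((GG π).induce (W : Set (Fin n))).Connected →
      ((univ.filter (fun e : Sym2 (Fin n) => e ∈ (gr (π 2)).edgeSet ∧ ω e = true ∧
        (∃ v ∈ e, v ∈ W) ∧ (∃ v ∈ e, v ∉ W))).card : ℝ) ≤ 1 / 20000 * W.card) →
    ∃ N, AA (1 / 1000) π S N := by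
  refine ⟨40000, ?_⟩
  intro n π ω M x S hπ hs hsn hT hc3 hest hLF
  have hSlt : S.card < n := by omega
  have hSW : S ⊆ tw M S := by
    unfold tw
    exact subset_union_left
  -- the counting lemmas
  have c1 := trap_count1 π _ _ M le_rfl x S hT
  have c2 := trap_count2 _ _ M x S hT
  have c3 := trap_count3 _ _ M x S hT
  have cd := det π hπ (core (gr (π 2)) (keep (gr (π 2)) ω)) (GG π) M (fun a b h => h.1) hc3
    le_rfl x S hSlt hT
  obtain ⟨p1, p2⟩ := picks π hπ S (tw M S) hSW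
  obtain ⟨-, p3⟩ := picks π hπ S S (Finset.Subset.refl S)
  have hle := TrapB.lstar_le_estar π S (tw M S)
  have hleS := TrapB.lstar_le_estar π S S
  have hWcard : (tw M S).card ≤ 3 * S.card := by omega
  have hestW := hest (tw M S) (by exact_mod_cast hWcard)
  have hcl : ∀ y ∈ S, ∀ w, (G0 π ω).Adj y w → w ∈ tw M S := by
    intro y hy w hw
    unfold tw
    rw [mem_union, mem_filter]
    rcases hT.closed y hy w hw with h | h
    · exact Or.inl h
    · exact Or.inr ⟨mem_univ _, h⟩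
  have hconn : ((GG π).induce ((tw M S : Finset (Fin n)) : Set (Fin n))).Connected := by
    have hset : ((tw M S : Finset (Fin n)) : Set (Fin n)) =
        {w | w ∈ S ∨ ∃ y ∈ S, M.Adj y w} := by
      ext w
      unfold tw
      simp
    rw [hset]
    exact hT.conn
  have hflag := hLF (tw M S) hSW hWcard hconn
  have hout := TrapB.out_flag π ω S (tw M S) hSW hcl
  have hin := TrapB.in_flag π ω S (tw M S) hSW hcl
  -- abbreviations
  set W := tw M S with hWdef
  set N := W \ S with hNdef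
  have hmemN : ∀ v, v ∈ N ↔ v ∈ W ∧ v ∉ S := by
    intro v
    rw [hNdef, Finset.mem_sdiff]
  have hWN : ∀ v, v ∈ W ↔ v ∈ S ∨ v ∈ N := by
    intro v
    rw [hmemN]
    constructor
    · intro h
      by_cases hv : v ∈ S
      · exact Or.inl hv
      · exact Or.inr ⟨h, hv⟩
    · rintro (h | h)
      · exact hSW h
      · exact h.1
  have hNcard : N.card + S.card = W.card := by
    rw [hNdef]
    exact Finset.card_sdiff_add_card_eq_card hSW
  -- rewriting the sets
  have eout : (univ.filter (fun p : Fin 3 × Fin n =>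
      p.2 ∈ S ∧ π p.1 p.2 ∉ S ∧ π p.1 p.2 ∉ N)) =
      (univ.filter (fun p : Fin 3 × Fin n => p.2 ∈ S ∧ π p.1 p.2 ∉ W)) := by
    apply Finset.filter_congr
    intro p _
    rw [hWN (π p.1 p.2), not_or]
  have eqO : (univ.filter (fun p : Fin 3 × Fin n =>
      p.2 ∉ S ∧ p.2 ∉ N ∧ π p.1 p.2 ∈ S)) =
      (univ.filter (fun p : Fin 3 × Fin n => p.2 ∉ W ∧ π p.1 p.2 ∈ S)) := by
    apply Finset.filter_congr
    intro p _
    rw [hWN p.2, not_or, and_assoc]
  have eqN : (univ.filter (fun p : Fin 3 × Fin n =>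
      p.2 ∈ N ∧ π p.1 p.2 ∈ S)) =
      (univ.filter (fun p : Fin 3 × Fin n => p.2 ∈ W ∧ p.2 ∉ S ∧ π p.1 p.2 ∈ S)) := by
    apply Finset.filter_congr
    intro p _
    rw [hmemN p.2, and_assoc]
  have hown : (univ.filter (fun p : Fin 3 × Fin n => p.2 ∈ S ∧ π p.1 p.2 ∈ W)).card +
      (univ.filter (fun p : Fin 3 × Fin n => p.2 ∈ S ∧ π p.1 p.2 ∉ W)).card = 3 * S.card := by
    have h1 : (univ.filter (fun p : Fin 3 × Fin n => p.2 ∈ S)).card = 3 * S.card := by
      have : (univ.filter (fun p : Fin 3 × Fin n => p.2 ∈ S)) = (univ : Finset (Fin 3)) ×ˢ S := by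
        ext p
        simp
      rw [this, card_product]
      simp
    rw [← h1, ← Finset.card_filter_add_card_filter_not
      (s := univ.filter (fun p : Fin 3 × Fin n => p.2 ∈ S)) (fun p => π p.1 p.2 ∈ W),
      filter_filter, filter_filter]
  have hinS0 : (univ.filter (fun p : Fin 3 × Fin n => p.2 ∈ S ∧ p.2 ∉ S ∧ π p.1 p.2 ∈ S)).card
      = 0 := by
    rw [card_eq_zero, filter_eq_empty_iff]
    rintro p _ ⟨h1, h2, -⟩
    exact h2 h1
  rw [hinS0, add_zero] at p3
  -- numeric names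
  set own := (univ.filter (fun p : Fin 3 × Fin n => p.2 ∈ S ∧ π p.1 p.2 ∈ W)).card with hownd
  set out := (univ.filter (fun p : Fin 3 × Fin n => p.2 ∈ S ∧ π p.1 p.2 ∉ W)).card with houtd
  set qO := (univ.filter (fun p : Fin 3 × Fin n => p.2 ∉ W ∧ π p.1 p.2 ∈ S)).card with hqOd
  set qN := (univ.filter (fun p : Fin 3 × Fin n => p.2 ∈ W ∧ p.2 ∉ S ∧ π p.1 p.2 ∈ S)).card
    with hqNd
  set inS := (univ.filter (fun p : Fin 3 × Fin n => p.2 ∈ S ∧ π p.1 p.2 ∈ S)).card with hinSd
  set fl := (univ.filter (fun e : Sym2 (Fin n) => e ∈ (gr (π 2)).edgeSet ∧ ω e = true ∧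
        (∃ v ∈ e, v ∈ W) ∧ (∃ v ∈ e, v ∉ W))).card with hfld
  -- real versions
  have rs : (40000 : ℝ) ≤ S.card := by exact_mod_cast hs
  have rW : (W.card : ℝ) ≤ 3 * S.card := by exact_mod_cast hWcard
  have rN : (N.card : ℝ) + S.card = W.card := by exact_mod_cast hNcard
  have r1 : (W.card : ℝ) + estar π S ≤ lstar π S W + ein M S + 1 := by exact_mod_cast c1
  have r2 : (W.card : ℝ) + 2 * ein M S + 1 ≤ 3 * S.card := by exact_mod_cast c2
  have rd : (W.card : ℝ) + 1 ≤ lstar π S W := by exact_mod_cast cd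
  have rle : (lstar π S W : ℝ) ≤ estar π W := by exact_mod_cast hle
  have rleS : (lstar π S S : ℝ) ≤ estar π S := by exact_mod_cast hleS
  have rp1 : (lstar π S W : ℝ) ≤ own + qN := by exact_mod_cast p1
  have rp2 : (own : ℝ) + qN ≤ lstar π S W + 3 := by exact_mod_cast p2
  have rp3 : (inS : ℝ) ≤ lstar π S S + 3 := by exact_mod_cast p3
  have rown : (own : ℝ) + out = 3 * S.card := by exact_mod_cast hown
  have rout : (out : ℝ) ≤ fl := by exact_mod_cast hout
  have rin : (qO : ℝ) ≤ fl := by exact_mod_cast hin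
  have rqN0 : (0 : ℝ) ≤ qN := Nat.cast_nonneg _
  have re0 : (0 : ℝ) ≤ ein M S := Nat.cast_nonneg _
  have bout : (out : ℝ) ≤ 3 / 20000 * S.card := by linarith
  have bqO : (qO : ℝ) ≤ 3 / 20000 * S.card := by linarith
  have bW : (W.card : ℝ) ≥ 3 * S.card - 6 / 20000 * S.card - 3 := by linarith
  have be : (ein M S : ℝ) ≤ 3 / 20000 * S.card + 1 := by linarith
  have bqN : (qN : ℝ) ≤ 6 / 20000 * S.card + 3 := by linarith
  have binS : (inS : ℝ) ≤ 6 / 20000 * S.card + 5 := by linarith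
  -- zero
  have hzero : (N.filter (fun v => ∀ i, ∀ y ∈ S, π i y ≠ v)).card ≤ qN := by
    rw [hqNd]
    have hsub : (N.filter (fun v => ∀ i, ∀ y ∈ S, π i y ≠ v)) ⊆
        (univ.filter (fun p : Fin 3 × Fin n => p.2 ∈ W ∧ p.2 ∉ S ∧ π p.1 p.2 ∈ S)).image
          Prod.snd := by
      intro v hv
      rw [mem_filter] at hv
      obtain ⟨hvN, hv⟩ := hv
      have hvW := ((hmemN v).1 hvN)
      have hy : ∃ y ∈ S, M.Adj y v := by
        have := hvW.1
        rw [hWdef] at this
        unfold tw at this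
        rw [mem_union, mem_filter] at this
        rcases this with h | h
        · exact absurd h hvW.2
        · exact h.2
      obtain ⟨y, hyS, hyv⟩ := hy
      have hG : (GG π).Adj y v := hT.le hyv
      unfold GG at hG
      simp only [SimpleGraph.sup_adj] at hG
      have hi : ∃ i, (gr (π i)).Adj y v := by
        rcases hG with (h | h) | h
        · exact ⟨0, h⟩
        · exact ⟨1, h⟩
        · exact ⟨2, h⟩
      obtain ⟨i, hi⟩ := hi
      rw [TrapB.gr_adj] at hi
      rcases hi.2 with h | h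
      · exact absurd h (hv i y hyS)
      · rw [mem_image]
        refine ⟨(i, v), ?_, rfl⟩
        rw [mem_filter]
        refine ⟨mem_univ _, hvW.1, hvW.2, ?_⟩
        simp only
        rw [h]
        exact hyS
    exact (card_le_card hsub).trans card_image_le
  have hdbl : (N.filter (fun v => 2 ≤ (S.filter (fun y => (GG π).Adj y v)).card)).card ≤
      (N.filter (fun v =>
        2 ≤ (univ.filter (fun p : Fin 3 × Fin n => p.2 ∈ S ∧ π p.1 p.2 = v)).card)).card + qN := by
    have hsub : (N.filter (fun v => 2 ≤ (S.filter (fun y => (GG π).Adj y v)).card)) ⊆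
        (N.filter (fun v =>
          2 ≤ (univ.filter (fun p : Fin 3 × Fin n => p.2 ∈ S ∧ π p.1 p.2 = v)).card)) ∪
        (univ.filter (fun p : Fin 3 × Fin n => p.2 ∈ W ∧ p.2 ∉ S ∧ π p.1 p.2 ∈ S)).image
          Prod.snd := by
      intro v hv
      rw [mem_filter] at hv
      obtain ⟨hvN, hv⟩ := hv
      have hvW := ((hmemN v).1 hvN)
      rw [mem_union]
      by_cases hpick : ∃ i, π i v ∈ S
      · right
        obtain ⟨i, hi⟩ := hpick
        rw [mem_image]
        refine ⟨(i, v), ?_, rfl⟩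
        rw [mem_filter]
        exact ⟨mem_univ _, hvW.1, hvW.2, hi⟩
      · left
        push Not at hpick
        rw [mem_filter]
        refine ⟨hvN, hv.trans ?_⟩
        have hex : ∀ y : Fin n, ∃ i : Fin 3, y ∈ S → (GG π).Adj y v → π i y = v := by
          intro y
          by_cases hy : y ∈ S ∧ (GG π).Adj y v
          · obtain ⟨hyS, hG⟩ := hy
            unfold GG at hG
            simp only [SimpleGraph.sup_adj] at hG
            have hi : ∃ i, (gr (π i)).Adj y v := by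
              rcases hG with (h | h) | h
              · exact ⟨0, h⟩
              · exact ⟨1, h⟩
              · exact ⟨2, h⟩
            obtain ⟨i, hi⟩ := hi
            rw [TrapB.gr_adj] at hi
            refine ⟨i, fun _ _ => ?_⟩
            rcases hi.2 with h | h
            · exact h
            · exfalso
              apply hpick i
              rw [h]
              exact hyS
          · exact ⟨0, fun h1 h2 => absurd ⟨h1, h2⟩ hy⟩
        choose ι hι using hex
        apply Finset.card_le_card_of_injOn (fun y => (ι y, y))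
        · intro y hy
          simp only [coe_filter, mem_univ, true_and, Set.mem_ofPred_eq] at hy ⊢
          exact ⟨hy.1, hι y hy.1 hy.2⟩
        · intro y _ y' _ h
          exact (Prod.ext_iff.1 h).2
    calc _ ≤ _ := card_le_card hsub
      _ ≤ _ := card_union_le _ _
      _ ≤ _ := Nat.add_le_add_left card_image_le _
  have rzero : (((N.filter (fun v => ∀ i, ∀ y ∈ S, π i y ≠ v)).card : ℕ) : ℝ) ≤ qN := by
    exact_mod_cast hzero
  have rdbl := (Nat.cast_le (α := ℝ)).2 (c3.trans (Nat.add_le_add_right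
    (Nat.add_le_add_right hdbl _) _))
  push_cast at rdbl
  refine ⟨N, ⟨?_, ?_, ?_, ?_, ?_, ?_, ?_, ?_, ?_, ?_⟩⟩
  · rw [hNdef]
    exact disjoint_sdiff
  · omega
  · linarith
  · rw [eout]
    linarith
  · linarith
  · linarith
  · linarith
  · rw [eqN]
    linarith
  · rw [eqO]
    linarith
  · rw [eout, eqN]
    omega

end

end Pool.Agent.ST3
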