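import Pool.Agent.Lib.MP_7abaca_co.Defs

/-!
# Chernoff bound in the function model
-/

set_option autoImplicit false

namespace Pool.Agent.ST3

open Finset Filter
open scoped Classical

noncomputable section

theorem ubf_fac {n : ℕ} (h : Fin n → Fin n → ℝ) :
    ∑ f : Fin 3 → Fin n → Fin n, ∏ i, ∏ v, h v (f i v) = (∏ v, ∑ u, h v u) ^ 3 := by
  have h1 : ∏ v, ∑ u, h v u = ∑ g : Fin n → Fin n, ∏ v, h v (g v) := by
    have := Finset.prod_univ_sum (fun _ : Fin n => (univ : Finset (Fin n))) h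
    rw [this, Fintype.piFinset_univ]
  rw [h1]
  have h2 := Finset.prod_univ_sum (fun _ : Fin 3 => (univ : Finset (Fin n → Fin n)))
    (fun _ g => ∏ v, h v (g v))
  rw [Fintype.piFinset_univ] at h2
  rw [← h2]
  simp

theorem ubf_A {n : ℕ} (A B : Finset (Fin n)) (hAB : Disjoint A B) (th : ℝ) (v : Fin n)
    (hv : v ∈ A) :
    ∑ u, th ^ ((if v ∈ A ∧ u ∉ B then 1 else 0) + (if u ∈ A ∧ v ∉ B then 1 else 0)) =
      (B.card : ℝ) + th * ((n : ℝ) - A.card - B.card) + th ^ 2 * A.card := by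
  have hvB : v ∉ B := Finset.disjoint_left.1 hAB hv
  have h1 : ∀ u, th ^ ((if v ∈ A ∧ u ∉ B then 1 else 0) + (if u ∈ A ∧ v ∉ B then 1 else 0)) =
      th + (if u ∈ B then 1 - th else 0) + (if u ∈ A then th ^ 2 - th else 0) := by
    intro u
    by_cases hA : u ∈ A
    · have hB : u ∉ B := Finset.disjoint_left.1 hAB hA
      simp [hA, hB, hv, hvB]
    · by_cases hB : u ∈ B
      · simp [hA, hB]
      · simp [hA, hB, hv]
  rw [Finset.sum_congr rfl fun u _ => h1 u, Finset.sum_add_distrib, Finset.sum_add_distrib,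
    Finset.sum_const, ← Finset.sum_filter, ← Finset.sum_filter, Finset.sum_const,
    Finset.sum_const]
  simp only [Finset.card_univ, Fintype.card_fin, nsmul_eq_mul, Finset.filter_univ_mem]
  ring

theorem ubf_C {n : ℕ} (A B : Finset (Fin n)) (th : ℝ) (v : Fin n)
    (hv : v ∉ A) (hvB : v ∉ B) :
    ∑ u, th ^ ((if v ∈ A ∧ u ∉ B then 1 else 0) + (if u ∈ A ∧ v ∉ B then 1 else 0)) =
      (n : ℝ) - A.card + th * A.card := by
  have h1 : ∀ u, th ^ ((if v ∈ A ∧ u ∉ B then 1 else 0) + (if u ∈ A ∧ v ∉ B then 1 else 0)) =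
      1 + (if u ∈ A then th - 1 else 0) := by
    intro u
    by_cases hA : u ∈ A
    · simp [hA, hv, hvB]
    · simp [hA, hv]
  rw [Finset.sum_congr rfl fun u _ => h1 u, Finset.sum_add_distrib,
    Finset.sum_const, ← Finset.sum_filter, Finset.sum_const]
  simp only [Finset.card_univ, Fintype.card_fin, nsmul_eq_mul, Finset.filter_univ_mem]
  ring

theorem ubf_B {n : ℕ} (A B : Finset (Fin n)) (th : ℝ) (v : Fin n)
    (hv : v ∉ A) (hvB : v ∈ B) :
    ∑ u, th ^ ((if v ∈ A ∧ u ∉ B then 1 else 0) + (if u ∈ A ∧ v ∉ B then 1 else 0)) =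
      (n : ℝ) := by
  simp [hv, hvB]

theorem ubf_prod {n : ℕ} (A B : Finset (Fin n)) (hAB : Disjoint A B) (th : ℝ) :
    ∏ v, ∑ u, th ^ ((if v ∈ A ∧ u ∉ B then 1 else 0) + (if u ∈ A ∧ v ∉ B then 1 else 0)) =
      ((B.card : ℝ) + th * ((n : ℝ) - A.card - B.card) + th ^ 2 * A.card) ^ A.card *
        ((n : ℝ) - A.card + th * A.card) ^ (n - A.card - B.card) * (n : ℝ) ^ B.card := by
  have hU : ∀ F : Fin n → ℝ, ∏ v, F v =
      (∏ v ∈ A, F v) * (∏ v ∈ B, F v) * ∏ v ∈ (A ∪ B)ᶜ, F v := fun F => by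
    rw [← Finset.prod_union hAB, ← Finset.prod_union disjoint_compl_right, Finset.union_compl]
  have hc : ((A ∪ B)ᶜ : Finset (Fin n)).card = n - A.card - B.card := by
    rw [Finset.card_compl, Finset.card_union_of_disjoint hAB, Fintype.card_fin]
    omega
  rw [hU,
    Finset.prod_congr rfl fun v hv => ubf_A A B hAB th v hv,
    Finset.prod_congr rfl fun v hv => ubf_B A B th v (Finset.disjoint_right.1 hAB hv) hv,
    Finset.prod_congr rfl fun v hv => ubf_C A B th v
      (fun h => (Finset.mem_compl.1 hv) (Finset.mem_union_left _ h))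
      (fun h => (Finset.mem_compl.1 hv) (Finset.mem_union_right _ h)),
    Finset.prod_const, Finset.prod_const, Finset.prod_const, hc]
  ring

theorem ubf {n : ℕ} (A B : Finset (Fin n)) (hAB : Disjoint A B) (th : ℝ) (h0 : 0 < th)
    (h1 : th ≤ 1) (b : ℝ) :
    ((univ.filter (fun f : Fin 3 → Fin n → Fin n => (est f A B : ℝ) ≤ b)).card : ℝ) ≤
      ((n : ℝ) ^ n) ^ 3 * ubx n A.card B.card th b := by
  have hts : A.card + B.card ≤ n := by
    have := Finset.card_le_univ (A ∪ B)
    rwa [Finset.card_union_of_disjoint hAB, Fintype.card_fin] at this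
  have hpow : ∀ f : Fin 3 → Fin n → Fin n, th ^ est f A B = ∏ i, ∏ v,
      th ^ ((if v ∈ A ∧ f i v ∉ B then 1 else 0) + (if f i v ∈ A ∧ v ∉ B then 1 else 0)) := by
    intro f
    unfold est
    rw [← Finset.prod_pow_eq_pow_sum]
    refine Finset.prod_congr rfl fun i _ => ?_
    rw [← Finset.prod_pow_eq_pow_sum]
  have hch : ((univ.filter (fun f : Fin 3 → Fin n → Fin n => (est f A B : ℝ) ≤ b)).card : ℝ) ≤
      ∑ f : Fin 3 → Fin n → Fin n, th ^ (-b) * th ^ est f A B := by
    have hnn : ∀ f : Fin 3 → Fin n → Fin n, 0 ≤ th ^ (-b) * th ^ est f A B := fun f => by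
      positivity
    calc ((univ.filter (fun f : Fin 3 → Fin n → Fin n => (est f A B : ℝ) ≤ b)).card : ℝ)
        = ∑ f ∈ univ.filter (fun f : Fin 3 → Fin n → Fin n => (est f A B : ℝ) ≤ b), (1 : ℝ) := by
          simp
      _ ≤ ∑ f ∈ univ.filter (fun f : Fin 3 → Fin n → Fin n => (est f A B : ℝ) ≤ b),
            th ^ (-b) * th ^ est f A B := by
          refine Finset.sum_le_sum fun f hf => ?_
          have hf' := (Finset.mem_filter.1 hf).2
          rw [← Real.rpow_natCast, ← Real.rpow_add h0]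
          exact Real.one_le_rpow_of_pos_of_le_one_of_nonpos h0 h1 (by linarith)
      _ ≤ ∑ f : Fin 3 → Fin n → Fin n, th ^ (-b) * th ^ est f A B :=
          Finset.sum_le_sum_of_subset_of_nonneg (Finset.filter_subset _ _) fun f _ _ => hnn f
  refine hch.trans (le_of_eq ?_)
  rw [← Finset.mul_sum, Finset.sum_congr rfl fun f _ => hpow f,
    ubf_fac (fun v u => th ^ ((if v ∈ A ∧ u ∉ B then 1 else 0) +
      (if u ∈ A ∧ v ∉ B then 1 else 0))), ubf_prod A B hAB th]
  unfold ubx
  set X : ℝ := (B.card : ℝ) + th * ((n : ℝ) - A.card - B.card) + th ^ 2 * A.card with hX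
  set Y : ℝ := (n : ℝ) - A.card + th * A.card with hY
  have key : X ^ A.card * Y ^ (n - A.card - B.card) * (n : ℝ) ^ B.card =
      (n : ℝ) ^ n * ((X / n) ^ A.card * (Y / n) ^ (n - A.card - B.card)) := by
    rcases Nat.eq_zero_or_pos n with hn | hn
    · have ha : A.card = 0 := by omega
      have hb : B.card = 0 := by omega
      rw [ha, hb, hn]
      simp
    · have hn' : (n : ℝ) ≠ 0 := by positivity
      have e1 : (n : ℝ) ^ n = (n : ℝ) ^ A.card * (n : ℝ) ^ (n - A.card - B.card) *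
          (n : ℝ) ^ B.card := by
        rw [← pow_add, ← pow_add]
        congr 1
        omega
      rw [e1, div_pow, div_pow]
      field_simp
  rw [key]
  have e2 : (X / n) ^ (3 * A.card) = ((X / n) ^ A.card) ^ 3 := by rw [← pow_mul, mul_comm]
  have e3 : (Y / n) ^ (3 * (n - A.card - B.card)) = ((Y / n) ^ (n - A.card - B.card)) ^ 3 := by
    rw [← pow_mul, mul_comm]
  rw [e2, e3]
  ring

end

end Pool.Agent.ST3
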