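import Pool.Agent.Lib.MP_7abaca_co.Defs
import Pool.Agent.Lib.MP_7abaca_co.AI

/-! # MP_7abaca_co, module UBE: exponent estimate for the union bound -/

set_option autoImplicit false

namespace Pool.Agent.ST3

open Finset Filter
open scoped Classical

noncomputable section

/-- binomial term bound -/
theorem ube_choose (n t : ℕ) (ht : t ≤ n) (a b : ℝ) (ha : 0 ≤ a) (hb : 0 ≤ b) :
    (n.choose t : ℝ) * (a ^ t * b ^ (n - t)) ≤ (a + b) ^ n := by
  rw [add_pow]
  have : a ^ t * b ^ (n - t) * (n.choose t : ℝ) ≤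
      ∑ m ∈ range (n + 1), a ^ m * b ^ (n - m) * (n.choose m : ℝ) :=
    Finset.single_le_sum (f := fun m => a ^ m * b ^ (n - m) * (n.choose m : ℝ))
      (fun i _ => by positivity) (Finset.mem_range.2 (by omega))
  linarith

/-- multinomial bound -/
theorem ube_multi (n t s : ℕ) (hts : t + s ≤ n) (a c : ℝ) (ha : 0 ≤ a) (hc : 0 ≤ c)
    (hac : a + c ≤ 1) :
    (n.choose t : ℝ) * ((n - t).choose s : ℝ) * (a ^ t * c ^ s * (1 - a - c) ^ (n - t - s)) ≤ 1 := by
  have h1 := ube_choose (n - t) s (by omega) c (1 - a - c) hc (by linarith)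
  have h2 := ube_choose n t (by omega) a (1 - a) ha (by linarith)
  have e1 : c + (1 - a - c) = 1 - a := by ring
  have e2 : a + (1 - a) = 1 := by ring
  rw [e1] at h1
  rw [e2, one_pow] at h2
  calc (n.choose t : ℝ) * ((n - t).choose s : ℝ) * (a ^ t * c ^ s * (1 - a - c) ^ (n - t - s))
      = (n.choose t : ℝ) * (a ^ t * (((n - t).choose s : ℝ) *
          (c ^ s * (1 - a - c) ^ (n - t - s)))) := by ring
    _ ≤ (n.choose t : ℝ) * (a ^ t * (1 - a) ^ (n - t)) := by gcongr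
    _ ≤ 1 := h2

theorem ube_exp_log (x : ℝ) (m : ℕ) (hx : 0 < x ∨ (x = 0 ∧ m = 0)) :
    x ^ m = Real.exp (m * Real.log x) := by
  rcases hx with hx | ⟨hx, hm⟩
  · rw [mul_comm, ← Real.rpow_natCast, Real.rpow_def_of_pos hx]
  · subst hm; simp

theorem ub_exp (δ : ℝ) (hδ : 0 < δ) (hδ1 : δ < 1) : ∃ γ > 0, γ ≤ δ / 4 ∧ ∃ n0 : ℕ, ∀ n ≥ n0,
    ∀ t s : ℕ, γ * n ≤ (s : ℝ) → s ≤ t → t + s ≤ n → δ / 2 * n ≤ (t : ℝ) →
      (n.choose t : ℝ) * ((n - t).choose s : ℝ) *
        ubx n t s ((s : ℝ) / (2 * n)) (2 * t - 2 * s + 5 * γ * n + 6) ≤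
      Real.exp (-(δ / 100) * n) := by
  -- choice of γ
  set β : ℝ := δ / 2000 with hβ
  have hβ0 : 0 < β := by positivity
  refine ⟨2 * β ^ 2, by positivity, ?_, ?_⟩
  · rw [hβ]; nlinarith
  set γ : ℝ := 2 * β ^ 2 with hγ
  have hγ0 : 0 < γ := by positivity
  have hlog : Real.log (2 / γ) ≤ 2 / β := by
    have e : 2 / γ = (1 / β) ^ 2 := by rw [hγ]; field_simp
    rw [e, Real.log_pow]
    have := Real.log_le_sub_one_of_pos (show (0 : ℝ) < 1 / β by positivity)
    have h2 : (2 : ℝ) / β = 2 * (1 / β) := by ring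
    rw [h2]; push_cast; linarith
  have hlog0 : 0 ≤ Real.log (2 / γ) := by
    apply Real.log_nonneg
    rw [le_div_iff₀ hγ0]
    rw [hγ, hβ]; nlinarith
  have hγlog : 5 * γ * Real.log (2 / γ) ≤ δ / 100 := by
    calc 5 * γ * Real.log (2 / γ) ≤ 5 * γ * (2 / β) := by gcongr
      _ = 20 * β := by rw [hγ]; field_simp; ring
      _ = δ / 100 := by rw [hβ]; ring
  obtain ⟨n0, hn0⟩ := exists_nat_ge (6 * Real.log (2 / γ) / (δ / 200))
  refine ⟨n0 + 1, fun n hn t s hγs hst hts hδt => ?_⟩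
  have hn1 : 1 ≤ n := by omega
  have hnR : (0 : ℝ) < n := by exact_mod_cast hn1
  have hn0' : 6 * Real.log (2 / γ) ≤ δ / 200 * n := by
    have h1 : (n0 : ℝ) ≤ n := by exact_mod_cast (by omega : n0 ≤ n)
    have h2 := hn0.trans h1
    rw [div_le_iff₀ (by positivity)] at h2
    linarith
  set a : ℝ := (t : ℝ) / n with ha
  set c : ℝ := (s : ℝ) / n with hc
  have ht_eq : (t : ℝ) = a * n := by rw [ha]; field_simp
  have hs_eq : (s : ℝ) = c * n := by rw [hc]; field_simp
  have hc_ge : γ ≤ c := by rw [hc, le_div_iff₀ hnR]; exact hγs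
  have hc0 : 0 < c := lt_of_lt_of_le hγ0 hc_ge
  have hca : c ≤ a := by rw [hc, ha]; gcongr
  have ha0 : 0 < a := lt_of_lt_of_le hc0 hca
  have hac : a + c ≤ 1 := by
    rw [ha, hc, ← add_div, div_le_one hnR]; exact_mod_cast hts
  have haδ : δ / 2 ≤ a := by rw [ha, le_div_iff₀ hnR]; exact hδt
  have hr_eq : ((n - t - s : ℕ) : ℝ) = (1 - a - c) * n := by
    rw [Nat.cast_sub (by omega), Nat.cast_sub (by omega), ht_eq, hs_eq]; ring
  have hAI := ai a c hc0 hca hac
  -- the multinomial bound in exponential form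
  have hM := ube_multi n t s hts a c ha0.le hc0.le hac
  have hρcase : 0 < 1 - a - c ∨ (1 - a - c = 0 ∧ n - t - s = 0) := by
    rcases (by linarith : 0 ≤ 1 - a - c).lt_or_eq with h | h
    · exact Or.inl h
    · right
      refine ⟨h.symm, ?_⟩
      have : ((n - t - s : ℕ) : ℝ) = 0 := by rw [hr_eq, ← h, zero_mul]
      exact_mod_cast this
  rw [ube_exp_log a t (Or.inl ha0), ube_exp_log c s (Or.inl hc0), ube_exp_log _ _ hρcase,
    ← Real.exp_add, ← Real.exp_add] at hM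
  -- the bases
  have hth : (s : ℝ) / (2 * n) = c / 2 := by rw [hc]; field_simp
  have hb1 : ((s : ℝ) + c / 2 * ((n : ℝ) - t - s) + (c / 2) ^ 2 * t) / n =
      c + c / 2 * (1 - a - c) + (c / 2) ^ 2 * a := by
    rw [ht_eq, hs_eq]; field_simp
  have hb2 : ((n : ℝ) - t + c / 2 * t) / n = 1 - a + c / 2 * a := by
    rw [ht_eq]; field_simp
  have hB1 : 0 < c + c / 2 * (1 - a - c) + (c / 2) ^ 2 * a := by
    have : 0 ≤ 1 - a - c := by linarith
    positivity
  have hB2 : 0 < 1 - a + c / 2 * a := by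
    have : 0 ≤ 1 - a := by linarith
    positivity
  unfold ubx
  rw [hth, hb1, hb2, ube_exp_log _ _ (Or.inl hB1), ube_exp_log _ _ (Or.inl hB2),
    Real.rpow_def_of_pos (by positivity : (0 : ℝ) < c / 2), ← Real.exp_add, ← Real.exp_add]
  have hCpos : 0 ≤ (n.choose t : ℝ) * ((n - t).choose s : ℝ) := by positivity
  set E1 := (t : ℝ) * Real.log a + (s : ℝ) * Real.log c +
    ((n - t - s : ℕ) : ℝ) * Real.log (1 - a - c) with hE1
  have hM' : (n.choose t : ℝ) * ((n - t).choose s : ℝ) ≤ Real.exp (-E1) := by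
    rw [Real.exp_neg, ← one_div, le_div_iff₀ (Real.exp_pos _)]
    exact hM
  refine le_trans (mul_le_mul_of_nonneg_right hM' (Real.exp_pos _).le) ?_
  rw [← Real.exp_add]
  apply Real.exp_le_exp.2
  have hlc : Real.log (c / 2) = - Real.log (2 / c) := by
    rw [← Real.log_inv]; congr 1; field_simp
  have hlc2 : Real.log (2 / c) ≤ Real.log (2 / γ) := by
    apply Real.log_le_log (by positivity)
    gcongr
  rw [hE1]
  push_cast
  rw [hr_eq, ht_eq, hs_eq]
  have key := mul_le_mul_of_nonneg_left hAI hnR.le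
  have e6 : (5 * γ * n + 6) * Real.log (2 / c) ≤ (5 * γ * n + 6) * Real.log (2 / γ) := by
    gcongr
  have e7 : 5 * γ * n * Real.log (2 / γ) ≤ δ / 100 * n := by
    have := mul_le_mul_of_nonneg_right hγlog hnR.le
    linarith
  have e8 : δ / 2 * n ≤ a * n := by gcongr
  rw [hlc] at key ⊢
  set L := Real.log (2 / c) with hL
  set M := Real.log (2 / γ) with hMM
  set P1 := Real.log a
  set P2 := Real.log c
  set P3 := Real.log (1 - a - c)
  set P4 := Real.log (c + c / 2 * (1 - a - c) + (c / 2) ^ 2 * a)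
  set P5 := Real.log (1 - a + c / 2 * a)
  have goal1 : -(a * n * P1 + c * n * P2 + (1 - a - c) * n * P3) +
      (-L * -(2 * (a * n) - 2 * (c * n) + 5 * γ * n + 6) + 3 * (a * n) * P4 +
        3 * ((1 - a - c) * n) * P5) =
      n * (-(a * P1) - c * P2 - (1 - a - c) * P3 - 2 * (a - c) * -L + 3 * a * P4 +
        3 * (1 - a - c) * P5) + (5 * γ * n + 6) * L := by ring
  rw [goal1]
  have e9 : (5 * γ * n + 6) * M = 5 * γ * n * M + 6 * M := by ring
  linarith [key, e6, e7, e8, hn0', e9]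

end

end Pool.Agent.ST3
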