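import Pool.Agent.Lib.MP_7abaca_co.Defs
import Pool.Agent.Lib.MP_7abaca_co.UBF
import Pool.Agent.Lib.MP_7abaca_co.UBE

/-! # MP_7abaca_co, module UBS: union bound over pairs `(A, B)` -/

set_option autoImplicit false

namespace Pool.Agent.ST3

open Finset Filter
open scoped Classical

noncomputable section

/-- one tree: the functional darts are real darts, up to the loop at the root -/
theorem ubs_one {n : ℕ} (π : Fin n → Fin n) (hπ : π ∈ RT n) (A B : Finset (Fin n)) :
    ∑ v, ((if v ∈ A ∧ π v ∉ B then 1 else 0) + (if π v ∈ A ∧ v ∉ B then 1 else 0)) ≤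
      dar (gr π) A B + 2 := by
  obtain ⟨r, hr, hreach⟩ := (mem_filter.1 hπ).2
  have hfix : ∀ v, π v = v → v = r := by
    intro v hv
    obtain ⟨k, hk⟩ := hreach v
    rw [Function.iterate_fixed hv] at hk
    exact hk
  have hno2 : ∀ v w, π v = w → π w = v → v = w := by
    intro v w h1 h2
    obtain ⟨k, hk⟩ := hreach v
    have hk2 : ∀ j, π^[2 * j] v = v := by
      intro j
      induction j with
      | zero => rfl
      | succ j ih =>
        rw [show 2 * (j + 1) = 2 * j + 1 + 1 by ring, Function.iterate_succ_apply',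
          Function.iterate_succ_apply', ih, h1, h2]
    -- v reaches r, r is fixed, so v = r
    have h3 : ∀ j, k ≤ j → π^[j] v = r := by
      intro j hj
      obtain ⟨i, rfl⟩ := Nat.exists_eq_add_of_le hj
      rw [add_comm, Function.iterate_add_apply, hk, Function.iterate_fixed hr]
    have h4 : v = r := by rw [← hk2 k]; exact h3 _ (by omega)
    rw [h4] at h1
    rw [h4, ← h1, hr]
  -- split off the root
  rw [← Finset.add_sum_erase univ _ (mem_univ r)]
  have hroot : (if r ∈ A ∧ π r ∉ B then 1 else 0) + (if π r ∈ A ∧ r ∉ B then 1 else 0) ≤ 2 := by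
    split_ifs <;> omega
  have hrest : ∑ v ∈ univ.erase r, ((if v ∈ A ∧ π v ∉ B then 1 else 0) +
      (if π v ∈ A ∧ v ∉ B then 1 else 0)) ≤ dar (gr π) A B := by
    rw [Finset.sum_add_distrib, ← Finset.card_filter, ← Finset.card_filter]
    set S1 := (univ.erase r).filter (fun v => v ∈ A ∧ π v ∉ B) with hS1
    set S2 := (univ.erase r).filter (fun v => π v ∈ A ∧ v ∉ B) with hS2
    have i1 : (S1.image (fun v => (v, π v))).card = S1.card := by
      apply card_image_of_injective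
      intro a b hab
      exact (Prod.mk.inj hab).1
    have i2 : (S2.image (fun v => (π v, v))).card = S2.card := by
      apply card_image_of_injective
      intro a b hab
      exact (Prod.mk.inj hab).2
    rw [← i1, ← i2, ← card_union_of_disjoint]
    · apply card_le_card
      intro p hp
      rw [mem_union, mem_image, mem_image] at hp
      rw [mem_filter]
      refine ⟨mem_univ _, ?_⟩
      rcases hp with ⟨v, hv, rfl⟩ | ⟨v, hv, rfl⟩
      · rw [hS1, mem_filter, mem_erase] at hv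
        refine ⟨hv.2.1, hv.2.2, ?_⟩
        rw [gr, SimpleGraph.fromRel_adj]
        exact ⟨fun h => hv.1.1 (hfix v h.symm), Or.inl rfl⟩
      · rw [hS2, mem_filter, mem_erase] at hv
        refine ⟨hv.2.1, hv.2.2, ?_⟩
        rw [gr, SimpleGraph.fromRel_adj]
        exact ⟨fun h => hv.1.1 (hfix v h), Or.inr rfl⟩
    · rw [disjoint_left]
      intro p hp hq
      rw [mem_image] at hp hq
      obtain ⟨v, hv, rfl⟩ := hp
      obtain ⟨w, hw, h⟩ := hq
      have e1 := (Prod.mk.inj h).1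
      have e2 := (Prod.mk.inj h).2
      have := hno2 w v e1 e2.symm
      rw [hS1, mem_filter, mem_erase] at hv
      exact hv.1.1 (hfix v (e2.symm.trans this))
  omega

theorem ubs_est {n : ℕ} (π : Fin 3 → Fin n → Fin n) (hπ : π ∈ RT3 n) (A B : Finset (Fin n)) :
    est π A B ≤ dstar π A B + 6 := by
  have h := fun i => ubs_one (π i) ((mem_filter.1 hπ).2 i) A B
  unfold est dstar
  calc ∑ i, ∑ v, ((if v ∈ A ∧ π i v ∉ B then 1 else 0) + (if π i v ∈ A ∧ v ∉ B then 1 else 0))
      ≤ ∑ i : Fin 3, (dar (gr (π i)) A B + 2) := Finset.sum_le_sum (fun i _ => h i)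
    _ = ∑ i, dar (gr (π i)) A B + 6 := by rw [Finset.sum_add_distrib]; simp

theorem ubs_mono {n : ℕ} (π : Fin 3 → Fin n → Fin n) (A B A1 B1 : Finset (Fin n)) (hA : A1 ⊆ A)
    (hB : B ⊆ B1) : dstar π A1 B1 ≤ dstar π A B := by
  unfold dstar
  apply Finset.sum_le_sum
  intro i _
  unfold dar
  apply card_le_card
  intro p hp
  rw [mem_filter] at hp ⊢
  exact ⟨hp.1, hA hp.2.1, fun h => hp.2.2.1 (hB h), hp.2.2.2⟩

/-- the union bound in the function model -/
theorem ubs_fun {n : ℕ} (hn : 1 ≤ n) (γ δ E : ℝ) (hγ0 : 0 < γ)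
    (hE : ∀ t s : ℕ, γ * n ≤ (s : ℝ) → s ≤ t → t + s ≤ n → δ / 2 * n ≤ (t : ℝ) →
      (n.choose t : ℝ) * ((n - t).choose s : ℝ) *
        ubx n t s ((s : ℝ) / (2 * n)) (2 * t - 2 * s + 5 * γ * n + 6) ≤ E) (hE0 : 0 ≤ E) :
    ((univ.filter (fun f : Fin 3 → Fin n → Fin n => ∃ A B : Finset (Fin n), Disjoint A B ∧
      γ * n ≤ (B.card : ℝ) ∧ B.card ≤ A.card ∧ δ / 2 * n ≤ (A.card : ℝ) ∧
      (est f A B : ℝ) ≤ 2 * A.card - 2 * B.card + 5 * γ * n + 6)).card : ℝ) ≤
    ((n : ℝ) ^ n) ^ 3 * (((n : ℝ) + 1) ^ 2 * E) := by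
  have hnR : (0 : ℝ) < n := by exact_mod_cast hn
  -- the summand
  set g : ℕ → ℕ → ℝ := fun t s =>
    if γ * n ≤ (s : ℝ) ∧ s ≤ t ∧ δ / 2 * n ≤ (t : ℝ) then
      ((n : ℝ) ^ n) ^ 3 * ubx n t s ((s : ℝ) / (2 * n)) (2 * t - 2 * s + 5 * γ * n + 6)
    else 0 with hg
  have step1 : ((univ.filter (fun f : Fin 3 → Fin n → Fin n => ∃ A B : Finset (Fin n),
      Disjoint A B ∧ γ * n ≤ (B.card : ℝ) ∧ B.card ≤ A.card ∧ δ / 2 * n ≤ (A.card : ℝ) ∧
      (est f A B : ℝ) ≤ 2 * A.card - 2 * B.card + 5 * γ * n + 6)).card : ℝ) ≤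
      ∑ A : Finset (Fin n), ∑ B ∈ (univ \ A).powerset, g A.card B.card := by
    have hsub : (univ.filter (fun f : Fin 3 → Fin n → Fin n => ∃ A B : Finset (Fin n),
        Disjoint A B ∧ γ * n ≤ (B.card : ℝ) ∧ B.card ≤ A.card ∧ δ / 2 * n ≤ (A.card : ℝ) ∧
        (est f A B : ℝ) ≤ 2 * A.card - 2 * B.card + 5 * γ * n + 6)) ⊆
        (univ : Finset (Finset (Fin n))).biUnion (fun A => (univ \ A).powerset.biUnion (fun B =>
          univ.filter (fun f : Fin 3 → Fin n → Fin n =>
            (γ * n ≤ (B.card : ℝ) ∧ B.card ≤ A.card ∧ δ / 2 * n ≤ (A.card : ℝ)) ∧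
            (est f A B : ℝ) ≤ 2 * A.card - 2 * B.card + 5 * γ * n + 6))) := by
      intro f hf
      obtain ⟨A, B, hd, h1, h2, h3, h4⟩ := (mem_filter.1 hf).2
      rw [mem_biUnion]
      refine ⟨A, mem_univ _, ?_⟩
      rw [mem_biUnion]
      refine ⟨B, ?_, ?_⟩
      · rw [mem_powerset]
        intro b hb
        rw [Finset.mem_sdiff]
        exact ⟨mem_univ _, fun h => (disjoint_left.1 hd) h hb⟩
      · rw [mem_filter]
        exact ⟨mem_univ _, ⟨h1, h2, h3⟩, h4⟩
    have hcard := (card_le_card hsub).trans (card_biUnion_le.trans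
      (Finset.sum_le_sum (fun A _ => card_biUnion_le)))
    have hcard' := (Nat.cast_le (α := ℝ)).2 hcard
    refine hcard'.trans ?_
    push_cast
    apply Finset.sum_le_sum
    intro A _
    apply Finset.sum_le_sum
    intro B hB
    have hd : Disjoint A B := by
      rw [mem_powerset] at hB
      rw [disjoint_left]
      intro a ha hb
      exact (Finset.mem_sdiff.1 (hB hb)).2 ha
    by_cases hc : γ * n ≤ (B.card : ℝ) ∧ B.card ≤ A.card ∧ δ / 2 * n ≤ (A.card : ℝ)
    · rw [hg]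
      simp only [hc, true_and, and_self]
      have hB0 : 0 < (B.card : ℝ) := lt_of_lt_of_le (by positivity) hc.1
      have hBn : (B.card : ℝ) ≤ n := by
        have := card_le_univ B
        rw [Fintype.card_fin] at this
        exact_mod_cast this
      refine ubf A B hd _ (by positivity) ?_ _
      rw [div_le_one (by positivity)]
      linarith
    · rw [hg]
      simp only [if_neg hc]
      rw [Finset.filter_false_of_mem (fun f _ h => hc h.1)]
      simp
  have step2 : ∑ A : Finset (Fin n), ∑ B ∈ (univ \ A).powerset, g A.card B.card =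
      ∑ t ∈ range (n + 1), (n.choose t : ℝ) * ∑ s ∈ range (n - t + 1), ((n - t).choose s : ℝ) *
        g t s := by
    have inner : ∀ A : Finset (Fin n), ∑ B ∈ (univ \ A).powerset, g A.card B.card =
        ∑ s ∈ range (n - A.card + 1), ((n - A.card).choose s : ℝ) * g A.card s := by
      intro A
      rw [Finset.sum_powerset_apply_card (fun s => g A.card s)]
      rw [card_sdiff_of_subset (subset_univ A), card_univ, Fintype.card_fin]
      simp only [nsmul_eq_mul]
    rw [Finset.sum_congr rfl (fun A _ => inner A)]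
    have := Finset.sum_powerset_apply_card (fun t => ∑ s ∈ range (n - t + 1),
      ((n - t).choose s : ℝ) * g t s) (x := (univ : Finset (Fin n)))
    rw [powerset_univ, card_univ, Fintype.card_fin] at this
    rw [this]
    simp only [nsmul_eq_mul]
  have step3 : ∀ t ∈ range (n + 1), (n.choose t : ℝ) * ∑ s ∈ range (n - t + 1),
      ((n - t).choose s : ℝ) * g t s ≤ ((n : ℝ) + 1) * (((n : ℝ) ^ n) ^ 3 * E) := by
    intro t ht
    rw [mem_range] at ht
    rw [Finset.mul_sum]
    have hterm : ∀ s ∈ range (n - t + 1), (n.choose t : ℝ) * (((n - t).choose s : ℝ) * g t s) ≤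
        ((n : ℝ) ^ n) ^ 3 * E := by
      intro s hs
      rw [mem_range] at hs
      by_cases hc : γ * n ≤ (s : ℝ) ∧ s ≤ t ∧ δ / 2 * n ≤ (t : ℝ)
      · rw [hg]
        simp only [if_pos hc]
        have := hE t s hc.1 hc.2.1 (by omega) hc.2.2
        calc (n.choose t : ℝ) * (((n - t).choose s : ℝ) * (((n : ℝ) ^ n) ^ 3 *
              ubx n t s ((s : ℝ) / (2 * n)) (2 * t - 2 * s + 5 * γ * n + 6)))
            = ((n : ℝ) ^ n) ^ 3 * ((n.choose t : ℝ) * ((n - t).choose s : ℝ) *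
              ubx n t s ((s : ℝ) / (2 * n)) (2 * t - 2 * s + 5 * γ * n + 6)) := by ring
          _ ≤ ((n : ℝ) ^ n) ^ 3 * E := by gcongr
      · rw [hg]
        simp only [if_neg hc, mul_zero]
        positivity
    calc ∑ s ∈ range (n - t + 1), (n.choose t : ℝ) * (((n - t).choose s : ℝ) * g t s)
        ≤ ∑ _s ∈ range (n - t + 1), ((n : ℝ) ^ n) ^ 3 * E := Finset.sum_le_sum hterm
      _ = ((n - t + 1 : ℕ) : ℝ) * (((n : ℝ) ^ n) ^ 3 * E) := by
          rw [Finset.sum_const, card_range, nsmul_eq_mul]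
      _ ≤ ((n : ℝ) + 1) * (((n : ℝ) ^ n) ^ 3 * E) := by
          have : ((n - t + 1 : ℕ) : ℝ) ≤ (n : ℝ) + 1 := by
            exact_mod_cast (by omega : n - t + 1 ≤ n + 1)
          gcongr
  calc _ ≤ _ := step1
    _ = _ := step2
    _ ≤ ∑ _t ∈ range (n + 1), ((n : ℝ) + 1) * (((n : ℝ) ^ n) ^ 3 * E) := Finset.sum_le_sum step3
    _ = ((n : ℝ) ^ n) ^ 3 * (((n : ℝ) + 1) ^ 2 * E) := by
        rw [Finset.sum_const, card_range, nsmul_eq_mul]; push_cast; ring

/-- deterministic part -/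
theorem ubs_det {n : ℕ} (γ δ : ℝ) (hγ0 : 0 < γ) (hγδ : γ ≤ δ / 4) (hδ1 : δ < 1) (hn4 : 4 ≤ n)
    (hn8 : 8 ≤ γ * n) (π : Fin 3 → Fin n → Fin n) (hπ : π ∈ RT3 n)
    (h : ∀ A B : Finset (Fin n), Disjoint A B →
      γ * n ≤ (B.card : ℝ) → B.card ≤ A.card → δ / 2 * n ≤ (A.card : ℝ) →
      2 * (A.card : ℝ) - 2 * B.card + 5 * γ * n + 6 < (est π A B : ℝ)) : UBok δ (γ / 2) π := by
  intro A B hd hA hBA
  have hnR : (4 : ℝ) ≤ n := by exact_mod_cast hn4
  have hAn : A.card ≤ n := by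
    have := card_le_univ A
    rwa [Fintype.card_fin] at this
  by_cases hB : γ * n ≤ (B.card : ℝ)
  · have h1 := h A B hd hB hBA (by nlinarith)
    have h2 : (est π A B : ℝ) ≤ dstar π A B + 6 := by exact_mod_cast ubs_est π hπ A B
    nlinarith
  · push Not at hB
    set g := ⌈γ * n⌉₊ with hg
    have hg1 : γ * n ≤ g := Nat.le_ceil _
    have hg2 : (g : ℝ) < γ * n + 1 := Nat.ceil_lt_add_one (by positivity)
    have hBg : B.card < g := by exact_mod_cast hB.trans_le hg1
    have hgn : 2 * g ≤ n := by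
      have : (2 * g : ℝ) ≤ n := by nlinarith
      exact_mod_cast this
    have hgA : g ≤ A.card := by
      have : (g : ℝ) ≤ A.card := by nlinarith
      exact_mod_cast this
    obtain ⟨A1, hA1, hA1c⟩ := exists_subset_card_eq (s := A) (n := min A.card (n - g)) (min_le_left _ _)
    have hBsub : B ⊆ univ \ A1 := by
      intro b hb
      rw [Finset.mem_sdiff]
      exact ⟨mem_univ _, fun hb' => disjoint_left.1 hd (hA1 hb') hb⟩
    have hcc : (univ \ A1).card = n - A1.card := by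
      rw [card_sdiff_of_subset (subset_univ A1), card_univ, Fintype.card_fin]
    have hA1le : A1.card ≤ n - g := by rw [hA1c]; exact min_le_right _ _
    obtain ⟨B1, hB1, hB1', hB1c⟩ := exists_subsuperset_card_eq hBsub hBg.le
      (by rw [hcc]; omega : g ≤ (univ \ A1).card)
    have hd1 : Disjoint A1 B1 := by
      rw [disjoint_left]
      intro a ha hb
      exact (Finset.mem_sdiff.1 (hB1' hb)).2 ha
    have hA1g : g ≤ A1.card := by rw [hA1c]; exact le_min hgA (by omega)
    have hA1A : A.card ≤ A1.card + g := by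
      rw [hA1c]
      rcases le_total A.card (n - g) with h' | h'
      · rw [min_eq_left h']; omega
      · rw [min_eq_right h']; omega
    have hA1δ : δ / 2 * n ≤ (A1.card : ℝ) := by
      rw [hA1c]
      rcases le_total A.card (n - g) with h' | h'
      · rw [min_eq_left h']; nlinarith
      · rw [min_eq_right h', Nat.cast_sub (by omega)]; nlinarith
    have h1 := h A1 B1 hd1 (by rw [hB1c]; exact hg1) (by rw [hB1c]; exact hA1g) hA1δ
    have h2 : (est π A1 B1 : ℝ) ≤ dstar π A1 B1 + 6 := by exact_mod_cast ubs_est π hπ A1 B1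
    have h3 : (dstar π A1 B1 : ℝ) ≤ dstar π A B := by
      exact_mod_cast ubs_mono π A B A1 B1 hA1 hB1
    have h4 : (A.card : ℝ) ≤ A1.card + g := by exact_mod_cast hA1A
    rw [hB1c] at h1
    have h5 : (0 : ℝ) ≤ B.card := Nat.cast_nonneg _
    nlinarith

theorem ubs (δ : ℝ) (hδ : 0 < δ) (hδ1 : δ < 1) : ∃ ξ > 0,
    Tendsto (fun n : ℕ => Pr3 n (fun π => ¬ UBok δ ξ π)) atTop (nhds 0) := by
  obtain ⟨γ, hγ0, hγδ, n0, hE⟩ := ub_exp δ hδ hδ1
  refine ⟨γ / 2, by positivity, ?_⟩
  obtain ⟨n1, hn1⟩ := exists_nat_ge (8 / γ)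
  have hbound : ∀ᶠ n : ℕ in atTop, Pr3 n (fun π => ¬ UBok δ (γ / 2) π) ≤
      4 * ((n : ℝ) ^ 5 * Real.exp (-(δ / 100) * n)) := by
    filter_upwards [eventually_ge_atTop (n0 + n1 + 4)] with n hn
    have hnn1 : (n1 : ℝ) ≤ n := by exact_mod_cast (by omega : n1 ≤ n)
    have hn8 : 8 ≤ γ * n := by
      have := hn1.trans hnn1
      rw [div_le_iff₀ hγ0] at this
      linarith
    have hnR : (0 : ℝ) < n := by
      have : 0 < n := by omega
      exact_mod_cast this
    have hn1R : (1 : ℝ) ≤ n := by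
      have : 1 ≤ n := by omega
      exact_mod_cast this
    have hF := ubs_fun (n := n) (by omega) γ δ (Real.exp (-(δ / 100) * n)) hγ0
      (hE n (by omega)) (Real.exp_pos _).le
    have hsub : (RT3 n).filter (fun π => ¬ UBok δ (γ / 2) π) ⊆
        univ.filter (fun f : Fin 3 → Fin n → Fin n => ∃ A B : Finset (Fin n), Disjoint A B ∧
          γ * n ≤ (B.card : ℝ) ∧ B.card ≤ A.card ∧ δ / 2 * n ≤ (A.card : ℝ) ∧
          (est f A B : ℝ) ≤ 2 * A.card - 2 * B.card + 5 * γ * n + 6) := by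
      intro π hπ
      rw [mem_filter] at hπ ⊢
      refine ⟨mem_univ _, ?_⟩
      by_contra hcon
      push Not at hcon
      exact hπ.2 (ubs_det γ δ hγ0 hγδ hδ1 (by omega) hn8 π hπ.1
        (fun A B hd h1 h2 h3 => hcon A B hd h1 h2 h3))
    have hc : (((RT3 n).filter (fun π => ¬ UBok δ (γ / 2) π)).card : ℝ) ≤
        ((n : ℝ) ^ n) ^ 3 * (((n : ℝ) + 1) ^ 2 * Real.exp (-(δ / 100) * n)) :=
      le_trans (by exact_mod_cast card_le_card hsub) hF
    have hPr : Pr3 n (fun π => ¬ UBok δ (γ / 2) π) =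
        (((RT3 n).filter (fun π => ¬ UBok δ (γ / 2) π)).card : ℝ) / ((n : ℝ) ^ (n - 1)) ^ 3 := by
      unfold Pr3
      congr!
    rw [hPr, div_le_iff₀ (by positivity)]
    refine hc.trans ?_
    have hpow : (n : ℝ) ^ n = n ^ (n - 1) * n := by
      rw [← pow_succ]; congr 1; omega
    rw [hpow]
    have hsq : ((n : ℝ) + 1) ^ 2 ≤ 4 * (n : ℝ) ^ 2 := by nlinarith
    calc ((n : ℝ) ^ (n - 1) * n) ^ 3 * (((n : ℝ) + 1) ^ 2 * Real.exp (-(δ / 100) * n))
        ≤ ((n : ℝ) ^ (n - 1) * n) ^ 3 * (4 * (n : ℝ) ^ 2 * Real.exp (-(δ / 100) * n)) := by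
          gcongr
      _ = 4 * ((n : ℝ) ^ 5 * Real.exp (-(δ / 100) * n)) * ((n : ℝ) ^ (n - 1)) ^ 3 := by ring
  have hlim : Tendsto (fun n : ℕ => 4 * ((n : ℝ) ^ 5 * Real.exp (-(δ / 100) * n))) atTop
      (nhds 0) := by
    have h1 := Real.tendsto_pow_mul_exp_neg_atTop_nhds_zero 5
    have h2 : Tendsto (fun n : ℕ => δ / 100 * (n : ℝ)) atTop atTop :=
      Tendsto.const_mul_atTop (by positivity) tendsto_natCast_atTop_atTop
    have h3 := (h1.comp h2).const_mul (4 / (δ / 100) ^ 5)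
    rw [mul_zero] at h3
    refine h3.congr (fun n => ?_)
    simp only [Function.comp]
    rw [show -(δ / 100) * (n : ℝ) = -(δ / 100 * n) by ring]
    field_simp
  refine squeeze_zero' (Eventually.of_forall (fun n => ?_)) hbound hlim
  unfold Pr3
  positivity

end

end Pool.Agent.ST3
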