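import Pool.Agent.Lib.MP_7abaca_co.Defs
import Pool.Agent.Lib.MP_7abaca_co.LemR
import Pool.Agent.Lib.MP_7abaca_co.RCount
import Pool.Agent.Lib.MP_7abaca_co.Sub
import Pool.Agent.Lib.MP_7abaca_co.Path
import Pool.Agent.Lib.MP_7abaca_co.TP1
import Pool.Agent.Lib.MP_7abaca_co.TP3
import Pool.Agent.Lib.MP_7abaca_co.Bridge
import Pool.Agent.Lib.MP_7abaca_co.LSC
import Pool.Agent.Lib.MP_7abaca_co.LS1
import Pool.Agent.Lib.MP_7abaca_co.LS2
import Pool.Agent.Lib.MP_7abaca_co.Short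
import Pool.Agent.Lib.MP_7abaca_co.ConnS
import Pool.Agent.Lib.MP_7abaca_co.LF
import Pool.Agent.Lib.MP_7abaca_co.Lam
import Pool.Agent.Lib.MP_7abaca_co.Win
import Pool.Agent.Lib.MP_7abaca_co.Blk
import Pool.Agent.Lib.MP_7abaca_co.GenF
import Pool.Agent.Lib.MP_7abaca_co.LtsA
import Pool.Agent.Lib.MP_7abaca_co.LtsF
import Pool.Agent.Lib.MP_7abaca_co.LtsT
import Pool.Agent.Lib.MP_7abaca_co.AI
import Pool.Agent.Lib.MP_7abaca_co.UBF
import Pool.Agent.Lib.MP_7abaca_co.UBE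
import Pool.Agent.Lib.MP_7abaca_co.UBS
import Pool.Agent.Lib.MP_7abaca_co.Expl
import Pool.Agent.Lib.MP_7abaca_co.Forest
import Pool.Agent.Lib.MP_7abaca_co.TC
import Pool.Agent.Lib.MP_7abaca_co.Det
import Pool.Agent.Lib.MP_7abaca_co.Pick
import Pool.Agent.Lib.MP_7abaca_co.TrapB
import Pool.Agent.Lib.MP_7abaca_co.Core
import Pool.Agent.Lib.MP_7abaca_co.ImpA
import Pool.Agent.Lib.MP_7abaca_co.Cmp
import Pool.Agent.Lib.MP_7abaca_co.ImpB
import Pool.Agent.Lib.MP_7abaca_co.PhiM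
import Pool.Agent.Lib.MP_7abaca_co.Switch
import Pool.Agent.Lib.MP_7abaca_co.Spr
import Pool.Agent.Lib.MP_7abaca_co.Hall
import Pool.Agent.Lib.MP_7abaca_co.Indep
import Pool.Agent.Lib.MP_7abaca_co.Round
import Pool.Agent.Lib.MP_7abaca_co.Deficit
import Pool.Agent.Lib.MP_7abaca_co.Cyc

/-!
All modules of the proof that the union of three random spanning trees is Hamiltonian with high
probability.
-/
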