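import Mathlib

/-!
# Three random spanning trees: common definitions

`Fin n` is the vertex set.  Trees are handled through parent functions of rooted trees.
-/

set_option autoImplicit false

namespace Pool.Agent.ST3

open Finset
open scoped Classical

noncomputable section

/-- `π` is the parent function of a tree on `Fin n` rooted at `r` (the root is the fixed point). -/
def IsRT {n : ℕ} (r : Fin n) (π : Fin n → Fin n) : Prop :=
  π r = r ∧ ∀ v, ∃ k : ℕ, π^[k] v = r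

/-- parent functions of rooted trees on `Fin n` -/
def RT (n : ℕ) : Finset (Fin n → Fin n) := univ.filter (fun π => ∃ r, IsRT r π)

/-- triples of parent functions -/
def RT3 (n : ℕ) : Finset (Fin 3 → Fin n → Fin n) := univ.filter (fun π => ∀ i, π i ∈ RT n)

/-- the graph of a parent function (the loop at the root is dropped) -/
def gr {n : ℕ} (π : Fin n → Fin n) : SimpleGraph (Fin n) :=
  SimpleGraph.fromRel (fun v w => π v = w)

/-- the union of the three trees -/
def GG {n : ℕ} (π : Fin 3 → Fin n → Fin n) : SimpleGraph (Fin n) :=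
  gr (π 0) ⊔ gr (π 1) ⊔ gr (π 2)

/-- probability of an event for three independent uniform rooted trees -/
def Pr3 (n : ℕ) (E : (Fin 3 → Fin n → Fin n) → Prop) : ℝ :=
  (((RT3 n).filter E).card : ℝ) / ((n : ℝ) ^ (n - 1)) ^ 3

/-- weight of a marking of the pairs: every pair is marked `true` (flagged) with probability `ε` -/
def wt {n : ℕ} (ε : ℝ) (ω : Sym2 (Fin n) → Bool) : ℝ :=
  ∏ e : Sym2 (Fin n), (if ω e = true then ε else 1 - ε)

/-- probability of an event for three independent uniform rooted trees and an independent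
random marking of the pairs -/
def Pr (n : ℕ) (ε : ℝ) (E : (Fin 3 → Fin n → Fin n) → (Sym2 (Fin n) → Bool) → Prop) : ℝ :=
  (∑ π ∈ RT3 n, ∑ ω : Sym2 (Fin n) → Bool, (if E π ω then wt ε ω else 0)) /
    ((n : ℝ) ^ (n - 1)) ^ 3

/-- the unflagged edges of `T` -/
def keep {n : ℕ} (T : SimpleGraph (Fin n)) (ω : Sym2 (Fin n) → Bool) : SimpleGraph (Fin n) where
  Adj a b := T.Adj a b ∧ ω s(a, b) = false
  symm := ⟨fun a b h => ⟨h.1.symm, by rw [Sym2.eq_swap]; exact h.2⟩⟩
  loopless := ⟨fun a h => T.loopless.irrefl a h.1⟩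

/-- vertices in components of size at most two -/
def lam {n : ℕ} (F : SimpleGraph (Fin n)) : Finset (Fin n) :=
  univ.filter (fun v => (F.connectedComponentMk v).supp.ncard ≤ 2)

/-- the visible part of `T`: the unflagged edges `F`, and all edges at the vertices of `lam F` -/
def core {n : ℕ} (T F : SimpleGraph (Fin n)) : SimpleGraph (Fin n) where
  Adj a b := T.Adj a b ∧ (F.Adj a b ∨ a ∈ lam F ∨ b ∈ lam F)
  symm := ⟨fun a b h => ⟨h.1.symm, by
    rcases h.2 with h' | h' | h'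
    · exact Or.inl h'.symm
    · exact Or.inr (Or.inr h')
    · exact Or.inr (Or.inl h')⟩⟩
  loopless := ⟨fun a h => T.loopless.irrefl a h.1⟩

/-- the initially visible graph -/
def G0 {n : ℕ} (π : Fin 3 → Fin n → Fin n) (ω : Sym2 (Fin n) → Bool) : SimpleGraph (Fin n) :=
  gr (π 0) ⊔ gr (π 1) ⊔ core (gr (π 2)) (keep (gr (π 2)) ω)

/-- spanning trees containing `F` all of whose other edges avoid `Λ` -/
def NT {n : ℕ} (F : SimpleGraph (Fin n)) (Λ : Finset (Fin n)) : Finset (SimpleGraph (Fin n)) :=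
  univ.filter (fun T => T.IsTree ∧ F ≤ T ∧ ∀ a b, T.Adj a b → ¬ F.Adj a b → a ∉ Λ ∧ b ∉ Λ)

/-- number of edges of `T` inside `W` -/
def ein {n : ℕ} (T : SimpleGraph (Fin n)) (W : Finset (Fin n)) : ℕ :=
  (univ.filter (fun e : Sym2 (Fin n) => e ∈ T.edgeSet ∧ ∀ v ∈ e, v ∈ W)).card

/-- number of labelled edges inside `W` -/
def estar {n : ℕ} (π : Fin 3 → Fin n → Fin n) (W : Finset (Fin n)) : ℕ :=
  ∑ i, ein (gr (π i)) W

/-- number of labelled edges inside `W` that meet `S` -/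
def lstar {n : ℕ} (π : Fin 3 → Fin n → Fin n) (S W : Finset (Fin n)) : ℕ :=
  ∑ i, (univ.filter (fun e : Sym2 (Fin n) =>
    e ∈ (gr (π i)).edgeSet ∧ (∃ v ∈ e, v ∈ S) ∧ ∀ v ∈ e, v ∈ W)).card

/-- number of ordered pairs `(a, v)`, `a ∈ A`, `v ∉ B`, adjacent in `H` -/
def dar {n : ℕ} (H : SimpleGraph (Fin n)) (A B : Finset (Fin n)) : ℕ :=
  (univ.filter (fun p : Fin n × Fin n => p.1 ∈ A ∧ p.2 ∉ B ∧ H.Adj p.1 p.2)).card

/-- labelled version of `dar` -/
def dstar {n : ℕ} (π : Fin 3 → Fin n → Fin n) (A B : Finset (Fin n)) : ℕ :=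
  ∑ i, dar (gr (π i)) A B

/-- small scale sparsity -/
def LS1 (c : ℝ) {n : ℕ} (π : Fin 3 → Fin n → Fin n) : Prop :=
  ∀ W : Finset (Fin n), (W.card : ℝ) ≤ c * Real.log n → estar π W ≤ W.card

/-- linear scale sparsity -/
def LS2 (δ θ : ℝ) {n : ℕ} (π : Fin 3 → Fin n → Fin n) : Prop :=
  ∀ W : Finset (Fin n), (W.card : ℝ) ≤ δ * n → (estar π W : ℝ) ≤ (1 + θ) * W.card

/-- few flagged edges of the third tree leave a large connected set -/
def LFok (c θ : ℝ) {n : ℕ} (π : Fin 3 → Fin n → Fin n) (ω : Sym2 (Fin n) → Bool) : Prop :=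
  ∀ W : Finset (Fin n), c * Real.log n ≤ (W.card : ℝ) →
    ((GG π).induce (W : Set (Fin n))).Connected →
    ((univ.filter (fun e : Sym2 (Fin n) => e ∈ (gr (π 2)).edgeSet ∧ ω e = true ∧
      (∃ v ∈ e, v ∈ W) ∧ (∃ v ∈ e, v ∉ W))).card : ℝ) ≤ θ * W.card

/-- number of sets of size at most `ℓ` spanning at least as many labelled edges as vertices -/
def Sh (ℓ : ℕ) {n : ℕ} (π : Fin 3 → Fin n → Fin n) : ℕ :=
  (univ.filter (fun W : Finset (Fin n) => 1 ≤ W.card ∧ W.card ≤ ℓ ∧ W.card ≤ estar π W)).card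

/-- number of overlaps (pairs that are edges of two trees) -/
def ov {n : ℕ} (π : Fin 3 → Fin n → Fin n) : ℕ :=
  ∑ i : Fin 3, ∑ j : Fin 3, if i < j then
    (univ.filter (fun e : Sym2 (Fin n) => e ∈ (gr (π i)).edgeSet ∧ e ∈ (gr (π j)).edgeSet)).card
  else 0

/-- the condition for a fractional two-factor, for linear sized sets, with slack -/
def UBok (δ ξ : ℝ) {n : ℕ} (π : Fin 3 → Fin n → Fin n) : Prop :=
  ∀ A B : Finset (Fin n), Disjoint A B → δ * n ≤ (A.card : ℝ) → B.card ≤ A.card →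
    2 * (A.card : ℝ) - 2 * B.card + ξ * n ≤ (dstar π A B : ℝ)

/-- number of flagged edges of the third tree -/
def nflag {n : ℕ} (π : Fin 3 → Fin n → Fin n) (ω : Sym2 (Fin n) → Bool) : ℕ :=
  (univ.filter (fun e : Sym2 (Fin n) => e ∈ (gr (π 2)).edgeSet ∧ ω e = true)).card

/-- number of vertices in components of `F` with more than `K` vertices -/
def big {n : ℕ} (F : SimpleGraph (Fin n)) (K : ℕ) : ℕ :=
  (univ.filter (fun v => K < (F.connectedComponentMk v).supp.ncard)).card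

/-- The pattern of a large trapped set `S` with outer neighbourhood `N`
in terms of three functions. -/
structure AA (θ : ℝ) {n : ℕ} (f : Fin 3 → Fin n → Fin n) (S N : Finset (Fin n)) : Prop where
  disj : Disjoint S N
  N_le : N.card ≤ 2 * S.card
  le_N : (2 - θ) * S.card ≤ (N.card : ℝ)
  out : ((univ.filter (fun p : Fin 3 × Fin n =>
    p.2 ∈ S ∧ f p.1 p.2 ∉ S ∧ f p.1 p.2 ∉ N)).card : ℝ) ≤ θ * S.card
  inS : ((univ.filter (fun p : Fin 3 × Fin n => p.2 ∈ S ∧ f p.1 p.2 ∈ S)).card : ℝ) ≤ θ * S.card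
  zero : ((N.filter (fun v => ∀ i, ∀ y ∈ S, f i y ≠ v)).card : ℝ) ≤ θ * S.card
  dbl : (1 - θ) * S.card ≤ ((N.filter (fun v =>
    2 ≤ (univ.filter (fun p : Fin 3 × Fin n => p.2 ∈ S ∧ f p.1 p.2 = v)).card)).card : ℝ)
  qN : ((univ.filter (fun p : Fin 3 × Fin n => p.2 ∈ N ∧ f p.1 p.2 ∈ S)).card : ℝ) ≤ θ * S.card
  qO : ((univ.filter (fun p : Fin 3 × Fin n =>
    p.2 ∉ S ∧ p.2 ∉ N ∧ f p.1 p.2 ∈ S)).card : ℝ) ≤ θ * S.card
  pow : S.card + N.card + (univ.filter (fun p : Fin 3 × Fin n =>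
      p.2 ∈ S ∧ f p.1 p.2 ∉ S ∧ f p.1 p.2 ∉ N)).card ≤
    3 * S.card + (univ.filter (fun p : Fin 3 × Fin n => p.2 ∈ N ∧ f p.1 p.2 ∈ S)).card

/-- the local information of a function at `S`: its values on `S` and on the preimage of `S` -/
def loc {n : ℕ} (S : Finset (Fin n)) (f : Fin n → Fin n) : Fin n → Option (Fin n) :=
  fun v => if v ∈ S ∨ f v ∈ S then some (f v) else none

/-- functional version of `dstar` -/
def est {n : ℕ} (f : Fin 3 → Fin n → Fin n) (A B : Finset (Fin n)) : ℕ :=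
  ∑ i, ∑ v, ((if v ∈ A ∧ f i v ∉ B then 1 else 0) + (if f i v ∈ A ∧ v ∉ B then 1 else 0))

/-- the bound for the lower tail of `est` -/
def ubx (n t s : ℕ) (th b : ℝ) : ℝ :=
  th ^ (-b) * (((s : ℝ) + th * ((n : ℝ) - t - s) + th ^ 2 * t) / n) ^ (3 * t) *
    (((n : ℝ) - t + th * t) / n) ^ (3 * (n - t - s))

/-! ## 2-matchings, potential, trapped sets -/

/-- `S` together with its `M`-neighbours -/
def tw {n : ℕ} (M : SimpleGraph (Fin n)) (S : Finset (Fin n)) : Finset (Fin n) :=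
  S ∪ univ.filter (fun w => ∃ y ∈ S, M.Adj y w)

/-- maximum degree at most two -/
def Two {n : ℕ} (M : SimpleGraph (Fin n)) : Prop := ∀ v, (M.neighborSet v).ncard ≤ 2

/-- all degrees equal to two -/
def TwoF {n : ℕ} (M : SimpleGraph (Fin n)) : Prop := ∀ v, (M.neighborSet v).ncard = 2

/-- number of components -/
def comps {n : ℕ} (M : SimpleGraph (Fin n)) : ℕ := Nat.card M.ConnectedComponent

/-- maximum number of edges of a 2-matching of `H` -/
def mu {n : ℕ} (H : SimpleGraph (Fin n)) : ℕ :=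
  (univ.filter (fun M : SimpleGraph (Fin n) => M ≤ H ∧ Two M)).sup (fun M => M.edgeSet.ncard)

/-- minimum number of components of a 2-factor of `H` (0 if there is none) -/
def kap {n : ℕ} (H : SimpleGraph (Fin n)) : ℕ :=
  sInf {k | ∃ M : SimpleGraph (Fin n), M ≤ H ∧ TwoF M ∧ comps M = k}

/-- the potential -/
def Phi (K0 : ℕ) {n : ℕ} (H : SimpleGraph (Fin n)) : ℕ :=
  if ∃ M : SimpleGraph (Fin n), M ≤ H ∧ TwoF M then min K0 (kap H - 1) else K0 + (n - mu H)

/-- A trapped set: `M` is a 2-matching of `H`, `x` is deficient, and `S` was obtained from `x`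
by rotations with distinct pivots `u y` and landing edges `z y — u y`; all `G0`-neighbours of `S`
lie in `S` or are `M`-neighbours of `S`. -/
structure Trap {n : ℕ} (G0 H M : SimpleGraph (Fin n)) (x : Fin n) (S : Finset (Fin n)) : Prop where
  le : M ≤ H
  two : Two M
  mem : x ∈ S
  deg : (M.neighborSet x).ncard ≤ 1
  piv : ∃ u z : Fin n → Fin n,
    (∀ y ∈ S, y ≠ x → M.Adj y (u y) ∧ z y ∈ S ∧ H.Adj (z y) (u y) ∧ ¬ M.Adj (z y) (u y)) ∧
    Set.InjOn u {y | y ∈ S ∧ y ≠ x} ∧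
    Set.InjOn (fun y => s(z y, u y)) {y | y ∈ S ∧ y ≠ x} ∧
    Set.InjOn (fun y => s(y, u y)) {y | y ∈ S ∧ y ≠ x}
  closed : ∀ y ∈ S, ∀ w, G0.Adj y w → w ∈ S ∨ ∃ y' ∈ S, M.Adj y' w
  conn : (H.induce {w | w ∈ S ∨ ∃ y ∈ S, M.Adj y w}).Connected

/-- no trapped set of size at most `d` -/
def NoTrap (d : ℝ) {n : ℕ} (G0 H : SimpleGraph (Fin n)) : Prop :=
  ∀ (M : SimpleGraph (Fin n)) (x : Fin n) (S : Finset (Fin n)), Trap G0 H M x S → d < (S.card : ℝ)

end

end Pool.Agent.ST3
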