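import Pool.Agent.Lib.MP_7abaca_co.NoTrap

/-!
Sums over triples of rooted trees.
-/

set_option autoImplicit false

namespace Pool.Agent.ST3

open Finset Filter
open scoped Classical

noncomputable section

theorem sum_RT3 {n : ℕ} (f : (Fin 3 → Fin n → Fin n) → ℝ) :
    ∑ π ∈ RT3 n, f π = ∑ a ∈ RT n, ∑ b ∈ RT n, ∑ c ∈ RT n, f ![a, b, c] := by
  rw [← Finset.sum_product', ← Finset.sum_product']
  symm
  apply Finset.sum_nbij' (fun p : ((Fin n → Fin n) × (Fin n → Fin n)) × (Fin n → Fin n) =>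
      ![p.1.1, p.1.2, p.2]) (fun π => ((π 0, π 1), π 2))
  · rintro ⟨⟨a, b⟩, c⟩ h
    simp only [Finset.mem_product] at h
    rw [RT3, Finset.mem_filter]
    refine ⟨Finset.mem_univ _, ?_⟩
    intro i
    fin_cases i
    · exact h.1.1
    · exact h.1.2
    · exact h.2
  · intro π h
    rw [RT3, Finset.mem_filter] at h
    simp only [Finset.mem_product]
    exact ⟨⟨h.2 0, h.2 1⟩, h.2 2⟩
  · rintro ⟨⟨a, b⟩, c⟩ _
    simp
  · intro π _
    ext i
    fin_cases i <;> simp
  · rintro ⟨⟨a, b⟩, c⟩ _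
    rfl

theorem sum_bridge {n : ℕ} (g : SimpleGraph (Fin n) → ℝ) :
    ∑ c ∈ RT n, g (gr c) = n * ∑ T ∈ Trees n, g T := by
  have h1 : ∑ c ∈ RT n, g (gr c) = ∑ T : SimpleGraph (Fin n),
      ∑ c ∈ (RT n).filter (fun c => gr c = T), g (gr c) := by
    have h0 := Finset.sum_fiberwise (RT n) (fun c => gr c) (fun c => g (gr c))
    rw [← h0]
  rw [h1, Finset.mul_sum]
  have h2 : ∀ T : SimpleGraph (Fin n), ∑ c ∈ (RT n).filter (fun c => gr c = T), g (gr c) =
      (if T.IsTree then (n : ℝ) * g T else 0) := by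
    intro T
    have h3 : ∑ c ∈ (RT n).filter (fun c => gr c = T), g (gr c) =
        (((RT n).filter (fun c => gr c = T)).card : ℝ) * g T := by
      rw [← nsmul_eq_mul, ← Finset.sum_const]
      apply Finset.sum_congr rfl
      intro c hc
      rw [(Finset.mem_filter.mp hc).2]
    rw [h3, bridge (fun T' => T' = T)]
    by_cases hT : T.IsTree
    · rw [if_pos hT]
      have h4 : univ.filter (fun T' : SimpleGraph (Fin n) => T'.IsTree ∧ T' = T) = {T} := by
        ext T'
        rw [Finset.mem_filter, Finset.mem_singleton]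
        constructor
        · intro h; exact h.2.2
        · intro h; exact ⟨Finset.mem_univ _, h ▸ hT, h⟩
      rw [h4]
      simp
    · rw [if_neg hT]
      have h4 : univ.filter (fun T' : SimpleGraph (Fin n) => T'.IsTree ∧ T' = T) = ∅ := by
        rw [Finset.filter_eq_empty_iff]
        rintro T' _ ⟨h, h'⟩
        exact hT (h' ▸ h)
      rw [h4]
      simp
  rw [Finset.sum_congr rfl (fun T _ => h2 T), ← Finset.sum_filter]
  rfl

theorem card_RT_trees {n : ℕ} : ((RT n).card : ℝ) = n * (Trees n).card := by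
  have h := sum_bridge (n := n) (fun _ => 1)
  simpa using h

/-- probability of a property of the three trees, unrooted version -/
theorem ratio_eq {n : ℕ} (hn : 1 ≤ n) (P : SimpleGraph (Fin n) → SimpleGraph (Fin n) →
      SimpleGraph (Fin n) → Prop) :
    ((univ.filter (fun T : Fin 3 → SimpleGraph (Fin n) =>
        (∀ i, (T i).IsTree) ∧ P (T 0) (T 1) (T 2))).card : ℝ) /
      ((univ.filter (fun T : SimpleGraph (Fin n) => T.IsTree)).card : ℝ) ^ 3 =
    Pr3 n (fun π => P (gr (π 0)) (gr (π 1)) (gr (π 2))) := by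
  have hn0 : (0 : ℝ) < n := by exact_mod_cast hn
  have h1 : ((univ.filter (fun T : Fin 3 → SimpleGraph (Fin n) =>
        (∀ i, (T i).IsTree) ∧ P (T 0) (T 1) (T 2))).card : ℝ) =
      ∑ A ∈ Trees n, ∑ B ∈ Trees n, ∑ C ∈ Trees n, (if P A B C then (1 : ℝ) else 0) := by
    rw [← Finset.sum_product', ← Finset.sum_product', ← Finset.sum_filter, Finset.sum_const,
      nsmul_eq_mul, mul_one]
    congr 1
    apply Finset.card_nbij' (fun T : Fin 3 → SimpleGraph (Fin n) => ((T 0, T 1), T 2))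
      (fun p => ![p.1.1, p.1.2, p.2])
    · intro T hT
      simp only [Finset.coe_filter, Set.mem_ofPred_eq, Finset.mem_univ, true_and] at hT
      simp only [Finset.coe_filter, Set.mem_ofPred_eq, Finset.mem_product, Trees,
        Finset.mem_filter, Finset.mem_univ, true_and]
      exact ⟨⟨⟨hT.1 0, hT.1 1⟩, hT.1 2⟩, hT.2⟩
    · rintro ⟨⟨A, B⟩, C⟩ hT
      simp only [Finset.coe_filter, Set.mem_ofPred_eq, Finset.mem_product, Trees,
        Finset.mem_filter, Finset.mem_univ, true_and] at hT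
      simp only [Finset.coe_filter, Set.mem_ofPred_eq, Finset.mem_univ, true_and]
      refine ⟨?_, hT.2⟩
      intro i
      fin_cases i
      · exact hT.1.1.1
      · exact hT.1.1.2
      · exact hT.1.2
    · intro T _
      ext i
      fin_cases i <;> simp
    · rintro ⟨⟨A, B⟩, C⟩ _
      simp
  have h2 : ((((RT3 n).filter (fun π => P (gr (π 0)) (gr (π 1)) (gr (π 2)))).card : ℕ) : ℝ) =
      (n : ℝ) ^ 3 * ∑ A ∈ Trees n, ∑ B ∈ Trees n, ∑ C ∈ Trees n,
        (if P A B C then (1 : ℝ) else 0) := by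
    let F : SimpleGraph (Fin n) → SimpleGraph (Fin n) → SimpleGraph (Fin n) → ℝ :=
      fun A B C => if P A B C then (1 : ℝ) else 0
    rw [Finset.card_filter]
    push_cast
    have e0 : ∀ π : Fin 3 → Fin n → Fin n,
        (if P (gr (π 0)) (gr (π 1)) (gr (π 2)) then (1 : ℝ) else 0) =
        F (gr (π 0)) (gr (π 1)) (gr (π 2)) := fun _ => rfl
    rw [Finset.sum_congr rfl (fun π _ => e0 π), sum_RT3]
    have e1 : ∀ a b : Fin n → Fin n, ∑ c ∈ RT n, F (gr (![a, b, c] 0)) (gr (![a, b, c] 1))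
        (gr (![a, b, c] 2)) = n * ∑ C ∈ Trees n, F (gr a) (gr b) C :=
      fun a b => sum_bridge (fun C => F (gr a) (gr b) C)
    simp only [e1]
    have e2 : ∀ a : Fin n → Fin n, ∑ b ∈ RT n, (n : ℝ) * ∑ C ∈ Trees n, F (gr a) (gr b) C =
        n * ∑ B ∈ Trees n, ((n : ℝ) * ∑ C ∈ Trees n, F (gr a) B C) :=
      fun a => sum_bridge (fun B => (n : ℝ) * ∑ C ∈ Trees n, F (gr a) B C)
    simp only [e2]
    have e3 := sum_bridge (n := n) (fun A => (n : ℝ) * ∑ B ∈ Trees n,
      ((n : ℝ) * ∑ C ∈ Trees n, F A B C))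
    rw [e3]
    simp only [← Finset.mul_sum]
    simp only [F]
    ring
  have h3 : ((n : ℝ) ^ (n - 1)) = n * (Trees n).card := by
    rw [← card_RT_trees, card_RT hn]
    push_cast; rfl
  unfold Pr3
  rw [h1]
  have h2' : (((RT3 n).filter (fun π => P (gr (π 0)) (gr (π 1)) (gr (π 2)))).card : ℝ) =
      (n : ℝ) ^ 3 * ∑ A ∈ Trees n, ∑ B ∈ Trees n, ∑ C ∈ Trees n,
        (if P A B C then (1 : ℝ) else 0) := h2
  rw [h2', h3, mul_pow, mul_div_mul_left _ _ (by positivity)]
  rfl

end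

end Pool.Agent.ST3
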