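import Pool.Agent.Lib.MP_7abaca_co.FinalA

/-!
The main step: grouping and sprinkling.
-/

set_option autoImplicit false

namespace Pool.Agent.ST3

open Finset Filter
open scoped Classical

noncomputable section

theorem ne_sup_le {n : ℕ} (A B : SimpleGraph (Fin n)) : ne (A ⊔ B) ≤ ne A + ne B := by
  rw [ne_eq_ncard, ne_eq_ncard, ne_eq_ncard, SimpleGraph.edgeSet_sup]
  exact Set.ncard_union_le _ _

theorem Trap.mono_right {n : ℕ} {G H H' M : SimpleGraph (Fin n)} {x : Fin n} {S : Finset (Fin n)}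
    (h : Trap G H M x S) (hH : H ≤ H') : Trap G H' M x S := by
  refine ⟨h.le.trans hH, h.two, h.mem, h.deg, ?_, h.closed, ?_⟩
  · obtain ⟨u, z, h1, h2, h3, h4⟩ := h.piv
    refine ⟨u, z, ?_, h2, h3, h4⟩
    intro y hy hyx
    obtain ⟨a, b, c, d⟩ := h1 y hy hyx
    exact ⟨a, b, hH c, d⟩
  · exact h.conn.mono (fun a b hab => hH hab)

theorem NoTrap.anti {n : ℕ} {d : ℝ} {G H H' : SimpleGraph (Fin n)} (h : NoTrap d G H')
    (hH : H ≤ H') : NoTrap d G H := fun M x S hT => h M x S (hT.mono_right hH)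

theorem kap_le {n : ℕ} (H M : SimpleGraph (Fin n)) (hM : M ≤ H) (h2 : TwoF M) :
    kap H ≤ comps M := Nat.sInf_le ⟨M, hM, h2, rfl⟩

theorem isTree_of_mem {n : ℕ} {π : Fin n → Fin n} (h : π ∈ RT n) : (gr π).IsTree :=
  gr_isTree π h

/-- the event treated by sprinkling -/
def MainEv (δ k : ℝ) (K K0 : ℕ) {n : ℕ} (π : Fin 3 → Fin n → Fin n) (ω : Sym2 (Fin n) → Bool) :
    Prop :=
  (((lam (keep (gr (π 2)) ω)).card : ℝ) ≤ δ * n / 8 ∧
      (big (core (gr (π 2)) (keep (gr (π 2)) ω)) K : ℝ) ≤ δ * n / 16 ∧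
      (Phi K0 (G0 π ω) : ℝ) ≤ k) ∧ NoTrap (δ * n) (G0 π ω) (GG π) ∧
      (∀ M : SimpleGraph (Fin n), M ≤ GG π → TwoF M → comps M ≤ K0) ∧ 0 < Phi K0 (GG π)

theorem main_bound {n : ℕ} (hn : 1 ≤ n) (ε δ : ℝ) (hε0 : 0 ≤ ε) (hε1 : ε ≤ 1) (hδ : 0 < δ)
    (hδ1 : δ ≤ 1) (K m K0 : ℕ) (hK : 1 ≤ K) (k : ℝ)
    (hm : (2 * m * K : ℝ) ≤ δ * n / 16) (hn1 : (48 / δ : ℝ) ≤ δ * n / 8)
    (hn2 : (K + 1 : ℝ) ≤ δ * n / 8) :
    Pr n ε (MainEv δ k K K0) ≤ Real.exp k * (1 - δ ^ 2 / (16 * K)) ^ m := by
  have hKR : (1 : ℝ) ≤ K := by exact_mod_cast hK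
  have hbase : 0 ≤ 1 - δ ^ 2 / (16 * (K : ℝ)) := by
    have : δ ^ 2 / (16 * (K : ℝ)) ≤ 1 := by
      rw [div_le_one (by positivity)]
      nlinarith
    linarith
  set q : ℝ := Real.exp k * (1 - δ ^ 2 / (16 * K)) ^ m with hq
  have hq0 : 0 ≤ q := by
    rw [hq]
    have := Real.exp_pos k
    positivity
  have hn0 : (0 : ℝ) < n := by exact_mod_cast hn
  unfold Pr
  rw [div_le_iff₀ (by positivity), sum_RT3]
  -- inner bound
  have inner : ∀ a ∈ RT n, ∀ b ∈ RT n, ∑ c ∈ RT n, ∑ ω : Sym2 (Fin n) → Bool,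
      (if MainEv δ k K K0 ![a, b, c] ω then wt ε ω else 0) ≤ q * (RT n).card := by
    intro a ha b hb
    let A : SimpleGraph (Fin n) → SimpleGraph (Fin n) := fun C => gr a ⊔ gr b ⊔ C
    let Cnd : SimpleGraph (Fin n) → SimpleGraph (Fin n) → Prop := fun F C =>
      ((lam F).card : ℝ) ≤ δ * n / 8 ∧ (big C K : ℝ) ≤ δ * n / 16 ∧ (Phi K0 (A C) : ℝ) ≤ k
    let bad : SimpleGraph (Fin n) → SimpleGraph (Fin n) → Prop := fun C H =>
      ¬ NoTrap (δ * n) (A C) H ∨ ∃ M : SimpleGraph (Fin n), M ≤ H ∧ TwoF M ∧ K0 < comps M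
    let bd : SimpleGraph (Fin n) → SimpleGraph (Fin n) → Prop := fun C T =>
      ¬ bad C (A C ⊔ T) ∧ 0 < Phi K0 (A C ⊔ T)
    have hAT : ∀ T F : SimpleGraph (Fin n), A (core T F) ⊔ T = gr a ⊔ gr b ⊔ T := by
      intro T F
      simp only [A]
      rw [sup_assoc, sup_eq_right.mpr (core_le T F)]
    have h1 : ∀ c ∈ RT n, ∑ ω : Sym2 (Fin n) → Bool,
      (if MainEv δ k K K0 ![a, b, c] ω then wt ε ω else 0) ≤
        ∑ ω : Sym2 (Fin n) → Bool, (if Cnd (keep (gr c) ω) (core (gr c) (keep (gr c) ω)) ∧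
          bd (core (gr c) (keep (gr c) ω)) (gr c) then wt ε ω else 0) := by
      intro c _
      apply Finset.sum_le_sum
      intro ω _
      have hw := wt_nonnegP ε hε0 hε1 ω
      by_cases hE : MainEv δ k K K0 ![a, b, c] ω
      · rw [if_pos hE]
        obtain ⟨⟨e1, e2, e3⟩, e4, e5, e6⟩ := hE
        rw [if_pos]
        refine ⟨⟨e1, e2, e3⟩, ?_, ?_⟩
        · rintro (h | ⟨M, hM1, hM2, hM3⟩)
          · apply h
            rw [hAT]
            exact e4
          · rw [hAT] at hM1
            exact absurd (e5 M hM1 hM2) (by omega)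
        · rw [hAT]
          exact e6
      · rw [if_neg hE]
        split_ifs
        · exact hw
        · exact le_refl 0
    refine (Finset.sum_le_sum h1).trans ?_
    rw [sum_bridge (fun T => ∑ ω : Sym2 (Fin n) → Bool, (if Cnd (keep T ω) (core T (keep T ω)) ∧
          bd (core T (keep T ω)) T then wt ε ω else 0)), card_RT_trees, ← mul_assoc, mul_comm q,
      mul_assoc]
    apply mul_le_mul_of_nonneg_left _ hn0.le
    clear h1
    have hgb := group_bound ε hε0 hε1 Cnd bd q hq0 ?_ ?_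
    · refine le_trans (le_of_eq ?_) hgb
      refine Finset.sum_congr rfl (fun T _ => Finset.sum_congr rfl (fun ω _ => ?_))
      by_cases hh : Cnd (keep T ω) (core T (keep T ω)) ∧ bd (core T (keep T ω)) T
      · rw [if_pos hh, if_pos hh]
      · rw [if_neg hh, if_neg hh]
    · intro T0 F hT0 hF
      exact core_group T0 F hT0 hF
    · intro F C hC
      obtain ⟨c1, c2, c3⟩ := hC
      have hspr := spr δ hδ hδ1 K m hK (lam F) (A C) C le_sup_right (Phi K0) (bad C)
        (fun H H' h => Phi_anti K0 H H' h)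
        (by
          rintro H H' hHH (h | ⟨M, h1, h2, h3⟩)
          · exact Or.inl (fun h' => h (h'.anti hHH))
          · exact Or.inr ⟨M, h1.trans hHH, h2, h3⟩)
        (by
          intro H hAH hnb hΦ
          have hnt : NoTrap (δ * n) (A C) H := by
            by_contra h; exact hnb (Or.inl h)
          have hK0 : ∀ M : SimpleGraph (Fin n), M ≤ H → TwoF M → comps M ≤ K0 := by
            intro M h1 h2
            by_contra h
            exact hnb (Or.inr ⟨M, h1, h2, by omega⟩)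
          by_cases hyes : ∃ M : SimpleGraph (Fin n), M ≤ H ∧ TwoF M
          · have hkap : kap H ≤ K0 := by
              obtain ⟨M, h1, h2⟩ := hyes
              exact (kap_le H M h1 h2).trans (hK0 M h1 h2)
            have hk2 : 2 ≤ kap H := by
              unfold Phi at hΦ
              rw [if_pos hyes] at hΦ
              have := lt_of_lt_of_le hΦ (min_le_right _ _)
              omega
            have hconn : H.Connected := by
              have h1 : gr a ≤ H := (le_sup_left.trans le_sup_left).trans hAH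
              exact (isTree_of_mem ha).connected.mono h1
            exact impB K0 (δ * n) (A C) H hAH hconn hnt hyes hk2 hkap
          · exact impA K0 (δ * n) (A C) H hAH hnt hyes)
        (by
          intro T hT
          have hT' := (Finset.mem_filter.mp hT).2
          have hAT' : A C ⊔ T = gr a ⊔ gr b ⊔ T := by
            simp only [A]
            rw [sup_assoc, sup_eq_right.mpr hT'.2.1]
          rw [hAT', ← ne_eq_ncard]
          have h1 := ne_sup_le (gr a ⊔ gr b) T
          have h2 := ne_sup_le (gr a) (gr b)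
          have h3 := ne_tree (gr a) (isTree_of_mem ha)
          have h4 := ne_tree (gr b) (isTree_of_mem hb)
          have h5 := ne_tree T hT'.1
          omega)
        c1 c2 hm hn1 hn2
      refine le_trans (le_of_eq ?_) (hspr.trans ?_)
      · rw [Finset.card_filter, Finset.card_filter]
        push_cast
        refine Finset.sum_congr rfl (fun T _ => ?_)
        by_cases hh : ¬ bad C (A C ⊔ T) ∧ 0 < Phi K0 (A C ⊔ T)
        · rw [if_pos hh]
        · rw [if_neg hh]
      apply mul_le_mul_of_nonneg_right _ (by positivity)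
      rw [hq]
      apply mul_le_mul_of_nonneg_right _ (by positivity)
      calc (2 : ℝ) ^ (Phi K0 (A C)) ≤ (Real.exp 1) ^ (Phi K0 (A C)) := by
            apply pow_le_pow_left₀ (by norm_num)
            have := Real.add_one_le_exp (1 : ℝ)
            linarith
        _ = Real.exp (Phi K0 (A C)) := by rw [← Real.exp_nat_mul, mul_one]
        _ ≤ Real.exp k := Real.exp_le_exp.mpr c3
  refine (Finset.sum_le_sum (fun a ha => Finset.sum_le_sum (fun b hb => inner a ha b hb))).trans ?_
  have e1 : ((RT n).card : ℝ) = (n : ℝ) ^ (n - 1) := by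
    rw [card_RT hn]; push_cast; rfl
  simp only [Finset.sum_const, nsmul_eq_mul]
  rw [e1]
  apply le_of_eq
  ring

end

end Pool.Agent.ST3
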