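import Pool.Agent.Lib.MP_7abaca_co.FinalB

/-!
The limit.
-/

set_option autoImplicit false

namespace Pool.Agent.ST3

open Finset Filter
open scoped Classical

noncomputable section

theorem G0_le {n : ℕ} (π : Fin 3 → Fin n → Fin n) (ω : Sym2 (Fin n) → Bool) : G0 π ω ≤ GG π :=
  sup_le_sup_left (core_le _ _) _

theorem mu_large {n : ℕ} (δ ξ : ℝ) (hδ : 0 < δ) (hξ : 0 < ξ) (π : Fin 3 → Fin n → Fin n)
    (hπ : π ∈ RT3 n) (ω : Sym2 (Fin n) → Bool) (hLS : LS2 (2 * δ) (1 / 4) π)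
    (hUB : UBok δ ξ π)
    (hc3 : ∀ v, 3 ≤ ((core (gr (π 2)) (keep (gr (π 2)) ω)).connectedComponentMk v).supp.ncard)
    (hflag : 2 * (nflag π ω : ℝ) + 2 * ov π ≤ ξ * n) (ℓ : ℕ) (hℓ : 1 ≤ ℓ) :
    2 * (n : ℝ) ≤ 2 * mu (G0 π ω) + (ℓ : ℝ) ^ 2 * Sh ℓ π + 2 * n / ℓ + 4 * ov π := by
  obtain ⟨Q, hQ, h1, h2, h3⟩ := hall2 (G0 π ω) (4 * ov π)
    (fun A B hAB => deficit δ ξ hδ hξ π hπ ω hLS hUB hc3 hflag A B hAB)
  obtain ⟨M, hM, hM2, hMQ⟩ := round2 π (G0 π ω) (G0_le π ω) ℓ hℓ Q hQ h1 h2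
  have h4 : M.edgeSet.ncard ≤ mu (G0 π ω) := by
    unfold mu
    exact Finset.le_sup (f := fun M : SimpleGraph (Fin n) => M.edgeSet.ncard)
      (Finset.mem_filter.mpr ⟨Finset.mem_univ _, hM, hM2⟩)
  have h4' : (M.edgeSet.ncard : ℝ) ≤ mu (G0 π ω) := by exact_mod_cast h4
  have h3' : 2 * (n : ℝ) ≤ Q.card + 4 * ov π := by exact_mod_cast h3
  linarith

theorem Phi_le {n : ℕ} (K0 : ℕ) (H : SimpleGraph (Fin n)) : Phi K0 H ≤ K0 + (n - mu H) := by
  unfold Phi
  split_ifs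
  · exact (min_le_left _ _).trans (Nat.le_add_right _ _)
  · exact le_refl _

theorem main_tendsto (κ a b : ℝ) (hκ0 : 0 < κ) (hκ1 : κ ≤ 1) (hab : b < κ * a) :
    Tendsto (fun n : ℕ => Real.exp (b * n + 2) * (1 - κ) ^ ⌊a * n⌋₊) atTop (nhds 0) := by
  have h1 : ∀ n : ℕ, Real.exp (b * n + 2) * (1 - κ) ^ ⌊a * n⌋₊ ≤
      Real.exp (2 + κ) * Real.exp (-((κ * a - b) * n)) := by
    intro n
    have h2 : (1 - κ) ^ ⌊a * n⌋₊ ≤ Real.exp (-κ) ^ ⌊a * n⌋₊ := by
      apply pow_le_pow_left₀ (by linarith)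
      have := Real.add_one_le_exp (-κ)
      linarith
    have h3 : Real.exp (-κ) ^ ⌊a * n⌋₊ = Real.exp (⌊a * n⌋₊ * (-κ)) := by
      rw [← Real.exp_nat_mul]
    have h4 : a * n - 1 ≤ (⌊a * n⌋₊ : ℝ) := by
      have := Nat.lt_floor_add_one (a * n)
      linarith
    rw [← Real.exp_add]
    calc Real.exp (b * n + 2) * (1 - κ) ^ ⌊a * n⌋₊
        ≤ Real.exp (b * n + 2) * Real.exp (⌊a * n⌋₊ * (-κ)) := by
          apply mul_le_mul_of_nonneg_left _ (Real.exp_pos _).le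
          rw [← h3]; exact h2
      _ = Real.exp (b * n + 2 + ⌊a * n⌋₊ * (-κ)) := by rw [← Real.exp_add]
      _ ≤ Real.exp (2 + κ + -((κ * a - b) * n)) := by
          apply Real.exp_le_exp.mpr
          nlinarith
  have h5 : Tendsto (fun n : ℕ => Real.exp (2 + κ) * Real.exp (-((κ * a - b) * n))) atTop
      (nhds 0) := by
    have h6 : Tendsto (fun n : ℕ => (κ * a - b) * (n : ℝ)) atTop atTop :=
      Tendsto.const_mul_atTop (by linarith) tendsto_natCast_atTop_atTop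
    have h7 := (Real.tendsto_exp_neg_atTop_nhds_zero.comp h6).const_mul (Real.exp (2 + κ))
    simpa using h7
  apply squeeze_zero _ h1 h5
  intro n
  have : 0 ≤ 1 - κ := by linarith
  positivity

set_option maxHeartbeats 2000000 in
theorem nonham_small : Tendsto (fun n : ℕ => Pr3 n (fun π => ¬ (GG π).IsHamiltonian)) atTop
    (nhds 0) := by
  obtain ⟨δ, hδ, hδ1, ⟨ε0, hε0, hnt⟩, hls⟩ := notrap'
  obtain ⟨ξ, hξ, hub⟩ := ubs δ hδ (by linarith)
  rw [Metric.tendsto_atTop']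
  -- reduce to an eventual bound
  suffices H : ∀ η : ℝ, 0 < η → ∀ᶠ n : ℕ in atTop,
      Pr3 n (fun π => ¬ (GG π).IsHamiltonian) < η by
    intro η hη
    obtain ⟨N, hN⟩ := eventually_atTop.mp (H η hη)
    refine ⟨N, fun n hn => ?_⟩
    rw [Real.dist_eq, sub_zero, abs_of_nonneg (Pr3_nonneg _ _)]
    exact hN n hn.le
  intro η hη
  set ε : ℝ := min (min ε0 (1 / 2)) (min (η * δ / 160) (η * ξ / 40)) with hεdef
  have hεpos : 0 < ε := by
    apply lt_min (lt_min hε0 (by norm_num)) (lt_min (by positivity) (by positivity))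
  have hεε0 : ε ≤ ε0 := (min_le_left _ _).trans (min_le_left _ _)
  have hεhalf : ε ≤ 1 / 2 := (min_le_left _ _).trans (min_le_right _ _)
  have hεδ : ε ≤ η * δ / 160 := (min_le_right _ _).trans (min_le_left _ _)
  have hεξ : ε ≤ η * ξ / 40 := (min_le_right _ _).trans (min_le_right _ _)
  have hε1 : ε ≤ 1 := by linarith
  obtain ⟨K1, hK1⟩ := blk ε (δ / 16) (η / 10) hεpos (by linarith) (by linarith) (by linarith)
  set K : ℕ := K1 + 1 with hK
  have hKge : 1 ≤ K := by omega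
  have hKR : (1 : ℝ) ≤ K := by exact_mod_cast hKge
  have hKpos : (0 : ℝ) < K := by linarith
  set κ : ℝ := δ ^ 2 / (16 * K) with hκ
  have hκ0 : 0 < κ := by positivity
  have hκ1 : κ ≤ 1 := by
    rw [hκ, div_le_one (by positivity)]
    nlinarith
  set η1 : ℝ := κ * (δ / (32 * K)) / 4 with hη1
  have hη1pos : 0 < η1 := by positivity
  obtain ⟨ℓ, hℓ⟩ := exists_nat_ge (max 1 (8 / η1))
  have hℓ1 : 1 ≤ ℓ := by
    have : (1 : ℝ) ≤ ℓ := (le_max_left _ _).trans hℓ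
    exact_mod_cast this
  have hℓpos : (0 : ℝ) < ℓ := by exact_mod_cast hℓ1
  have hℓ8 : 8 / η1 ≤ ℓ := (le_max_right _ _).trans hℓ
  have hℓη : 1 / (ℓ : ℝ) ≤ η1 / 8 := by
    rw [div_le_iff₀ hη1pos] at hℓ8
    rw [div_le_div_iff₀ hℓpos (by norm_num)]
    linarith
  set σ : ℝ := η1 / (8 * (ℓ : ℝ) ^ 2) with hσ
  have hσpos : 0 < σ := by positivity
  set τ : ℝ := min (η1 / 16) (ξ / 8) with hτ
  have hτpos : 0 < τ := lt_min (by linarith) (by linarith)
  have hτ1 : τ ≤ η1 / 16 := min_le_left _ _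
  have hτ2 : τ ≤ ξ / 8 := min_le_right _ _
  have t1 := hnt ε hεpos hεε0
  have t2 := sh_small ℓ σ hσpos
  have t3 := ov_small τ hτpos
  have t4 := main_tendsto κ (δ / (32 * K)) (2 * η1) hκ0 hκ1 (by
    rw [hη1]
    have : 0 < κ * (δ / (32 * K)) := by positivity
    linarith)
  have tsum := ((((t1.add hls).add hub).add t2).add t3).add t4
  simp only [add_zero] at tsum
  have hev := tsum.eventually (gt_mem_nhds (show (0 : ℝ) < η / 2 by linarith))
  have hbig1 : ∀ᶠ n : ℕ in atTop, (48 / δ : ℝ) ≤ δ * n / 8 := by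
    have h : Tendsto (fun n : ℕ => δ / 8 * (n : ℝ)) atTop atTop :=
      Tendsto.const_mul_atTop (by linarith) tendsto_natCast_atTop_atTop
    filter_upwards [h.eventually_ge_atTop (48 / δ)] with n hn
    linarith
  have hbig2 : ∀ᶠ n : ℕ in atTop, (K + 1 : ℝ) ≤ δ * n / 8 := by
    have h : Tendsto (fun n : ℕ => δ / 8 * (n : ℝ)) atTop atTop :=
      Tendsto.const_mul_atTop (by linarith) tendsto_natCast_atTop_atTop
    filter_upwards [h.eventually_ge_atTop (K + 1 : ℝ)] with n hn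
    linarith
  filter_upwards [hev, hbig1, hbig2, eventually_ge_atTop 3] with n hn hn1 hn2 hn3
  have hnpos : (0 : ℝ) < n := by
    have : 0 < n := by omega
    exact_mod_cast this
  have hηn : 0 < η1 * (n : ℝ) := mul_pos hη1pos hnpos
  have hξn : 0 < ξ * (n : ℝ) := mul_pos hξ hnpos
  have hτn1 : τ * n ≤ η1 / 16 * n := mul_le_mul_of_nonneg_right hτ1 hnpos.le
  have hτn2 : τ * n ≤ ξ / 8 * n := mul_le_mul_of_nonneg_right hτ2 hnpos.le
  have hℓn : (n : ℝ) * (1 / ℓ) ≤ n * (η1 / 8) := mul_le_mul_of_nonneg_left hℓη hnpos.le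
  set K0 : ℕ := ⌈η1 * n⌉₊ + 1 with hK0
  have hK0le : (K0 : ℝ) ≤ η1 * n + 2 := by
    have := (Nat.ceil_lt_add_one (show 0 ≤ η1 * (n : ℝ) by positivity)).le
    rw [hK0]; push_cast; linarith
  have hK0ge : η1 * n ≤ (K0 : ℝ) := by
    have := Nat.le_ceil (η1 * (n : ℝ))
    rw [hK0]; push_cast; linarith
  -- the union bound
  have hmono : Pr n ε (fun π _ => ¬ (GG π).IsHamiltonian) ≤
      Pr n ε (fun π ω => ((((((((¬ NoTrap (δ * n) (G0 π ω) (GG π)) ∨
        ¬ LS2 (3 * δ) (1 / 20000) π) ∨ ¬ UBok δ ξ π) ∨ σ * n < (Sh ℓ π : ℝ)) ∨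
        τ * n < (ov π : ℝ)) ∨
        MainEv δ (2 * η1 * n + 2) K K0 π ω) ∨
        δ / 8 * n < ((lam (keep (gr (π 2)) ω)).card : ℝ)) ∨
        ξ / 4 * n < (nflag π ω : ℝ)) ∨
        δ / 16 * n < (big (core (gr (π 2)) (keep (gr (π 2)) ω)) K1 : ℝ)) := by
    apply Pr_mono n ε hεpos.le hε1
    intro π hπ ω hham
    by_contra hcon
    simp only [not_or] at hcon
    obtain ⟨⟨⟨⟨⟨⟨⟨⟨c1, c2⟩, c3⟩, c4⟩, c5⟩, c6⟩, c7⟩, c8⟩, c9⟩ := hcon
    simp only [not_not] at c1 c2 c3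
    rw [not_lt] at c4 c5 c7 c8 c9
    apply c6
    have hπi : ∀ i, (gr (π i)).IsTree := by
      intro i
      have := (Finset.mem_filter.mp hπ).2 i
      exact gr_isTree _ this
    have hc3 : ∀ v, 3 ≤ ((core (gr (π 2)) (keep (gr (π 2)) ω)).connectedComponentMk v).supp.ncard :=
      fun v => core_comp hn3 _ _ (hπi 2) (keep_le _ _) v
    have hLS : LS2 (2 * δ) (1 / 4) π := by
      intro W hW
      have h0 := mul_pos hδ hnpos
      have h1 := c2 W (hW.trans (by linarith))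
      refine h1.trans ?_
      apply mul_le_mul_of_nonneg_right (by norm_num) (by positivity)
    have hflag : 2 * (nflag π ω : ℝ) + 2 * ov π ≤ ξ * n := by linarith
    have hmu := mu_large δ ξ hδ hξ π hπ ω hLS c3 hc3 hflag ℓ hℓ1
    have hsh : (ℓ : ℝ) ^ 2 * Sh ℓ π ≤ η1 / 8 * n := by
      calc (ℓ : ℝ) ^ 2 * Sh ℓ π ≤ (ℓ : ℝ) ^ 2 * (σ * n) := by
            apply mul_le_mul_of_nonneg_left c4 (by positivity)
        _ = η1 / 8 * n := by rw [hσ]; field_simp
    have hdiv : 2 * (n : ℝ) / ℓ ≤ η1 / 4 * n := by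
      have : 2 * (n : ℝ) / ℓ = 2 * n * (1 / ℓ) := by ring
      rw [this]
      linarith
    have hPhi : (Phi K0 (G0 π ω) : ℝ) ≤ 2 * η1 * n + 2 := by
      have h1 := Phi_le K0 (G0 π ω)
      have h2 : ((n - mu (G0 π ω) : ℕ) : ℝ) ≤ η1 * n := by
        rcases le_total (mu (G0 π ω)) n with h | h
        · rw [Nat.cast_sub h]
          linarith
        · rw [Nat.sub_eq_zero_of_le h]
          simp only [Nat.cast_zero]
          positivity
      have h3 : (Phi K0 (G0 π ω) : ℝ) ≤ K0 + ((n - mu (G0 π ω) : ℕ) : ℝ) := by exact_mod_cast h1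
      linarith
    have hbig : (big (core (gr (π 2)) (keep (gr (π 2)) ω)) K : ℝ) ≤ δ * n / 16 := by
      have h1 : big (core (gr (π 2)) (keep (gr (π 2)) ω)) K ≤
          big (core (gr (π 2)) (keep (gr (π 2)) ω)) K1 := by
        unfold big
        apply Finset.card_le_card
        intro v hv
        rw [Finset.mem_filter] at hv ⊢
        exact ⟨hv.1, by omega⟩
      have h2 : (big (core (gr (π 2)) (keep (gr (π 2)) ω)) K : ℝ) ≤
          big (core (gr (π 2)) (keep (gr (π 2)) ω)) K1 := by exact_mod_cast h1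
      linarith
    refine ⟨⟨by linarith, hbig, hPhi⟩, c1, ?_, ?_⟩
    · intro M hM hM2
      have h1 := cyc_few π M hM hM2 ℓ hℓ1
      have h2 : (n : ℝ) / ℓ ≤ η1 / 8 * n := by
        have : (n : ℝ) / ℓ = n * (1 / ℓ) := by ring
        rw [this]
        linarith
      have h3 : (Sh ℓ π : ℝ) ≤ η1 / 8 * n := by
        have h4 : (Sh ℓ π : ℝ) ≤ (ℓ : ℝ) ^ 2 * Sh ℓ π := by
          have h5 : (1 : ℝ) ≤ (ℓ : ℝ) ^ 2 := by
            have : (1 : ℝ) ≤ ℓ := by exact_mod_cast hℓ1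
            nlinarith
          have h6 : (0 : ℝ) ≤ Sh ℓ π := by positivity
          nlinarith
        linarith
      have h4 : (comps M : ℝ) ≤ K0 := by
        have : 0 < η1 * n := by positivity
        linarith
      exact_mod_cast h4
    · by_contra h0
      have h1 : Phi K0 (GG π) = 0 := by omega
      exact hham (ham_of_Phi hn3 K0 (by omega) (GG π) h1)
  have hp : ∀ (E : (Fin 3 → Fin n → Fin n) → Prop), Pr n ε (fun π _ => E π) = Pr3 n E :=
    fun E => Pr_of_Pr3 n ε E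
  have e7 := lam_small ε (δ / 8) hεpos.le hε1 (by linarith) n hn3
  have e8 := nflag_small ε (ξ / 4) hεpos.le hε1 (by linarith) n (by omega)
  have e9 := hK1 n hn3
  have e6 := main_bound (n := n) (by omega) ε δ hεpos.le hε1 hδ (by linarith) K
    ⌊δ / (32 * K) * n⌋₊ K0 hKge (2 * η1 * n + 2) (by
      have h1 := Nat.floor_le (show 0 ≤ δ / (32 * K) * (n : ℝ) by positivity)
      have h2 : 2 * (⌊δ / (32 * K) * (n : ℝ)⌋₊ : ℝ) * K ≤ 2 * (δ / (32 * K) * n) * K := by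
        gcongr
      refine h2.trans (le_of_eq ?_)
      field_simp
      ring) hn1 hn2
  have b7 : 2 * ε / (δ / 8) ≤ η / 10 := by
    rw [div_le_iff₀ (by linarith)]
    linarith
  have b8 : ε / (ξ / 4) ≤ η / 10 := by
    rw [div_le_iff₀ (by linarith)]
    linarith
  have hfin : Pr3 n (fun π => ¬ (GG π).IsHamiltonian) ≤
      ((((((((Pr n ε (fun π ω => ¬ NoTrap (δ * n) (G0 π ω) (GG π))) +
        Pr3 n (fun π => ¬ LS2 (3 * δ) (1 / 20000) π)) + Pr3 n (fun π => ¬ UBok δ ξ π)) +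
        Pr3 n (fun π => σ * n < (Sh ℓ π : ℝ))) + Pr3 n (fun π => τ * n < (ov π : ℝ))) +
        Real.exp (2 * η1 * n + 2) * (1 - κ) ^ ⌊δ / (32 * K) * (n : ℝ)⌋₊) + η / 10) + η / 10) +
        η / 10 := by
    rw [← hp]
    refine hmono.trans ?_
    refine (Pr_or n ε hεpos.le hε1 _ _).trans (add_le_add ?_ e9)
    refine (Pr_or n ε hεpos.le hε1 _ _).trans (add_le_add ?_ (e8.trans b8))
    refine (Pr_or n ε hεpos.le hε1 _ _).trans (add_le_add ?_ (e7.trans b7))
    refine (Pr_or n ε hεpos.le hε1 _ _).trans (add_le_add ?_ e6)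
    refine (Pr_or n ε hεpos.le hε1 _ _).trans (add_le_add ?_ (hp _).le)
    refine (Pr_or n ε hεpos.le hε1 _ _).trans (add_le_add ?_ (hp _).le)
    refine (Pr_or n ε hεpos.le hε1 _ _).trans (add_le_add ?_ (hp _).le)
    exact (Pr_or n ε hεpos.le hε1 _ _).trans (add_le_add (le_refl _) (hp _).le)
  linarith

theorem Pr3_compl {n : ℕ} (hn : 1 ≤ n) (E : (Fin 3 → Fin n → Fin n) → Prop) :
    Pr3 n E + Pr3 n (fun π => ¬ E π) = 1 := by
  have hn0 : (0 : ℝ) < n := by exact_mod_cast hn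
  have h1 : ((RT3 n).card : ℝ) = ((n : ℝ) ^ (n - 1)) ^ 3 := by
    have h2 := sum_RT3 (n := n) (fun _ => 1)
    simp only [Finset.sum_const, nsmul_eq_mul, mul_one] at h2
    rw [h2, card_RT hn]
    push_cast; ring
  unfold Pr3
  rw [← add_div, ← h1, div_eq_one_iff_eq]
  · rw [Finset.card_filter, Finset.card_filter]
    push_cast
    rw [← Finset.sum_add_distrib]
    have : ∀ π ∈ RT3 n, ((if E π then (1 : ℝ) else 0) + if ¬ E π then (1 : ℝ) else 0) = 1 := by
      intro π _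
      by_cases h : E π <;> simp [h]
    rw [Finset.sum_congr rfl this]
    simp
  · rw [h1]; positivity

/-- **Main theorem.** The union of three independent uniformly random spanning trees of `K_n` is
Hamiltonian with probability tending to one. -/
theorem three_trees_hamiltonian' :
    Tendsto (fun n : ℕ =>
      ((univ.filter (fun T : Fin 3 → SimpleGraph (Fin n) =>
        (∀ i, (T i).IsTree) ∧ (T 0 ⊔ T 1 ⊔ T 2).IsHamiltonian)).card : ℝ) /
      ((univ.filter (fun T : SimpleGraph (Fin n) => T.IsTree)).card : ℝ) ^ 3) atTop (nhds 1) := by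
  have h1 := nonham_small
  have h2 : Tendsto (fun n : ℕ => 1 - Pr3 n (fun π => ¬ (GG π).IsHamiltonian)) atTop
      (nhds (1 - 0)) := tendsto_const_nhds.sub h1
  rw [sub_zero] at h2
  apply h2.congr'
  filter_upwards [eventually_ge_atTop 1] with n hn
  rw [ratio_eq hn (fun A B C => (A ⊔ B ⊔ C).IsHamiltonian)]
  have h3 := Pr3_compl hn (fun π => (GG π).IsHamiltonian)
  have h4 : Pr3 n (fun π => (gr (π 0) ⊔ gr (π 1) ⊔ gr (π 2)).IsHamiltonian) =
      Pr3 n (fun π => (GG π).IsHamiltonian) := rfl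
  rw [h4]
  linarith

end

end Pool.Agent.ST3
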