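import Pool.Agent.Lib.MP_7abaca_co.Prb

/-!
Grouping of the marked tree by its visible part.
-/

set_option autoImplicit false

namespace Pool.Agent.ST3

open Finset Filter
open scoped Classical

noncomputable section

/-- number of edges as a finset cardinality -/
def ne {n : ℕ} (T : SimpleGraph (Fin n)) : ℕ :=
  (univ.filter (fun e : Sym2 (Fin n) => e ∈ T.edgeSet)).card

theorem ne_eq_ncard {n : ℕ} (T : SimpleGraph (Fin n)) : ne T = T.edgeSet.ncard := by
  unfold ne
  rw [← Set.ncard_coe_finset]
  congr 1
  ext e
  simp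

theorem ne_tree {n : ℕ} (T : SimpleGraph (Fin n)) (hT : T.IsTree) : ne T + 1 = n := by
  have h := (SimpleGraph.isTree_iff_connected_and_card.mp hT).2
  rw [ne_eq_ncard]
  rw [Nat.card_coe_set_eq, Nat.card_eq_fintype_card, Fintype.card_fin] at h
  exact h

theorem keep_eq_iff {n : ℕ} (T F : SimpleGraph (Fin n)) (hF : F ≤ T) (ω : Sym2 (Fin n) → Bool) :
    keep T ω = F ↔ ω ∈ Fintype.piFinset (fun e : Sym2 (Fin n) =>
      if e ∈ F.edgeSet then ({false} : Finset Bool) else if e ∈ T.edgeSet then {true} else univ) := by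
  rw [Fintype.mem_piFinset]
  constructor
  · intro h e
    subst h
    induction e using Sym2.ind with
    | _ a b =>
      by_cases h1 : s(a, b) ∈ (keep T ω).edgeSet
      · rw [if_pos h1, Finset.mem_singleton]
        exact h1.2
      · rw [if_neg h1]
        by_cases h2 : s(a, b) ∈ T.edgeSet
        · rw [if_pos h2, Finset.mem_singleton]
          by_contra h3
          apply h1
          refine ⟨h2, ?_⟩
          simpa using h3
        · rw [if_neg h2]; exact Finset.mem_univ _
  · intro h
    ext a b
    constructor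
    · rintro ⟨h1, h2⟩
      by_contra h3
      have h4 := h s(a, b)
      have h5 : s(a, b) ∉ F.edgeSet := h3
      have h6 : s(a, b) ∈ T.edgeSet := h1
      rw [if_neg h5, if_pos h6, Finset.mem_singleton, h2] at h4
      exact absurd h4 (by decide)
    · intro h1
      refine ⟨hF h1, ?_⟩
      have h4 := h s(a, b)
      have h5 : s(a, b) ∈ F.edgeSet := h1
      rw [if_pos h5, Finset.mem_singleton] at h4
      exact h4

theorem keep_le {n : ℕ} (T : SimpleGraph (Fin n)) (ω : Sym2 (Fin n) → Bool) : keep T ω ≤ T :=
  fun _ _ h => h.1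

/-- the weight of a visible forest in a tree -/
def wF {n : ℕ} (ε : ℝ) (F : SimpleGraph (Fin n)) : ℝ :=
  ε ^ (n - 1 - ne F) * (1 - ε) ^ ne F

theorem sum_keep {n : ℕ} (ε : ℝ) (T F : SimpleGraph (Fin n)) (hT : T.IsTree) :
    ∑ ω : Sym2 (Fin n) → Bool, (if keep T ω = F then wt ε ω else 0) =
      if F ≤ T then wF ε F else 0 := by
  by_cases hF : F ≤ T
  · rw [if_pos hF, ← Finset.sum_filter]
    have h1 : univ.filter (fun ω : Sym2 (Fin n) → Bool => keep T ω = F) =
        Fintype.piFinset (fun e : Sym2 (Fin n) =>
          if e ∈ F.edgeSet then ({false} : Finset Bool) else if e ∈ T.edgeSet then {true}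
            else univ) := by
      ext ω
      rw [Finset.mem_filter, keep_eq_iff T F hF]
      simp only [Finset.mem_univ, true_and]
    rw [h1, sum_wt_pi]
    have h2 : ∀ e : Sym2 (Fin n), (∑ b ∈ (if e ∈ F.edgeSet then ({false} : Finset Bool) else
        if e ∈ T.edgeSet then {true} else univ), (if b = true then ε else 1 - ε)) =
        (if e ∈ F.edgeSet then (1 - ε) else 1) * (if e ∈ T.edgeSet ∧ e ∉ F.edgeSet then ε else 1) := by
      intro e
      by_cases h3 : e ∈ F.edgeSet
      · simp [h3]
      · by_cases h4 : e ∈ T.edgeSet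
        · simp [h3, h4]
        · simp [h3, h4]
    rw [Finset.prod_congr rfl (fun e _ => h2 e), Finset.prod_mul_distrib, Finset.prod_ite,
      Finset.prod_ite]
    simp only [Finset.prod_const, one_pow, mul_one]
    have h5 : (univ.filter (fun e : Sym2 (Fin n) => e ∈ T.edgeSet ∧ e ∉ F.edgeSet)).card =
        n - 1 - ne F := by
      have h6 : univ.filter (fun e : Sym2 (Fin n) => e ∈ T.edgeSet ∧ e ∉ F.edgeSet) =
          univ.filter (fun e : Sym2 (Fin n) => e ∈ T.edgeSet) \
            univ.filter (fun e : Sym2 (Fin n) => e ∈ F.edgeSet) := by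
        ext e
        simp
      rw [h6, Finset.card_sdiff_of_subset]
      · have := ne_tree T hT
        unfold ne at this ⊢
        omega
      · intro e he
        rw [Finset.mem_filter] at he ⊢
        exact ⟨he.1, SimpleGraph.edgeSet_mono hF he.2⟩
    rw [h5]
    unfold wF ne
    ring
  · rw [if_neg hF]
    apply Finset.sum_eq_zero
    intro ω _
    rw [if_neg]
    intro h
    exact hF (h ▸ keep_le T ω)

theorem wF_nonneg {n : ℕ} (ε : ℝ) (h0 : 0 ≤ ε) (h1 : ε ≤ 1) (F : SimpleGraph (Fin n)) :
    0 ≤ wF ε F := by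
  unfold wF
  have : 0 ≤ 1 - ε := by linarith
  positivity

/-- sums over the marking grouped by the kept part -/
theorem sum_group {n : ℕ} (ε : ℝ) (T : SimpleGraph (Fin n)) (hT : T.IsTree)
    (h : SimpleGraph (Fin n) → ℝ) :
    ∑ ω : Sym2 (Fin n) → Bool, wt ε ω * h (keep T ω) =
      ∑ F : SimpleGraph (Fin n), (if F ≤ T then wF ε F else 0) * h F := by
  have h1 : ∀ ω : Sym2 (Fin n) → Bool, wt ε ω * h (keep T ω) =
      ∑ F : SimpleGraph (Fin n), (if keep T ω = F then wt ε ω else 0) * h F := by
    intro ω
    rw [Finset.sum_eq_single (keep T ω)]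
    · simp
    · intro F _ hF
      rw [if_neg (fun h => hF h.symm), zero_mul]
    · intro h; exact absurd (Finset.mem_univ _) h
  rw [Finset.sum_congr rfl (fun ω _ => h1 ω), Finset.sum_comm]
  apply Finset.sum_congr rfl
  intro F _
  rw [← Finset.sum_mul, sum_keep ε T F hT]

/-- the set of trees -/
def Trees (n : ℕ) : Finset (SimpleGraph (Fin n)) := univ.filter (fun T => T.IsTree)

/-- The grouping bound. -/
theorem group_bound {n : ℕ} (ε : ℝ) (h0 : 0 ≤ ε) (h1 : ε ≤ 1)
    (Cnd : SimpleGraph (Fin n) → SimpleGraph (Fin n) → Prop)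
    (bd : SimpleGraph (Fin n) → SimpleGraph (Fin n) → Prop) (q : ℝ) (hq0 : 0 ≤ q)
    (hcg : ∀ T0 F : SimpleGraph (Fin n), T0.IsTree → F ≤ T0 →
      univ.filter (fun T : SimpleGraph (Fin n) => T.IsTree ∧ F ≤ T ∧ core T F = core T0 F) =
      NT (core T0 F) (lam F))
    (hq : ∀ F C : SimpleGraph (Fin n), Cnd F C →
      (((NT C (lam F)).filter (fun T => bd C T)).card : ℝ) ≤ q * (NT C (lam F)).card) :
    ∑ T ∈ Trees n, ∑ ω : Sym2 (Fin n) → Bool,
      (if Cnd (keep T ω) (core T (keep T ω)) ∧ bd (core T (keep T ω)) T then wt ε ω else 0) ≤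
      q * (Trees n).card := by
  -- indicator function of the pair `(F, T)`
  let ind : SimpleGraph (Fin n) → SimpleGraph (Fin n) → ℝ := fun F T =>
    if Cnd F (core T F) ∧ bd (core T F) T then 1 else 0
  have e1 : ∀ T ∈ Trees n, ∑ ω : Sym2 (Fin n) → Bool,
      (if Cnd (keep T ω) (core T (keep T ω)) ∧ bd (core T (keep T ω)) T then wt ε ω else 0) =
      ∑ F : SimpleGraph (Fin n), (if F ≤ T then wF ε F else 0) * ind F T := by
    intro T hT
    have hT' : T.IsTree := (Finset.mem_filter.mp hT).2
    rw [← sum_group ε T hT' (fun F => ind F T)]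
    apply Finset.sum_congr rfl
    intro ω _
    simp only [ind]
    split_ifs <;> simp
  rw [Finset.sum_congr rfl e1, Finset.sum_comm]
  have e2 : ∀ F : SimpleGraph (Fin n), ∑ T ∈ Trees n, (if F ≤ T then wF ε F else 0) * ind F T ≤
      q * ∑ T ∈ Trees n, (if F ≤ T then wF ε F else 0) := by
    intro F
    -- group by the value of the core
    have e3 : ∀ g : SimpleGraph (Fin n) → ℝ, ∑ T ∈ Trees n, (if F ≤ T then wF ε F else 0) * g T =
        wF ε F * ∑ C : SimpleGraph (Fin n),
          ∑ T ∈ univ.filter (fun T : SimpleGraph (Fin n) => T.IsTree ∧ F ≤ T ∧ core T F = C),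
            g T := by
      intro g
      have e4 : ∑ C : SimpleGraph (Fin n),
          ∑ T ∈ univ.filter (fun T : SimpleGraph (Fin n) => T.IsTree ∧ F ≤ T ∧ core T F = C),
            g T = ∑ T ∈ (Trees n).filter (fun T => F ≤ T), g T := by
        rw [← Finset.sum_fiberwise (s := (Trees n).filter (fun T => F ≤ T))
          (g := fun T => core T F) (f := g)]
        apply Finset.sum_congr rfl
        intro C _
        apply Finset.sum_congr
        · ext T
          simp only [Trees, Finset.mem_filter, Finset.mem_univ, true_and]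
          tauto
        · intro _ _; rfl
      rw [e4, Finset.sum_filter, Finset.mul_sum]
      apply Finset.sum_congr rfl
      intro T _
      split_ifs <;> simp
    have e5 := e3 (fun T => ind F T)
    have e6 := e3 (fun _ => 1)
    simp only [mul_one] at e6
    rw [e5, e6]
    have hw := wF_nonneg ε h0 h1 F
    rw [mul_left_comm q]
    apply mul_le_mul_of_nonneg_left _ hw
    rw [Finset.mul_sum]
    apply Finset.sum_le_sum
    intro C _
    by_cases hne : (univ.filter (fun T : SimpleGraph (Fin n) =>
        T.IsTree ∧ F ≤ T ∧ core T F = C)).Nonempty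
    · obtain ⟨T0, hT0⟩ := hne
      rw [Finset.mem_filter] at hT0
      obtain ⟨_, hT0, hFT0, hC⟩ := hT0
      have hs := hcg T0 F hT0 hFT0
      rw [hC] at hs
      rw [hs]
      by_cases hCnd : Cnd F C
      · have e7 : ∑ T ∈ NT C (lam F), ind F T =
            (((NT C (lam F)).filter (fun T => bd C T)).card : ℝ) := by
          rw [Finset.card_filter]
          push_cast
          apply Finset.sum_congr rfl
          intro T hT
          rw [← hs, Finset.mem_filter] at hT
          simp only [ind]
          rw [hT.2.2.2]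
          simp [hCnd]
        rw [e7]
        simp only [Finset.sum_const, nsmul_eq_mul, mul_one]
        exact hq F C hCnd
      · have e7 : ∑ T ∈ NT C (lam F), ind F T = 0 := by
          apply Finset.sum_eq_zero
          intro T hT
          rw [← hs, Finset.mem_filter] at hT
          simp only [ind]
          rw [hT.2.2.2]
          simp [hCnd]
        rw [e7]
        apply mul_nonneg hq0
        apply Finset.sum_nonneg
        intro _ _; exact zero_le_one
    · rw [Finset.not_nonempty_iff_eq_empty] at hne
      rw [hne]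
      simp
  calc ∑ F : SimpleGraph (Fin n), ∑ T ∈ Trees n, (if F ≤ T then wF ε F else 0) * ind F T
      ≤ ∑ F : SimpleGraph (Fin n), q * ∑ T ∈ Trees n, (if F ≤ T then wF ε F else 0) :=
        Finset.sum_le_sum (fun F _ => e2 F)
    _ = q * ∑ T ∈ Trees n, ∑ F : SimpleGraph (Fin n), (if F ≤ T then wF ε F else 0) := by
        rw [← Finset.mul_sum, Finset.sum_comm]
    _ = q * (Trees n).card := by
        congr 1
        have e8 : ∀ T ∈ Trees n, ∑ F : SimpleGraph (Fin n), (if F ≤ T then wF ε F else 0) = 1 := by
          intro T hT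
          have hT' : T.IsTree := (Finset.mem_filter.mp hT).2
          have := sum_group ε T hT' (fun _ => 1)
          simp only [mul_one] at this
          rw [← this, sum_wtP]
        rw [Finset.sum_congr rfl e8]
        simp

end

end Pool.Agent.ST3
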