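import Pool.Agent.Lib.MP_7abaca_co.Group
import Pool.Agent.Lib.MP_7abaca_co.All

/-!
With high probability there is no small trapped set.
-/

set_option autoImplicit false

namespace Pool.Agent.ST3

open Finset Filter
open scoped Classical

noncomputable section

theorem lstar_le_estar {n : ℕ} (π : Fin 3 → Fin n → Fin n) (S W : Finset (Fin n)) :
    lstar π S W ≤ estar π W := by
  unfold lstar estar ein
  apply Finset.sum_le_sum
  intro i _
  apply Finset.card_le_card
  intro e he
  rw [Finset.mem_filter] at he ⊢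
  exact ⟨he.1, he.2.1, he.2.2.2⟩

theorem notrap' : ∃ δ > 0, δ ≤ 1 / 1000 ∧ (∃ ε0 > 0, ∀ ε : ℝ, 0 < ε → ε ≤ ε0 →
    Tendsto (fun n : ℕ => Pr n ε (fun π ω => ¬ NoTrap (δ * n) (G0 π ω) (GG π))) atTop (nhds 0)) ∧
    Tendsto (fun n : ℕ => Pr3 n (fun π => ¬ LS2 (3 * δ) (1 / 20000) π)) atTop (nhds 0) := by
  obtain ⟨δ0, hδ0, hls2⟩ := ls2 (1 / 20000) (by norm_num)
  obtain ⟨ε1, hε1, hlf⟩ := lf (1 / 24) (1 / 20000) (by norm_num) (by norm_num)
  obtain ⟨s0, htb⟩ := trapbig
  have hδpos : 0 < min (δ0 / 3) (1 / 1000) := lt_min (by linarith) (by norm_num)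
  set δ := min (δ0 / 3) (1 / 1000) with hδdef
  have hδle : δ ≤ 1 / 1000 := min_le_right _ _
  have hδ3 : 3 * δ ≤ δ0 := by
    have : δ ≤ δ0 / 3 := min_le_left _ _
    linarith
  have h2 := hls2 (3 * δ) hδ3
  refine ⟨δ, hδpos, hδle, ⟨min ε1 1, lt_min hε1 one_pos, ?_⟩, h2⟩
  intro ε hε hεle
  have hεε1 : ε ≤ ε1 := hεle.trans (min_le_left _ _)
  have hε1' : ε ≤ 1 := hεle.trans (min_le_right _ _)
  have h1 := ls1
  have h3 := hlf ε hε hεε1
  have h4 := ltst (1 / 24) (by norm_num)
  have hsum := ((h1.add h2).add h3).add h4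
  simp only [add_zero] at hsum
  -- eventually log n is large
  have hlog : ∀ᶠ n : ℕ in atTop, (s0 : ℝ) ≤ 1 / 24 * Real.log n := by
    have : Tendsto (fun n : ℕ => Real.log (n : ℝ)) atTop atTop :=
      Real.tendsto_log_atTop.comp tendsto_natCast_atTop_atTop
    have h5 := this.eventually_ge_atTop (24 * (s0 : ℝ))
    filter_upwards [h5] with n hn
    linarith
  refine squeeze_zero' (Eventually.of_forall fun n => Pr_nonneg n ε hε.le hε1' _) ?_ hsum
  filter_upwards [hlog, eventually_ge_atTop 3] with n hn hn3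
  have hle : Pr n ε (fun π ω => ¬ NoTrap (δ * n) (G0 π ω) (GG π)) ≤
      Pr n ε (fun π ω => ((¬ LS1 (1 / 8) π ∨ ¬ LS2 (3 * δ) (1 / 20000) π) ∨
        ¬ LFok (1 / 24) (1 / 20000) π ω) ∨ (∃ S N : Finset (Fin n),
          1 / 24 * Real.log n ≤ (S.card : ℝ) ∧ 1 ≤ S.card ∧ 1000 * S.card ≤ n ∧
          AA (1 / 1000) π S N)) := by
    apply Pr_mono n ε hε.le hε1'
    intro π hπ ω hnt
    by_contra hcon
    push Not at hcon
    obtain ⟨⟨⟨hLS1, hLS2⟩, hLF⟩, hAA⟩ := hcon
    unfold NoTrap at hnt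
    push Not at hnt
    obtain ⟨M, x, S, hT, hS⟩ := hnt
    have hn0 : (0 : ℝ) < n := by
      have : 0 < n := by omega
      exact_mod_cast this
    have hSn : 1000 * (S.card : ℝ) ≤ n := by nlinarith
    have hSn' : 1000 * S.card ≤ n := by exact_mod_cast hSn
    have hSpos : 1 ≤ S.card := Finset.card_pos.mpr ⟨x, hT.mem⟩
    have hSlt : S.card < n := by omega
    have hπi : ∀ i, (gr (π i)).IsTree := by
      intro i
      have := (Finset.mem_filter.mp hπ).2 i
      exact gr_isTree _ this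
    have hc3 : ∀ v, 3 ≤ ((core (gr (π 2)) (keep (gr (π 2)) ω)).connectedComponentMk v).supp.ncard :=
      fun v => core_comp hn3 _ _ (hπi 2) (keep_le _ _) v
    have hdet := det π hπ (core (gr (π 2)) (keep (gr (π 2)) ω)) (GG π) M (core_le _ _) hc3
      (le_refl _) x S hSlt hT
    have htc := trap_count2 _ _ M x S hT
    have hle := lstar_le_estar π S (tw M S)
    have hWbig : 1 / 8 * Real.log n < ((tw M S).card : ℝ) := by
      by_contra h
      push Not at h
      have := hLS1 (tw M S) h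
      omega
    have hW3 : ((tw M S).card : ℝ) ≤ 3 * S.card := by
      have : (tw M S).card ≤ 3 * S.card := by omega
      exact_mod_cast this
    have hSbig : 1 / 24 * Real.log n ≤ (S.card : ℝ) := by linarith
    have hs0 : s0 ≤ S.card := by
      have : (s0 : ℝ) ≤ S.card := hn.trans hSbig
      exact_mod_cast this
    obtain ⟨N, hN⟩ := htb n π ω M x S hπ hs0 hSn' hT hc3
      (by
        intro W hW
        apply hLS2 W
        nlinarith)
      (by
        intro W hSW _ hconn
        apply hLF W _ hconn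
        have : (S.card : ℝ) ≤ W.card := by exact_mod_cast Finset.card_le_card hSW
        linarith)
    exact hAA S N hSbig hSpos hSn' hN
  refine hle.trans ?_
  refine (Pr_or n ε hε.le hε1' _ _).trans ?_
  refine add_le_add ((Pr_or n ε hε.le hε1' _ _).trans (add_le_add ((Pr_or n ε hε.le hε1' _ _).trans
    (add_le_add ?_ ?_)) (le_refl _))) ?_
  · exact (Pr_of_Pr3 n ε _).le
  · exact (Pr_of_Pr3 n ε _).le
  · exact (Pr_of_Pr3 n ε _).le

end

end Pool.Agent.ST3
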