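import Pool.Agent.Lib.MP_7abaca_co.Defs

/-!
# The potential (MP_7abaca_co, module PHI)
-/

set_option autoImplicit false

namespace Pool.Agent.ST3

open Finset Filter
open scoped Classical

noncomputable section

theorem phi_kap_mem {n : ℕ} {H : SimpleGraph (Fin n)}
    (h : ∃ M : SimpleGraph (Fin n), M ≤ H ∧ TwoF M) :
    ∃ M : SimpleGraph (Fin n), M ≤ H ∧ TwoF M ∧ comps M = kap H := by
  have hne : {k | ∃ M : SimpleGraph (Fin n), M ≤ H ∧ TwoF M ∧ comps M = k}.Nonempty := by
    obtain ⟨M, h1, h2⟩ := h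
    exact ⟨_, M, h1, h2, rfl⟩
  exact Nat.sInf_mem hne

theorem Phi_anti {n : ℕ} (K0 : ℕ) (H H' : SimpleGraph (Fin n)) (h : H ≤ H') :
    Phi K0 H' ≤ Phi K0 H := by
  unfold Phi
  by_cases h1 : ∃ M : SimpleGraph (Fin n), M ≤ H ∧ TwoF M
  · have h2 : ∃ M : SimpleGraph (Fin n), M ≤ H' ∧ TwoF M := by
      obtain ⟨M, hM, hF⟩ := h1
      exact ⟨M, hM.trans h, hF⟩
    rw [if_pos h1, if_pos h2]
    obtain ⟨M, hM, hF, hc⟩ := phi_kap_mem h1
    have h3 : kap H' ≤ kap H := by
      rw [← hc]
      exact Nat.sInf_le ⟨M, hM.trans h, hF, rfl⟩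
    omega
  · rw [if_neg h1]
    split_ifs with h2
    · have : min K0 (kap H' - 1) ≤ K0 := min_le_left _ _
      omega
    · have h3 : mu H ≤ mu H' := by
        unfold mu
        apply Finset.sup_mono
        intro M hM
        rw [mem_filter] at hM ⊢
        exact ⟨hM.1, hM.2.1.trans h, hM.2.2⟩
      omega

theorem ham_of_Phi {n : ℕ} (hn : 3 ≤ n) (K0 : ℕ) (hK : 1 ≤ K0) (H : SimpleGraph (Fin n))
    (h : Phi K0 H = 0) : H.IsHamiltonian := by
  unfold Phi at h
  split_ifs at h with h1
  swap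
  · omega
  obtain ⟨M, hM, hF, hc⟩ := phi_kap_mem h1
  have hc1 : comps M ≤ 1 := by
    rw [hc]
    omega
  have hcyc : M.IsCycles := fun v _ => hF v
  apply SimpleGraph.IsHamiltonian.mono hM
  intro _
  have v : Fin n := ⟨0, by omega⟩
  have hne : (M.neighborSet v).Nonempty := by
    apply Set.nonempty_of_ncard_ne_zero
    rw [hF v]
    norm_num
  obtain ⟨p, hp, hv⟩ := hcyc.exists_cycle_toSubgraph_verts_eq_connectedComponentSupp
    (c := M.connectedComponentMk v) (v := v) rfl hne
  have hall : ∀ w, w ∈ p.support := by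
    intro w
    rw [← SimpleGraph.Walk.mem_verts_toSubgraph, hv]
    have h2 : Subsingleton M.ConnectedComponent := by
      unfold comps at hc1
      exact Finite.card_le_one_iff_subsingleton.1 hc1
    exact Subsingleton.elim (M.connectedComponentMk w) (M.connectedComponentMk v)
  refine ⟨v, p, hp, ?_⟩
  apply hp.isPath_tail.isHamiltonian_of_mem
  intro w
  have hnil := hp.not_nil
  by_cases hw : w = v
  · subst hw
    exact p.tail.end_mem_support
  · have h3 := hall w
    rw [← SimpleGraph.Walk.cons_support_tail hnil] at h3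
    rw [List.mem_cons] at h3
    exact h3.resolve_left hw

end

end Pool.Agent.ST3
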