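import Pool.Agent.Lib.MP_7abaca_co.Defs

/-!
Basic facts about `Pr3` and `Pr`.
-/

set_option autoImplicit false

namespace Pool.Agent.ST3

open Finset Filter
open scoped Classical

noncomputable section

theorem sum_wt_pi {n : ℕ} (ε : ℝ) (t : Sym2 (Fin n) → Finset Bool) :
    ∑ ω ∈ Fintype.piFinset t, wt ε ω =
      ∏ e : Sym2 (Fin n), ∑ b ∈ t e, (if b = true then ε else 1 - ε) := by
  rw [Finset.prod_univ_sum]
  rfl

theorem sum_wtP {n : ℕ} (ε : ℝ) : ∑ ω : Sym2 (Fin n) → Bool, wt ε ω = 1 := by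
  have h := sum_wt_pi (n := n) ε (fun _ => univ)
  rw [Fintype.piFinset_univ] at h
  rw [h]
  apply Finset.prod_eq_one
  intro e _
  simp

theorem wt_nonnegP {n : ℕ} (ε : ℝ) (h0 : 0 ≤ ε) (h1 : ε ≤ 1) (ω : Sym2 (Fin n) → Bool) :
    0 ≤ wt ε ω := by
  apply Finset.prod_nonneg
  intro e _
  split_ifs
  · exact h0
  · linarith

theorem Pr3_nonneg (n : ℕ) (E : (Fin 3 → Fin n → Fin n) → Prop) : 0 ≤ Pr3 n E := by
  unfold Pr3; positivity

theorem Pr3_mono (n : ℕ) (E E' : (Fin 3 → Fin n → Fin n) → Prop)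
    (h : ∀ π ∈ RT3 n, E π → E' π) : Pr3 n E ≤ Pr3 n E' := by
  unfold Pr3
  apply div_le_div_of_nonneg_right _ (by positivity)
  exact_mod_cast Finset.card_le_card (by
    intro π hπ
    rw [Finset.mem_filter] at hπ ⊢
    exact ⟨hπ.1, h π hπ.1 hπ.2⟩)

theorem Pr3_or (n : ℕ) (E E' : (Fin 3 → Fin n → Fin n) → Prop) :
    Pr3 n (fun π => E π ∨ E' π) ≤ Pr3 n E + Pr3 n E' := by
  unfold Pr3
  rw [← add_div]
  apply div_le_div_of_nonneg_right _ (by positivity)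
  simp only [Finset.card_filter]
  push_cast
  rw [← Finset.sum_add_distrib]
  apply Finset.sum_le_sum; intro π _
  by_cases h1 : E π <;> by_cases h2 : E' π <;> simp [h1, h2]

theorem Pr_nonneg (n : ℕ) (ε : ℝ) (h0 : 0 ≤ ε) (h1 : ε ≤ 1)
    (E : (Fin 3 → Fin n → Fin n) → (Sym2 (Fin n) → Bool) → Prop) : 0 ≤ Pr n ε E := by
  unfold Pr
  apply div_nonneg _ (by positivity)
  apply Finset.sum_nonneg; intro π _
  apply Finset.sum_nonneg; intro ω _
  split_ifs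
  · exact wt_nonnegP ε h0 h1 ω
  · exact le_refl 0

theorem Pr_mono (n : ℕ) (ε : ℝ) (h0 : 0 ≤ ε) (h1 : ε ≤ 1)
    (E E' : (Fin 3 → Fin n → Fin n) → (Sym2 (Fin n) → Bool) → Prop)
    (h : ∀ π ∈ RT3 n, ∀ ω, E π ω → E' π ω) : Pr n ε E ≤ Pr n ε E' := by
  unfold Pr
  apply div_le_div_of_nonneg_right _ (by positivity)
  apply Finset.sum_le_sum; intro π hπ
  apply Finset.sum_le_sum; intro ω _
  by_cases h1' : E π ω
  · rw [if_pos h1', if_pos (h π hπ ω h1')]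
  · rw [if_neg h1']
    split_ifs
    · exact wt_nonnegP ε h0 h1 ω
    · exact le_refl 0

theorem Pr_or (n : ℕ) (ε : ℝ) (h0 : 0 ≤ ε) (h1 : ε ≤ 1)
    (E E' : (Fin 3 → Fin n → Fin n) → (Sym2 (Fin n) → Bool) → Prop) :
    Pr n ε (fun π ω => E π ω ∨ E' π ω) ≤ Pr n ε E + Pr n ε E' := by
  unfold Pr
  rw [← add_div, ← Finset.sum_add_distrib]
  apply div_le_div_of_nonneg_right _ (by positivity)
  apply Finset.sum_le_sum; intro π hπ
  rw [← Finset.sum_add_distrib]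
  apply Finset.sum_le_sum; intro ω _
  have hw := wt_nonnegP ε h0 h1 ω
  by_cases h1' : E π ω <;> by_cases h2' : E' π ω <;> simp [h1', h2', hw]

theorem Pr_of_Pr3 (n : ℕ) (ε : ℝ) (E : (Fin 3 → Fin n → Fin n) → Prop) :
    Pr n ε (fun π _ => E π) = Pr3 n E := by
  unfold Pr Pr3
  congr 1
  rw [Finset.card_filter]
  push_cast
  apply Finset.sum_congr rfl
  intro π _
  by_cases h : E π
  · simp only [h, if_true]
    rw [sum_wtP]
  · simp [h]

end

end Pool.Agent.ST3
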