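import Pool.Agent.Lib.MP_7abaca_co.Defs
import Pool.Agent.Lib.MP_7abaca_co.Sub
import Pool.Agent.Lib.MP_7abaca_co.LSC

/-!
# Few short dense sets, few overlaps
-/

set_option autoImplicit false

namespace Pool.Agent.ST3

open Finset Filter
open scoped Classical

noncomputable section

/-- Markov's inequality for a sum of indicators -/
theorem short_markov {n : ℕ} {ι : Type*} (I : Finset ι) (A : ι → (Fin 3 → Fin n → Fin n) → Prop)
    (X : (Fin 3 → Fin n → Fin n) → ℕ) (hX : ∀ π, X π = (I.filter (fun i => A i π)).card)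
    {t : ℝ} :
    t * Pr3 n (fun π => t < (X π : ℝ)) ≤ ∑ i ∈ I, Pr3 n (A i) := by
  unfold Pr3
  rw [← Finset.sum_div, ← mul_div_assoc]
  refine div_le_div_of_nonneg_right ?_ (by positivity)
  have h1 : t * (((RT3 n).filter (fun π => t < (X π : ℝ))).card : ℝ) ≤
      ∑ π ∈ (RT3 n).filter (fun π => t < (X π : ℝ)), (X π : ℝ) := by
    rw [mul_comm, ← nsmul_eq_mul]
    refine Finset.card_nsmul_le_sum _ _ _ fun π hπ => ?_
    exact (Finset.mem_filter.1 hπ).2.le
  refine h1.trans ?_
  have h2 : ∑ π ∈ (RT3 n).filter (fun π => t < (X π : ℝ)), (X π : ℝ) ≤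
      ∑ π ∈ RT3 n, (X π : ℝ) :=
    Finset.sum_le_sum_of_subset_of_nonneg (Finset.filter_subset _ _)
      fun π _ _ => Nat.cast_nonneg _
  refine h2.trans (le_of_eq ?_)
  have h3 : ∀ π, (X π : ℝ) = ∑ i ∈ I, if A i π then (1 : ℝ) else 0 := by
    intro π
    rw [hX, Finset.card_filter]
    push_cast
    rfl
  simp only [h3]
  rw [Finset.sum_comm]
  refine Finset.sum_congr rfl fun i _ => ?_
  rw [Finset.card_filter]
  push_cast
  rfl

theorem short_tendsto {p : ℕ → ℝ} (hp : ∀ n, 0 ≤ p n) {η C : ℝ} (hη : 0 < η)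
    (h : ∀ n : ℕ, 1 ≤ n → η * n * p n ≤ C) : Tendsto p atTop (nhds 0) := by
  have h1 : Tendsto (fun n : ℕ => C / (η * n)) atTop (nhds 0) := by
    have : Tendsto (fun n : ℕ => η * (n : ℝ)) atTop atTop :=
      Tendsto.const_mul_atTop hη tendsto_natCast_atTop_atTop
    exact tendsto_const_nhds.div_atTop this
  refine tendsto_of_tendsto_of_tendsto_of_le_of_le' tendsto_const_nhds h1
    (Eventually.of_forall hp) ?_
  filter_upwards [eventually_ge_atTop 1] with n hn
  have hn' : (0 : ℝ) < n := by exact_mod_cast hn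
  rw [le_div_iff₀ (by positivity), mul_comm]
  exact h n hn

theorem short_pr3_nonneg (n : ℕ) (E : (Fin 3 → Fin n → Fin n) → Prop) : 0 ≤ Pr3 n E := by
  unfold Pr3
  positivity

theorem sh_small (ℓ : ℕ) (η : ℝ) (hη : 0 < η) :
    Tendsto (fun n : ℕ => Pr3 n (fun π => η * n < (Sh ℓ π : ℝ))) atTop (nhds 0) := by
  refine short_tendsto (fun n => short_pr3_nonneg n _) hη
    (C := ∑ w ∈ Finset.Icc 1 ℓ, ((3 * w.choose 2).choose w : ℝ) * 2 ^ w) fun n hn => ?_
  have hn' : (0 : ℝ) < n := by exact_mod_cast hn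
  have h1 := short_markov (n := n)
    (univ.filter (fun W : Finset (Fin n) => 1 ≤ W.card ∧ W.card ≤ ℓ))
    (fun W π => W.card ≤ estar π W) (fun π => Sh ℓ π) (fun π => by
      unfold Sh
      rw [Finset.filter_filter]
      congr 1
      ext W
      simp only [Finset.mem_filter, Finset.mem_univ, true_and]
      tauto) (t := η * n)
  refine h1.trans ?_
  have h2 : ∑ W ∈ univ.filter (fun W : Finset (Fin n) => 1 ≤ W.card ∧ W.card ≤ ℓ),
      Pr3 n (fun π => W.card ≤ estar π W) ≤
      ∑ W ∈ univ.filter (fun W : Finset (Fin n) => 1 ≤ W.card ∧ W.card ≤ ℓ),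
        ((3 * W.card.choose 2).choose W.card : ℝ) * (2 / (n : ℝ)) ^ W.card :=
    Finset.sum_le_sum fun W _ => ls_W hn W W.card
  refine h2.trans ?_
  have h3 : ∀ W ∈ univ.filter (fun W : Finset (Fin n) => 1 ≤ W.card ∧ W.card ≤ ℓ),
      W.card ∈ Finset.Icc 1 ℓ := by
    intro W hW
    rw [Finset.mem_filter] at hW
    exact Finset.mem_Icc.2 hW.2
  rw [← Finset.sum_fiberwise_of_maps_to h3]
  refine Finset.sum_le_sum fun w hw => ?_
  have h4 : ∀ W ∈ (univ.filter (fun W : Finset (Fin n) => 1 ≤ W.card ∧ W.card ≤ ℓ)).filter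
      (fun W => W.card = w), ((3 * W.card.choose 2).choose W.card : ℝ) * (2 / (n : ℝ)) ^ W.card =
      ((3 * w.choose 2).choose w : ℝ) * (2 / (n : ℝ)) ^ w := by
    intro W hW
    rw [(Finset.mem_filter.1 hW).2]
  rw [Finset.sum_congr rfl h4, Finset.sum_const, nsmul_eq_mul]
  have h5 : (((univ.filter (fun W : Finset (Fin n) => 1 ≤ W.card ∧ W.card ≤ ℓ)).filter
      (fun W => W.card = w)).card : ℝ) ≤ (n : ℝ) ^ w := by
    have h6 : ((univ.filter (fun W : Finset (Fin n) => 1 ≤ W.card ∧ W.card ≤ ℓ)).filter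
        (fun W => W.card = w)).card ≤ (Finset.powersetCard w (univ : Finset (Fin n))).card := by
      refine Finset.card_le_card fun W hW => ?_
      rw [Finset.mem_powersetCard]
      exact ⟨Finset.subset_univ _, (Finset.mem_filter.1 hW).2⟩
    rw [Finset.card_powersetCard, Finset.card_univ, Fintype.card_fin] at h6
    calc (((univ.filter (fun W : Finset (Fin n) => 1 ≤ W.card ∧ W.card ≤ ℓ)).filter
      (fun W => W.card = w)).card : ℝ) ≤ (n.choose w : ℝ) := by exact_mod_cast h6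
      _ ≤ (n : ℝ) ^ w := by exact_mod_cast Nat.choose_le_pow n w
  calc _ ≤ (n : ℝ) ^ w * (((3 * w.choose 2).choose w : ℝ) * (2 / (n : ℝ)) ^ w) :=
        mul_le_mul_of_nonneg_right h5 (by positivity)
    _ = ((3 * w.choose 2).choose w : ℝ) * 2 ^ w := by
        rw [div_pow]
        field_simp

theorem ov_small (η : ℝ) (hη : 0 < η) :
    Tendsto (fun n : ℕ => Pr3 n (fun π => η * n < (ov π : ℝ))) atTop (nhds 0) := by
  refine short_tendsto (fun n => short_pr3_nonneg n _) hη (C := 36) fun n hn => ?_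
  have hn' : (0 : ℝ) < n := by exact_mod_cast hn
  have h1 := short_markov (n := n)
    (univ.filter (fun p : (Fin 3 × Fin 3) × Sym2 (Fin n) => p.1.1 < p.1.2))
    (fun p π => p.2 ∈ (gr (π p.1.1)).edgeSet ∧ p.2 ∈ (gr (π p.1.2)).edgeSet)
    (fun π => ov π) (fun π => by
      unfold ov
      rw [Finset.filter_filter, Finset.card_filter, Fintype.sum_prod_type,
        Fintype.sum_prod_type]
      refine Finset.sum_congr rfl fun i _ => Finset.sum_congr rfl fun j _ => ?_
      by_cases hp : i < j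
      · rw [if_pos hp, Finset.card_filter]
        refine Finset.sum_congr rfl fun e _ => ?_
        simp [hp]
      · rw [if_neg hp]
        simp [hp]) (t := η * n)
  refine h1.trans ?_
  have h2 : ∀ p ∈ univ.filter (fun p : (Fin 3 × Fin 3) × Sym2 (Fin n) => p.1.1 < p.1.2),
      Pr3 n (fun π => p.2 ∈ (gr (π p.1.1)).edgeSet ∧ p.2 ∈ (gr (π p.1.2)).edgeSet) ≤
        (2 / (n : ℝ)) ^ 2 := by
    intro p hp
    have hlt : p.1.1 < p.1.2 := (Finset.mem_filter.1 hp).2
    have h3 := sub_three hn ({(p.1.1, p.2), (p.1.2, p.2)} : Finset (Fin 3 × Sym2 (Fin n)))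
    have hc : ({(p.1.1, p.2), (p.1.2, p.2)} : Finset (Fin 3 × Sym2 (Fin n))).card = 2 := by
      rw [Finset.card_pair]
      intro h
      exact hlt.ne (congrArg Prod.fst h)
    rw [hc] at h3
    simpa using h3
  refine (Finset.sum_le_sum h2).trans ?_
  rw [Finset.sum_const, nsmul_eq_mul]
  have h4 : ((univ.filter (fun p : (Fin 3 × Fin 3) × Sym2 (Fin n) => p.1.1 < p.1.2)).card : ℝ) ≤
      9 * (n : ℝ) ^ 2 := by
    have h5 : (univ.filter (fun p : (Fin 3 × Fin 3) × Sym2 (Fin n) => p.1.1 < p.1.2)).card ≤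
        9 * n ^ 2 := by
      refine (Finset.card_le_univ _).trans ?_
      rw [Fintype.card_prod, Fintype.card_prod, Fintype.card_fin]
      have h6 : Fintype.card (Sym2 (Fin n)) ≤ n ^ 2 := by
        rw [Sym2.card, Fintype.card_fin, Nat.choose_two_right]
        have : (n + 1) * (n + 1 - 1) / 2 ≤ (n + 1) * n / 2 := by simp
        refine this.trans ?_
        have h7 : (n + 1) * n ≤ 2 * n ^ 2 := by nlinarith
        omega
      exact Nat.mul_le_mul (by norm_num) h6
    exact_mod_cast h5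
  calc _ ≤ 9 * (n : ℝ) ^ 2 * (2 / (n : ℝ)) ^ 2 := mul_le_mul_of_nonneg_right h4 (by positivity)
    _ = 36 := by
        rw [div_pow]
        field_simp
        norm_num

end

end Pool.Agent.ST3
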