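import Pool.Agent.Lib.MP_7abaca_co.Defs

/-!
# Sprinkling by double counting (module SPR, core part)
-/

set_option autoImplicit false

namespace Pool.Agent.ST3

open Finset Filter
open scoped Classical

noncomputable section

namespace Spr

/-- number of ordered adjacent pairs -/
def dc {n : ℕ} (G : SimpleGraph (Fin n)) : ℕ :=
  (univ.filter (fun p : Fin n × Fin n => G.Adj p.1 p.2)).card

theorem dc_eq_sum {n : ℕ} (G : SimpleGraph (Fin n)) :
    dc G = ∑ a, (univ.filter (fun b => G.Adj a b)).card := by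
  unfold dc
  rw [Finset.card_filter, Fintype.sum_prod_type]
  refine Finset.sum_congr rfl fun a _ => ?_
  rw [Finset.card_filter]

theorem dc_eq_edges {n : ℕ} (G : SimpleGraph (Fin n)) : dc G = 2 * G.edgeSet.ncard := by
  rw [dc_eq_sum]
  have h := G.sum_degrees_eq_twice_card_edges
  have h2 : G.edgeSet.ncard = G.edgeFinset.card := by
    rw [Set.ncard_eq_toFinset_card']
    rfl
  rw [h2, ← h]
  refine Finset.sum_congr rfl fun a _ => ?_
  rw [← SimpleGraph.card_neighborFinset_eq_degree, SimpleGraph.neighborFinset_eq_filter]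

theorem dc_tree {n : ℕ} (T : SimpleGraph (Fin n)) (hT : T.IsTree) : dc T = 2 * (n - 1) := by
  rw [dc_eq_edges]
  have h := hT.card_edgeFinset
  have h2 : T.edgeSet.ncard = T.edgeFinset.card := by
    rw [Set.ncard_eq_toFinset_card']
    rfl
  rw [h2]
  simp at h
  omega

theorem dc_mono {n : ℕ} {G H : SimpleGraph (Fin n)} (h : G ≤ H) : dc G ≤ dc H := by
  unfold dc
  apply Finset.card_le_card
  intro p hp
  simp only [mem_filter, mem_univ, true_and] at hp ⊢
  exact h hp

theorem dc_diff {n : ℕ} {G H : SimpleGraph (Fin n)} (h : G ≤ H) :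
    (univ.filter (fun p : Fin n × Fin n => H.Adj p.1 p.2 ∧ ¬ G.Adj p.1 p.2)).card + dc G
      = dc H := by
  unfold dc
  rw [← Finset.card_union_of_disjoint]
  · congr 1
    ext p
    simp only [mem_union, mem_filter, mem_univ, true_and]
    constructor
    · rintro (h1 | h1)
      · exact h1.1
      · exact h h1
    · intro h1
      by_cases h2 : G.Adj p.1 p.2
      · exact Or.inr h2
      · exact Or.inl ⟨h1, h2⟩
  · rw [Finset.disjoint_left]
    intro p h1 h2
    simp only [mem_filter, mem_univ, true_and] at h1 h2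
    exact h1.2 h2

theorem adj_sup_edge {n : ℕ} (F : SimpleGraph (Fin n)) (a b u v : Fin n) :
    (F ⊔ SimpleGraph.edge a b).Adj u v ↔
      F.Adj u v ∨ (u ≠ v ∧ ((u = a ∧ v = b) ∨ (u = b ∧ v = a))) := by
  rw [SimpleGraph.sup_adj, SimpleGraph.edge_adj]
  constructor
  · rintro (h | h)
    · exact Or.inl h
    · exact Or.inr ⟨h.2, h.1⟩
  · rintro (h | h)
    · exact Or.inl h
    · exact Or.inr ⟨h.2, h.1⟩

theorem edge_le_iff {n : ℕ} (T : SimpleGraph (Fin n)) (a b : Fin n) (hab : a ≠ b) :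
    SimpleGraph.edge a b ≤ T ↔ T.Adj a b := by
  constructor
  · intro h
    apply h
    rw [SimpleGraph.edge_adj]
    exact ⟨Or.inl ⟨rfl, rfl⟩, hab⟩
  · intro h u v huv
    rw [SimpleGraph.edge_adj] at huv
    rcases huv.1 with h1 | h1
    · rw [h1.1, h1.2]; exact h
    · rw [h1.1, h1.2]; exact h.symm

theorem dc_edge {n : ℕ} (F : SimpleGraph (Fin n)) (a b : Fin n) (hab : a ≠ b)
    (hF : ¬ F.Adj a b) : dc (F ⊔ SimpleGraph.edge a b) = dc F + 2 := by
  have h : ({(a, b), (b, a)} : Finset (Fin n × Fin n)).card + dc F =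
      dc (F ⊔ SimpleGraph.edge a b) := by
    rw [← dc_diff (le_sup_left : F ≤ F ⊔ SimpleGraph.edge a b)]
    congr 2
    ext ⟨u, v⟩
    simp only [mem_filter, mem_univ, true_and, mem_insert, mem_singleton, Prod.mk.injEq]
    rw [adj_sup_edge]
    constructor
    · rintro (h1 | h1)
      · rw [h1.1, h1.2]
        exact ⟨Or.inr ⟨hab, Or.inl ⟨rfl, rfl⟩⟩, hF⟩
      · rw [h1.1, h1.2]
        exact ⟨Or.inr ⟨hab.symm, Or.inr ⟨rfl, rfl⟩⟩, fun h => hF h.symm⟩
    · rintro ⟨h1 | h1, h3⟩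
      · exact absurd h1 h3
      · exact h1.2
  rw [Finset.card_pair (by simpa using fun h => absurd h hab)] at h
  omega

theorem mem_NT {n : ℕ} (F : SimpleGraph (Fin n)) (Λ : Finset (Fin n)) (T : SimpleGraph (Fin n)) :
    T ∈ NT F Λ ↔ T.IsTree ∧ F ≤ T ∧ ∀ a b, T.Adj a b → ¬ F.Adj a b → a ∉ Λ ∧ b ∉ Λ := by
  unfold NT
  simp

/-- trees containing one more edge -/
theorem NT_edge {n : ℕ} (F : SimpleGraph (Fin n)) (Λ : Finset (Fin n)) (a b : Fin n)
    (hab : a ≠ b) (ha : a ∉ Λ) (hb : b ∉ Λ) :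
    NT (F ⊔ SimpleGraph.edge a b) Λ = (NT F Λ).filter (fun T => T.Adj a b) := by
  ext T
  rw [mem_filter, mem_NT, mem_NT]
  constructor
  · rintro ⟨h1, h2, h3⟩
    have h4 := sup_le_iff.mp h2
    refine ⟨⟨h1, h4.1, ?_⟩, (edge_le_iff T a b hab).mp h4.2⟩
    intro u v huv hF
    by_cases h5 : (F ⊔ SimpleGraph.edge a b).Adj u v
    · rw [adj_sup_edge] at h5
      rcases h5 with h5 | h5
      · exact absurd h5 hF
      · rcases h5.2 with h6 | h6
        · rw [h6.1, h6.2]; exact ⟨ha, hb⟩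
        · rw [h6.1, h6.2]; exact ⟨hb, ha⟩
    · exact h3 u v huv h5
  · rintro ⟨⟨h1, h2, h3⟩, h4⟩
    refine ⟨h1, sup_le h2 ((edge_le_iff T a b hab).mpr h4), ?_⟩
    intro u v huv hF
    exact h3 u v huv (fun h => hF (Or.inl h))

/-- the admissible new pairs -/
def PP {n : ℕ} (F : SimpleGraph (Fin n)) (Λ : Finset (Fin n)) : Finset (Fin n × Fin n) :=
  univ.filter (fun p => ¬ F.Adj p.1 p.2 ∧ p.1 ≠ p.2 ∧ p.1 ∉ Λ ∧ p.2 ∉ Λ)

/-- double counting -/
theorem double {n : ℕ} (F : SimpleGraph (Fin n)) (Λ : Finset (Fin n))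
    (B : SimpleGraph (Fin n) → Prop) :
    ∑ p ∈ PP F Λ, ((NT (F ⊔ SimpleGraph.edge p.1 p.2) Λ).filter B).card =
      (2 * (n - 1) - dc F) * ((NT F Λ).filter B).card := by
  have h1 : ∀ p ∈ PP F Λ, ((NT (F ⊔ SimpleGraph.edge p.1 p.2) Λ).filter B).card =
      ∑ T ∈ (NT F Λ).filter B, if T.Adj p.1 p.2 then 1 else 0 := by
    intro p hp
    simp only [PP, mem_filter, mem_univ, true_and] at hp
    rw [NT_edge F Λ p.1 p.2 hp.2.1 hp.2.2.1 hp.2.2.2, ← Finset.card_filter,
      Finset.filter_filter, Finset.filter_filter]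
    congr 1
    ext T
    simp only [mem_filter]
    tauto
  rw [Finset.sum_congr rfl h1, Finset.sum_comm]
  have h2 : ∀ T ∈ (NT F Λ).filter B, (∑ p ∈ PP F Λ, if T.Adj p.1 p.2 then 1 else 0) =
      2 * (n - 1) - dc F := by
    intro T hT
    rw [mem_filter, mem_NT] at hT
    obtain ⟨⟨hT1, hT2, hT3⟩, _⟩ := hT
    rw [← Finset.card_filter]
    have h3 := dc_diff hT2
    rw [dc_tree T hT1] at h3
    have h4 : (PP F Λ).filter (fun p => T.Adj p.1 p.2) =
        univ.filter (fun p : Fin n × Fin n => T.Adj p.1 p.2 ∧ ¬ F.Adj p.1 p.2) := by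
      ext p
      simp only [PP, mem_filter, mem_univ, true_and]
      constructor
      · rintro ⟨h5, h6⟩
        exact ⟨h6, h5.1⟩
      · rintro ⟨h5, h6⟩
        have h7 := hT3 _ _ h5 h6
        exact ⟨⟨h6, h5.ne, h7.1, h7.2⟩, h5⟩
    rw [h4]
    omega
  rw [Finset.sum_congr rfl h2, Finset.sum_const, smul_eq_mul, mul_comm]

/-- vertices touched by new edges -/
def touched {n : ℕ} (F0 F : SimpleGraph (Fin n)) : Finset (Fin n) :=
  univ.filter (fun x => ∃ y, F.Adj x y ∧ ¬ F0.Adj x y)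

theorem touched_card {n : ℕ} (F0 F : SimpleGraph (Fin n)) (h : F0 ≤ F) :
    (touched F0 F).card + dc F0 ≤ dc F := by
  rw [← dc_diff h]
  apply Nat.add_le_add_right
  have h1 : touched F0 F ⊆ (univ.filter (fun p : Fin n × Fin n =>
      F.Adj p.1 p.2 ∧ ¬ F0.Adj p.1 p.2)).image Prod.fst := by
    intro x hx
    simp only [touched, mem_filter, mem_univ, true_and] at hx
    obtain ⟨y, hy⟩ := hx
    rw [mem_image]
    exact ⟨(x, y), by simpa using hy, rfl⟩
  exact (Finset.card_le_card h1).trans Finset.card_image_le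

theorem reach_of_untouched {n : ℕ} (F0 F : SimpleGraph (Fin n)) (v w : Fin n)
    (hv : ∀ x, F0.Reachable v x → x ∉ touched F0 F) (h : F.Reachable v w) :
    F0.Reachable v w := by
  rw [SimpleGraph.reachable_iff_reflTransGen] at h
  induction h with
  | refl => exact SimpleGraph.Reachable.refl v
  | tail _ hbc ih =>
    rename_i b c _
    have h1 := hv b ih
    simp only [touched, mem_filter, mem_univ, true_and, not_exists, not_and, not_not] at h1
    exact ih.trans (SimpleGraph.Adj.reachable (h1 c hbc))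

theorem mem_supp' {n : ℕ} (F : SimpleGraph (Fin n)) (v w : Fin n) :
    w ∈ (F.connectedComponentMk v).supp ↔ F.Reachable v w := by
  rw [SimpleGraph.ConnectedComponent.mem_supp_iff, SimpleGraph.ConnectedComponent.eq]
  exact ⟨fun h => h.symm, fun h => h.symm⟩

theorem big_bound {n : ℕ} (F0 F : SimpleGraph (Fin n)) (h : F0 ≤ F) (K j : ℕ)
    (hj : dc F ≤ dc F0 + j) : big F K ≤ big F0 K + j * K := by
  unfold big
  have h1 : univ.filter (fun v => K < (F.connectedComponentMk v).supp.ncard) ⊆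
      univ.filter (fun v => K < (F0.connectedComponentMk v).supp.ncard) ∪
      ((touched F0 F).filter (fun x => (F0.connectedComponentMk x).supp.ncard ≤ K)).biUnion
        (fun x => univ.filter (fun v => v ∈ (F0.connectedComponentMk x).supp)) := by
    intro v hv
    simp only [mem_filter, mem_univ, true_and, mem_union, mem_biUnion] at hv ⊢
    by_cases h2 : K < (F0.connectedComponentMk v).supp.ncard
    · exact Or.inl h2
    · right
      by_contra h3
      push Not at h3
      apply h2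
      refine lt_of_lt_of_le hv ?_
      apply Set.ncard_le_ncard _ (Set.toFinite _)
      intro w hw
      rw [mem_supp'] at hw ⊢
      refine reach_of_untouched F0 F v w ?_ hw
      intro x hx hxt
      have h4 : F0.connectedComponentMk x = F0.connectedComponentMk v :=
        SimpleGraph.ConnectedComponent.eq.mpr hx.symm
      refine h3 x ⟨hxt, ?_⟩ ?_
      · rw [h4]; omega
      · rw [mem_supp']; exact hx.symm
  refine (Finset.card_le_card h1).trans ?_
  refine (Finset.card_union_le _ _).trans ?_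
  apply Nat.add_le_add_left
  refine (Finset.card_biUnion_le).trans ?_
  have h5 : ∀ x ∈ (touched F0 F).filter (fun x => (F0.connectedComponentMk x).supp.ncard ≤ K),
      (univ.filter (fun v => v ∈ (F0.connectedComponentMk x).supp)).card ≤ K := by
    intro x hx
    rw [mem_filter] at hx
    refine le_trans ?_ hx.2
    rw [Set.ncard_eq_toFinset_card']
    apply Finset.card_le_card
    intro v hv
    simp only [mem_filter, mem_univ, true_and] at hv
    rw [Set.mem_toFinset]
    exact hv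
  refine (Finset.sum_le_card_nsmul _ _ K h5).trans ?_
  rw [smul_eq_mul]
  apply Nat.mul_le_mul_right
  refine (Finset.card_filter_le _ _).trans ?_
  have h6 := touched_card F0 F h
  omega

/-- high degree vertices -/
theorem high_deg {n : ℕ} (H : SimpleGraph (Fin n)) (t : ℝ) (ht : 0 < t)
    (hH : (dc H : ℝ) ≤ 6 * n) :
    ((univ.filter (fun z => t < ((univ.filter (fun y => H.Adj z y)).card : ℝ))).card : ℝ) * t ≤
      6 * n := by
  refine le_trans ?_ hH
  rw [dc_eq_sum, ← nsmul_eq_mul]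
  push_cast
  refine le_trans (Finset.card_nsmul_le_sum
    (univ.filter (fun z => t < ((univ.filter (fun y => H.Adj z y)).card : ℝ)))
    (fun z => ((univ.filter (fun y => H.Adj z y)).card : ℝ)) t ?_) ?_
  · intro z hz
    rw [mem_filter] at hz
    exact hz.2.le
  · apply Finset.sum_le_sum_of_subset_of_nonneg (Finset.subset_univ _)
    intro i _ _
    positivity

/-- failure of a tree -/
def BadP {n : ℕ} (A : SimpleGraph (Fin n))
    (Φ : SimpleGraph (Fin n) → ℕ) (bad : SimpleGraph (Fin n) → Prop)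
    (T : SimpleGraph (Fin n)) : Prop := ¬ bad (A ⊔ T) ∧ 0 < Φ (A ⊔ T)

/-- number of bad trees -/
def bb {n : ℕ} (Λ : Finset (Fin n)) (A : SimpleGraph (Fin n))
    (Φ : SimpleGraph (Fin n) → ℕ) (bad : SimpleGraph (Fin n) → Prop)
    (F : SimpleGraph (Fin n)) : ℕ :=
  ((NT F Λ).filter (BadP A Φ bad)).card

/-- a large set of improving pairs -/
theorem improving {n : ℕ} (δ : ℝ) (hδ : 0 < δ) (K : ℕ) (hK : 1 ≤ K)
    (Λ : Finset (Fin n)) (F H : SimpleGraph (Fin n)) (hFH : F ≤ H)
    (Φ : SimpleGraph (Fin n) → ℕ)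
    (himp : ∃ S : Finset (Fin n), δ * n < (S.card : ℝ) ∧ ∀ z ∈ S, ∃ Y : Finset (Fin n),
        δ * n < (Y.card : ℝ) ∧ ∀ y ∈ Y, y ≠ z → ¬ H.Adj z y → Φ (H ⊔ SimpleGraph.edge z y) < Φ H)
    (hdc : (dc H : ℝ) ≤ 6 * n)
    (hΛ : (Λ.card : ℝ) ≤ δ * n / 8) (hbig : (big F K : ℝ) ≤ δ * n / 8)
    (hn1 : (48 / δ : ℝ) ≤ δ * n / 8) (hn2 : (K + 1 : ℝ) ≤ δ * n / 8) :
    ∃ Z : Finset (Fin n × Fin n), δ ^ 2 * n ^ 2 / 4 ≤ (Z.card : ℝ) ∧ Z ⊆ PP F Λ ∧
      ∀ p ∈ Z, ¬ F.Reachable p.1 p.2 ∧ (F.connectedComponentMk p.1).supp.ncard ≤ K ∧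
        Φ (H ⊔ SimpleGraph.edge p.1 p.2) < Φ H := by
  obtain ⟨S, hS, hY⟩ := himp
  choose! Y hY1 hY2 using hY
  have hn : (0 : ℝ) < n := by
    have : (0 : ℝ) < K := by exact_mod_cast hK
    by_contra h
    push Not at h
    have : δ * n ≤ 0 := mul_nonpos_of_nonneg_of_nonpos hδ.le h
    linarith
  set t : ℝ := δ * n / 8 with ht
  have htpos : 0 < t := by positivity
  set Hd : Finset (Fin n) :=
    univ.filter (fun z => t < ((univ.filter (fun y => H.Adj z y)).card : ℝ)) with hHd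
  have hHdc : (Hd.card : ℝ) ≤ t := by
    have h1 := high_deg H t htpos hdc
    rw [← hHd] at h1
    have h2 : (Hd.card : ℝ) ≤ 48 / δ := by
      rw [le_div_iff₀ hδ]
      have h3 : (Hd.card : ℝ) * δ * n ≤ 48 * n := by
        have : (Hd.card : ℝ) * t = (Hd.card : ℝ) * δ * n / 8 := by rw [ht]; ring
        rw [this] at h1
        linarith
      exact le_of_mul_le_mul_right h3 hn
    exact h2.trans hn1
  set Bg : Finset (Fin n) :=
    univ.filter (fun v => K < (F.connectedComponentMk v).supp.ncard) with hBg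
  have hBgc : (Bg.card : ℝ) ≤ t := hbig
  set S' := S \ (Λ ∪ Bg ∪ Hd) with hS'
  have hS'c : 5 * t ≤ (S'.card : ℝ) := by
    have h1 : (S.card : ℝ) ≤ S'.card + ((Λ ∪ Bg ∪ Hd).card : ℝ) := by
      have := Finset.card_le_card_sdiff_add_card (s := S) (t := Λ ∪ Bg ∪ Hd)
      exact_mod_cast this
    have h2 : ((Λ ∪ Bg ∪ Hd).card : ℝ) ≤ Λ.card + Bg.card + Hd.card := by
      have h3 := Finset.card_union_le (Λ ∪ Bg) Hd
      have h4 := Finset.card_union_le Λ Bg
      have h5 : (Λ ∪ Bg ∪ Hd).card ≤ Λ.card + Bg.card + Hd.card := by omega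
      exact_mod_cast h5
    have h6 : δ * n = 8 * t := by rw [ht]; ring
    rw [h6] at hS
    linarith
  set Nb : Fin n → Finset (Fin n) := fun z =>
    Λ ∪ univ.filter (fun y => H.Adj z y) ∪
      univ.filter (fun y => y ∈ (F.connectedComponentMk z).supp) with hNb
  set Y' : Fin n → Finset (Fin n) := fun z => Y z \ Nb z with hY'
  have hY'c : ∀ z ∈ S', 5 * t ≤ ((Y' z).card : ℝ) := by
    intro z hz
    have hz' : z ∈ S ∧ z ∉ Λ ∧ z ∉ Bg ∧ z ∉ Hd := by
      simp only [hS', Finset.mem_sdiff, mem_union, not_or] at hz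
      tauto
    have h1 : ((Y z).card : ℝ) ≤ (Y' z).card + ((Nb z).card : ℝ) := by
      have := Finset.card_le_card_sdiff_add_card (s := Y z) (t := Nb z)
      exact_mod_cast this
    have h7 : ((univ.filter (fun y => H.Adj z y)).card : ℝ) ≤ t := by
      have h8 := hz'.2.2.2
      simp only [hHd, mem_filter, mem_univ, true_and, not_lt] at h8
      exact h8
    have h9 : ((univ.filter (fun y => y ∈ (F.connectedComponentMk z).supp)).card : ℝ) ≤ t := by
      have h10 := hz'.2.2.1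
      simp only [hBg, mem_filter, mem_univ, true_and, not_lt] at h10
      rw [Set.ncard_eq_toFinset_card'] at h10
      have h11 : (univ.filter (fun y => y ∈ (F.connectedComponentMk z).supp)).card ≤ K := by
        refine le_trans (Finset.card_le_card ?_) h10
        intro y hy
        simp only [mem_filter, mem_univ, true_and] at hy
        rw [Set.mem_toFinset]
        exact hy
      have h12 : ((univ.filter (fun y => y ∈ (F.connectedComponentMk z).supp)).card : ℝ) ≤ K := by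
        exact_mod_cast h11
      linarith
    have h2 : ((Nb z).card : ℝ) ≤ Λ.card + (univ.filter (fun y => H.Adj z y)).card +
        (univ.filter (fun y => y ∈ (F.connectedComponentMk z).supp)).card := by
      have h3 := Finset.card_union_le (Λ ∪ univ.filter (fun y => H.Adj z y))
        (univ.filter (fun y => y ∈ (F.connectedComponentMk z).supp))
      have h4 := Finset.card_union_le Λ (univ.filter (fun y => H.Adj z y))
      have h5 : (Nb z).card ≤ Λ.card + (univ.filter (fun y => H.Adj z y)).card +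
        (univ.filter (fun y => y ∈ (F.connectedComponentMk z).supp)).card := by
        simp only [hNb]
        omega
      exact_mod_cast h5
    have h6 : δ * n = 8 * t := by rw [ht]; ring
    have h13 := hY1 z hz'.1
    rw [h6] at h13
    linarith
  refine ⟨(S' ×ˢ univ).filter (fun p => p.2 ∈ Y' p.1), ?_, ?_, ?_⟩
  · have h1 : (((S' ×ˢ univ).filter (fun p => p.2 ∈ Y' p.1)).card : ℝ) =
        ∑ z ∈ S', ((Y' z).card : ℝ) := by
      rw [Finset.card_filter, Finset.sum_product]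
      push_cast
      refine Finset.sum_congr rfl fun z _ => ?_
      simp
    rw [h1]
    have h2 : (S'.card : ℝ) * (5 * t) ≤ ∑ z ∈ S', ((Y' z).card : ℝ) := by
      rw [← nsmul_eq_mul]
      exact Finset.card_nsmul_le_sum _ _ _ hY'c
    have h3 : (5 * t) * (5 * t) ≤ (S'.card : ℝ) * (5 * t) :=
      mul_le_mul_of_nonneg_right hS'c (by positivity)
    have h4 : δ ^ 2 * n ^ 2 / 4 ≤ (5 * t) * (5 * t) := by
      rw [ht]
      nlinarith [sq_nonneg (δ * n)]
    linarith
  · intro p hp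
    rw [mem_filter, mem_product] at hp
    obtain ⟨⟨hp1, _⟩, hp2⟩ := hp
    simp only [hS', Finset.mem_sdiff, mem_union, not_or] at hp1
    simp only [hY', hNb, Finset.mem_sdiff, mem_union, not_or, mem_filter, mem_univ, true_and] at hp2
    rw [PP, mem_filter]
    refine ⟨mem_univ _, fun h => hp2.2.1.2 (hFH h), ?_, hp1.2.1.1, hp2.2.1.1⟩
    intro h
    apply hp2.2.2
    rw [mem_supp', h]
  · intro p hp
    rw [mem_filter, mem_product] at hp
    obtain ⟨⟨hp1, _⟩, hp2⟩ := hp
    simp only [hS', Finset.mem_sdiff, mem_union, not_or] at hp1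
    simp only [hY', hNb, Finset.mem_sdiff, mem_union, not_or, mem_filter, mem_univ, true_and] at hp2
    refine ⟨?_, ?_, ?_⟩
    · intro h
      apply hp2.2.2
      rw [mem_supp']
      exact h
    · have h10 := hp1.2.1.2
      simp only [hBg, mem_filter, mem_univ, true_and, not_lt] at h10
      exact h10
    · refine hY2 p.1 hp1.1 p.2 hp2.1 ?_ hp2.2.1.2
      intro h
      apply hp2.2.2
      rw [mem_supp', h]

theorem spr_aux {n : ℕ} (δ : ℝ) (hδ : 0 < δ) (hδ1 : δ ≤ 1) (K m : ℕ) (hK : 1 ≤ K)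
    (Λ : Finset (Fin n)) (A F0 : SimpleGraph (Fin n))
    (hsw : ∀ (F : SimpleGraph (Fin n)) (z p : Fin n), z ∉ Λ → p ∉ Λ → ¬ F.Reachable z p →
      (NT F Λ).card ≤ (F.connectedComponentMk z).supp.ncard * n *
        (NT (F ⊔ SimpleGraph.edge z p) Λ).card)
    (Φ : SimpleGraph (Fin n) → ℕ) (bad : SimpleGraph (Fin n) → Prop)
    (hΦ : ∀ H H', H ≤ H' → Φ H' ≤ Φ H) (hbad : ∀ H H', H ≤ H' → bad H → bad H')
    (himp : ∀ H, A ≤ H → ¬ bad H → 0 < Φ H →
      ∃ S : Finset (Fin n), δ * n < (S.card : ℝ) ∧ ∀ z ∈ S, ∃ Y : Finset (Fin n),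
        δ * n < (Y.card : ℝ) ∧ ∀ y ∈ Y, y ≠ z → ¬ H.Adj z y → Φ (H ⊔ SimpleGraph.edge z y) < Φ H)
    (hedge : ∀ T ∈ NT F0 Λ, (A ⊔ T).edgeSet.ncard ≤ 3 * n)
    (hΛ : (Λ.card : ℝ) ≤ δ * n / 8) (hbig : (big F0 K : ℝ) ≤ δ * n / 16)
    (hm : (2 * m * K : ℝ) ≤ δ * n / 16) (hn1 : (48 / δ : ℝ) ≤ δ * n / 8)
    (hn2 : (K + 1 : ℝ) ≤ δ * n / 8) (k : ℕ) :
    ∀ F : SimpleGraph (Fin n), F0 ≤ F → (∀ a b, F.Adj a b → ¬ F0.Adj a b → a ∉ Λ ∧ b ∉ Λ) →
      dc F + 2 * k ≤ dc F0 + 2 * m →
      (bb Λ A Φ bad F : ℝ) ≤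
        2 ^ (Φ (A ⊔ F)) * (1 - δ ^ 2 / (16 * K)) ^ k * (NT F Λ).card := by
  have hK' : (1 : ℝ) ≤ K := by exact_mod_cast hK
  have hn : (0 : ℝ) < n := by
    by_contra h
    push Not at h
    have : δ * n ≤ 0 := mul_nonpos_of_nonneg_of_nonpos hδ.le h
    linarith
  have hq : 0 ≤ 1 - δ ^ 2 / (16 * K) := by
    rw [sub_nonneg, div_le_one (by positivity)]
    nlinarith
  induction k with
  | zero =>
    intro F _ _ _
    have h1 : (bb Λ A Φ bad F : ℝ) ≤ (NT F Λ).card := by
      unfold bb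
      exact_mod_cast Finset.card_filter_le _ _
    have h2 : (1 : ℝ) ≤ 2 ^ (Φ (A ⊔ F)) := one_le_pow₀ (by norm_num)
    have h3 : (0 : ℝ) ≤ (NT F Λ).card := by positivity
    rw [pow_zero, mul_one]
    nlinarith
  | succ k ih =>
    intro F hF0 hav hdc
    have hrhs : 0 ≤ 2 ^ (Φ (A ⊔ F)) * (1 - δ ^ 2 / (16 * K)) ^ (k + 1) * ((NT F Λ).card : ℝ) := by
      positivity
    rcases Finset.eq_empty_or_nonempty (NT F Λ) with hN | ⟨T0, hT0⟩
    · have : bb Λ A Φ bad F = 0 := by
        unfold bb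
        rw [hN]
        simp
      rw [this]
      exact_mod_cast hrhs
    by_cases hgood : ¬ bad (A ⊔ F) ∧ 0 < Φ (A ⊔ F)
    swap
    · have : bb Λ A Φ bad F = 0 := by
        unfold bb
        rw [Finset.card_eq_zero, Finset.filter_eq_empty_iff]
        intro T hT
        rw [mem_NT] at hT
        have h1 : A ⊔ F ≤ A ⊔ T := sup_le_sup_left hT.2.1 A
        intro h2
        apply hgood
        refine ⟨fun h3 => h2.1 (hbad _ _ h1 h3), ?_⟩
        exact lt_of_lt_of_le h2.2 (hΦ _ _ h1)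
      rw [this]
      exact_mod_cast hrhs
    have hT0' := (mem_NT F Λ T0).mp hT0
    -- degree bound
    have hdcH : (dc (A ⊔ F) : ℝ) ≤ 6 * n := by
      have h1 : T0 ∈ NT F0 Λ := by
        rw [mem_NT]
        refine ⟨hT0'.1, hF0.trans hT0'.2.1, ?_⟩
        intro a b hab hF
        by_cases h2 : F.Adj a b
        · exact hav a b h2 hF
        · exact hT0'.2.2 a b hab h2
      have h2 := hedge T0 h1
      have h3 : dc (A ⊔ F) ≤ dc (A ⊔ T0) := dc_mono (sup_le_sup_left hT0'.2.1 A)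
      rw [dc_eq_edges (A ⊔ T0)] at h3
      have h4 : dc (A ⊔ F) ≤ 6 * n := by omega
      exact_mod_cast h4
    have hbigF : (big F K : ℝ) ≤ δ * n / 8 := by
      have h1 := big_bound F0 F hF0 K (2 * m) (by omega)
      have h2 : (big F K : ℝ) ≤ big F0 K + 2 * m * K := by exact_mod_cast h1
      linarith
    obtain ⟨Z, hZc, hZP, hZ⟩ := improving δ hδ K hK Λ F (A ⊔ F) le_sup_right Φ
      (himp (A ⊔ F) le_sup_left hgood.1 hgood.2) hdcH hΛ hbigF hn1 hn2
    -- notation
    set q : ℝ := 1 - δ ^ 2 / (16 * K) with hqdef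
    set D : ℕ := 2 * (n - 1) - dc F with hD
    set w : ℝ := 2 ^ (Φ (A ⊔ F)) with hw
    have hwpos : 0 < w := by positivity
    have hdN := double F Λ (fun _ => True)
    have hdb := double F Λ (BadP A Φ bad)
    simp only [Finset.filter_true] at hdN
    have hdN' : ∑ p ∈ PP F Λ, ((NT (F ⊔ SimpleGraph.edge p.1 p.2) Λ).card : ℝ) =
        D * (NT F Λ).card := by exact_mod_cast hdN
    have hdb' : ∑ p ∈ PP F Λ, (bb Λ A Φ bad (F ⊔ SimpleGraph.edge p.1 p.2) : ℝ) =
        D * (bb Λ A Φ bad F : ℝ) := by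
      unfold bb
      exact_mod_cast hdb
    -- induction hypothesis for every pair
    have hstep : ∀ p ∈ PP F Λ, (bb Λ A Φ bad (F ⊔ SimpleGraph.edge p.1 p.2) : ℝ) ≤
        2 ^ (Φ (A ⊔ F ⊔ SimpleGraph.edge p.1 p.2)) * q ^ k *
          (NT (F ⊔ SimpleGraph.edge p.1 p.2) Λ).card := by
      intro p hp
      simp only [PP, mem_filter, mem_univ, true_and] at hp
      have h1 := ih (F ⊔ SimpleGraph.edge p.1 p.2) (hF0.trans le_sup_left) ?_ ?_
      · rw [← sup_assoc] at h1
        exact h1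
      · intro a b hab hnot
        rw [adj_sup_edge] at hab
        rcases hab with h2 | h2
        · exact hav a b h2 hnot
        · rcases h2.2 with h3 | h3
          · rw [h3.1, h3.2]; exact hp.2.2
          · rw [h3.1, h3.2]; exact ⟨hp.2.2.2, hp.2.2.1⟩
      · rw [dc_edge F p.1 p.2 hp.2.1 hp.1]
        omega
    have hstep2 : ∀ p ∈ PP F Λ, (bb Λ A Φ bad (F ⊔ SimpleGraph.edge p.1 p.2) : ℝ) ≤
        w * q ^ k * ((NT (F ⊔ SimpleGraph.edge p.1 p.2) Λ).card -
          (if p ∈ Z then ((NT (F ⊔ SimpleGraph.edge p.1 p.2) Λ).card : ℝ) / 2 else 0)) := by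
      intro p hp
      refine (hstep p hp).trans ?_
      have hN0 : (0 : ℝ) ≤ (NT (F ⊔ SimpleGraph.edge p.1 p.2) Λ).card := by positivity
      have hqk : 0 ≤ q ^ k := by positivity
      split_ifs with hpZ
      · have h1 := (hZ p hpZ).2.2
        have h2 : (2 : ℝ) ^ (Φ (A ⊔ F ⊔ SimpleGraph.edge p.1 p.2)) ≤ w / 2 := by
          rw [hw, le_div_iff₀ (by norm_num : (0 : ℝ) < 2), ← pow_succ]
          exact pow_le_pow_right₀ (by norm_num) h1
        calc 2 ^ (Φ (A ⊔ F ⊔ SimpleGraph.edge p.1 p.2)) * q ^ k *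
              ((NT (F ⊔ SimpleGraph.edge p.1 p.2) Λ).card : ℝ)
            ≤ (w / 2) * q ^ k * ((NT (F ⊔ SimpleGraph.edge p.1 p.2) Λ).card : ℝ) := by
              gcongr
          _ = _ := by ring
      · have h2 : (2 : ℝ) ^ (Φ (A ⊔ F ⊔ SimpleGraph.edge p.1 p.2)) ≤ w := by
          rw [hw]
          exact pow_le_pow_right₀ (by norm_num) (hΦ _ _ le_sup_left)
        rw [sub_zero]
        gcongr
    have hsum : (D : ℝ) * (bb Λ A Φ bad F : ℝ) ≤ w * q ^ k * (D * (NT F Λ).card -
        ∑ p ∈ Z, ((NT (F ⊔ SimpleGraph.edge p.1 p.2) Λ).card : ℝ) / 2) := by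
      rw [← hdb', ← hdN']
      refine (Finset.sum_le_sum hstep2).trans ?_
      rw [← Finset.mul_sum, Finset.sum_sub_distrib]
      apply le_of_eq
      congr 2
      rw [← Finset.sum_filter]
      congr 1
      ext p
      rw [mem_filter]
      exact ⟨fun h => h.2, fun h => ⟨hZP h, h⟩⟩
    -- lower bound for the sum over Z
    have hNF : (0 : ℝ) < (NT F Λ).card := by
      exact_mod_cast Finset.card_pos.mpr ⟨T0, hT0⟩
    have hZlow : δ ^ 2 * n / (4 * K) * (NT F Λ).card ≤
        ∑ p ∈ Z, ((NT (F ⊔ SimpleGraph.edge p.1 p.2) Λ).card : ℝ) := by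
      have h1 : ∀ p ∈ Z, ((NT F Λ).card : ℝ) / (K * n) ≤
          ((NT (F ⊔ SimpleGraph.edge p.1 p.2) Λ).card : ℝ) := by
        intro p hp
        have h2 := hZP hp
        simp only [PP, mem_filter, mem_univ, true_and] at h2
        have h3 := hsw F p.1 p.2 h2.2.2.1 h2.2.2.2 (hZ p hp).1
        have h4 : (NT F Λ).card ≤ K * n * (NT (F ⊔ SimpleGraph.edge p.1 p.2) Λ).card := by
          refine h3.trans ?_
          apply Nat.mul_le_mul_right
          apply Nat.mul_le_mul_right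
          exact (hZ p hp).2.1
        rw [div_le_iff₀ (by positivity)]
        have h5 : ((NT F Λ).card : ℝ) ≤ K * n * (NT (F ⊔ SimpleGraph.edge p.1 p.2) Λ).card := by
          exact_mod_cast h4
        linarith
      have h2 := Finset.card_nsmul_le_sum Z _ _ h1
      rw [nsmul_eq_mul] at h2
      refine le_trans ?_ h2
      have h3 : δ ^ 2 * n ^ 2 / 4 * (((NT F Λ).card : ℝ) / (K * n)) ≤
          (Z.card : ℝ) * (((NT F Λ).card : ℝ) / (K * n)) :=
        mul_le_mul_of_nonneg_right hZc (by positivity)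
      refine le_trans (le_of_eq ?_) h3
      field_simp
    have hDpos : (0 : ℝ) < D := by
      have h1 : ∑ p ∈ Z, ((NT (F ⊔ SimpleGraph.edge p.1 p.2) Λ).card : ℝ) ≤
          D * (NT F Λ).card := by
        rw [← hdN']
        apply Finset.sum_le_sum_of_subset_of_nonneg hZP
        intro i _ _
        positivity
      have h2 : 0 < δ ^ 2 * n / (4 * K) * (NT F Λ).card := by positivity
      have h3 : (0 : ℝ) < D * (NT F Λ).card := lt_of_lt_of_le h2 (hZlow.trans h1)
      by_contra h4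
      push Not at h4
      have : (D : ℝ) * (NT F Λ).card ≤ 0 := mul_nonpos_of_nonpos_of_nonneg h4 hNF.le
      linarith
    have hDle : (D : ℝ) ≤ 2 * n := by
      have : D ≤ 2 * n := by omega
      exact_mod_cast this
    have hfin : (D : ℝ) * (bb Λ A Φ bad F : ℝ) ≤ D * (w * q ^ (k + 1) * (NT F Λ).card) := by
      refine hsum.trans ?_
      rw [← Finset.sum_div]
      have h1 : (D : ℝ) * (NT F Λ).card -
          (∑ p ∈ Z, ((NT (F ⊔ SimpleGraph.edge p.1 p.2) Λ).card : ℝ)) / 2 ≤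
          D * q * (NT F Λ).card := by
        have h2 : (D : ℝ) * (δ ^ 2 / (16 * K)) * (NT F Λ).card ≤
            δ ^ 2 * n / (4 * K) * (NT F Λ).card / 2 := by
          have h3 : (D : ℝ) * (δ ^ 2 / (16 * K)) ≤ 2 * n * (δ ^ 2 / (16 * K)) :=
            mul_le_mul_of_nonneg_right hDle (by positivity)
          have h4 : (D : ℝ) * (δ ^ 2 / (16 * K)) * (NT F Λ).card ≤
              2 * n * (δ ^ 2 / (16 * K)) * (NT F Λ).card :=
            mul_le_mul_of_nonneg_right h3 hNF.le
          refine h4.trans (le_of_eq ?_)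
          field_simp
          ring
        rw [hqdef]
        nlinarith
      have h5 : 0 ≤ w * q ^ k := by positivity
      calc w * q ^ k * ((D : ℝ) * (NT F Λ).card -
          (∑ p ∈ Z, ((NT (F ⊔ SimpleGraph.edge p.1 p.2) Λ).card : ℝ)) / 2)
          ≤ w * q ^ k * (D * q * (NT F Λ).card) := mul_le_mul_of_nonneg_left h1 h5
        _ = D * (w * q ^ (k + 1) * (NT F Λ).card) := by rw [pow_succ]; ring
    exact le_of_mul_le_mul_left hfin hDpos

end Spr

end

end Pool.Agent.ST3
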